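import Mathlib
import Pool.Agent.Helper74.AE.LamPQ

/-! The uniform coloured theorem for the systems `N + b q` with arbitrary (large) constants `b q`. -/

set_option autoImplicit false

namespace Pool.Agent.Helper74.FB

open Finset Filter Topology
open Pool.Agent.W25.UN
open Pool.Agent.W25.UB (CopAt)
open Pool.Agent.H410R2 (WW)
open Pool.Agent.TH899.UG
open Pool.Agent.TH899.UG.Uni
open Pool.Agent.Y827.LS
open Pool.Agent.Y827.GS
open Pool.Agent.Y827.RO
open Pool.Agent.Z296.AP (P2)
open Pool.Agent.Helper74.AE (thmPW WW_pos)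

/-- the numbers `N + b q` have no prime factor `≤ X ^ δ`, every group contains a number with at most two
prime factors, and `M + 1` groups contain a prime -/
def Gd {T K : ℕ} [NeZero K] (M : ℕ) (δ : ℝ) (X : ℕ) (b : Option (Fin (T * K)) → ℤ) (N : ℕ) : Prop :=
  (∀ q, ∀ p : ℕ, p.Prime → Real.log p ≤ δ * Real.log X → ¬ (p : ℤ) ∣ (N : ℤ) + b q) ∧
  ∃ (S : Finset (Fin T)) (σ τ : Fin T → Fin K), M + 1 ≤ S.card ∧
    (∀ g, P2 ((N : ℤ) + b (some (ix g (τ g))))) ∧
    ∀ g ∈ S, ((N : ℤ) + b (some (ix g (σ g)))).toNat.Prime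

open Classical in
theorem low (T M : ℕ) (hTM : (18 / 5 : ℝ) * M < T) : ∃ K : ℕ, ∃ _ : NeZero K, 2 ≤ K ∧ ∃ δ : ℝ,
    0 < δ ∧ ∃ D₀ : ℕ, ∃ c : ℝ, 0 < c ∧ ∀ D : ℕ, D₀ ≤ D → ∀ᶠ X : ℕ in atTop,
    ∀ b : Option (Fin (T * K)) → ℤ, Function.Injective b → (∀ q, 64 * |b q| ≤ (X : ℤ)) → ∀ v : ℤ,
    (∀ p ∈ (Icc 1 D).filter Nat.Prime, ∀ q, ¬ (p : ℤ) ∣ v + b q) →
    c / WW D * (X / (Real.log X) ^ (T * K + 1)) ≤
      (((Icc 1 X).filter (fun N : ℕ => X ≤ 32 * N ∧ 2 * N ≤ 2 * X ∧ (N : ℤ) ≡ v [ZMOD (WW D : ℕ)] ∧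
        Gd M δ X b N)).card : ℝ) := by
  obtain ⟨K, hK, δ, hδ, D₀, c, hc, H⟩ := thmPW T T M le_rfl hTM
  have hKz : NeZero K := ⟨by omega⟩
  refine ⟨K, hKz, hK, δ, hδ, D₀ + 1, c, hc, fun D hD => ?_⟩
  have hW : 0 < WW D := WW_pos D
  have hWZ : (0 : ℤ) < (WW D : ℕ) := by exact_mod_cast hW
  filter_upwards [H D (by omega) (fun _ => 1) cl Pool.Agent.TH899.UG.Uni.card_cl (fun _ => trivial)
    (fun _ => one_ne_zero) (fun _ => by simp; omega), eventually_ge_atTop 3] with X hX hX3
  intro b hb hbX v hcop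
  set h : Fin (T * K) → ℤ := fun i => b (some i) - b none with hh
  have hX0 : (0 : ℤ) ≤ X := Nat.cast_nonneg X
  have habs : ∀ i, 32 * |h i| ≤ (X : ℤ) := by
    intro i
    have h1 := hbX (some i)
    have h2 := hbX none
    have h3 : |h i| ≤ |b (some i)| + |b none| := abs_sub _ _
    linarith
  have hHB : HB h 0 X := by
    intro i
    have h1 := habs i
    have h2 : (0 : ℤ) ≤ |h i| := abs_nonneg _
    rw [Nat.cast_zero, zero_add]
    linarith
  have hNd : Nd (fun _ => (1 : ℤ)) h 0 := by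
    intro j l hjl
    rcases j with _ | j <;> rcases l with _ | l
    · exact absurd rfl hjl
    · simp only [uB, wB]
      intro h0
      have h5 : b (some l) = b none := by
        simp only [hh] at h0
        push_cast at h0
        linarith
      exact absurd (hb h5) (by simp)
    · simp only [uB, wB]
      intro h0
      have h5 : b (some j) = b none := by
        simp only [hh] at h0
        push_cast at h0
        linarith
      exact absurd (hb h5) (by simp)
    · simp only [uB, wB]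
      intro h0
      have h5 : b (some j) = b (some l) := by
        simp only [hh] at h0
        push_cast at h0
        linarith
      exact hjl (hb h5)
  have hPR : PosR (fun _ => (1 : ℤ)) h 0 X := by
    intro i x hx1 hx2
    have h5 : (32 : ℝ) * |(h i : ℝ)| ≤ X := by
      have : ((32 * |h i| : ℤ) : ℝ) ≤ ((X : ℤ) : ℝ) := by exact_mod_cast habs i
      push_cast at this
      exact this
    have h6 := neg_abs_le (h i : ℝ)
    push_cast
    linarith
  set v' : ℕ := ((v + b none) % (WW D : ℕ)).toNat with hv'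
  have hv'e : ((v' : ℕ) : ℤ) = (v + b none) % (WW D : ℕ) := by
    rw [hv', Int.toNat_of_nonneg (Int.emod_nonneg _ hWZ.ne')]
  have hv'm : ((v' : ℕ) : ℤ) ≡ v + b none [ZMOD (WW D : ℕ)] := by
    rw [hv'e]
    exact Int.mod_modEq _ _
  have hcopp : ∀ p ∈ (Icc 1 D).filter Nat.Prime, (p : ℤ) ∣ ((WW D : ℕ) : ℤ) := by
    intro p hp
    rw [WW]
    exact_mod_cast dvd_prod_of_mem _ hp
  have hCop : CopAt (fun _ => (1 : ℤ)) h D 0 v' := by
    intro j n hn
    have key : ∃ q, ∀ z : ℤ, z ∣ ((WW D : ℕ) : ℤ) → z ∣ uB (fun _ : Fin (T * K) => (1 : ℤ)) j * n + wB h 0 j →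
        z ∣ v + b q := by
      have e1 : n ≡ v + b none [ZMOD (WW D : ℕ)] := hn.trans hv'm
      rcases j with _ | j
      · refine ⟨none, fun z hz1 hz2 => ?_⟩
        simp only [uB, wB, one_mul, add_zero] at hz2
        have e2 : (((WW D : ℕ) : ℤ)) ∣ v + b none - n := e1.dvd
        have e3 := dvd_add (hz1.trans e2) hz2
        rwa [sub_add_cancel] at e3
      · refine ⟨some j, fun z hz1 hz2 => ?_⟩
        simp only [uB, wB, one_mul] at hz2
        have e2 : (((WW D : ℕ) : ℤ)) ∣ v + b none - n := e1.dvd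
        have e3 := dvd_add (hz1.trans e2) hz2
        have e4 : v + b none - n + (n + (((0 : ℕ) : ℤ) + h j)) = v + b (some j) := by
          simp only [hh]
          push_cast
          ring
        rwa [e4] at e3
    obtain ⟨q, hq⟩ := key
    rw [Int.isCoprime_iff_gcd_eq_one]
    by_contra hg
    obtain ⟨p, hp, hpd⟩ := Nat.exists_prime_and_dvd hg
    have h1 : (p : ℤ) ∣ uB (fun _ : Fin (T * K) => (1 : ℤ)) j * n + wB h 0 j :=
      (Int.natCast_dvd_natCast.2 hpd).trans (Int.gcd_dvd_left ..)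
    have h2 : (p : ℤ) ∣ ((WW D : ℕ) : ℤ) := (Int.natCast_dvd_natCast.2 hpd).trans (Int.gcd_dvd_right ..)
    have h3 : p ∣ WW D := by exact_mod_cast h2
    have h4 : p ∈ (Icc 1 D).filter Nat.Prime := by
      rw [WW, (Nat.prime_iff.1 hp).dvd_finsetProd_iff] at h3
      obtain ⟨r, hr, hpr⟩ := h3
      have : p = r := (Nat.prime_dvd_prime_iff_eq hp (mem_filter.1 hr).2).1 hpr
      rwa [this]
    exact hcop p h4 q (hq p h2 h1)
  have hmain := hX h 0 hHB hNd hPR v' hCop univ (by rw [card_univ, Fintype.card_fin])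
  refine hmain.trans ?_
  rw [Nat.cast_le]
  apply card_le_card_of_injOn (fun n : ℕ => ((n : ℤ) - b none).toNat)
  · intro n hn
    rw [Finset.mem_coe] at hn
    obtain ⟨hn1, hnv, hn0, hn2, hn4, hn7, hn5⟩ := mem_filter.1 hn
    have hbn := hbX none
    have hbn1 := le_abs_self (b none)
    have hbn2 := neg_abs_le (b none)
    have hn0' : (X : ℤ) ≤ 16 * n := by
      have : (X : ℝ) ≤ 16 * n := by linarith
      exact_mod_cast this
    have hn2' : 2 * (n : ℤ) ≤ X := by
      have : 2 * (n : ℝ) ≤ X := by linarith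
      exact_mod_cast this
    have hpos : 0 ≤ (n : ℤ) - b none := by linarith
    obtain ⟨N, hN⟩ : ∃ N : ℕ, (N : ℤ) = (n : ℤ) - b none := ⟨_, Int.toNat_of_nonneg hpos⟩
    have hNt : ((n : ℤ) - b none).toNat = N := by rw [← hN, Int.toNat_natCast]
    simp only
    rw [hNt, Finset.mem_coe, mem_filter, mem_Icc]
    have hX3' : (3 : ℤ) ≤ X := by exact_mod_cast hX3
    have hFm : ∀ i, Fm (fun _ => (1 : ℤ)) h 0 i n = (N : ℤ) + b (some i) := by
      intro i
      unfold Fm
      simp only [hh]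
      rw [hN]
      push_cast
      ring
    refine ⟨⟨by omega, by omega⟩, by omega, by omega, ?_, ?_, ?_⟩
    · have h1 : (n : ℤ) ≡ v + b none [ZMOD (WW D : ℕ)] :=
        ((Int.natCast_modEq_iff).2 hnv).trans hv'm
      rw [hN]
      have h2 := h1.sub_right (b none)
      rwa [add_sub_cancel_right] at h2
    · intro q p hp hpl hd
      rcases q with _ | i
      · apply hn4 p hp hpl none
        unfold LZ
        simp only [uB, wB]
        have e3 : (N : ℤ) + b none = 1 * (n : ℤ) + 0 := by rw [hN]; ring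
        rw [e3] at hd
        exact Int.natCast_dvd.1 hd
      · apply hn4 p hp hpl (some i)
        unfold LZ
        simp only [uB, wB]
        have e3 : (N : ℤ) + b (some i) = 1 * (n : ℤ) + (((0 : ℕ) : ℤ) + h i) := by
          simp only [hh]
          rw [hN]
          push_cast
          ring
        rw [e3] at hd
        exact Int.natCast_dvd.1 hd
    · set S : Finset (Fin T) := (univ : Finset (Fin T)).filter
        (fun g : Fin T => ∃ i, cl i = g ∧ (Fm (fun _ => (1 : ℤ)) h 0 i n).toNat.Prime) with hS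
      have hex : ∀ g : Fin T, ∃ s : Fin K, g ∈ S →
          (Fm (fun _ => (1 : ℤ)) h 0 (ix g s) n).toNat.Prime := by
        intro g
        by_cases hg : g ∈ S
        · obtain ⟨i, hi1, hi2⟩ := (mem_filter.1 hg).2
          refine ⟨sx i, fun _ => ?_⟩
          rw [← hi1, ix_cl]
          exact hi2
        · exact ⟨0, fun h => absurd h hg⟩
      choose σ hσ using hex
      have hex2 : ∀ g : Fin T, ∃ s : Fin K, P2 (Fm (fun _ => (1 : ℤ)) h 0 (ix g s) n) := by
        intro g
        obtain ⟨i, hi1, hi2⟩ := hn7 g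
        refine ⟨sx i, ?_⟩
        rw [← hi1, ix_cl]
        exact hi2
      choose τ hτ using hex2
      refine ⟨S, σ, τ, hn5, fun g => ?_, fun g hg => ?_⟩
      · rw [← hFm]
        exact hτ g
      · rw [← hFm]
        exact hσ g hg
  · intro n hn n' hn' hnn
    rw [Finset.mem_coe] at hn hn'
    obtain ⟨-, -, hn0, -⟩ := mem_filter.1 hn
    obtain ⟨-, -, hn0', -⟩ := mem_filter.1 hn'
    have hbn := hbX none
    have hbn1 := le_abs_self (b none)
    have e1 : (X : ℤ) ≤ 16 * n := by
      have : (X : ℝ) ≤ 16 * n := by linarith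
      exact_mod_cast this
    have e2 : (X : ℤ) ≤ 16 * n' := by
      have : (X : ℝ) ≤ 16 * n' := by linarith
      exact_mod_cast this
    simp only at hnn
    have h1 : 0 ≤ (n : ℤ) - b none := by linarith
    have h2 : 0 ≤ (n' : ℤ) - b none := by linarith
    have h3 : (n : ℤ) - b none = (n' : ℤ) - b none := by
      rw [← Int.toNat_of_nonneg h1, ← Int.toNat_of_nonneg h2, hnn]
    have h4 : (n : ℤ) = n' := by linarith
    exact_mod_cast h4

end Pool.Agent.Helper74.FB
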