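import Mathlib

/-! Elementary facts on integer polynomials. -/

set_option autoImplicit false

namespace Pool.Agent.Helper74.FB

open Finset Filter Topology Polynomial

/-- few roots modulo a prime not dividing the leading coefficient -/
theorem roots_mod (P : ℤ[X]) (p : ℕ) (hp : p.Prime) (hl : ¬ (p : ℤ) ∣ P.leadingCoeff) :
    ∃ R : Finset ℕ, R.card ≤ P.natDegree ∧ ∀ n : ℕ, p ∣ (P.eval (n : ℤ)).natAbs →
      ∃ s ∈ R, n ≡ s [MOD p] := by
  classical
  have : Fact p.Prime := ⟨hp⟩
  set P' : (ZMod p)[X] := P.map (Int.castRingHom (ZMod p)) with hP'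
  have hne : P' ≠ 0 := by
    intro h
    apply hl
    have h1 : P'.coeff P.natDegree = 0 := by rw [h, coeff_zero]
    rw [hP', coeff_map] at h1
    rw [← ZMod.intCast_zmod_eq_zero_iff_dvd]
    simpa using h1
  refine ⟨P'.roots.toFinset.image ZMod.val, ?_, ?_⟩
  · refine card_image_le.trans ((Multiset.toFinset_card_le _).trans ((card_roots' _).trans ?_))
    exact natDegree_map_le
  · intro n hn
    refine ⟨((n : ZMod p)).val, ?_, ?_⟩
    · apply mem_image_of_mem
      rw [Multiset.mem_toFinset, mem_roots hne, IsRoot.def, hP']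
      have h1 : ((P.eval (n : ℤ) : ℤ) : ZMod p) = 0 :=
        (ZMod.intCast_zmod_eq_zero_iff_dvd _ p).2 (Int.natCast_dvd.2 hn)
      have h2 := Polynomial.eval_map_apply (f := Int.castRingHom (ZMod p)) (p := P) (x := (n : ℤ))
      simp only [eq_intCast, Int.cast_natCast] at h2
      rw [h2]
      exact h1
    · rw [ZMod.val_natCast]
      exact (Nat.mod_modEq n p).symm

/-- size -/
theorem eval_le (P : ℤ[X]) : ∃ B : ℕ, ∀ x : ℤ, (P.eval x).natAbs ≤ B * (1 + x.natAbs) ^ P.natDegree := by
  refine ⟨∑ i ∈ range (P.natDegree + 1), (P.coeff i).natAbs, fun x => ?_⟩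
  rw [eval_eq_sum_range]
  calc (∑ i ∈ range (P.natDegree + 1), P.coeff i * x ^ i).natAbs
      ≤ ∑ i ∈ range (P.natDegree + 1), (P.coeff i * x ^ i).natAbs := by
        have := Int.natAbs_sum_le (range (P.natDegree + 1)) (fun i => P.coeff i * x ^ i)
        exact this
    _ ≤ ∑ i ∈ range (P.natDegree + 1), (P.coeff i).natAbs * (1 + x.natAbs) ^ P.natDegree := by
        apply sum_le_sum
        intro i hi
        rw [mem_range] at hi
        rw [Int.natAbs_mul, Int.natAbs_pow]
        apply Nat.mul_le_mul_left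
        calc x.natAbs ^ i ≤ (1 + x.natAbs) ^ i := Nat.pow_le_pow_left (by omega) i
          _ ≤ (1 + x.natAbs) ^ P.natDegree := Nat.pow_le_pow_right (by omega) (by omega)
    _ = _ := by rw [sum_mul]

/-- eventually injective, positive leading coefficient -/
theorem inj_pos (P : ℤ[X]) (hd : 1 ≤ P.natDegree) (hl : 0 < P.leadingCoeff) :
    ∃ x₀ : ℝ, ∀ x y : ℤ, x₀ ≤ x → x₀ ≤ y → P.eval x = P.eval y → x = y := by
  set R : ℝ[X] := P.map (Int.castRingHom ℝ) with hR
  have hinj : Function.Injective (Int.castRingHom ℝ) := Int.cast_injective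
  have hRd : R.natDegree = P.natDegree := natDegree_map_eq_of_injective hinj P
  have hRl : 0 < R.leadingCoeff := by
    rw [hR, leadingCoeff_map_of_injective hinj]
    simpa using hl
  have hDl : 0 < (derivative R).leadingCoeff := by
    rw [leadingCoeff, natDegree_derivative, coeff_derivative, hRd]
    have e : P.natDegree - 1 + 1 = P.natDegree := by omega
    rw [e]
    have h1 : R.coeff P.natDegree = R.leadingCoeff := by rw [leadingCoeff, hRd]
    rw [h1]
    positivity
  have hev : ∀ᶠ x : ℝ in atTop, 0 < (derivative R).eval x := by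
    rcases Nat.eq_zero_or_pos (derivative R).natDegree with h0 | h0
    · have h1 := eq_C_of_natDegree_eq_zero h0
      have h2 : (derivative R).leadingCoeff = (derivative R).coeff 0 := by rw [leadingCoeff, h0]
      filter_upwards with x
      rw [h1, eval_C, ← h2]
      exact hDl
    · have h1 : Tendsto (fun x => (derivative R).eval x) atTop atTop :=
        tendsto_atTop_of_leadingCoeff_nonneg _ (natDegree_pos_iff_degree_pos.1 h0) hDl.le
      exact h1.eventually_gt_atTop 0
  obtain ⟨x₀, hx₀⟩ := eventually_atTop.1 hev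
  have hmono : StrictMonoOn (fun x => R.eval x) (Set.Ici x₀) := by
    apply strictMonoOn_of_deriv_pos (convex_Ici x₀) R.continuous.continuousOn
    intro x hx
    rw [interior_Ici, Set.mem_Ioi] at hx
    rw [Polynomial.deriv]
    exact hx₀ x hx.le
  refine ⟨x₀, fun x y hx hy hxy => ?_⟩
  have h1 : R.eval (x : ℝ) = R.eval (y : ℝ) := by
    rw [hR, eval_intCast_map, eval_intCast_map]
    exact congrArg _ hxy
  have h2 := hmono.injOn (Set.mem_Ici.2 hx) (Set.mem_Ici.2 hy) h1
  exact_mod_cast h2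

/-- eventually injective -/
theorem inj_ev (P : ℤ[X]) (hd : 1 ≤ P.natDegree) :
    ∃ m₀ : ℕ, ∀ x y : ℤ, (m₀ : ℤ) ≤ x → (m₀ : ℤ) ≤ y → P.eval x = P.eval y → x = y := by
  have hP : P ≠ 0 := by
    rintro rfl
    simp at hd
  have key : ∃ x₀ : ℝ, ∀ x y : ℤ, x₀ ≤ x → x₀ ≤ y → P.eval x = P.eval y → x = y := by
    rcases lt_or_gt_of_ne (leadingCoeff_ne_zero.2 hP) with h | h
    · obtain ⟨x₀, h1⟩ := inj_pos (-P) (by rwa [natDegree_neg]) (by rw [leadingCoeff_neg]; linarith)
      refine ⟨x₀, fun x y hx hy hxy => h1 x y hx hy ?_⟩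
      rw [eval_neg, eval_neg, hxy]
    · exact inj_pos P hd h
  obtain ⟨x₀, h1⟩ := key
  refine ⟨⌈x₀⌉₊, fun x y hx hy => h1 x y ?_ ?_⟩
  · refine (Nat.le_ceil x₀).trans ?_
    exact_mod_cast hx
  · refine (Nat.le_ceil x₀).trans ?_
    exact_mod_cast hy

end Pool.Agent.Helper74.FB
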