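import Mathlib
import Pool.Agent.Helper74.OR.Mom

/-! Moments of `n / φ(n)` for a function with few roots modulo the primes, over the rough values of a fixed
family of linear forms. -/

set_option autoImplicit false

namespace Pool.Agent.Helper74.FB

open Finset Filter Topology
open Pool.Agent.Erdos456 Pool.Agent.Erdos456.Mert Pool.Agent.W218.HF Pool.Agent.W218.LF
open Pool.Agent.Helper74.OR

theorem card_multi (A : Finset ℕ) (S : Finset ℕ) (hS : ∀ p ∈ S, p.Prime) (P : ℕ → ℕ → Prop) (r : ℕ)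
    (hP : ∀ p ∈ S, ∃ R : Finset ℕ, R.card ≤ r ∧ ∀ n, P p n → ∃ s ∈ R, n ≡ s [MOD p]) (B : ℝ) (hB : 0 ≤ B)
    (h : ∀ r : ℕ, (((A.filter (fun n => n ≡ r [MOD ∏ p ∈ S, p])).card : ℕ) : ℝ) ≤ B)
    [DecidablePred fun n => ∀ p ∈ S, P p n] :
    (((A.filter (fun n => ∀ p ∈ S, P p n)).card : ℕ) : ℝ) ≤ (r : ℝ) ^ S.card * B := by
  classical
  choose! R hR1 hR2 using hP
  set M : ℕ := ∏ p ∈ S, p with hM
  set A' := A.filter (fun n => ∀ p ∈ S, P p n) with hA'
  have hM0 : 0 < M := by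
    rw [hM]
    exact prod_pos fun p hp => (hS p hp).pos
  have h1 : A'.card = ∑ b ∈ A'.image (fun n => n % M), (A'.filter (fun n => n % M = b)).card :=
    card_eq_sum_card_image _ _
  have h2 : (A'.image (fun n => n % M)).card ≤ r ^ S.card := by
    have h3 : (A'.image (fun n => n % M)).card ≤
        (S.pi (fun p => (R p).image (fun s => s % p))).card := by
      apply card_le_card_of_injOn (fun b p _ => b % p)
      · intro b hb
        rw [mem_coe, mem_image] at hb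
        obtain ⟨n, hn, rfl⟩ := hb
        rw [hA', mem_filter] at hn
        rw [mem_coe, Finset.mem_pi]
        intro p hp
        obtain ⟨s, hs, hs2⟩ := hR2 p hp n (hn.2 p hp)
        rw [mem_image]
        refine ⟨s, hs, ?_⟩
        have h4 : p ∣ M := dvd_prod_of_mem _ hp
        show s % p = n % M % p
        rw [Nat.mod_mod_of_dvd n h4]
        exact hs2.symm
      · intro b hb b' hb' hbb
        rw [mem_coe, mem_image] at hb hb'
        obtain ⟨n, hn, rfl⟩ := hb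
        obtain ⟨n', hn', rfl⟩ := hb'
        have h4 : n ≡ n' [MOD M] := by
          rw [Nat.modEq_iff_dvd, Int.natCast_dvd]
          rw [hM]
          apply Finset.prod_primes_dvd
          · intro p hp; exact (hS p hp).prime
          · intro p hp
            have h5 := congrFun (congrFun hbb p) hp
            have h5' : n % M % p = n' % M % p := h5
            have h6 : p ∣ M := dvd_prod_of_mem _ hp
            rw [Nat.mod_mod_of_dvd n h6, Nat.mod_mod_of_dvd n' h6] at h5'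
            exact Int.natCast_dvd.1 ((Nat.modEq_iff_dvd).1 h5')
        exact h4
    refine h3.trans ?_
    rw [card_pi]
    calc ∏ p ∈ S, ((R p).image (fun s => s % p)).card ≤ ∏ _p ∈ S, r :=
          prod_le_prod' fun p hp => card_image_le.trans (hR1 p hp)
      _ = r ^ S.card := by rw [prod_const]
  rw [h1]
  push_cast
  calc ∑ b ∈ A'.image (fun n => n % M), (((A'.filter (fun n => n % M = b)).card : ℕ) : ℝ)
      ≤ ∑ _b ∈ A'.image (fun n => n % M), B := by
        apply sum_le_sum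
        intro b hb
        rw [mem_image] at hb
        obtain ⟨n₀, -, rfl⟩ := hb
        refine le_trans ?_ (h n₀)
        rw [Nat.cast_le]
        apply card_le_card
        intro n hn
        rw [mem_filter] at hn ⊢
        rw [hA', mem_filter] at hn
        exact ⟨hn.1.1, hn.2⟩
    _ = ((A'.image (fun n => n % M)).card : ℝ) * B := by rw [sum_const, nsmul_eq_mul]
    _ ≤ (r : ℝ) ^ S.card * B := by
        gcongr
        exact_mod_cast h2

theorem tele (a : ℕ) (ha : 1 ≤ a) (b : ℕ) :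
    ∏ j ∈ Ioc a (a + b), (1 - (j : ℝ)⁻¹)⁻¹ = ((a : ℝ) + b) / a := by
  have ha0 : (0 : ℝ) < a := by exact_mod_cast ha
  induction b with
  | zero => simp [ha0.ne']
  | succ b ih =>
    rw [show a + (b + 1) = (a + b) + 1 by ring, ← Nat.succ_eq_add_one,
      Finset.prod_Ioc_succ_top (by omega), ih]
    push_cast
    have h1 : (0 : ℝ) < a + b := by positivity
    have h2 : (0 : ℝ) < a + b + 1 := by positivity
    have h3 : (1 - ((a : ℝ) + b + 1)⁻¹)⁻¹ = (a + b + 1) / (a + b) := by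
      rw [inv_eq_iff_eq_inv, inv_div]
      field_simp
      ring
    rw [h3]
    field_simp
    ring

theorem GG_le_small' {m Z e : ℕ} (hm : 0 < m) (hZ : 1 ≤ Z) (he : 1 ≤ e)
    (hmX : (m : ℝ) ≤ Real.exp (4 * (e * Z))) :
    GG m ≤ Real.exp 6 * e * ∏ p ∈ (PP Z).filter (fun p => p ∣ m), (1 - (p : ℝ)⁻¹)⁻¹ := by
  classical
  have hZr : (0 : ℝ) < Z := by exact_mod_cast hZ
  have hZe : Z ≤ e * Z := Nat.le_mul_of_pos_left _ he
  have h1 := GG_le_small (m := m) (X := e * Z) hm (by nlinarith) (by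
    push_cast; exact hmX)
  refine h1.trans ?_
  rw [mul_assoc (Real.exp 6)]
  gcongr
  have h2 := Finset.prod_filter_mul_prod_filter_not ((PP (e * Z)).filter (fun p => p ∣ m))
    (fun p => Z < p) (fun p : ℕ => (1 - (p : ℝ)⁻¹)⁻¹)
  rw [← h2]
  have h3 : (((PP (e * Z)).filter (fun p => p ∣ m)).filter (fun p => ¬ Z < p)) =
      (PP Z).filter (fun p => p ∣ m) := by
    ext p
    simp only [mem_filter, PP, mem_Icc, not_lt]
    constructor
    · rintro ⟨⟨⟨⟨h1, h2⟩, h3⟩, h4⟩, h5⟩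
      exact ⟨⟨⟨h1, h5⟩, h3⟩, h4⟩
    · rintro ⟨⟨⟨h1, h2⟩, h3⟩, h4⟩
      exact ⟨⟨⟨⟨h1, h2.trans hZe⟩, h3⟩, h4⟩, h2⟩
  rw [h3]
  have hp1 : ∀ p : ℕ, p ∈ (((PP (e * Z)).filter (fun p => p ∣ m)).filter (fun p => Z < p)) → p.Prime := by
    intro p hp
    simp only [mem_filter, PP] at hp
    exact hp.1.1.2
  have h4 : ∏ p ∈ (((PP (e * Z)).filter (fun p => p ∣ m)).filter (fun p => Z < p)),
      (1 - (p : ℝ)⁻¹)⁻¹ ≤ e := by
    have h5 : ∏ p ∈ (((PP (e * Z)).filter (fun p => p ∣ m)).filter (fun p => Z < p)),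
        (1 - (p : ℝ)⁻¹)⁻¹ ≤ ∏ p ∈ Ioc Z (Z + (e * Z - Z)), (1 - (p : ℝ)⁻¹)⁻¹ := by
      apply Finset.prod_le_prod_of_subset_of_one_le
      · intro p hp
        simp only [mem_filter, PP, mem_Icc] at hp
        rw [mem_Ioc]
        exact ⟨hp.2, by have := hp.1.1.1.2; omega⟩
      · intro p hp
        exact zero_le_one.trans (factor_ge_one (hp1 p hp))
      · intro p hp _
        rw [mem_Ioc] at hp
        have h6 : (1 : ℝ) < p := by
          have : 1 < p := by omega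
          exact_mod_cast this
        have h7 : 0 < 1 - (p : ℝ)⁻¹ := by
          have := inv_lt_one_of_one_lt₀ h6
          linarith
        rw [one_le_inv₀ h7]
        have : 0 < (p : ℝ)⁻¹ := by positivity
        linarith
    refine h5.trans ?_
    rw [tele Z hZ]
    rw [Nat.cast_sub hZe]
    push_cast
    rw [div_le_iff₀ hZr]
    linarith
  gcongr
  exact prod_nonneg fun p hp => by
    simp only [mem_filter, PP] at hp
    exact zero_le_one.trans (factor_ge_one hp.1.2)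

/-- **moments over rough values, few roots** -/
theorem rmomr (F : Finset (ℤ × ℤ)) (hF1 : ∀ f ∈ F, f.1 ≠ 0)
    (hF2 : ∀ f ∈ F, ∀ g ∈ F, f ≠ g → f.1 * g.2 - g.1 * f.2 ≠ 0) (δ : ℝ) (hδ : 0 < δ) (m r e : ℕ)
    (hm : 1 ≤ m) (he : 1 ≤ e) :
    ∃ C : ℝ, 0 < C ∧ ∀ᶠ N : ℕ in atTop, ∀ (G : ℕ → ℤ) (g : ℕ), 0 < g →
      (∀ n ∈ Icc 1 N, (((G n).natAbs : ℕ) : ℝ) ≤ (N : ℝ) ^ e) →
      (∀ p : ℕ, p.Prime → ¬ p ∣ g → ∃ R : Finset ℕ, R.card ≤ r ∧ ∀ n : ℕ, p ∣ (G n).natAbs →
        ∃ s ∈ R, n ≡ s [MOD p]) →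
      ∑ n ∈ Rg F δ N, GG (G n).natAbs ^ m ≤ C * GG g ^ m * (N / Real.log N ^ F.card) := by
  classical
  obtain ⟨C, hC, hcls⟩ := cls F hF1 hF2 δ hδ
  set h : ℝ := 2 ^ (m + 1) * (r * Real.exp F.card) with hh
  have hh0 : 0 ≤ h := by positivity
  refine ⟨(Real.exp 6 * e) ^ m * (C * Real.exp (2 * h)), by positivity, ?_⟩
  have tN : Tendsto (fun N : ℕ => (N : ℝ)) atTop atTop := tendsto_natCast_atTop_atTop
  have e5 : ∀ᶠ N : ℕ in atTop, (4 : ℝ) ≤ (N : ℝ) ^ (1 / 20 : ℝ) :=
    ((tendsto_rpow_atTop (by norm_num : (0 : ℝ) < 1 / 20)).comp tN).eventually_ge_atTop 4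
  filter_upwards [hcls, e5, eventually_ge_atTop 3] with N hN hN5 hN3 G g hg0 hbd hG
  have hNr : (3 : ℝ) ≤ N := by exact_mod_cast hN3
  have hN0 : (0 : ℝ) < N := by linarith
  have hlogN : 0 < Real.log N := Real.log_pos (by linarith)
  set Z : ℕ := ⌈Real.log N / 2⌉₊ with hZ
  have hZ1 : 1 ≤ Z := Nat.ceil_pos.2 (by positivity)
  have hZle : Real.log N / 2 ≤ Z := Nat.le_ceil _
  have hZlt : (Z : ℝ) < Real.log N / 2 + 1 := Nat.ceil_lt_add_one (by positivity)
  have her : (1 : ℝ) ≤ e := by exact_mod_cast he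
  have hexpZ : (N : ℝ) ^ e ≤ Real.exp (4 * (e * Z)) := by
    have h1 : (N : ℝ) ^ e = Real.exp (e * Real.log N) := by
      rw [Real.exp_nat_mul, Real.exp_log hN0]
    rw [h1]
    apply Real.exp_le_exp.2
    nlinarith
  set W : Finset ℕ := (PP Z).filter (fun p => ¬ p ∣ g) with hW
  have hWp : ∀ p ∈ W, p.Prime := fun p hp => by
    rw [hW, mem_filter] at hp
    unfold PP at hp
    rw [mem_filter] at hp; exact hp.1.2
  set w : Finset ℕ → ℝ := fun S => ∏ p ∈ S, ((2 : ℝ) ^ (m + 1) / (p : ℝ)) with hw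
  have hw0 : ∀ S, 0 ≤ w S := fun S => prod_nonneg fun p _ => by positivity
  -- pointwise bound
  have hpt : ∀ t ∈ Icc 1 N, (GG (G t).natAbs) ^ m ≤ (Real.exp 6 * e) ^ m * (GG g ^ m *
      ∑ S ∈ W.powerset, if (∀ p ∈ S, p ∣ (G t).natAbs) then w S else 0) := by
    intro t ht
    set n := (G t).natAbs with hn
    have hR0 : 0 ≤ ∑ S ∈ W.powerset, (if (∀ p ∈ S, p ∣ n) then w S else 0) :=
      sum_nonneg fun S _ => by split_ifs; exacts [hw0 S, le_rfl]
    have hGgm : 0 ≤ GG g ^ m := pow_nonneg (GG_nonneg g) m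
    rcases Nat.eq_zero_or_pos n with h0 | h0
    · rw [h0] at hR0 ⊢
      rw [GG_zero, zero_pow (by omega)]
      positivity
    have h1 := GG_le_small' (Z := Z) (e := e) h0 hZ1 he ((hbd t ht).trans hexpZ)
    set Fs := (PP Z).filter (fun p => p ∣ n) with hFs
    have hFp : ∀ p ∈ Fs, p.Prime := fun p hp => by
      rw [hFs, mem_filter] at hp
      unfold PP at hp
      rw [mem_filter] at hp; exact hp.1.2
    have hsp := Finset.prod_filter_mul_prod_filter_not Fs (fun p => p ∣ g)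
      (fun p : ℕ => (1 - (p : ℝ)⁻¹)⁻¹)
    have h2 : ∏ p ∈ Fs.filter (fun p => p ∣ g), (1 - (p : ℝ)⁻¹)⁻¹ ≤ GG g := by
      rw [GG_eq_prod hg0]
      apply Finset.prod_le_prod_of_subset_of_one_le
      · intro p hp
        rw [mem_filter] at hp
        rw [Nat.mem_primeFactors]
        exact ⟨hFp p hp.1, hp.2, hg0.ne'⟩
      · intro p hp
        rw [mem_filter] at hp
        exact zero_le_one.trans (factor_ge_one (hFp p hp.1))
      · intro p hp _
        exact factor_ge_one (Nat.prime_of_mem_primeFactors hp)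
    set V := Fs.filter (fun p => ¬ p ∣ g) with hV
    have hV0 : 0 ≤ ∏ p ∈ V, (1 - (p : ℝ)⁻¹)⁻¹ := prod_nonneg fun p hp => by
      rw [hV, mem_filter] at hp
      exact zero_le_one.trans (factor_ge_one (hFp p hp.1))
    have h3 : GG n ≤ (Real.exp 6 * e) * (GG g * ∏ p ∈ V, (1 - (p : ℝ)⁻¹)⁻¹) := by
      refine h1.trans ?_
      rw [← hsp]
      gcongr
    have h4 : (∏ p ∈ V, (1 - (p : ℝ)⁻¹)⁻¹) ^ m ≤ ∏ p ∈ V, (1 + 2 ^ (m + 1) / (p : ℝ)) := by
      rw [← prod_pow]
      apply Finset.prod_le_prod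
      · intro p hp
        have : 0 ≤ (1 - (p : ℝ)⁻¹)⁻¹ := by
          rw [hV, mem_filter] at hp
          exact zero_le_one.trans (factor_ge_one (hFp p hp.1))
        positivity
      · intro p hp
        rw [hV, mem_filter] at hp
        exact pow_factor m (hFp p hp.1)
    have h5 : ∏ p ∈ V, (1 + 2 ^ (m + 1) / (p : ℝ)) =
        ∑ S ∈ W.powerset, if (∀ p ∈ S, p ∣ n) then w S else 0 := by
      rw [prod_one_add, ← sum_filter]
      apply sum_congr _ fun _ _ => rfl
      ext S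
      simp only [mem_powerset, mem_filter, subset_iff, hV, hW, hFs]
      constructor
      · intro h
        exact ⟨fun p hp => ⟨(h hp).1.1, (h hp).2⟩, fun p hp => (h hp).1.2⟩
      · rintro ⟨h, h'⟩ p hp
        exact ⟨⟨(h hp).1, h' p hp⟩, (h hp).2⟩
    rw [← h5]
    calc GG n ^ m ≤ ((Real.exp 6 * e) * (GG g * ∏ p ∈ V, (1 - (p : ℝ)⁻¹)⁻¹)) ^ m :=
          pow_le_pow_left₀ (GG_nonneg n) h3 m
      _ = (Real.exp 6 * e) ^ m * (GG g ^ m * (∏ p ∈ V, (1 - (p : ℝ)⁻¹)⁻¹) ^ m) := by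
          rw [mul_pow (Real.exp 6 * e), mul_pow (GG g)]
      _ ≤ _ := by
          gcongr
  have hsubR : Rg F δ N ⊆ Icc 1 N := by
    unfold Rg; exact filter_subset _ _
  refine (sum_le_sum fun t ht => hpt t (hsubR ht)).trans ?_
  rw [← mul_sum, ← mul_sum, sum_comm]
  set M : ℝ := N / Real.log N ^ F.card with hM
  have hM0 : 0 ≤ M := by positivity
  -- the size of the moduli
  have hSN : ∀ S ∈ W.powerset, ((∏ p ∈ S, p : ℕ) : ℝ) ≤ (N : ℝ) ^ (3 / 4 : ℝ) := by
    intro S hS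
    rw [mem_powerset] at hS
    have h1 : ∏ p ∈ S, p ≤ primorial Z := by
      unfold primorial
      apply Finset.prod_le_prod_of_subset_of_one_le'
      · intro p hp
        have := hS hp
        rw [hW, mem_filter] at this
        have h2 := this.1
        unfold PP at h2
        rw [mem_filter, mem_Icc] at h2
        rw [mem_filter, mem_range]
        exact ⟨by omega, h2.2⟩
      · intro p hp _
        exact (mem_filter.1 hp).2.one_le
    have h2 : ((∏ p ∈ S, p : ℕ) : ℝ) ≤ ((4 ^ Z : ℕ) : ℝ) := by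
      exact_mod_cast h1.trans (primorial_le_four_pow Z)
    refine h2.trans ?_
    push_cast
    have h3 : (4 : ℝ) ^ Z = Real.exp (Z * (2 * Real.log 2)) := by
      rw [Real.exp_nat_mul, show (2 : ℝ) * Real.log 2 = ((2 : ℕ) : ℝ) * Real.log 2 by norm_num,
        Real.exp_nat_mul, Real.exp_log (by norm_num)]
      norm_num
    rw [h3]
    have hl2 := Real.log_two_lt_d9
    have hl2' := Real.log_two_gt_d9
    calc Real.exp (Z * (2 * Real.log 2)) ≤ Real.exp (7 / 10 * Real.log N + 2 * Real.log 2) := by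
          apply Real.exp_le_exp.2
          nlinarith
      _ = (N : ℝ) ^ (7 / 10 : ℝ) * 4 := by
          rw [Real.exp_add, Real.rpow_def_of_pos hN0, mul_comm (Real.log (N : ℝ))]
          congr 1
          rw [show (2 : ℝ) * Real.log 2 = ((2 : ℕ) : ℝ) * Real.log 2 by norm_num,
            Real.exp_nat_mul, Real.exp_log (by norm_num)]
          norm_num
      _ ≤ (N : ℝ) ^ (7 / 10 : ℝ) * (N : ℝ) ^ (1 / 20 : ℝ) := by gcongr
      _ = (N : ℝ) ^ (3 / 4 : ℝ) := by
          rw [← Real.rpow_add hN0]; norm_num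
  have hin : ∀ S ∈ W.powerset, ∑ t ∈ Rg F δ N,
      (if (∀ p ∈ S, p ∣ (G t).natAbs) then w S else 0) ≤
      C * M * ∏ p ∈ S, (h / (p : ℝ) ^ 2) := by
    intro S hS
    have hS' := mem_powerset.1 hS
    rw [← sum_filter, sum_const, nsmul_eq_mul]
    have hSp : ∀ p ∈ S, p.Prime := fun p hp => hWp p (hS' hp)
    have h1 := card_multi (Rg F δ N) S hSp (fun p n => p ∣ (G n).natAbs) r (by
      intro p hp
      have hpW := hS' hp
      rw [hW, mem_filter] at hpW
      exact hG p (hSp p hp) hpW.2)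
      (C * (Real.exp F.card ^ S.card * (N / (((∏ p ∈ S, p : ℕ) : ℝ) * Real.log N ^ F.card))))
      (by positivity) (fun r => hN S hSp (hSN S hS) r)
    have h2 := mul_le_mul_of_nonneg_right h1 (hw0 S)
    refine h2.trans (le_of_eq ?_)
    have e1 : ∏ p ∈ S, (h / (p : ℝ) ^ 2) = w S * ((r : ℝ) ^ S.card * Real.exp F.card ^ S.card) *
        (1 / ((∏ p ∈ S, p : ℕ) : ℝ)) := by
      rw [hw]
      push_cast
      rw [← mul_pow, ← prod_const, ← prod_mul_distrib, one_div, ← prod_inv_distrib, ← prod_mul_distrib]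
      apply prod_congr rfl
      intro p hp
      have hp0 : (p : ℝ) ≠ 0 := by exact_mod_cast (hSp p hp).ne_zero
      rw [hh]
      field_simp
    rw [e1, hM]
    field_simp
  have hsum := sum_le_sum hin
  rw [← mul_sum] at hsum
  have e1 : ∑ S ∈ W.powerset, ∏ p ∈ S, (h / (p : ℝ) ^ 2) = ∏ p ∈ W, (1 + h / (p : ℝ) ^ 2) :=
    (prod_one_add _).symm
  rw [e1] at hsum
  have h1 : ∏ p ∈ W, (1 + h / (p : ℝ) ^ 2) ≤ Real.exp (2 * h) := by
    refine (prod_exp_le W _ fun p _ => by positivity).trans (Real.exp_le_exp.2 ?_)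
    have h3 := sum_inv_sq_PP Z
    have h4 : ∑ p ∈ W, h / (p : ℝ) ^ 2 ≤ ∑ p ∈ PP Z, h / (p : ℝ) ^ 2 :=
      sum_le_sum_of_subset_of_nonneg (filter_subset _ _) fun p _ _ => by positivity
    have e3 : ∑ p ∈ PP Z, h / (p : ℝ) ^ 2 = (h / 126) * ∑ p ∈ PP Z, 126 / (p : ℝ) ^ 2 := by
      rw [mul_sum]; apply sum_congr rfl; intro p _; ring
    rw [e3] at h4
    have h5 : (h / 126) * ∑ p ∈ PP Z, 126 / (p : ℝ) ^ 2 ≤ (h / 126) * 252 := by gcongr
    linarith
  have hGg := GG_nonneg g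
  calc (Real.exp 6 * e) ^ m * (GG g ^ m * ∑ S ∈ W.powerset, ∑ t ∈ Rg F δ N,
        (if (∀ p ∈ S, p ∣ (G t).natAbs) then w S else 0))
      ≤ (Real.exp 6 * e) ^ m * (GG g ^ m * (C * M * Real.exp (2 * h))) := by
        gcongr
        exact hsum.trans (by gcongr)
    _ = _ := by ring

end Pool.Agent.Helper74.FB
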