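import Mathlib
import Pool.Agent.Helper74.FB.Mom

/-! A uniform upper bound for the number of integers `N ≤ X` such that no `N + b`, `b ∈ B`, has a small
prime factor. -/

set_option autoImplicit false

namespace Pool.Agent.Helper74.FB

open Finset Filter Topology
open Pool.Agent.Y959.Sv (nu up_sieve)
open Pool.Agent.Helper923.HMertens (mertens_ratio)
open Pool.Agent.Y827.HD (Qf Qf_per nu_eq floor_pow')
open Pool.Agent.Erdos456
open Pool.Agent.Helper74.OR

/-- the product of the differences -/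
def Dl (B : Finset ℤ) : ℕ := (∏ x ∈ B.offDiag, (x.1 - x.2)).natAbs

theorem Dl_pos (B : Finset ℤ) : 0 < Dl B := by
  unfold Dl
  rw [Int.natAbs_pos]
  apply prod_ne_zero_iff.2
  intro x hx
  rw [mem_offDiag] at hx
  exact sub_ne_zero.2 hx.2.2

/-- the `N ≤ X` for which no `N + b` has a small prime factor -/
noncomputable def Us (B : Finset ℤ) (δ : ℝ) (X : ℕ) : Finset ℕ := by
  classical
  exact (Icc 1 X).filter (fun N : ℕ => ∀ b ∈ B, ∀ p : ℕ, p.Prime → Real.log p ≤ δ * Real.log X →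
    ¬ (p : ℤ) ∣ (N : ℤ) + b)

theorem exp_le_GG {m : ℕ} (hm : 0 < m) (E : Finset ℕ) (hE : ∀ p ∈ E, p.Prime ∧ p ∣ m) :
    Real.exp (∑ p ∈ E, (1 : ℝ) / p) ≤ GG m := by
  rw [GG_eq_prod hm, Real.exp_sum]
  have h1 : ∏ p ∈ E, Real.exp ((1 : ℝ) / p) ≤ ∏ p ∈ E, (1 - (p : ℝ)⁻¹)⁻¹ := by
    apply prod_le_prod (fun p _ => (Real.exp_pos _).le)
    intro p hp
    have hp1 : (1 : ℝ) < p := by exact_mod_cast (hE p hp).1.one_lt
    have h2 : 0 < 1 - (p : ℝ)⁻¹ := by
      have := inv_lt_one_of_one_lt₀ hp1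
      linarith
    rw [← Real.exp_log (inv_pos.2 h2), Real.log_inv]
    apply Real.exp_le_exp.2
    have h3 := Real.log_le_sub_one_of_pos h2
    rw [one_div]
    linarith
  refine h1.trans ?_
  apply Finset.prod_le_prod_of_subset_of_one_le
  · intro p hp
    rw [Nat.mem_primeFactors]
    exact ⟨(hE p hp).1, (hE p hp).2, hm.ne'⟩
  · intro p hp
    exact zero_le_one.trans (factor_ge_one (hE p hp).1)
  · intro p hp _
    exact factor_ge_one (Nat.prime_of_mem_primeFactors hp)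

theorem ub (t : ℕ) (δ : ℝ) (hδ : 0 < δ) : ∃ C : ℝ, 0 < C ∧ ∀ᶠ X : ℕ in atTop, ∀ B : Finset ℤ,
    B.card = t → (((Us B δ X).card : ℕ) : ℝ) ≤ C * (X / Real.log X ^ t) * GG (Dl B) ^ t := by
  classical
  obtain ⟨K, z0, hK, hup⟩ := up_sieve t
  obtain ⟨C1, hC0, hC1⟩ := mertens_ratio
  have hK0 : (1 : ℝ) ≤ K := by exact_mod_cast hK
  set κ : ℝ := min δ (1 / (2 * K)) with hκ
  have hκ0 : 0 < κ := lt_min hδ (by positivity)
  set L : ℕ := z0 + t + 2 with hL
  have hL2 : 2 ≤ L := by omega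
  have hLr : (2 : ℝ) ≤ L := by exact_mod_cast hL2
  have hlogL : 0 < Real.log L := Real.log_pos (by linarith)
  have tN : Tendsto (fun N : ℕ => (N : ℝ)) atTop atTop := tendsto_natCast_atTop_atTop
  have e4 : ∀ᶠ N : ℕ in atTop, Real.log N ^ t ≤ (N : ℝ) ^ (1 / 2 : ℝ) := by
    have h1 : (fun x : ℝ => Real.log x ^ t) =o[atTop] (fun x : ℝ => x ^ (1 / 2 : ℝ)) := by
      have := isLittleO_log_rpow_rpow_atTop (t : ℝ) (show (0 : ℝ) < 1 / 2 by norm_num)
      simpa [Real.rpow_natCast] using this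
    have h2 := (h1.bound (show (0 : ℝ) < 1 by norm_num))
    filter_upwards [tN.eventually h2, eventually_ge_atTop 1] with X hX hX1
    have hlog : 0 ≤ Real.log (X : ℝ) := Real.log_natCast_nonneg X
    rw [Real.norm_of_nonneg (by positivity), Real.norm_of_nonneg (by positivity), one_mul] at hX
    exact hX
  set C : ℝ := 2 * (Real.exp (t * (2 * C1)) * (2 * Real.log L / κ) ^ t) + 1 with hC
  refine ⟨C, by positivity, ?_⟩
  filter_upwards [e4, floor_pow' hκ0 (L + 3), eventually_ge_atTop 3] with X hX4 hXy hX3 B hB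
  obtain ⟨hy1, hy2⟩ := hXy
  set y : ℕ := ⌊(X : ℝ) ^ κ⌋₊ with hy
  have hXr : (3 : ℝ) ≤ X := by exact_mod_cast hX3
  have hX0 : (0 : ℝ) < X := by linarith
  have hlogX : 0 < Real.log X := Real.log_pos (by linarith)
  have hyr : (y : ℝ) ≤ (X : ℝ) ^ κ := Nat.floor_le (by positivity)
  have hLy : L ≤ y := by omega
  have hy3 : 3 ≤ y := by omega
  have hyK : y ^ K ≤ X := by
    have h1 : ((y ^ K : ℕ) : ℝ) ≤ (X : ℝ) := by
      push_cast
      calc (y : ℝ) ^ K ≤ ((X : ℝ) ^ κ) ^ K := pow_le_pow_left₀ (Nat.cast_nonneg _) hyr K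
        _ = (X : ℝ) ^ (κ * K) := by rw [← Real.rpow_natCast, ← Real.rpow_mul hX0.le]
        _ ≤ (X : ℝ) ^ (1 : ℝ) := by
          apply Real.rpow_le_rpow_of_exponent_le (by linarith)
          have : κ ≤ 1 / (2 * K) := min_le_right _ _
          calc κ * K ≤ 1 / (2 * K) * K := by gcongr
            _ = 1 / 2 := by field_simp
            _ ≤ 1 := by norm_num
        _ = X := Real.rpow_one _
    exact_mod_cast h1
  have hlogy : Real.log y ≤ δ * Real.log X := by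
    have hy0 : (0 : ℝ) < y := by exact_mod_cast (by omega : 0 < y)
    calc Real.log y ≤ Real.log ((X : ℝ) ^ κ) := Real.log_le_log hy0 hyr
      _ = κ * Real.log X := Real.log_rpow hX0 _
      _ ≤ δ * Real.log X := mul_le_mul_of_nonneg_right (min_le_left _ _) hlogX.le
  set Δ : ℕ := Dl B with hΔ
  have hΔ0 : 0 < Δ := Dl_pos B
  set E : Finset ℕ := (Ioc L y).filter (fun p => p.Prime ∧ p ∣ Δ) with hE
  set P : Finset ℕ := (Ioc L y).filter Nat.Prime \ E with hP
  have hPm : ∀ p ∈ P, p.Prime ∧ L < p ∧ p ≤ y ∧ ¬ p ∣ Δ := by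
    intro p hp
    obtain ⟨hp1, hpS⟩ := mem_sdiff.1 hp
    obtain ⟨hp2, hpp⟩ := mem_filter.1 hp1
    obtain ⟨hp3, hp4⟩ := mem_Ioc.1 hp2
    refine ⟨hpp, hp3, hp4, fun hd => hpS ?_⟩
    rw [hE, mem_filter]
    exact ⟨hp2, hpp, hd⟩
  set F : Finset (ℤ × ℤ) := B.image (fun b => ((1 : ℤ), b)) with hF
  have hFc : F.card = t := by
    rw [hF, card_image_of_injective _ (fun a b h => (Prod.ext_iff.1 h).2), hB]
  have hnu : ∀ p ∈ P, nu (Qf F) p = t := by
    intro p hp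
    obtain ⟨hpp, hp3, hp4, hpS⟩ := hPm p hp
    rw [← hFc]
    apply nu_eq F hpp
    · intro f hf hd
      obtain ⟨b, hb, rfl⟩ := mem_image.1 hf
      have h1 : (p : ℤ) ∣ 1 := hd
      have h2 : p ∣ 1 := by exact_mod_cast h1
      exact hpp.one_lt.ne' (Nat.dvd_one.1 h2)
    · intro f hf g hg hne hd
      obtain ⟨b, hb, rfl⟩ := mem_image.1 hf
      obtain ⟨b', hb', rfl⟩ := mem_image.1 hg
      apply hpS
      have hbb : b' ≠ b := fun h => hne (by rw [h])
      have h1 : (b' - b : ℤ) ∣ ∏ x ∈ B.offDiag, (x.1 - x.2) :=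
        dvd_prod_of_mem (a := (b', b)) (fun x : ℤ × ℤ => x.1 - x.2) (mem_offDiag.2 ⟨hb', hb, hbb⟩)
      have h2 : (p : ℤ) ∣ b' - b := by
        have e : (1 : ℤ) * b' - 1 * b = b' - b := by ring
        simpa [e] using hd
      rw [hΔ]
      unfold Dl
      exact Int.natCast_dvd.1 (h2.trans h1)
  have key := hup y X hy3 hyK (Qf F) (Qf_per F) P (by
    intro p hp
    obtain ⟨hpp, hp3, hp4, hpS⟩ := hPm p hp
    exact ⟨hpp, by omega, hp4, (hnu p hp).le⟩)
  have hprod : ∏ p ∈ P, (1 - (nu (Qf F) p : ℝ) / p) = ∏ p ∈ P, (1 - (t : ℝ) / p) :=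
    prod_congr rfl fun p hp => by rw [hnu p hp]
  rw [hprod] at key
  have hprod2 := prodE hC0 hC1 t L y hL2 (by omega) hLy E
  have hEG : Real.exp (∑ p ∈ E, (1 : ℝ) / p) ≤ GG Δ := exp_le_GG hΔ0 E (fun p hp => by
    rw [hE, mem_filter] at hp
    exact hp.2)
  have hprod3 : ∏ p ∈ P, (1 - (t : ℝ) / p) ≤
      (Real.exp (t * (2 * C1)) * (2 * Real.log L / κ) ^ t) / Real.log X ^ t * GG Δ ^ t := by
    refine hprod2.trans ?_
    have h1 : Real.exp (t * (2 * C1 + ∑ p ∈ E, (1 : ℝ) / p)) ≤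
        Real.exp (t * (2 * C1)) * GG Δ ^ t := by
      have h2 : Real.exp (t * (2 * C1 + ∑ p ∈ E, (1 : ℝ) / p)) =
          Real.exp (t * (2 * C1)) * Real.exp (∑ p ∈ E, (1 : ℝ) / p) ^ t := by
        rw [← Real.exp_nat_mul, ← Real.exp_add]
        ring_nf
      rw [h2]
      gcongr
    have h2 : (Real.log L / Real.log y) ^ t ≤ (2 * Real.log L / κ) ^ t / Real.log X ^ t := by
      rw [← div_pow]
      apply pow_le_pow_left₀
      · have : 0 ≤ Real.log y := Real.log_natCast_nonneg y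
        positivity
      · have h3 : 0 < κ / 2 * Real.log X := by positivity
        rw [div_div, div_le_div_iff₀ (by linarith) (by positivity)]
        nlinarith [mul_le_mul_of_nonneg_left hy2 hlogL.le]
    calc Real.exp (t * (2 * C1 + ∑ p ∈ E, (1 : ℝ) / p)) * (Real.log L / Real.log y) ^ t
        ≤ (Real.exp (t * (2 * C1)) * GG Δ ^ t) *
          ((2 * Real.log L / κ) ^ t / Real.log X ^ t) := by
          gcongr
          have := GG_nonneg Δ
          positivity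
      _ = _ := by ring
  have hset : (((Us B δ X).card : ℕ) : ℝ) ≤
      (((Icc 1 X).filter (fun n : ℕ => ∀ p ∈ P, ¬ Qf F p n)).card : ℝ) := by
    rw [Nat.cast_le]
    apply card_le_card
    intro n hn
    unfold Us at hn
    rw [mem_filter] at hn ⊢
    refine ⟨hn.1, fun p hp => ?_⟩
    rintro ⟨f, hf, hd⟩
    obtain ⟨b, hb, rfl⟩ := mem_image.1 hf
    obtain ⟨hpp, hp3, hp4, hpS⟩ := hPm p hp
    have hp0 : (0 : ℝ) < p := by exact_mod_cast hpp.pos
    refine hn.2 b hb p hpp ((Real.log_le_log hp0 (by exact_mod_cast hp4)).trans hlogy) ?_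
    simpa using hd
  have hGG1 : 1 ≤ GG Δ ^ t := one_le_pow₀ (one_le_GG hΔ0)
  have hlt : 0 < Real.log X ^ t := by positivity
  have hsq : √(X : ℝ) ≤ X / Real.log X ^ t := by
    rw [le_div_iff₀ hlt]
    have h1 : √(X : ℝ) = (X : ℝ) ^ (1 / 2 : ℝ) := Real.sqrt_eq_rpow _
    calc √(X : ℝ) * Real.log X ^ t ≤ √(X : ℝ) * (X : ℝ) ^ (1 / 2 : ℝ) := by gcongr
      _ = √(X : ℝ) * √(X : ℝ) := by rw [← h1]
      _ = X := Real.mul_self_sqrt hX0.le
  have hQ0 : 0 ≤ (X : ℝ) / Real.log X ^ t := by positivity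
  calc (((Us B δ X).card : ℕ) : ℝ) ≤ 2 * (X * ∏ p ∈ P, (1 - (t : ℝ) / p)) + √(X : ℝ) := hset.trans key
    _ ≤ 2 * (X * ((Real.exp (t * (2 * C1)) * (2 * Real.log L / κ) ^ t) / Real.log X ^ t * GG Δ ^ t)) +
        X / Real.log X ^ t * GG Δ ^ t := by
        gcongr
        exact hsq.trans (le_mul_of_one_le_right hQ0 hGG1)
    _ = _ := by rw [hC]; field_simp

end Pool.Agent.Helper74.FB
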