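import Mathlib
import Pool.Agent.Helper74.FB.Ub
import Pool.Agent.Helper74.FB.Poly

/-! The second moment: pairs of arguments `m, m'` for which no `N + Q (m + h q)` and no `N + Q (m' + h q)`
has a small prime factor. -/

set_option autoImplicit false

namespace Pool.Agent.Helper74.FB

open Finset Filter Topology Polynomial
open Pool.Agent.Erdos456
open Pool.Agent.Helper74.OR (Rg)

/-! ### elementary facts -/

theorem GG_prod_le {ι : Type*} (I : Finset ι) (f : ι → ℕ) : GG (∏ i ∈ I, f i) ≤ ∏ i ∈ I, GG (f i) := by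
  classical
  induction I using Finset.induction_on with
  | empty => simp [GG]
  | insert a s ha ih =>
    rw [prod_insert ha, prod_insert ha]
    exact (GG_mul_le _ _).trans (mul_le_mul_of_nonneg_left ih (GG_nonneg _))

theorem prod_le_sum_pow {ι : Type*} (I : Finset ι) (a : ι → ℝ) (ha : ∀ i ∈ I, 0 ≤ a i) :
    ∏ i ∈ I, a i ≤ 1 + ∑ i ∈ I, a i ^ I.card := by
  classical
  rcases I.eq_empty_or_nonempty with rfl | hne
  · simp
  · obtain ⟨j, hj, hmax⟩ := exists_max_image I a hne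
    have h1 : ∏ i ∈ I, a i ≤ ∏ _i ∈ I, a j := prod_le_prod ha hmax
    rw [prod_const] at h1
    have h2 : a j ^ I.card ≤ ∑ i ∈ I, a i ^ I.card :=
      single_le_sum (f := fun i => a i ^ I.card) (fun i hi => pow_nonneg (ha i hi) _) hj
    linarith

theorem Dl_image {ι : Type*} [Fintype ι] [DecidableEq ι] (v : ι → ℤ) (hv : Function.Injective v) :
    Dl (univ.image v) = ∏ x ∈ (univ : Finset ι).offDiag, (v x.1 - v x.2).natAbs := by
  classical
  unfold Dl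
  have h1 : ∏ x ∈ (univ : Finset ι).offDiag, (v x.1 - v x.2) =
      ∏ x ∈ (univ.image v).offDiag, (x.1 - x.2) := by
    apply prod_nbij (fun x : ι × ι => (v x.1, v x.2))
    · intro x hx
      rw [mem_offDiag] at hx ⊢
      exact ⟨mem_image_of_mem _ (mem_univ _), mem_image_of_mem _ (mem_univ _), fun h => hx.2.2 (hv h)⟩
    · intro x _ y _ h
      have h1 := Prod.ext_iff.1 h
      exact Prod.ext (hv h1.1) (hv h1.2)
    · rintro ⟨a, b⟩ h
      rw [Finset.mem_coe, mem_offDiag] at h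
      obtain ⟨h1, h2, h3⟩ := h
      obtain ⟨x, _, hx⟩ := mem_image.1 h1
      obtain ⟨y, _, hy⟩ := mem_image.1 h2
      refine ⟨(x, y), ?_, ?_⟩
      · rw [Finset.mem_coe, mem_offDiag]
        refine ⟨mem_univ _, mem_univ _, fun hxy => h3 ?_⟩
        simp only at hx hy hxy ⊢
        rw [← hx, ← hy, hxy]
      · simp only at hx hy ⊢
        rw [hx, hy]
    · intro x _
      rfl
  rw [← h1, ← Int.natAbsHom_apply, map_prod]
  rfl

/-- the power of `GG` of the differences of an injective family -/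
theorem GG_Dl_le {ι : Type*} [Fintype ι] [DecidableEq ι] (v : ι → ℤ) (hv : Function.Injective v) (n : ℕ) :
    GG (Dl (univ.image v)) ^ n ≤ 1 + ∑ x ∈ (univ : Finset ι).offDiag,
      GG (v x.1 - v x.2).natAbs ^ (n * (univ : Finset ι).offDiag.card) := by
  classical
  rw [Dl_image v hv]
  have h1 := GG_prod_le (univ : Finset ι).offDiag (fun x => (v x.1 - v x.2).natAbs)
  have h2 := pow_le_pow_left₀ (GG_nonneg _) h1 n
  rw [← prod_pow] at h2
  refine h2.trans ((prod_le_sum_pow _ _ (fun i _ => pow_nonneg (GG_nonneg _) _)).trans ?_)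
  simp only [← pow_mul]
  exact le_rfl

/-! ### moments for the values of polynomials -/

theorem momPoly (V : Finset (ℤ × ℤ)) (hV1 : ∀ f ∈ V, f.1 ≠ 0)
    (hV2 : ∀ f ∈ V, ∀ g ∈ V, f ≠ g → f.1 * g.2 - g.1 * f.2 ≠ 0) (δ : ℝ) (hδ : 0 < δ)
    (E r e g : ℕ) (hE : 1 ≤ E) (he : 1 ≤ e) (hg : 0 < g) :
    ∃ C : ℝ, 0 < C ∧ ∀ᶠ Y : ℕ in atTop, ∀ P : ℤ[X], P.natDegree ≤ r → P ≠ 0 →
      P.leadingCoeff.natAbs ∣ g → (∀ n ∈ Icc 1 Y, (((P.eval (n : ℤ)).natAbs : ℕ) : ℝ) ≤ (Y : ℝ) ^ e) →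
      ∑ n ∈ Rg V δ Y, GG (P.eval (n : ℤ)).natAbs ^ E ≤ C * (Y / Real.log Y ^ V.card) := by
  obtain ⟨C, hC, h1⟩ := rmomr V hV1 hV2 δ hδ E r e hE he
  have hGG : 0 < GG g ^ E := pow_pos (zero_lt_one.trans_le (one_le_GG hg)) _
  refine ⟨C * GG g ^ E, by positivity, ?_⟩
  filter_upwards [h1] with Y hY P hP hP0 hl hb
  refine hY (fun n => P.eval (n : ℤ)) g hg hb ?_
  intro p hp hpg
  obtain ⟨R, hR1, hR2⟩ := roots_mod P p hp (fun h => hpg (by
    have h3 : p ∣ P.leadingCoeff.natAbs := Int.natCast_dvd.1 h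
    exact h3.trans hl))
  exact ⟨R, hR1.trans hP, hR2⟩

/-- the polynomial `Q (X + h) - c` -/
theorem shift_poly (Q : ℤ[X]) (hd : 1 ≤ Q.natDegree) (h : ℕ) (c : ℤ) :
    (Q.comp (X + C (h : ℤ)) - C c).natDegree = Q.natDegree ∧
    (Q.comp (X + C (h : ℤ)) - C c).leadingCoeff = Q.leadingCoeff ∧
    ∀ n : ℤ, (Q.comp (X + C (h : ℤ)) - C c).eval n = Q.eval (n + h) - c := by
  have h1 : (Q.comp (X + C (h : ℤ))).natDegree = Q.natDegree := by
    rw [natDegree_comp, natDegree_X_add_C, mul_one]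
  have h2 : (Q.comp (X + C (h : ℤ)) - C c).natDegree = Q.natDegree := by
    rw [natDegree_sub_C, h1]
  refine ⟨h2, ?_, ?_⟩
  · rw [leadingCoeff, h2, coeff_sub, coeff_C, if_neg (by omega), sub_zero]
    have h3 : (Q.comp (X + C (h : ℤ))).leadingCoeff = Q.leadingCoeff := by
      rw [leadingCoeff_comp (by rw [natDegree_X_add_C]; exact one_ne_zero), leadingCoeff_X_add_C, one_pow,
        mul_one]
    rw [leadingCoeff, h1] at h3
    exact h3
  · intro n
    simp [eval_comp]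

/-- bound for the values of the polynomials which are used -/
theorem val_bd (Q : ℤ[X]) (Hm : ℕ) : ∀ᶠ Y : ℕ in atTop, ∀ n m : ℕ, n ≤ Y → m ≤ Y → ∀ a b : ℕ,
    a ≤ Hm → b ≤ Hm →
    (((Q.eval ((n : ℤ) + a) - Q.eval ((m : ℤ) + b)).natAbs : ℕ) : ℝ) ≤ (Y : ℝ) ^ (2 * Q.natDegree + 2) := by
  obtain ⟨B, hB⟩ := eval_le Q
  filter_upwards [eventually_ge_atTop (2 * B + Hm + 2)] with Y hY n m hn hm a b ha hb
  have key : ∀ n a : ℕ, n ≤ Y → a ≤ Hm → (Q.eval ((n : ℤ) + a)).natAbs ≤ B * (2 * Y) ^ Q.natDegree := by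
    intro n a hn ha
    refine (hB _).trans (Nat.mul_le_mul_left _ (Nat.pow_le_pow_left ?_ _))
    omega
  have h1 : (Q.eval ((n : ℤ) + a) - Q.eval ((m : ℤ) + b)).natAbs ≤ 2 * B * (2 * Y) ^ Q.natDegree := by
    refine (Int.natAbs_sub_le _ _).trans ?_
    have := key n a hn ha
    have := key m b hm hb
    nlinarith
  have h2 : 2 * B * (2 * Y) ^ Q.natDegree ≤ Y ^ (2 * Q.natDegree + 2) := by
    calc 2 * B * (2 * Y) ^ Q.natDegree ≤ Y * (Y * Y) ^ Q.natDegree := by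
          apply Nat.mul_le_mul (by omega)
          apply Nat.pow_le_pow_left
          apply Nat.mul_le_mul_right
          omega
      _ = Y ^ (2 * Q.natDegree + 1) := by ring
      _ ≤ Y ^ (2 * Q.natDegree + 2) := Nat.pow_le_pow_right (by omega) (by omega)
  exact_mod_cast h1.trans h2

/-- the moments which are needed -/
theorem moms (V : Finset (ℤ × ℤ)) (hV1 : ∀ f ∈ V, f.1 ≠ 0)
    (hV2 : ∀ f ∈ V, ∀ g ∈ V, f ≠ g → f.1 * g.2 - g.1 * f.2 ≠ 0) (δ : ℝ) (hδ : 0 < δ)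
    (Q : ℤ[X]) (hd : 1 ≤ Q.natDegree) {ι : Type} [Fintype ι] [DecidableEq ι] (h : ι → ℕ)
    (hh : Function.Injective h) (E : ℕ) (hE : 1 ≤ E) :
    ∃ c₀ : ℝ, 0 < c₀ ∧ ∀ᶠ Y : ℕ in atTop,
      (((Rg V δ Y).card : ℕ) : ℝ) ≤ c₀ * (Y / Real.log Y ^ V.card) ∧
      (∀ m ≤ Y, ∀ q q', ∑ n ∈ Rg V δ Y,
        GG (Q.eval ((n : ℤ) + h q) - Q.eval ((m : ℤ) + h q')).natAbs ^ E ≤
          c₀ * (Y / Real.log Y ^ V.card)) ∧
      ∀ q q', q ≠ q' → ∑ n ∈ Rg V δ Y,
        GG (Q.eval ((n : ℤ) + h q) - Q.eval ((n : ℤ) + h q')).natAbs ^ E ≤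
          c₀ * (Y / Real.log Y ^ V.card) := by
  classical
  set S : Finset (ι × ι) := (univ : Finset ι).offDiag with hS
  set PP : ι × ι → ℤ[X] := fun x => Q.comp (X + C (h x.1 : ℤ)) - Q.comp (X + C (h x.2 : ℤ)) with hPP
  have hPev : ∀ x n, (PP x).eval n = Q.eval (n + h x.1) - Q.eval (n + h x.2) := by
    intro x n
    simp [hPP, eval_comp]
  obtain ⟨m₀, hm₀⟩ := inj_ev Q hd
  have hPne : ∀ x ∈ S, PP x ≠ 0 := by
    intro x hx h0
    rw [hS, mem_offDiag] at hx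
    have h1 := hPev x m₀
    rw [h0, eval_zero] at h1
    have h2 := hm₀ (m₀ + h x.1) (m₀ + h x.2) (by omega) (by omega) (by linarith)
    have h3 : h x.1 = h x.2 := by
      have : (h x.1 : ℤ) = h x.2 := by linarith
      exact_mod_cast this
    exact hx.2.2 (hh h3)
  have hPd : ∀ x, (PP x).natDegree ≤ Q.natDegree := by
    intro x
    refine (natDegree_sub_le _ _).trans ?_
    rw [natDegree_comp, natDegree_comp, natDegree_X_add_C, natDegree_X_add_C, mul_one, max_self]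
  set g : ℕ := Q.leadingCoeff.natAbs * ∏ x ∈ S, (PP x).leadingCoeff.natAbs with hg
  have hQ0 : Q ≠ 0 := by
    rintro rfl
    simp at hd
  have hg0 : 0 < g := by
    rw [hg]
    apply Nat.mul_pos
    · exact Int.natAbs_pos.2 (leadingCoeff_ne_zero.2 hQ0)
    · apply Finset.prod_pos
      intro x hx
      exact Int.natAbs_pos.2 (leadingCoeff_ne_zero.2 (hPne x hx))
  obtain ⟨c₀, hc₀, h1⟩ := momPoly V hV1 hV2 δ hδ E Q.natDegree (2 * Q.natDegree + 2) g hE (by omega) hg0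
  set Hm : ℕ := ∑ i, h i with hHm
  have hHb : ∀ i, h i ≤ Hm := fun i => single_le_sum (f := h) (fun _ _ => Nat.zero_le _) (mem_univ i)
  refine ⟨c₀, hc₀, ?_⟩
  filter_upwards [h1, val_bd Q Hm, eventually_ge_atTop 1] with Y hY hb hY1
  refine ⟨?_, ?_, ?_⟩
  · have h2 := hY 1 (by simp) one_ne_zero (by simp) (by
      intro n hn
      simp only [eval_one, Int.natAbs_one, Nat.cast_one]
      exact one_le_pow₀ (by exact_mod_cast hY1))
    simp only [eval_one, Int.natAbs_one] at h2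
    have h3 : GG 1 = 1 := by simp [GG]
    rw [h3] at h2
    simpa using h2
  · intro m hm q q'
    obtain ⟨e1, e2, e3⟩ := shift_poly Q hd (h q) (Q.eval ((m : ℤ) + h q'))
    have h2 := hY (Q.comp (X + C (h q : ℤ)) - C (Q.eval ((m : ℤ) + h q'))) e1.le (by
      intro h0
      rw [h0] at e1
      simp at e1
      omega) (by rw [e2, hg]; exact dvd_mul_right _ _) (by
      intro n hn
      rw [e3]
      exact hb n m (mem_Icc.1 hn).2 hm _ _ (hHb _) (hHb _))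
    refine le_trans (le_of_eq (sum_congr rfl fun n _ => ?_)) h2
    rw [e3]
  · intro q q' hqq
    have hx : (q, q') ∈ S := by
      rw [hS, mem_offDiag]
      exact ⟨mem_univ _, mem_univ _, hqq⟩
    have h2 := hY (PP (q, q')) (hPd _) (hPne _ hx) (by
      rw [hg]
      exact (dvd_prod_of_mem (fun x => (PP x).leadingCoeff.natAbs) hx).mul_left _) (by
      intro n hn
      rw [hPev]
      exact hb n n (mem_Icc.1 hn).2 (mem_Icc.1 hn).2 _ _ (hHb _) (hHb _))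
    refine le_trans (le_of_eq (sum_congr rfl fun n _ => ?_)) h2
    rw [hPev]

/-! ### the second moment -/

/-- the constants attached to `m` -/
noncomputable def Bs (Q : ℤ[X]) {ι : Type} [Fintype ι] (h : ι → ℕ) (m : ℕ) : Finset ℤ := by
  classical
  exact univ.image (fun q => Q.eval ((m : ℤ) + h q))

theorem Us_inter (B B' : Finset ℤ) (δ : ℝ) (X : ℕ) :
    Us B δ X ∩ Us B' δ X = Us (B ∪ B') δ X := by
  classical
  ext N
  unfold Us
  simp only [mem_inter, mem_filter, mem_union]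
  constructor
  · rintro ⟨⟨h1, h2⟩, -, h3⟩
    exact ⟨h1, fun b hb => hb.elim (h2 b) (h3 b)⟩
  · rintro ⟨h1, h2⟩
    exact ⟨⟨h1, fun b hb => h2 b (Or.inl hb)⟩, h1, fun b hb => h2 b (Or.inr hb)⟩

theorem fin_alg (A B p q m : ℝ) (hA : 0 ≤ A) (hB : 0 ≤ B) (h1 : 0 ≤ m * p) (h2 : 0 ≤ m ^ 2 * q) :
    A * p * m + B * q * m ^ 2 ≤ (A + B) * (m * p + m ^ 2 * q) := by
  nlinarith [mul_nonneg hA h2, mul_nonneg hB h1]

theorem sec (V : Finset (ℤ × ℤ)) (hV1 : ∀ f ∈ V, f.1 ≠ 0)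
    (hV2 : ∀ f ∈ V, ∀ g ∈ V, f ≠ g → f.1 * g.2 - g.1 * f.2 ≠ 0) (δ' : ℝ) (hδ' : 0 < δ')
    (Q : ℤ[X]) (hd : 1 ≤ Q.natDegree) {ι : Type} [Fintype ι] [DecidableEq ι] [Nonempty ι] (h : ι → ℕ)
    (hh : Function.Injective h) (δ : ℝ) (hδ : 0 < δ) :
    ∃ C : ℝ, 0 < C ∧ ∃ m₀ Y₀ X₀ : ℕ, ∀ Y : ℕ, Y₀ ≤ Y → ∀ X : ℕ, X₀ ≤ X → ∀ R ⊆ Rg V δ' Y,
      (∀ m ∈ R, m₀ ≤ m) →
      ∑ m ∈ R, ∑ m' ∈ R, (((Us (Bs Q h m) δ X ∩ Us (Bs Q h m') δ X).card : ℕ) : ℝ) ≤
        C * ((Y / Real.log Y ^ V.card) * (X / Real.log X ^ Fintype.card ι) +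
          (Y / Real.log Y ^ V.card) ^ 2 * (X / Real.log X ^ (2 * Fintype.card ι))) := by
  classical
  set t : ℕ := Fintype.card ι with ht
  have ht1 : 1 ≤ t := Fintype.card_pos
  obtain ⟨m₀, hm₀⟩ := inj_ev Q hd
  obtain ⟨C₁, hC₁, hu1⟩ := ub t δ hδ
  obtain ⟨C₂, hC₂, hu2⟩ := ub (2 * t) δ hδ
  set S₁ : Finset (ι × ι) := (univ : Finset ι).offDiag with hS₁
  set S₂ : Finset ((ι ⊕ ι) × (ι ⊕ ι)) := (univ : Finset (ι ⊕ ι)).offDiag with hS₂
  obtain ⟨C₃, hC₃, hm1⟩ := moms V hV1 hV2 δ' hδ' Q hd h hh (t * S₁.card + 1) (by omega)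
  obtain ⟨C₄, hC₄, hm2⟩ := moms V hV1 hV2 δ' hδ' Q hd h hh (2 * t * S₂.card) (by
    have : 0 < S₂.card := by
      rw [Finset.card_pos]
      obtain ⟨i⟩ := ‹Nonempty ι›
      refine ⟨(Sum.inl i, Sum.inr i), ?_⟩
      rw [hS₂, mem_offDiag]
      exact ⟨mem_univ _, mem_univ _, by simp⟩
    have : 0 < 2 * t * S₂.card := by positivity
    omega)
  obtain ⟨Y₁, hY₁⟩ := eventually_atTop.1 hm1
  obtain ⟨Y₂, hY₂⟩ := eventually_atTop.1 hm2
  obtain ⟨X₁, hX₁⟩ := eventually_atTop.1 hu1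
  obtain ⟨X₂, hX₂⟩ := eventually_atTop.1 hu2
  refine ⟨t ^ 2 * C₁ * (C₃ + S₁.card * C₃) + C₂ * (C₄ * C₄ + S₂.card * (C₄ * C₄)), by positivity,
    m₀, max Y₁ (max Y₂ 3), max X₁ (max X₂ 3), ?_⟩
  intro Y hY X hX R hR hRm
  have hYY₁ : Y₁ ≤ Y := (le_max_left _ _).trans hY
  have hYY₂ : Y₂ ≤ Y := ((le_max_left _ _).trans (le_max_right _ _)).trans hY
  have hXX₁ : X₁ ≤ X := (le_max_left _ _).trans hX
  have hXX₂ : X₂ ≤ X := ((le_max_left _ _).trans (le_max_right _ _)).trans hX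
  obtain ⟨a1, -, a3⟩ := hY₁ Y hYY₁
  obtain ⟨b1, b2, b3⟩ := hY₂ Y hYY₂
  set 𝓜 : ℝ := Y / Real.log Y ^ V.card with h𝓜
  have hY3 : 3 ≤ Y := ((le_max_right _ _).trans (le_max_right _ _)).trans hY
  have hX3 : 3 ≤ X := ((le_max_right _ _).trans (le_max_right _ _)).trans hX
  have hlogY : 0 < Real.log Y := Real.log_pos (by exact_mod_cast (by omega : 1 < Y))
  have hlogX : 0 < Real.log X := Real.log_pos (by exact_mod_cast (by omega : 1 < X))
  have hY0 : (0 : ℝ) < Y := by exact_mod_cast (by omega : 0 < Y)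
  have hX0 : (0 : ℝ) < X := by exact_mod_cast (by omega : 0 < X)
  have h𝓜0 : 0 < 𝓜 := by positivity
  set P₁ : ℝ := X / Real.log X ^ t with hP₁
  set P₂ : ℝ := X / Real.log X ^ (2 * t) with hP₂
  have hP₁0 : 0 < P₁ := by positivity
  have hP₂0 : 0 < P₂ := by positivity
  have hRY : ∀ m ∈ R, m ≤ Y := by
    intro m hm
    have := hR hm
    unfold Rg at this
    exact (mem_Icc.1 (mem_filter.1 this).1).2
  -- injectivity
  have hinj1 : ∀ m ∈ R, Function.Injective (fun q => Q.eval ((m : ℤ) + h q)) := by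
    intro m hm q q' hqq
    have h1 := hRm m hm
    have h2 := hm₀ ((m : ℤ) + h q) ((m : ℤ) + h q') (by omega) (by omega) hqq
    apply hh
    have : (h q : ℤ) = h q' := by linarith
    exact_mod_cast this
  have hBc : ∀ m ∈ R, (Bs Q h m).card = t := by
    intro m hm
    unfold Bs
    rw [card_image_of_injective _ (hinj1 m hm), card_univ]
  -- one argument
  have hone : ∀ m ∈ R, (((Us (Bs Q h m) δ X).card : ℕ) : ℝ) ≤ C₁ * P₁ *
      (1 + ∑ x ∈ S₁, GG (Q.eval ((m : ℤ) + h x.1) - Q.eval ((m : ℤ) + h x.2)).natAbs ^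
        (t * S₁.card + 1)) := by
    intro m hm
    refine (hX₁ X hXX₁ _ (hBc m hm)).trans ?_
    apply mul_le_mul_of_nonneg_left _ (by positivity)
    have h1 := GG_Dl_le (fun q => Q.eval ((m : ℤ) + h q)) (hinj1 m hm) t
    have h2 : Bs Q h m = univ.image (fun q => Q.eval ((m : ℤ) + h q)) := by
      unfold Bs
      congr!
    rw [h2]
    refine h1.trans ?_
    gcongr with x hx
    · apply one_le_GG
      rw [Int.natAbs_pos, sub_ne_zero]
      rw [mem_offDiag] at hx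
      exact fun h3 => hx.2.2 (hinj1 m hm h3)
    · exact Nat.le_succ _
  have hsumone : ∑ m ∈ R, (((Us (Bs Q h m) δ X).card : ℕ) : ℝ) ≤
      C₁ * P₁ * (C₃ + S₁.card * C₃) * 𝓜 := by
    calc ∑ m ∈ R, (((Us (Bs Q h m) δ X).card : ℕ) : ℝ) ≤ ∑ m ∈ R, C₁ * P₁ *
          (1 + ∑ x ∈ S₁, GG (Q.eval ((m : ℤ) + h x.1) - Q.eval ((m : ℤ) + h x.2)).natAbs ^
            (t * S₁.card + 1)) := sum_le_sum hone
      _ ≤ ∑ m ∈ Rg V δ' Y, C₁ * P₁ *
          (1 + ∑ x ∈ S₁, GG (Q.eval ((m : ℤ) + h x.1) - Q.eval ((m : ℤ) + h x.2)).natAbs ^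
            (t * S₁.card + 1)) := by
          apply sum_le_sum_of_subset_of_nonneg hR
          intro m _ _
          apply mul_nonneg (by positivity)
          have : 0 ≤ ∑ x ∈ S₁, GG (Q.eval ((m : ℤ) + h x.1) - Q.eval ((m : ℤ) + h x.2)).natAbs ^
            (t * S₁.card + 1) := sum_nonneg fun x _ => pow_nonneg (GG_nonneg _) _
          linarith
      _ = C₁ * P₁ * (((Rg V δ' Y).card : ℝ) + ∑ x ∈ S₁, ∑ m ∈ Rg V δ' Y,
          GG (Q.eval ((m : ℤ) + h x.1) - Q.eval ((m : ℤ) + h x.2)).natAbs ^ (t * S₁.card + 1)) := by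
          rw [← mul_sum, sum_add_distrib, sum_comm]
          simp
      _ ≤ C₁ * P₁ * (C₃ * 𝓜 + ∑ _x ∈ S₁, C₃ * 𝓜) := by
          gcongr with x hx
          rw [hS₁, mem_offDiag] at hx
          exact a3 _ _ hx.2.2
      _ = _ := by
          rw [sum_const, nsmul_eq_mul]
          ring
  -- two arguments
  set w : ℕ → ℕ → ι ⊕ ι → ℤ := fun m m' => Sum.elim (fun q => Q.eval ((m : ℤ) + h q))
    (fun q => Q.eval ((m' : ℤ) + h q)) with hw
  set ψ : ℕ → ℕ → ℝ := fun m m' => C₂ * P₂ * (1 + ∑ x ∈ S₂,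
    GG (w m m' x.1 - w m m' x.2).natAbs ^ (2 * t * S₂.card)) with hψ
  have hψ0 : ∀ m m', 0 ≤ ψ m m' := by
    intro m m'
    apply mul_nonneg (by positivity)
    have : 0 ≤ ∑ x ∈ S₂, GG (w m m' x.1 - w m m' x.2).natAbs ^ (2 * t * S₂.card) :=
      sum_nonneg fun x _ => pow_nonneg (GG_nonneg _) _
    linarith
  set Bad : ℕ → ℕ → Prop := fun m m' => ∃ q q', m + h q = m' + h q' with hBad
  have htwo : ∀ m ∈ R, ∀ m' ∈ R, ¬ Bad m m' →
      (((Us (Bs Q h m) δ X ∩ Us (Bs Q h m') δ X).card : ℕ) : ℝ) ≤ ψ m m' := by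
    intro m hm m' hm' hb
    have hwi : Function.Injective (w m m') := by
      intro x y hxy
      have h1 := hRm m hm
      have h1' := hRm m' hm'
      rcases x with x | x <;> rcases y with y | y
      · exact congrArg _ (hinj1 m hm hxy)
      · exfalso
        apply hb
        refine ⟨x, y, ?_⟩
        have h2 := hm₀ ((m : ℤ) + h x) ((m' : ℤ) + h y) (by omega) (by omega) hxy
        exact_mod_cast h2
      · exfalso
        apply hb
        refine ⟨y, x, ?_⟩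
        have h2 := hm₀ ((m : ℤ) + h y) ((m' : ℤ) + h x) (by omega) (by omega) hxy.symm
        exact_mod_cast h2
      · exact congrArg _ (hinj1 m' hm' hxy)
    have hun : Bs Q h m ∪ Bs Q h m' = univ.image (w m m') := by
      ext z
      unfold Bs
      simp only [mem_union, mem_image, mem_univ, true_and, hw]
      constructor
      · rintro (⟨q, hq⟩ | ⟨q, hq⟩)
        · exact ⟨Sum.inl q, hq⟩
        · exact ⟨Sum.inr q, hq⟩
      · rintro ⟨q | q, hq⟩
        · exact Or.inl ⟨q, hq⟩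
        · exact Or.inr ⟨q, hq⟩
    rw [Us_inter, hun]
    have hc : (univ.image (w m m')).card = 2 * t := by
      rw [card_image_of_injective _ hwi, card_univ, Fintype.card_sum]
      omega
    refine (hX₂ X hXX₂ _ hc).trans ?_
    apply mul_le_mul_of_nonneg_left _ (by positivity)
    exact GG_Dl_le (w m m') hwi (2 * t)
  have hbadc : ∀ m ∈ R, ((R.filter (fun m' => Bad m m')).card : ℝ) ≤ (t : ℝ) ^ 2 := by
    intro m hm
    have h1 : R.filter (fun m' => Bad m m') ⊆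
        (univ : Finset (ι × ι)).image (fun x => m + h x.1 - h x.2) := by
      intro m' hm'
      obtain ⟨_, q, q', hqq⟩ := mem_filter.1 hm'
      refine mem_image.2 ⟨(q, q'), mem_univ _, ?_⟩
      simp only
      omega
    have h2 := (card_le_card h1).trans card_image_le
    rw [card_univ, Fintype.card_prod] at h2
    have h3 : ((R.filter (fun m' => Bad m m')).card : ℝ) ≤ ((t * t : ℕ) : ℝ) := by exact_mod_cast h2
    refine h3.trans (le_of_eq ?_)
    push_cast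
    ring
  have hsplit : ∀ m ∈ R, ∑ m' ∈ R, (((Us (Bs Q h m) δ X ∩ Us (Bs Q h m') δ X).card : ℕ) : ℝ) ≤
      (t : ℝ) ^ 2 * (((Us (Bs Q h m) δ X).card : ℕ) : ℝ) + ∑ m' ∈ Rg V δ' Y, ψ m m' := by
    intro m hm
    rw [← sum_filter_add_sum_filter_not R (fun m' => Bad m m')]
    apply add_le_add
    · calc ∑ m' ∈ R.filter (fun m' => Bad m m'),
            (((Us (Bs Q h m) δ X ∩ Us (Bs Q h m') δ X).card : ℕ) : ℝ)
          ≤ ∑ _m' ∈ R.filter (fun m' => Bad m m'), (((Us (Bs Q h m) δ X).card : ℕ) : ℝ) := by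
            apply sum_le_sum
            intro m' _
            rw [Nat.cast_le]
            exact card_le_card inter_subset_left
        _ = ((R.filter (fun m' => Bad m m')).card : ℝ) * (((Us (Bs Q h m) δ X).card : ℕ) : ℝ) := by
            rw [sum_const, nsmul_eq_mul]
        _ ≤ _ := mul_le_mul_of_nonneg_right (hbadc m hm) (Nat.cast_nonneg _)
    · calc ∑ m' ∈ R.filter (fun m' => ¬ Bad m m'),
            (((Us (Bs Q h m) δ X ∩ Us (Bs Q h m') δ X).card : ℕ) : ℝ)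
          ≤ ∑ m' ∈ R.filter (fun m' => ¬ Bad m m'), ψ m m' := by
            apply sum_le_sum
            intro m' hm'
            exact htwo m hm m' (mem_filter.1 hm').1 (mem_filter.1 hm').2
        _ ≤ ∑ m' ∈ Rg V δ' Y, ψ m m' := by
            apply sum_le_sum_of_subset_of_nonneg ((filter_subset _ _).trans hR)
            intro m' _ _
            exact hψ0 m m'
  have hψsum : ∑ m ∈ Rg V δ' Y, ∑ m' ∈ Rg V δ' Y, ψ m m' ≤
      C₂ * P₂ * (C₄ * C₄ + S₂.card * (C₄ * C₄)) * 𝓜 ^ 2 := by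
    have h1 : ∑ m ∈ Rg V δ' Y, ∑ m' ∈ Rg V δ' Y, ψ m m' =
        C₂ * P₂ * (((Rg V δ' Y).card : ℝ) * ((Rg V δ' Y).card : ℝ) + ∑ x ∈ S₂,
          ∑ m ∈ Rg V δ' Y, ∑ m' ∈ Rg V δ' Y,
            GG (w m m' x.1 - w m m' x.2).natAbs ^ (2 * t * S₂.card)) := by
      simp only [hψ, ← mul_sum, sum_add_distrib]
      congr 1
      congr 1
      · simp
      · have h2 : ∀ m, ∑ m' ∈ Rg V δ' Y, ∑ x ∈ S₂,
            GG (w m m' x.1 - w m m' x.2).natAbs ^ (2 * t * S₂.card) = ∑ x ∈ S₂, ∑ m' ∈ Rg V δ' Y,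
            GG (w m m' x.1 - w m m' x.2).natAbs ^ (2 * t * S₂.card) := fun m => sum_comm
        simp only [h2]
        exact sum_comm
    have hc0 : (0 : ℝ) ≤ ((Rg V δ' Y).card : ℝ) := Nat.cast_nonneg _
    have hterm : ∀ x ∈ S₂, ∑ m ∈ Rg V δ' Y, ∑ m' ∈ Rg V δ' Y,
        GG (w m m' x.1 - w m m' x.2).natAbs ^ (2 * t * S₂.card) ≤ C₄ * 𝓜 * (C₄ * 𝓜) := by
      intro x hx
      rw [hS₂, mem_offDiag] at hx
      obtain ⟨x1, x2⟩ := x
      rcases x1 with q | q <;> rcases x2 with q' | q'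
      · have hqq : q ≠ q' := fun h0 => hx.2.2 (by rw [h0])
        simp only [hw, Sum.elim_inl, sum_const, nsmul_eq_mul]
        rw [← mul_sum]
        exact mul_le_mul b1 (b3 q q' hqq) (sum_nonneg fun _ _ => pow_nonneg (GG_nonneg _) _)
          (by positivity)
      · simp only [hw, Sum.elim_inl, Sum.elim_inr]
        rw [sum_comm]
        calc ∑ m' ∈ Rg V δ' Y, ∑ m ∈ Rg V δ' Y,
              GG (Q.eval ((m : ℤ) + h q) - Q.eval ((m' : ℤ) + h q')).natAbs ^ (2 * t * S₂.card)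
            ≤ ∑ _m' ∈ Rg V δ' Y, C₄ * 𝓜 := by
              apply sum_le_sum
              intro m' hm'
              apply b2
              unfold Rg at hm'
              exact (mem_Icc.1 (mem_filter.1 hm').1).2
          _ = ((Rg V δ' Y).card : ℝ) * (C₄ * 𝓜) := by rw [sum_const, nsmul_eq_mul]
          _ ≤ _ := mul_le_mul_of_nonneg_right b1 (by positivity)
      · simp only [hw, Sum.elim_inl, Sum.elim_inr]
        calc ∑ m ∈ Rg V δ' Y, ∑ m' ∈ Rg V δ' Y,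
              GG (Q.eval ((m' : ℤ) + h q) - Q.eval ((m : ℤ) + h q')).natAbs ^ (2 * t * S₂.card)
            ≤ ∑ _m ∈ Rg V δ' Y, C₄ * 𝓜 := by
              apply sum_le_sum
              intro m hm
              apply b2
              unfold Rg at hm
              exact (mem_Icc.1 (mem_filter.1 hm).1).2
          _ = ((Rg V δ' Y).card : ℝ) * (C₄ * 𝓜) := by rw [sum_const, nsmul_eq_mul]
          _ ≤ _ := mul_le_mul_of_nonneg_right b1 (by positivity)
      · have hqq : q ≠ q' := fun h0 => hx.2.2 (by rw [h0])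
        simp only [hw, Sum.elim_inr, sum_const, nsmul_eq_mul]
        exact mul_le_mul b1 (b3 q q' hqq) (sum_nonneg fun _ _ => pow_nonneg (GG_nonneg _) _)
          (by positivity)
    rw [h1]
    calc C₂ * P₂ * (((Rg V δ' Y).card : ℝ) * ((Rg V δ' Y).card : ℝ) + ∑ x ∈ S₂,
          ∑ m ∈ Rg V δ' Y, ∑ m' ∈ Rg V δ' Y,
            GG (w m m' x.1 - w m m' x.2).natAbs ^ (2 * t * S₂.card))
        ≤ C₂ * P₂ * ((C₄ * 𝓜) * (C₄ * 𝓜) + ∑ _x ∈ S₂, C₄ * 𝓜 * (C₄ * 𝓜)) := by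
          apply mul_le_mul_of_nonneg_left _ (by positivity)
          exact add_le_add (mul_le_mul b1 b1 hc0 (by positivity)) (sum_le_sum hterm)
      _ = _ := by
          rw [sum_const, nsmul_eq_mul]
          ring
  calc ∑ m ∈ R, ∑ m' ∈ R, (((Us (Bs Q h m) δ X ∩ Us (Bs Q h m') δ X).card : ℕ) : ℝ)
      ≤ ∑ m ∈ R, ((t : ℝ) ^ 2 * (((Us (Bs Q h m) δ X).card : ℕ) : ℝ) + ∑ m' ∈ Rg V δ' Y, ψ m m') :=
        sum_le_sum hsplit
    _ = (t : ℝ) ^ 2 * ∑ m ∈ R, (((Us (Bs Q h m) δ X).card : ℕ) : ℝ) +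
        ∑ m ∈ R, ∑ m' ∈ Rg V δ' Y, ψ m m' := by
        rw [sum_add_distrib, mul_sum]
    _ ≤ (t : ℝ) ^ 2 * (C₁ * P₁ * (C₃ + S₁.card * C₃) * 𝓜) +
        ∑ m ∈ Rg V δ' Y, ∑ m' ∈ Rg V δ' Y, ψ m m' := by
        apply add_le_add
        · exact mul_le_mul_of_nonneg_left hsumone (by positivity)
        · apply sum_le_sum_of_subset_of_nonneg hR
          intro m _ _
          exact sum_nonneg fun m' _ => hψ0 m m'
    _ ≤ (t : ℝ) ^ 2 * (C₁ * P₁ * (C₃ + S₁.card * C₃) * 𝓜) +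
        C₂ * P₂ * (C₄ * C₄ + S₂.card * (C₄ * C₄)) * 𝓜 ^ 2 := by gcongr
    _ = ((t : ℝ) ^ 2 * C₁ * (C₃ + S₁.card * C₃)) * P₁ * 𝓜 +
        (C₂ * (C₄ * C₄ + S₂.card * (C₄ * C₄))) * P₂ * 𝓜 ^ 2 := by ring
    _ ≤ _ := fin_alg _ _ _ _ _ (by positivity) (by positivity) (by positivity) (by positivity)

end Pool.Agent.Helper74.FB
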