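import Mathlib
import Pool.Agent.Helper74.FB.Sec
import Pool.Agent.Helper74.FB.Low
import Pool.Agent.Helper74.OR.Core

/-! The fibred theorem: for a positive proportion of the `N ≤ X`, many of the arguments `m` of a given set
are such that the numbers `N + Q (m + h q)` form a cluster. -/

set_option autoImplicit false

namespace Pool.Agent.Helper74.FB

open Finset Filter Topology Polynomial
open Pool.Agent.H410R2 (WW)
open Pool.Agent.Helper74.OR (Rg pz)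
open Pool.Agent.Helper74.AE (WW_pos)

theorem fin_alg2 (κ₁ C 𝓜 X L Z S : ℝ) (hC : 0 < C) (h𝓜 : 0 < 𝓜) (hX : 0 < X)
    (hL : 0 < L) (hZ : 0 ≤ Z) (hLM : L ≤ 𝓜) (h1 : (κ₁ * 𝓜 / L * X / 2) ^ 2 ≤ Z * S)
    (h2 : S ≤ C * (𝓜 * (X / L) + 𝓜 ^ 2 * (X / L ^ 2))) : κ₁ ^ 2 / (8 * C) * X ≤ Z := by
  have h3 : S ≤ C * (2 * 𝓜 ^ 2 * (X / L ^ 2)) := by
    refine h2.trans (mul_le_mul_of_nonneg_left ?_ hC.le)
    have h4 : 𝓜 * (X / L) ≤ 𝓜 ^ 2 * (X / L ^ 2) := by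
      have e : 𝓜 ^ 2 * (X / L ^ 2) = 𝓜 * (X / L) * (𝓜 / L) := by field_simp
      rw [e]
      exact le_mul_of_one_le_right (by positivity) ((one_le_div hL).2 hLM)
    linarith
  have h5 : (κ₁ * 𝓜 / L * X / 2) ^ 2 ≤ Z * (C * (2 * 𝓜 ^ 2 * (X / L ^ 2))) :=
    h1.trans (mul_le_mul_of_nonneg_left h3 hZ)
  have h6 : (κ₁ * 𝓜 / L * X / 2) ^ 2 = (κ₁ ^ 2 / (8 * C) * X) * (C * (2 * 𝓜 ^ 2 * (X / L ^ 2))) := by
    field_simp
    ring
  rw [h6] at h5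
  exact le_of_mul_le_mul_right h5 (by positivity)

open Classical in
theorem gen (T M : ℕ) (hTM : (18 / 5 : ℝ) * M < T) : ∃ K : ℕ, ∃ _ : NeZero K, 2 ≤ K ∧ ∃ δ : ℝ,
    0 < δ ∧ ∃ D₀ : ℕ, ∀ D : ℕ, D₀ ≤ D → ∀ Q : ℤ[X], 1 ≤ Q.natDegree →
    ∀ h : Option (Fin (T * K)) → ℕ, Function.Injective h →
    ∀ V : Finset (ℤ × ℤ), (∀ f ∈ V, f.1 ≠ 0) →
    (∀ f ∈ V, ∀ g ∈ V, f ≠ g → f.1 * g.2 - g.1 * f.2 ≠ 0) → ∀ δ' : ℝ, 0 < δ' → ∀ c₁ : ℝ, 0 < c₁ →
    ∃ κ : ℝ, 0 < κ ∧ ∃ m₀ Y₀ X₀ : ℕ, ∀ Y : ℕ, Y₀ ≤ Y → ∀ X : ℕ, X₀ ≤ X → ∀ R ⊆ Rg V δ' Y,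
      (∀ m ∈ R, m₀ ≤ m) → c₁ * (Y / Real.log Y ^ V.card) ≤ R.card →
      Real.log X ^ (T * K + 1) ≤ Y / Real.log Y ^ V.card →
      (∀ m ∈ R, ∀ q, 64 * |Q.eval ((m : ℤ) + h q)| ≤ (X : ℤ)) → ∀ v : ℤ,
      (∀ m ∈ R, ∀ p ∈ (Icc 1 D).filter Nat.Prime, ∀ q, ¬ (p : ℤ) ∣ v + Q.eval ((m : ℤ) + h q)) →
      κ * X ≤ (((Icc 1 X).filter (fun N : ℕ => X ≤ 32 * N ∧ (N : ℤ) ≡ v [ZMOD (WW D : ℕ)] ∧
        κ * (Y / Real.log Y ^ V.card / Real.log X ^ (T * K + 1)) ≤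
          ((R.filter (fun m : ℕ => Gd M δ X (fun q => Q.eval ((m : ℤ) + h q)) N)).card : ℝ))).card : ℝ) := by
  obtain ⟨K, hKz, hK, δ, hδ, D₀, c, hc, H⟩ := low T M hTM
  refine ⟨K, hKz, hK, δ, hδ, D₀, ?_⟩
  intro D hD Q hd h hh V hV1 hV2 δ' hδ' c₁ hc₁
  have hW : 0 < WW D := WW_pos D
  have hWr : (0 : ℝ) < WW D := by exact_mod_cast hW
  obtain ⟨C, hC, m₁, Y₁, X₁, hsec⟩ := sec V hV1 hV2 δ' hδ' Q hd h hh δ hδ
  obtain ⟨X₂, hX₂⟩ := eventually_atTop.1 (H D hD)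
  obtain ⟨m₂, hm₂⟩ := inj_ev Q hd
  have hcard : Fintype.card (Option (Fin (T * K))) = T * K + 1 := by
    rw [Fintype.card_option, Fintype.card_fin]
  rw [hcard] at hsec
  set κ₁ : ℝ := c₁ * (c / WW D) with hκ₁
  have hκ₁0 : 0 < κ₁ := by positivity
  refine ⟨min (κ₁ ^ 2 / (8 * C)) (κ₁ / 2), lt_min (by positivity) (by positivity), max m₁ m₂,
    max Y₁ 3, max X₁ (max X₂ 3), ?_⟩
  intro Y hY X hX R hR hRm hRc hLM hbd v hcop
  have hXX₁ : X₁ ≤ X := (le_max_left _ _).trans hX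
  have hXX₂ : X₂ ≤ X := ((le_max_left _ _).trans (le_max_right _ _)).trans hX
  have hX3 : 3 ≤ X := ((le_max_right _ _).trans (le_max_right _ _)).trans hX
  have hY3 : 3 ≤ Y := (le_max_right _ _).trans hY
  have hlogY : 0 < Real.log Y := Real.log_pos (by exact_mod_cast (by omega : 1 < Y))
  have hlogX : 0 < Real.log X := Real.log_pos (by exact_mod_cast (by omega : 1 < X))
  have hY0 : (0 : ℝ) < Y := by exact_mod_cast (by omega : 0 < Y)
  have hX0 : (0 : ℝ) < X := by exact_mod_cast (by omega : 0 < X)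
  have hS := hsec Y ((le_max_left _ _).trans hY) X hXX₁ R hR
    (fun m hm => (le_max_left _ _).trans (hRm m hm))
  set 𝓜 : ℝ := Y / Real.log Y ^ V.card with h𝓜
  have h𝓜0 : 0 < 𝓜 := by positivity
  set L : ℝ := Real.log X ^ (T * K + 1) with hL
  have hL0 : 0 < L := by positivity
  have hL2 : Real.log X ^ (2 * (T * K + 1)) = L ^ 2 := by rw [hL]; ring
  rw [hL2] at hS
  set b : ℕ → Option (Fin (T * K)) → ℤ := fun m q => Q.eval ((m : ℤ) + h q) with hb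
  set G : ℕ → ℕ → Prop := fun N m => X ≤ 32 * N ∧ (N : ℤ) ≡ v [ZMOD (WW D : ℕ)] ∧ Gd M δ X (b m) N with hG
  set f : ℕ → ℝ := fun N => ((R.filter (fun m => G N m)).card : ℝ) with hf
  have hfe : ∀ N, f N = ∑ m ∈ R, if G N m then (1 : ℝ) else 0 := by
    intro N
    rw [hf]
    simp only
    rw [card_filter]
    push_cast
    rfl
  have hinj : ∀ m ∈ R, Function.Injective (b m) := by
    intro m hm q q' hqq
    have h1 : m₂ ≤ m := (le_max_right _ _).trans (hRm m hm)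
    have h2 := hm₂ ((m : ℤ) + h q) ((m : ℤ) + h q') (by omega) (by omega) hqq
    apply hh
    have : (h q : ℤ) = h q' := by linarith
    exact_mod_cast this
  -- first moment
  have hfirst : (κ₁ * 𝓜 / L) * ((Icc 1 X).card : ℝ) ≤ ∑ N ∈ Icc 1 X, f N := by
    simp only [hfe]
    rw [sum_comm]
    have h1 : ∀ m ∈ R, c / WW D * (X / L) ≤ ∑ N ∈ Icc 1 X, if G N m then (1 : ℝ) else 0 := by
      intro m hm
      have h2 := hX₂ X hXX₂ (b m) (hinj m hm) (hbd m hm) v (hcop m hm)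
      refine h2.trans ?_
      rw [card_filter]
      push_cast
      apply sum_le_sum
      intro N _
      by_cases hN : X ≤ 32 * N ∧ 2 * N ≤ 2 * X ∧ (N : ℤ) ≡ v [ZMOD (WW D : ℕ)] ∧ Gd M δ X (b m) N
      · rw [if_pos hN, if_pos ⟨hN.1, hN.2.2.1, hN.2.2.2⟩]
      · rw [if_neg hN]
        split_ifs <;> norm_num
    have h3 : (R.card : ℝ) * (c / WW D * (X / L)) ≤
        ∑ m ∈ R, ∑ N ∈ Icc 1 X, if G N m then (1 : ℝ) else 0 := by
      rw [← nsmul_eq_mul, ← sum_const]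
      exact sum_le_sum h1
    refine le_trans ?_ h3
    rw [Nat.card_Icc, Nat.add_sub_cancel]
    calc κ₁ * 𝓜 / L * (X : ℝ) = (c₁ * 𝓜) * (c / WW D * (X / L)) := by
          rw [hκ₁]; ring
      _ ≤ (R.card : ℝ) * (c / WW D * (X / L)) := mul_le_mul_of_nonneg_right hRc (by positivity)
  have hpz := pz (Icc 1 X) f (κ₁ * 𝓜 / L) (by positivity) hfirst
  rw [Nat.card_Icc, Nat.add_sub_cancel] at hpz
  -- second moment
  have hsecond : ∑ N ∈ Icc 1 X, f N ^ 2 ≤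
      ∑ m ∈ R, ∑ m' ∈ R, (((Us (Bs Q h m) δ X ∩ Us (Bs Q h m') δ X).card : ℕ) : ℝ) := by
    have h1 : ∀ N ∈ Icc 1 X, f N ^ 2 ≤ ∑ m ∈ R, ∑ m' ∈ R,
        if N ∈ Us (Bs Q h m) δ X ∩ Us (Bs Q h m') δ X then (1 : ℝ) else 0 := by
      intro N hN
      rw [hfe, sq, sum_mul_sum]
      apply sum_le_sum
      intro m _
      apply sum_le_sum
      intro m' _
      by_cases h1 : G N m
      · by_cases h2 : G N m'
        · have hmem : ∀ m, G N m → N ∈ Us (Bs Q h m) δ X := by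
            intro m hGm
            unfold Us Bs
            rw [mem_filter]
            refine ⟨hN, ?_⟩
            intro z hz p hp hpl
            obtain ⟨q, _, rfl⟩ := mem_image.1 hz
            exact hGm.2.2.1 q p hp hpl
          rw [if_pos h1, if_pos h2, if_pos (mem_inter.2 ⟨hmem m h1, hmem m' h2⟩)]
          norm_num
        · rw [if_neg h2, mul_zero]
          split_ifs <;> norm_num
      · rw [if_neg h1, zero_mul]
        split_ifs <;> norm_num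
    refine (sum_le_sum h1).trans ?_
    rw [sum_comm]
    apply sum_le_sum
    intro m _
    rw [sum_comm]
    apply sum_le_sum
    intro m' _
    rw [← sum_filter, sum_const, nsmul_eq_mul, mul_one, Nat.cast_le]
    apply card_le_card
    intro N hN
    exact (mem_filter.1 hN).2
  have hfin := fin_alg2 κ₁ C 𝓜 X L _ _ hC h𝓜0 hX0 hL0 (Nat.cast_nonneg _) hLM hpz (hsecond.trans hS)
  refine (mul_le_mul_of_nonneg_right (min_le_left _ _) hX0.le).trans (hfin.trans ?_)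
  rw [Nat.cast_le]
  apply card_le_card
  intro N hN
  obtain ⟨hN1, hN2⟩ := mem_filter.1 hN
  have hpos : 0 < f N := lt_of_lt_of_le (by positivity) hN2
  have hne : (R.filter (fun m => G N m)).Nonempty := by
    rw [← Finset.card_pos]
    have hpos' : (0 : ℝ) < ((R.filter (fun m => G N m)).card : ℝ) := hpos
    exact_mod_cast hpos'
  obtain ⟨m, hm⟩ := hne
  obtain ⟨-, hm1, hm2, -⟩ := mem_filter.1 hm
  refine mem_filter.2 ⟨hN1, hm1, hm2, ?_⟩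
  calc min (κ₁ ^ 2 / (8 * C)) (κ₁ / 2) * (𝓜 / L) ≤ κ₁ / 2 * (𝓜 / L) :=
        mul_le_mul_of_nonneg_right (min_le_right _ _) (by positivity)
    _ = κ₁ * 𝓜 / L / 2 := by ring
    _ ≤ f N := hN2
    _ ≤ _ := by
      rw [hf]
      simp only
      rw [Nat.cast_le]
      apply card_le_card
      intro m hm
      obtain ⟨h1, h2⟩ := mem_filter.1 hm
      exact mem_filter.2 ⟨h1, h2.2.2⟩

end Pool.Agent.Helper74.FB
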