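import Mathlib
import Pool.Agent.Helper74.FB.Gen
import Pool.Agent.Helper74.AE.Ap

/-! The fibred theorem in its final form. -/

set_option autoImplicit false

namespace Pool.Agent.Helper74.FB

open Finset Filter Topology Polynomial
open Pool.Agent.H410R2 (WW)
open Pool.Agent.Helper74.OR (Rg pz)
open Pool.Agent.Helper74.AE (WW_pos omega_rough)
open Pool.Agent.TH899.UG.Uni
open Pool.Agent.Z296.AP (P2)

/-- the integer `z` is a (positive) prime -/
def PrV (z : ℤ) : Prop := ∃ q : ℕ, q.Prime ∧ (q : ℤ) = z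

/-- `z > 1` has at most `r` prime factors -/
def ApV (r : ℕ) (z : ℤ) : Prop := ∃ q : ℕ, 1 < q ∧ (q : ℤ) = z ∧ q.primeFactorsList.length ≤ r

open Classical in
/-- the `m ∈ R` for which the numbers `N + Q (m + h g i)` form a cluster -/
noncomputable def Cl {T K : ℕ} (Q : ℤ[X]) (h : Fin T → Fin K → ℕ) (r : ℕ) (S : Finset (Fin T))
    (σ τ : Fin T → Fin K) (N : ℕ) (R : Finset ℕ) : Finset ℕ :=
  R.filter (fun m : ℕ => (∀ g ∈ S, PrV ((N : ℤ) + Q.eval ((m : ℤ) + h g (σ g)))) ∧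
    (∀ g, ApV 2 ((N : ℤ) + Q.eval ((m : ℤ) + h g (τ g)))) ∧
    ∀ g i, ApV r ((N : ℤ) + Q.eval ((m : ℤ) + h g i)))

theorem prV_of {z : ℤ} (h : z.toNat.Prime) : PrV z := by
  refine ⟨_, h, ?_⟩
  apply Int.toNat_of_nonneg
  by_contra hcon
  push Not at hcon
  rw [Int.toNat_of_nonpos hcon.le] at h
  exact Nat.not_prime_zero h

/-- the values are integers in `(1, X ^ 2]` -/
theorem val_of {N X : ℕ} {b : ℤ} (hX : 129 ≤ X) (hN : N ≤ X) (hN2 : X ≤ 32 * N)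
    (hb : 64 * |b| ≤ (X : ℤ)) : ∃ q : ℕ, 1 < q ∧ (q : ℤ) = N + b ∧ q ≤ X ^ 2 := by
  have h1 := le_abs_self b
  have h2 := neg_abs_le b
  have hN2' : (X : ℤ) ≤ 32 * N := by exact_mod_cast hN2
  have hN' : (N : ℤ) ≤ X := by exact_mod_cast hN
  have hX' : (129 : ℤ) ≤ X := by exact_mod_cast hX
  obtain ⟨q, hq⟩ := Int.eq_ofNat_of_zero_le (by linarith : 0 ≤ (N : ℤ) + b)
  refine ⟨q, ?_, hq.symm, ?_⟩
  · have : (1 : ℤ) < q := by rw [← hq]; linarith
    exact_mod_cast this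
  · have h3 : (q : ℤ) ≤ 2 * X := by rw [← hq]; linarith
    have h4 : q ≤ 2 * X := by exact_mod_cast h3
    nlinarith

theorem apV_of {δ : ℝ} (hδ : 0 < δ) {N X : ℕ} {b : ℤ} (hX : 129 ≤ X) (hN : N ≤ X) (hN2 : X ≤ 32 * N)
    (hb : 64 * |b| ≤ (X : ℤ))
    (h : ∀ p : ℕ, p.Prime → Real.log p ≤ δ * Real.log X → ¬ (p : ℤ) ∣ (N : ℤ) + b) :
    ApV ⌊2 / δ⌋₊ ((N : ℤ) + b) := by
  have hNr : (3 : ℝ) ≤ X := by exact_mod_cast (by omega : 3 ≤ X)
  have hlogN : 0 < Real.log X := Real.log_pos (by linarith)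
  obtain ⟨q, hq0, hq, hqN⟩ := val_of hX hN hN2 hb
  refine ⟨q, hq0, hq, ?_⟩
  have h3 := omega_rough (q := q) (y := δ * Real.log X) (by omega) (by
    intro p hp hd
    by_contra hcon
    push Not at hcon
    apply h p hp hcon.le
    rw [← hq]
    exact Int.natCast_dvd_natCast.2 hd)
  have h4 : Real.log q ≤ 2 * Real.log X := by
    have h5 : (q : ℝ) ≤ (X : ℝ) ^ 2 := by exact_mod_cast hqN
    have h6 := Real.log_le_log (by exact_mod_cast (by omega : 0 < q)) h5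
    rw [Real.log_pow] at h6
    push_cast at h6
    exact h6
  apply Nat.le_floor
  rw [le_div_iff₀ hδ]
  have h5 : (q.primeFactorsList.length : ℝ) * δ * Real.log X ≤ 2 * Real.log X := by linarith
  exact le_of_mul_le_mul_right h5 hlogN

theorem apV_two {N X : ℕ} {b : ℤ} (hX : 129 ≤ X) (hN : N ≤ X) (hN2 : X ≤ 32 * N)
    (hb : 64 * |b| ≤ (X : ℤ)) (h : P2 ((N : ℤ) + b)) : ApV 2 ((N : ℤ) + b) := by
  obtain ⟨q, hq0, hq, -⟩ := val_of hX hN hN2 hb
  refine ⟨q, hq0, hq, ?_⟩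
  unfold P2 at h
  rw [← hq, Int.natAbs_natCast] at h
  exact h

open Classical in
theorem genF (T M : ℕ) (hTM : (18 / 5 : ℝ) * M < T) : ∃ K : ℕ, 2 ≤ K ∧ ∃ r D₀ : ℕ,
    ∀ D : ℕ, D₀ ≤ D → ∀ Q : ℤ[X], 1 ≤ Q.natDegree →
    ∀ h : Fin T → Fin K → ℕ, Function.Injective (fun x : Fin T × Fin K => h x.1 x.2) →
    ∀ V : Finset (ℤ × ℤ), (∀ f ∈ V, f.1 ≠ 0) →
    (∀ f ∈ V, ∀ g ∈ V, f ≠ g → f.1 * g.2 - g.1 * f.2 ≠ 0) → ∀ δ' : ℝ, 0 < δ' → ∀ c₁ : ℝ, 0 < c₁ →
    ∃ κ : ℝ, 0 < κ ∧ ∃ C : ℕ, 1 ≤ C ∧ ∃ m₀ Y₀ : ℕ, ∀ Y : ℕ, Y₀ ≤ Y → ∀ X : ℕ, C * Y ^ Q.natDegree ≤ X →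
      Real.log X ^ (T * K + 1) ≤ Y / Real.log Y ^ V.card → ∀ R ⊆ Rg V δ' Y,
      (∀ m ∈ R, m₀ ≤ m) → c₁ * (Y / Real.log Y ^ V.card) ≤ R.card → ∀ v : ℤ,
      (∀ m ∈ R, ∀ p ∈ (Icc 1 D).filter Nat.Prime, ∀ g i,
        ¬ (p : ℤ) ∣ v + Q.eval ((m : ℤ) + h g i)) →
      κ * X ≤ (((Icc 1 X).filter (fun N : ℕ => X ≤ 32 * N ∧ (N : ℤ) ≡ v [ZMOD (WW D : ℕ)] ∧
        ∃ (S : Finset (Fin T)) (σ τ : Fin T → Fin K), M + 1 ≤ S.card ∧
        κ * (Y / Real.log Y ^ V.card / Real.log X ^ (T * K + 1)) ≤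
          ((Cl Q h r S σ τ N R).card : ℝ))).card : ℝ) := by
  obtain ⟨K, hKz, hK, δ, hδ, D₀, H⟩ := gen T M hTM
  refine ⟨K, hK, ⌊2 / δ⌋₊, D₀, ?_⟩
  intro D hD Q hd h hh V hV1 hV2 δ' hδ' c₁ hc₁
  have hT : 1 ≤ T := by
    have h1 : (0 : ℝ) ≤ M := Nat.cast_nonneg M
    have h2 : (0 : ℝ) < T := by linarith
    exact_mod_cast h2
  have hW : 0 < WW D := WW_pos D
  set Hm : ℕ := ∑ x : Fin T × Fin K, h x.1 x.2 with hHm
  have hHb : ∀ g i, h g i ≤ Hm := fun g i =>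
    single_le_sum (f := fun x : Fin T × Fin K => h x.1 x.2) (fun _ _ => Nat.zero_le _) (mem_univ (g, i))
  set g₀ : Fin T := ⟨0, hT⟩ with hg₀
  set i₀ : Fin K := ⟨0, by omega⟩ with hi₀
  set h₀ : ℕ := h g₀ i₀ + WW D * (1 + Hm) with hh₀
  have hh₀m : Hm < h₀ := by
    have : 1 * (1 + Hm) ≤ WW D * (1 + Hm) := Nat.mul_le_mul_right _ hW
    omega
  set h' : Option (Fin (T * K)) → ℕ := fun q => match q with
    | none => h₀
    | some i => h (cl i) (sx i) with hh'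
  have hh'i : Function.Injective h' := by
    intro q q' hqq
    rcases q with _ | i <;> rcases q' with _ | j
    · rfl
    · exfalso
      have h1 : h₀ = h (cl j) (sx j) := hqq
      have h2 := hHb (cl j) (sx j)
      omega
    · exfalso
      have h1 : h (cl i) (sx i) = h₀ := hqq
      have h2 := hHb (cl i) (sx i)
      omega
    · have h1 : h (cl i) (sx i) = h (cl j) (sx j) := hqq
      have h2 := hh (a₁ := (cl i, sx i)) (a₂ := (cl j, sx j)) h1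
      have h3 := Prod.ext_iff.1 h2
      simp only at h3
      rw [← ix_cl i, ← ix_cl j, h3.1, h3.2]
  obtain ⟨κ, hκ, m₀, Y₀, X₀, hgen⟩ := H D hD Q hd h' hh'i V hV1 hV2 δ' hδ' c₁ hc₁
  obtain ⟨B, hB⟩ := eval_le Q
  set P : ℕ := 2 ^ T * K ^ T * K ^ T with hP
  have hP0 : 0 < P := by rw [hP]; positivity
  have hPr : (0 : ℝ) < P := by exact_mod_cast hP0
  have hP1 : (1 : ℝ) ≤ P := by exact_mod_cast hP0
  refine ⟨κ / P, by positivity, 64 * B * 2 ^ Q.natDegree + 1, by omega, m₀,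
    max Y₀ (max X₀ (max 129 (1 + h₀))), ?_⟩
  intro Y hY X hX hLM R hR hRm hRc v hcop
  have hYY : Y₀ ≤ Y := (le_max_left _ _).trans hY
  have hYX : X₀ ≤ Y := ((le_max_left _ _).trans (le_max_right _ _)).trans hY
  have hY129 : 129 ≤ Y := ((le_max_left _ _).trans ((le_max_right _ _).trans (le_max_right _ _))).trans hY
  have hYh : 1 + h₀ ≤ Y := ((le_max_right _ _).trans ((le_max_right _ _).trans (le_max_right _ _))).trans hY
  have hYd : Y ≤ Y ^ Q.natDegree := Nat.le_self_pow (by omega) Y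
  have hXY : Y ≤ X := by
    calc Y ≤ Y ^ Q.natDegree := hYd
      _ ≤ (64 * B * 2 ^ Q.natDegree + 1) * Y ^ Q.natDegree := Nat.le_mul_of_pos_left _ (by omega)
      _ ≤ X := hX
  have hh'b : ∀ q, h' q ≤ h₀ := by
    intro q
    rcases q with _ | i
    · exact le_rfl
    · exact (hHb (cl i) (sx i)).trans hh₀m.le
  have hbd : ∀ m ∈ R, ∀ q, 64 * |Q.eval ((m : ℤ) + h' q)| ≤ (X : ℤ) := by
    intro m hm q
    have hmY : m ≤ Y := by
      have := hR hm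
      unfold Rg at this
      exact (mem_Icc.1 (mem_filter.1 this).1).2
    have h1 := hB ((m : ℤ) + h' q)
    have h2 : 1 + ((m : ℤ) + h' q).natAbs ≤ 2 * Y := by
      have := hh'b q
      omega
    have h3 : (Q.eval ((m : ℤ) + h' q)).natAbs ≤ B * (2 * Y) ^ Q.natDegree :=
      h1.trans (Nat.mul_le_mul_left _ (Nat.pow_le_pow_left h2 _))
    have h4 : 64 * (Q.eval ((m : ℤ) + h' q)).natAbs ≤ X := by
      calc 64 * (Q.eval ((m : ℤ) + h' q)).natAbs ≤ 64 * (B * (2 * Y) ^ Q.natDegree) :=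
            Nat.mul_le_mul_left _ h3
        _ = (64 * B * 2 ^ Q.natDegree) * Y ^ Q.natDegree := by rw [mul_pow]; ring
        _ ≤ (64 * B * 2 ^ Q.natDegree + 1) * Y ^ Q.natDegree := Nat.mul_le_mul_right _ (by omega)
        _ ≤ X := hX
    rw [Int.abs_eq_natAbs]
    exact_mod_cast h4
  have hcop' : ∀ m ∈ R, ∀ p ∈ (Icc 1 D).filter Nat.Prime, ∀ q,
      ¬ (p : ℤ) ∣ v + Q.eval ((m : ℤ) + h' q) := by
    intro m hm p hp q hd
    rcases q with _ | i
    · apply hcop m hm p hp g₀ i₀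
      have hpW : (p : ℤ) ∣ ((WW D : ℕ) : ℤ) := by
        rw [WW]
        exact_mod_cast dvd_prod_of_mem _ hp
      have h1 : (p : ℤ) ∣ Q.eval ((m : ℤ) + h₀) - Q.eval ((m : ℤ) + h g₀ i₀) := by
        refine dvd_trans ?_ (sub_dvd_eval_sub ((m : ℤ) + h₀) ((m : ℤ) + h g₀ i₀) Q)
        have e : (m : ℤ) + h₀ - (m + h g₀ i₀) = (WW D : ℕ) * (1 + Hm) := by
          rw [hh₀]
          push_cast
          ring
        rw [e]
        exact hpW.mul_right _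
      have h2 : (p : ℤ) ∣ v + Q.eval ((m : ℤ) + h₀) := hd
      have h3 := dvd_sub h2 h1
      have e2 : v + Q.eval ((m : ℤ) + h₀) - (Q.eval ((m : ℤ) + h₀) - Q.eval ((m : ℤ) + h g₀ i₀)) =
          v + Q.eval ((m : ℤ) + h g₀ i₀) := by ring
      rwa [e2] at h3
    · exact hcop m hm p hp (cl i) (sx i) hd
  have hmain := hgen Y hYY X (hYX.trans hXY) R hR hRm hRc hLM hbd v hcop'
  have hX0 : (0 : ℝ) ≤ X := Nat.cast_nonneg X
  have hκP : κ / P ≤ κ := div_le_self hκ.le hP1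
  refine (mul_le_mul_of_nonneg_right hκP hX0).trans (hmain.trans ?_)
  rw [Nat.cast_le]
  apply card_le_card
  intro N hN
  obtain ⟨hN1, hN2, hN3, hN4⟩ := mem_filter.1 hN
  refine mem_filter.2 ⟨hN1, hN2, hN3, ?_⟩
  have hNX := (mem_Icc.1 hN1).2
  have hX129 : 129 ≤ X := hY129.trans hXY
  -- pigeonhole
  set Z : ℝ := Y / Real.log Y ^ V.card / Real.log X ^ (T * K + 1) with hZ
  set QQ : Finset (Finset (Fin T) × (Fin T → Fin K) × (Fin T → Fin K)) :=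
    univ.filter (fun q => M + 1 ≤ q.1.card) with hQQ
  have hsub : R.filter (fun m : ℕ => Gd M δ X (fun q => Q.eval ((m : ℤ) + h' q)) N) ⊆
      QQ.biUnion (fun q => Cl Q h ⌊2 / δ⌋₊ q.1 q.2.1 q.2.2 N R) := by
    intro m hm
    obtain ⟨hmR, hr, S, σ, τ, hS, hτ, hσ⟩ := mem_filter.1 hm
    refine mem_biUnion.2 ⟨(S, σ, τ), mem_filter.2 ⟨mem_univ _, hS⟩, ?_⟩
    have hix : ∀ g i, h' (some (ix g i)) = h g i := by
      intro g i
      have e1 : cl (ix g i) = g := cl_ix g i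
      have e2 : sx (ix g i) = i := by
        unfold sx ix
        rw [Equiv.symm_apply_apply]
      show h (cl (ix g i)) (sx (ix g i)) = h g i
      rw [e1, e2]
    unfold Cl
    refine mem_filter.2 ⟨hmR, ?_, ?_, ?_⟩
    · intro g hg
      have h1 := hσ g hg
      beta_reduce at h1
      rw [hix] at h1
      exact prV_of h1
    · intro g
      have h1 := hτ g
      have h2 := hbd m hmR (some (ix g (τ g)))
      beta_reduce at h1
      rw [hix] at h1 h2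
      exact apV_two hX129 hNX hN2 h2 h1
    · intro g i
      have h1 := hr (some (ix g i))
      have h2 := hbd m hmR (some (ix g i))
      beta_reduce at h1
      rw [hix] at h1 h2
      exact apV_of hδ hX129 hNX hN2 h2 h1
  by_contra hcon
  push Not at hcon
  have e1 := (Nat.cast_le (α := ℝ)).2 ((card_le_card hsub).trans card_biUnion_le)
  rw [Nat.cast_sum] at e1
  have e3 : QQ.card ≤ P := by
    refine (card_le_univ _).trans ?_
    rw [Fintype.card_prod, Fintype.card_prod, Fintype.card_finset, Fintype.card_fun, Fintype.card_fin,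
      Fintype.card_fin, hP, mul_assoc]
  have e4 : (QQ.card : ℝ) ≤ P := by exact_mod_cast e3
  have hY3 : (1 : ℝ) < Y := by exact_mod_cast (by omega : 1 < Y)
  have hX3 : (1 : ℝ) < X := by exact_mod_cast (by omega : 1 < X)
  have hlogY : 0 < Real.log Y := Real.log_pos hY3
  have hlogX : 0 < Real.log X := Real.log_pos hX3
  have hZ0 : 0 < Z := by positivity
  have h5 : ∀ q ∈ QQ, ((Cl Q h ⌊2 / δ⌋₊ q.1 q.2.1 q.2.2 N R).card : ℝ) ≤ κ / P * Z := by
    intro q hq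
    exact (hcon q.1 q.2.1 q.2.2 (mem_filter.1 hq).2).le
  rcases QQ.eq_empty_or_nonempty with hQe | hQne
  · rw [hQe, Finset.sum_empty] at e1
    have := hN4.trans e1
    nlinarith
  · have e2 : ∑ q ∈ QQ, ((Cl Q h ⌊2 / δ⌋₊ q.1 q.2.1 q.2.2 N R).card : ℝ) < ∑ _q ∈ QQ, κ / P * Z := by
      apply Finset.sum_lt_sum_of_nonempty hQne
      intro q hq
      exact hcon q.1 q.2.1 q.2.2 (mem_filter.1 hq).2
    rw [Finset.sum_const, nsmul_eq_mul] at e2
    have e5 : (QQ.card : ℝ) * (κ / P * Z) ≤ P * (κ / P * Z) :=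
      mul_le_mul_of_nonneg_right e4 (by positivity)
    have e6 : (P : ℝ) * (κ / P * Z) = κ * Z := by
      field_simp
    rw [e6] at e5
    have := hN4.trans e1
    linarith

end Pool.Agent.Helper74.FB
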