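import Mathlib
import Pool.Agent.Helper74.FB.Sec

/-! The second moment in an abstract form: constants `e m q`, `m ∈ R`, with moment hypotheses. -/

set_option autoImplicit false

namespace Pool.Agent.Helper74.FB

open Finset Filter Topology
open Pool.Agent.Erdos456

/-- the constants attached to `m` -/
noncomputable def Be {ι : Type} [Fintype ι] (e : ℕ → ι → ℤ) (m : ℕ) : Finset ℤ := by
  classical
  exact univ.image (e m)

/-- the exponent of the moments -/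
noncomputable def EE (ι : Type) [Fintype ι] : ℕ := by
  classical
  exact 2 * Fintype.card ι * (univ : Finset (ι ⊕ ι)).offDiag.card

theorem fin_alg3 (C₁ C₂ C' M p q b s₁ s₂ : ℝ) (hC₁ : 0 ≤ C₁) (hC₂ : 0 ≤ C₂) (hC' : 1 ≤ C') (hM : 0 ≤ M)
    (hp : 0 ≤ p) (hq : 0 ≤ q) (hb : 0 ≤ b) (h1 : 0 ≤ s₁) (h2 : 0 ≤ s₂) :
    b * (C₁ * p * (C' * M + s₁ * (C' * M))) + C₂ * q * ((C' * M) ^ 2 + s₂ * (C' * M) ^ 2) ≤
      ((b * C₁ * (1 + s₁) + C₂ * (1 + s₂)) * C' ^ 2) * (M * p + M ^ 2 * q) := by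
  have hC2 : C' ≤ C' ^ 2 := by nlinarith
  have e1 : 0 ≤ b * C₁ * (1 + s₁) := by positivity
  have e2 : 0 ≤ C₂ * (1 + s₂) := by positivity
  have e3 : b * (C₁ * p * (C' * M + s₁ * (C' * M))) = (b * C₁ * (1 + s₁)) * (M * p) * C' := by ring
  have e4 : C₂ * q * ((C' * M) ^ 2 + s₂ * (C' * M) ^ 2) = (C₂ * (1 + s₂)) * (M ^ 2 * q) * C' ^ 2 := by ring
  have e5 : (b * C₁ * (1 + s₁)) * (M * p) * C' ≤ (b * C₁ * (1 + s₁)) * (M * p) * C' ^ 2 :=
    mul_le_mul_of_nonneg_left hC2 (by positivity)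
  have e6 : 0 ≤ (b * C₁ * (1 + s₁)) * (M ^ 2 * q) * C' ^ 2 := by positivity
  have e7 : 0 ≤ (C₂ * (1 + s₂)) * (M * p) * C' ^ 2 := by positivity
  rw [e3, e4]
  nlinarith

theorem secA (ι : Type) [Fintype ι] [DecidableEq ι] [Nonempty ι] (δ : ℝ) (hδ : 0 < δ) :
    ∃ C : ℝ, 0 < C ∧ ∃ X₀ : ℕ, ∀ X : ℕ, X₀ ≤ X → ∀ (R : Finset ℕ) (e : ℕ → ι → ℤ) (Bad : ℕ → ℕ → Prop)
      (C' M : ℝ), 1 ≤ C' → 0 ≤ M →
      (∀ m ∈ R, Function.Injective (e m)) →
      (∀ m ∈ R, ∀ m' ∈ R, ¬ Bad m m' → Function.Injective (Sum.elim (e m) (e m'))) →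
      (∀ m ∈ R, ∃ F : Finset ℕ, F.card ≤ Fintype.card ι ^ 2 ∧ ∀ m' ∈ R, Bad m m' → m' ∈ F) →
      ((R.card : ℕ) : ℝ) ≤ C' * M →
      (∀ q q', q ≠ q' → ∑ m ∈ R, GG (e m q - e m q').natAbs ^ EE ι ≤ C' * M) →
      (∀ m ∈ R, ∀ q q', ∑ m' ∈ R, GG (e m' q - e m q').natAbs ^ EE ι ≤ C' * M) →
      ∑ m ∈ R, ∑ m' ∈ R, (((Us (Be e m) δ X ∩ Us (Be e m') δ X).card : ℕ) : ℝ) ≤
        C * C' ^ 2 * (M * (X / Real.log X ^ Fintype.card ι) +
          M ^ 2 * (X / Real.log X ^ (2 * Fintype.card ι))) := by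
  classical
  set t : ℕ := Fintype.card ι with ht
  have ht1 : 1 ≤ t := Fintype.card_pos
  obtain ⟨C₁, hC₁, hu1⟩ := ub t δ hδ
  obtain ⟨C₂, hC₂, hu2⟩ := ub (2 * t) δ hδ
  set S₁ : Finset (ι × ι) := (univ : Finset ι).offDiag with hS₁
  set S₂ : Finset ((ι ⊕ ι) × (ι ⊕ ι)) := (univ : Finset (ι ⊕ ι)).offDiag with hS₂
  have hEE : EE ι = 2 * t * S₂.card := by
    unfold EE
    rw [ht, hS₂]
  have hS₁c : S₁.card ≤ S₂.card := by
    rw [hS₁, hS₂, offDiag_card, offDiag_card, card_univ, card_univ, Fintype.card_sum, ← ht]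
    nlinarith [Nat.sub_add_cancel (Nat.le_mul_self t), Nat.sub_add_cancel (Nat.le_mul_self (t + t))]
  have hE1 : t * S₁.card ≤ EE ι := by
    rw [hEE]
    calc t * S₁.card ≤ t * S₂.card := Nat.mul_le_mul_left _ hS₁c
      _ ≤ 2 * t * S₂.card := Nat.mul_le_mul_right _ (by omega)
  obtain ⟨X₁, hX₁⟩ := eventually_atTop.1 hu1
  obtain ⟨X₂, hX₂⟩ := eventually_atTop.1 hu2
  refine ⟨(t : ℝ) ^ 2 * C₁ * (1 + S₁.card) + C₂ * (1 + S₂.card), by positivity, max X₁ (max X₂ 3), ?_⟩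
  intro X hX R e Bad C' M hC' hM0 hinj1 hinj2 hbad hcardR hint hcross
  have hXX₁ : X₁ ≤ X := (le_max_left _ _).trans hX
  have hXX₂ : X₂ ≤ X := ((le_max_left _ _).trans (le_max_right _ _)).trans hX
  have hX3 : 3 ≤ X := ((le_max_right _ _).trans (le_max_right _ _)).trans hX
  have hlogX : 0 < Real.log X := Real.log_pos (by exact_mod_cast (by omega : 1 < X))
  have hX0 : (0 : ℝ) < X := by exact_mod_cast (by omega : 0 < X)
  set P₁ : ℝ := X / Real.log X ^ t with hP₁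
  set P₂ : ℝ := X / Real.log X ^ (2 * t) with hP₂
  have hP₁0 : 0 < P₁ := by positivity
  have hP₂0 : 0 < P₂ := by positivity
  have hCM : 0 ≤ C' * M := by positivity
  have hBe : ∀ m, Be e m = univ.image (e m) := by
    intro m
    unfold Be
    congr!
  have hBc : ∀ m ∈ R, (Be e m).card = t := by
    intro m hm
    rw [hBe, card_image_of_injective _ (hinj1 m hm), card_univ]
  -- one argument
  have hone : ∀ m ∈ R, (((Us (Be e m) δ X).card : ℕ) : ℝ) ≤ C₁ * P₁ *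
      (1 + ∑ x ∈ S₁, GG (e m x.1 - e m x.2).natAbs ^ EE ι) := by
    intro m hm
    refine (hX₁ X hXX₁ _ (hBc m hm)).trans ?_
    apply mul_le_mul_of_nonneg_left _ (by positivity)
    rw [hBe]
    refine (GG_Dl_le (e m) (hinj1 m hm) t).trans ?_
    apply add_le_add le_rfl
    apply sum_le_sum
    intro x hx
    apply pow_le_pow_right₀
    · apply one_le_GG
      rw [Int.natAbs_pos, sub_ne_zero]
      rw [mem_offDiag] at hx
      exact fun h3 => hx.2.2 (hinj1 m hm h3)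
    · exact hE1
  have hsumone : ∑ m ∈ R, (((Us (Be e m) δ X).card : ℕ) : ℝ) ≤
      C₁ * P₁ * (C' * M + S₁.card * (C' * M)) := by
    calc ∑ m ∈ R, (((Us (Be e m) δ X).card : ℕ) : ℝ) ≤ ∑ m ∈ R, C₁ * P₁ *
          (1 + ∑ x ∈ S₁, GG (e m x.1 - e m x.2).natAbs ^ EE ι) := sum_le_sum hone
      _ = C₁ * P₁ * ((R.card : ℝ) + ∑ x ∈ S₁, ∑ m ∈ R, GG (e m x.1 - e m x.2).natAbs ^ EE ι) := by
          rw [← mul_sum, sum_add_distrib, sum_comm]
          simp
      _ ≤ C₁ * P₁ * (C' * M + ∑ _x ∈ S₁, C' * M) := by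
          apply mul_le_mul_of_nonneg_left _ (by positivity)
          apply add_le_add hcardR
          apply sum_le_sum
          intro x hx
          rw [hS₁, mem_offDiag] at hx
          exact hint _ _ hx.2.2
      _ = _ := by
          rw [sum_const, nsmul_eq_mul]
  -- two arguments
  set w : ℕ → ℕ → ι ⊕ ι → ℤ := fun m m' => Sum.elim (e m) (e m') with hw
  set ψ : ℕ → ℕ → ℝ := fun m m' => C₂ * P₂ * (1 + ∑ x ∈ S₂,
    GG (w m m' x.1 - w m m' x.2).natAbs ^ EE ι) with hψ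
  have hψ0 : ∀ m m', 0 ≤ ψ m m' := by
    intro m m'
    apply mul_nonneg (by positivity)
    have : 0 ≤ ∑ x ∈ S₂, GG (w m m' x.1 - w m m' x.2).natAbs ^ EE ι :=
      sum_nonneg fun x _ => pow_nonneg (GG_nonneg _) _
    linarith
  have htwo : ∀ m ∈ R, ∀ m' ∈ R, ¬ Bad m m' →
      (((Us (Be e m) δ X ∩ Us (Be e m') δ X).card : ℕ) : ℝ) ≤ ψ m m' := by
    intro m hm m' hm' hb
    have hwi : Function.Injective (w m m') := hinj2 m hm m' hm' hb
    have hun : Be e m ∪ Be e m' = univ.image (w m m') := by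
      ext z
      rw [hBe, hBe]
      simp only [mem_union, mem_image, mem_univ, true_and, hw]
      constructor
      · rintro (⟨q, hq⟩ | ⟨q, hq⟩)
        · exact ⟨Sum.inl q, hq⟩
        · exact ⟨Sum.inr q, hq⟩
      · rintro ⟨q | q, hq⟩
        · exact Or.inl ⟨q, hq⟩
        · exact Or.inr ⟨q, hq⟩
    rw [Us_inter, hun]
    have hc : (univ.image (w m m')).card = 2 * t := by
      rw [card_image_of_injective _ hwi, card_univ, Fintype.card_sum]
      omega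
    refine (hX₂ X hXX₂ _ hc).trans ?_
    apply mul_le_mul_of_nonneg_left _ (by positivity)
    have h1 := GG_Dl_le (w m m') hwi (2 * t)
    rw [← hS₂, ← hEE] at h1
    exact h1
  have hbadc : ∀ m ∈ R, ((R.filter (fun m' => Bad m m')).card : ℝ) ≤ (t : ℝ) ^ 2 := by
    intro m hm
    obtain ⟨F, hF1, hF2⟩ := hbad m hm
    have h1 : R.filter (fun m' => Bad m m') ⊆ F := by
      intro m' hm'
      obtain ⟨h1, h2⟩ := mem_filter.1 hm'
      exact hF2 m' h1 h2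
    have h2 := (card_le_card h1).trans hF1
    exact_mod_cast h2
  have hsplit : ∀ m ∈ R, ∑ m' ∈ R, (((Us (Be e m) δ X ∩ Us (Be e m') δ X).card : ℕ) : ℝ) ≤
      (t : ℝ) ^ 2 * (((Us (Be e m) δ X).card : ℕ) : ℝ) + ∑ m' ∈ R, ψ m m' := by
    intro m hm
    rw [← sum_filter_add_sum_filter_not R (fun m' => Bad m m')]
    apply add_le_add
    · calc ∑ m' ∈ R.filter (fun m' => Bad m m'),
            (((Us (Be e m) δ X ∩ Us (Be e m') δ X).card : ℕ) : ℝ)
          ≤ ∑ _m' ∈ R.filter (fun m' => Bad m m'), (((Us (Be e m) δ X).card : ℕ) : ℝ) := by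
            apply sum_le_sum
            intro m' _
            rw [Nat.cast_le]
            exact card_le_card inter_subset_left
        _ = ((R.filter (fun m' => Bad m m')).card : ℝ) * (((Us (Be e m) δ X).card : ℕ) : ℝ) := by
            rw [sum_const, nsmul_eq_mul]
        _ ≤ _ := mul_le_mul_of_nonneg_right (hbadc m hm) (Nat.cast_nonneg _)
    · rw [← sum_filter_add_sum_filter_not R (fun m' => Bad m m') (fun m' => ψ m m')]
      have h0 : 0 ≤ ∑ m' ∈ R.filter (fun m' => Bad m m'), ψ m m' := sum_nonneg fun m' _ => hψ0 m m'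
      have h1 : ∑ m' ∈ R.filter (fun m' => ¬ Bad m m'),
            (((Us (Be e m) δ X ∩ Us (Be e m') δ X).card : ℕ) : ℝ)
          ≤ ∑ m' ∈ R.filter (fun m' => ¬ Bad m m'), ψ m m' := by
            apply sum_le_sum
            intro m' hm'
            exact htwo m hm m' (mem_filter.1 hm').1 (mem_filter.1 hm').2
      linarith
  have hψsum : ∑ m ∈ R, ∑ m' ∈ R, ψ m m' ≤
      C₂ * P₂ * ((C' * M) ^ 2 + S₂.card * (C' * M) ^ 2) := by
    have h1 : ∑ m ∈ R, ∑ m' ∈ R, ψ m m' =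
        C₂ * P₂ * ((R.card : ℝ) * (R.card : ℝ) + ∑ x ∈ S₂,
          ∑ m ∈ R, ∑ m' ∈ R, GG (w m m' x.1 - w m m' x.2).natAbs ^ EE ι) := by
      simp only [hψ, ← mul_sum, sum_add_distrib]
      congr 1
      congr 1
      · simp
      · have h2 : ∀ m, ∑ m' ∈ R, ∑ x ∈ S₂,
            GG (w m m' x.1 - w m m' x.2).natAbs ^ EE ι = ∑ x ∈ S₂, ∑ m' ∈ R,
            GG (w m m' x.1 - w m m' x.2).natAbs ^ EE ι := fun m => sum_comm
        simp only [h2]
        exact sum_comm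
    have hc0 : (0 : ℝ) ≤ (R.card : ℝ) := Nat.cast_nonneg _
    have hterm : ∀ x ∈ S₂, ∑ m ∈ R, ∑ m' ∈ R,
        GG (w m m' x.1 - w m m' x.2).natAbs ^ EE ι ≤ C' * M * (C' * M) := by
      intro x hx
      rw [hS₂, mem_offDiag] at hx
      obtain ⟨x1, x2⟩ := x
      rcases x1 with q | q <;> rcases x2 with q' | q'
      · have hqq : q ≠ q' := fun h0 => hx.2.2 (by rw [h0])
        simp only [hw, Sum.elim_inl, sum_const, nsmul_eq_mul]
        rw [← mul_sum]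
        exact mul_le_mul hcardR (hint q q' hqq) (sum_nonneg fun _ _ => pow_nonneg (GG_nonneg _) _) hCM
      · simp only [hw, Sum.elim_inl, Sum.elim_inr]
        rw [sum_comm]
        calc ∑ m' ∈ R, ∑ m ∈ R, GG (e m q - e m' q').natAbs ^ EE ι
            ≤ ∑ _m' ∈ R, C' * M := by
              apply sum_le_sum
              intro m' hm'
              exact hcross m' hm' q q'
          _ = (R.card : ℝ) * (C' * M) := by rw [sum_const, nsmul_eq_mul]
          _ ≤ _ := mul_le_mul_of_nonneg_right hcardR hCM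
      · simp only [hw, Sum.elim_inl, Sum.elim_inr]
        calc ∑ m ∈ R, ∑ m' ∈ R, GG (e m' q - e m q').natAbs ^ EE ι
            ≤ ∑ _m ∈ R, C' * M := by
              apply sum_le_sum
              intro m hm
              exact hcross m hm q q'
          _ = (R.card : ℝ) * (C' * M) := by rw [sum_const, nsmul_eq_mul]
          _ ≤ _ := mul_le_mul_of_nonneg_right hcardR hCM
      · have hqq : q ≠ q' := fun h0 => hx.2.2 (by rw [h0])
        simp only [hw, Sum.elim_inr, sum_const, nsmul_eq_mul]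
        exact mul_le_mul hcardR (hint q q' hqq) (sum_nonneg fun _ _ => pow_nonneg (GG_nonneg _) _) hCM
    rw [h1]
    apply mul_le_mul_of_nonneg_left _ (by positivity)
    have h5 : ∑ x ∈ S₂, ∑ m ∈ R, ∑ m' ∈ R, GG (w m m' x.1 - w m m' x.2).natAbs ^ EE ι ≤
        S₂.card * (C' * M) ^ 2 := by
      calc _ ≤ ∑ _x ∈ S₂, C' * M * (C' * M) := sum_le_sum hterm
        _ = _ := by rw [sum_const, nsmul_eq_mul, sq]
    have h6 : (R.card : ℝ) * (R.card : ℝ) ≤ (C' * M) ^ 2 := by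
      rw [sq]
      exact mul_le_mul hcardR hcardR hc0 hCM
    linarith
  calc ∑ m ∈ R, ∑ m' ∈ R, (((Us (Be e m) δ X ∩ Us (Be e m') δ X).card : ℕ) : ℝ)
      ≤ ∑ m ∈ R, ((t : ℝ) ^ 2 * (((Us (Be e m) δ X).card : ℕ) : ℝ) + ∑ m' ∈ R, ψ m m') :=
        sum_le_sum hsplit
    _ = (t : ℝ) ^ 2 * ∑ m ∈ R, (((Us (Be e m) δ X).card : ℕ) : ℝ) +
        ∑ m ∈ R, ∑ m' ∈ R, ψ m m' := by
        rw [sum_add_distrib, mul_sum]
    _ ≤ (t : ℝ) ^ 2 * (C₁ * P₁ * (C' * M + S₁.card * (C' * M))) +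
        C₂ * P₂ * ((C' * M) ^ 2 + S₂.card * (C' * M) ^ 2) := by
        apply add_le_add _ hψsum
        exact mul_le_mul_of_nonneg_left hsumone (by positivity)
    _ ≤ _ := fin_alg3 C₁ C₂ C' M P₁ P₂ _ _ _ hC₁.le hC₂.le hC' hM0 hP₁0.le hP₂0.le (by positivity)
        (Nat.cast_nonneg _) (Nat.cast_nonneg _)

end Pool.Agent.Helper74.FB
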