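import Mathlib
import Pool.Agent.Helper74.FB.SecA
import Pool.Agent.Helper74.FB.FinQ
import Pool.Agent.Helper74.OR.Core

/-! The fibred theorem in an abstract form: constants `e m q` with moment hypotheses. -/

set_option autoImplicit false

namespace Pool.Agent.Helper74.FB

open Finset Filter Topology
open Pool.Agent.Erdos456
open Pool.Agent.H410R2 (WW)
open Pool.Agent.Helper74.OR (pz)
open Pool.Agent.Helper74.AE (WW_pos)
open Pool.Agent.TH899.UG.Uni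
open Pool.Agent.Z296.AP (P2)

open Classical in
/-- the `m ∈ R` for which the numbers `N + e m q` form a cluster -/
noncomputable def ClA {T K : ℕ} (e : ℕ → Option (Fin (T * K)) → ℤ) (r : ℕ) (S : Finset (Fin T))
    (σ τ : Fin T → Fin K) (N : ℕ) (R : Finset ℕ) : Finset ℕ :=
  R.filter (fun m : ℕ => (∀ g ∈ S, PrV ((N : ℤ) + e m (some (ix g (σ g))))) ∧
    (∀ g, ApV 2 ((N : ℤ) + e m (some (ix g (τ g))))) ∧
    ∀ g i, ApV r ((N : ℤ) + e m (some (ix g i))))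

open Classical in
theorem absF {T K : ℕ} [NeZero K] {Qσ : (Finset (Fin T)) → (Fin T → Fin K) → Prop} {δ c : ℝ}
    (hδ : 0 < δ) (hc : 0 < c) (D : ℕ) (H : LowP T K Qσ δ c D) (c₁ C₁ : ℝ) (hc₁ : 0 < c₁) (hC₁ : 1 ≤ C₁) :
    ∃ κ : ℝ, 0 < κ ∧ ∃ X₀ : ℕ, ∀ X : ℕ, X₀ ≤ X → ∀ (R : Finset ℕ) (e : ℕ → Option (Fin (T * K)) → ℤ)
      (Bad : ℕ → ℕ → Prop) (𝓜 : ℝ), 0 < 𝓜 →
      (∀ m ∈ R, Function.Injective (e m)) →
      (∀ m ∈ R, ∀ m' ∈ R, ¬ Bad m m' → Function.Injective (Sum.elim (e m) (e m'))) →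
      (∀ m ∈ R, ∃ F : Finset ℕ, F.card ≤ (T * K + 1) ^ 2 ∧ ∀ m' ∈ R, Bad m m' → m' ∈ F) →
      ((R.card : ℕ) : ℝ) ≤ C₁ * 𝓜 → c₁ * 𝓜 ≤ R.card →
      (∀ q q', q ≠ q' → ∑ m ∈ R, GG (e m q - e m q').natAbs ^ EE (Option (Fin (T * K))) ≤ C₁ * 𝓜) →
      (∀ m ∈ R, ∀ q q', ∑ m' ∈ R, GG (e m' q - e m q').natAbs ^ EE (Option (Fin (T * K))) ≤ C₁ * 𝓜) →
      Real.log X ^ (T * K + 1) ≤ 𝓜 →
      (∀ m ∈ R, ∀ q, 64 * |e m q| ≤ (X : ℤ)) → ∀ v : ℤ,
      (∀ m ∈ R, ∀ p ∈ (Icc 1 D).filter Nat.Prime, ∀ q, ¬ (p : ℤ) ∣ v + e m q) →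
      κ * X ≤ (((Icc 1 X).filter (fun N : ℕ => X ≤ 32 * N ∧ (N : ℤ) ≡ v [ZMOD (WW D : ℕ)] ∧
        ∃ (S : Finset (Fin T)) (σ τ : Fin T → Fin K), Qσ S σ ∧
        κ * (𝓜 / Real.log X ^ (T * K + 1)) ≤ ((ClA e ⌊2 / δ⌋₊ S σ τ N R).card : ℝ))).card : ℝ) := by
  have hW : 0 < WW D := WW_pos D
  have hWr : (0 : ℝ) < WW D := by exact_mod_cast hW
  obtain ⟨C, hC, X₁, hsec⟩ := secA (Option (Fin (T * K))) δ hδ
  obtain ⟨X₂, hX₂⟩ := eventually_atTop.1 H
  have hcard : Fintype.card (Option (Fin (T * K))) = T * K + 1 := by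
    rw [Fintype.card_option, Fintype.card_fin]
  rw [hcard] at hsec
  set κ₁ : ℝ := c₁ * (c / WW D) with hκ₁
  have hκ₁0 : 0 < κ₁ := by positivity
  set C₂ : ℝ := C * C₁ ^ 2 with hC₂
  have hC₂0 : 0 < C₂ := by positivity
  set P : ℕ := 2 ^ T * K ^ T * K ^ T with hP
  have hK0 : 0 < K := Nat.pos_of_ne_zero (NeZero.ne K)
  have hP0 : 0 < P := by rw [hP]; positivity
  have hPr : (0 : ℝ) < P := by exact_mod_cast hP0
  have hP1 : (1 : ℝ) ≤ P := by exact_mod_cast hP0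
  set κ : ℝ := min (κ₁ ^ 2 / (8 * C₂)) (κ₁ / 2) with hκ
  have hκ0 : 0 < κ := lt_min (by positivity) (by positivity)
  refine ⟨κ / P, by positivity, max X₁ (max X₂ 129), ?_⟩
  intro X hX R e Bad 𝓜 h𝓜0 hinj hinj2 hbad hRC hRc hin hcr hLM hbd v hcop
  have hXX₁ : X₁ ≤ X := (le_max_left _ _).trans hX
  have hXX₂ : X₂ ≤ X := ((le_max_left _ _).trans (le_max_right _ _)).trans hX
  have hX129 : 129 ≤ X := ((le_max_right _ _).trans (le_max_right _ _)).trans hX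
  have hlogX : 0 < Real.log X := Real.log_pos (by exact_mod_cast (by omega : 1 < X))
  have hX0 : (0 : ℝ) < X := by exact_mod_cast (by omega : 0 < X)
  set L : ℝ := Real.log X ^ (T * K + 1) with hL
  have hL0 : 0 < L := by positivity
  have hL2 : Real.log X ^ (2 * (T * K + 1)) = L ^ 2 := by rw [hL]; ring
  have hS := hsec X hXX₁ R e Bad C₁ 𝓜 hC₁ h𝓜0.le hinj hinj2 hbad hRC hin hcr
  rw [hL2] at hS
  set G : ℕ → ℕ → Prop := fun N m => X ≤ 32 * N ∧ (N : ℤ) ≡ v [ZMOD (WW D : ℕ)] ∧ GdQ Qσ δ X (e m) N with hG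
  set f : ℕ → ℝ := fun N => ((R.filter (fun m => G N m)).card : ℝ) with hf
  have hfe : ∀ N, f N = ∑ m ∈ R, if G N m then (1 : ℝ) else 0 := by
    intro N
    rw [hf]
    simp only
    rw [card_filter]
    push_cast
    rfl
  -- first moment
  have hfirst : (κ₁ * 𝓜 / L) * ((Icc 1 X).card : ℝ) ≤ ∑ N ∈ Icc 1 X, f N := by
    simp only [hfe]
    rw [sum_comm]
    have h1 : ∀ m ∈ R, c / WW D * (X / L) ≤ ∑ N ∈ Icc 1 X, if G N m then (1 : ℝ) else 0 := by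
      intro m hm
      have h2 := hX₂ X hXX₂ (e m) (hinj m hm) (hbd m hm) v (hcop m hm)
      refine h2.trans ?_
      rw [card_filter]
      push_cast
      apply sum_le_sum
      intro N _
      by_cases hN : X ≤ 32 * N ∧ 2 * N ≤ 2 * X ∧ (N : ℤ) ≡ v [ZMOD (WW D : ℕ)] ∧ GdQ Qσ δ X (e m) N
      · rw [if_pos hN, if_pos ⟨hN.1, hN.2.2.1, hN.2.2.2⟩]
      · rw [if_neg hN]
        split_ifs <;> norm_num
    have h3 : (R.card : ℝ) * (c / WW D * (X / L)) ≤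
        ∑ m ∈ R, ∑ N ∈ Icc 1 X, if G N m then (1 : ℝ) else 0 := by
      rw [← nsmul_eq_mul, ← sum_const]
      exact sum_le_sum h1
    refine le_trans ?_ h3
    rw [Nat.card_Icc, Nat.add_sub_cancel]
    calc κ₁ * 𝓜 / L * (X : ℝ) = (c₁ * 𝓜) * (c / WW D * (X / L)) := by
          rw [hκ₁]; ring
      _ ≤ (R.card : ℝ) * (c / WW D * (X / L)) := mul_le_mul_of_nonneg_right hRc (by positivity)
  have hpz := pz (Icc 1 X) f (κ₁ * 𝓜 / L) (by positivity) hfirst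
  rw [Nat.card_Icc, Nat.add_sub_cancel] at hpz
  -- second moment
  have hsecond : ∑ N ∈ Icc 1 X, f N ^ 2 ≤
      ∑ m ∈ R, ∑ m' ∈ R, (((Us (Be e m) δ X ∩ Us (Be e m') δ X).card : ℕ) : ℝ) := by
    have h1 : ∀ N ∈ Icc 1 X, f N ^ 2 ≤ ∑ m ∈ R, ∑ m' ∈ R,
        if N ∈ Us (Be e m) δ X ∩ Us (Be e m') δ X then (1 : ℝ) else 0 := by
      intro N hN
      rw [hfe, sq, sum_mul_sum]
      apply sum_le_sum
      intro m _
      apply sum_le_sum
      intro m' _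
      by_cases h1 : G N m
      · by_cases h2 : G N m'
        · have hmem : ∀ m, G N m → N ∈ Us (Be e m) δ X := by
            intro m hGm
            unfold Us Be
            rw [mem_filter]
            refine ⟨hN, ?_⟩
            intro z hz p hp hpl
            obtain ⟨q, _, rfl⟩ := mem_image.1 hz
            exact hGm.2.2.1 q p hp hpl
          rw [if_pos h1, if_pos h2, if_pos (mem_inter.2 ⟨hmem m h1, hmem m' h2⟩)]
          norm_num
        · rw [if_neg h2, mul_zero]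
          split_ifs <;> norm_num
      · rw [if_neg h1, zero_mul]
        split_ifs <;> norm_num
    refine (sum_le_sum h1).trans ?_
    rw [sum_comm]
    apply sum_le_sum
    intro m _
    rw [sum_comm]
    apply sum_le_sum
    intro m' _
    rw [← sum_filter, sum_const, nsmul_eq_mul, mul_one, Nat.cast_le]
    apply card_le_card
    intro N hN
    exact (mem_filter.1 hN).2
  have hfin := fin_alg2 κ₁ C₂ 𝓜 X L _ _ hC₂0 h𝓜0 hX0 hL0 (Nat.cast_nonneg _) hLM hpz (hsecond.trans hS)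
  have hκP : κ / P ≤ κ := div_le_self hκ0.le hP1
  refine (mul_le_mul_of_nonneg_right (hκP.trans (min_le_left _ _)) hX0.le).trans (hfin.trans ?_)
  rw [Nat.cast_le]
  apply card_le_card
  intro N hN
  obtain ⟨hN1, hN2⟩ := mem_filter.1 hN
  have hpos : 0 < f N := lt_of_lt_of_le (by positivity) hN2
  have hne : (R.filter (fun m => G N m)).Nonempty := by
    rw [← Finset.card_pos]
    have hpos' : (0 : ℝ) < ((R.filter (fun m => G N m)).card : ℝ) := hpos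
    exact_mod_cast hpos'
  obtain ⟨m, hm⟩ := hne
  obtain ⟨-, hm1, hm2, -⟩ := mem_filter.1 hm
  refine mem_filter.2 ⟨hN1, hm1, hm2, ?_⟩
  have hN4 : κ * (𝓜 / L) ≤ ((R.filter (fun m => GdQ Qσ δ X (e m) N)).card : ℝ) := by
    calc κ * (𝓜 / L) ≤ κ₁ / 2 * (𝓜 / L) :=
          mul_le_mul_of_nonneg_right (min_le_right _ _) (by positivity)
      _ = κ₁ * 𝓜 / L / 2 := by ring
      _ ≤ f N := hN2
      _ ≤ _ := by
        rw [hf]
        simp only
        rw [Nat.cast_le]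
        apply card_le_card
        intro m hm
        obtain ⟨h1, h2⟩ := mem_filter.1 hm
        exact mem_filter.2 ⟨h1, h2.2.2⟩
  -- pigeonhole
  have hNX := (mem_Icc.1 hN1).2
  set Z : ℝ := 𝓜 / L with hZ
  have hZ0 : 0 < Z := by positivity
  set QQ : Finset (Finset (Fin T) × (Fin T → Fin K) × (Fin T → Fin K)) :=
    univ.filter (fun q => Qσ q.1 q.2.1) with hQQ
  obtain ⟨r, hr⟩ : ∃ r : ℕ, r = ⌊2 / δ⌋₊ := ⟨_, rfl⟩
  rw [← hr]
  have hsub : R.filter (fun m : ℕ => GdQ Qσ δ X (e m) N) ⊆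
      QQ.biUnion (fun q => ClA e r q.1 q.2.1 q.2.2 N R) := by
    intro m hm
    obtain ⟨hmR, hr', S, σ, τ, hS, hτ, hσ⟩ := mem_filter.1 hm
    refine mem_biUnion.2 ⟨(S, σ, τ), mem_filter.2 ⟨mem_univ _, hS⟩, ?_⟩
    unfold ClA
    refine mem_filter.2 ⟨hmR, ?_, ?_, ?_⟩
    · intro g hg
      exact prV_of (hσ g hg)
    · intro g
      exact apV_two hX129 hNX hm1 (hbd m hmR _) (hτ g)
    · intro g i
      rw [hr]
      exact apV_of hδ hX129 hNX hm1 (hbd m hmR _) (hr' (some (ix g i)))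
  by_contra hcon
  push Not at hcon
  have e1 := (Nat.cast_le (α := ℝ)).2 ((card_le_card hsub).trans card_biUnion_le)
  rw [Nat.cast_sum] at e1
  have e3 : QQ.card ≤ P := by
    refine (card_le_univ _).trans ?_
    rw [Fintype.card_prod, Fintype.card_prod, Fintype.card_finset, Fintype.card_fun, Fintype.card_fin,
      Fintype.card_fin, hP, mul_assoc]
  have e4 : (QQ.card : ℝ) ≤ P := by exact_mod_cast e3
  rcases QQ.eq_empty_or_nonempty with hQe | hQne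
  · rw [hQe, Finset.sum_empty] at e1
    have := hN4.trans e1
    nlinarith
  · have e2 : ∑ q ∈ QQ, ((ClA e r q.1 q.2.1 q.2.2 N R).card : ℝ) < ∑ _q ∈ QQ, κ / P * Z := by
      apply Finset.sum_lt_sum_of_nonempty hQne
      intro q hq
      exact hcon q.1 q.2.1 q.2.2 (mem_filter.1 hq).2
    rw [Finset.sum_const, nsmul_eq_mul] at e2
    have e5 : (QQ.card : ℝ) * (κ / P * Z) ≤ P * (κ / P * Z) :=
      mul_le_mul_of_nonneg_right e4 (by positivity)
    have e6 : (P : ℝ) * (κ / P * Z) = κ * Z := by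
      field_simp
    rw [e6] at e5
    have := hN4.trans e1
    linarith

end Pool.Agent.Helper74.FB
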