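import Mathlib
import Pool.Agent.Helper74.AE.Lam

/-! Chinese remainders for the primes `≤ D`. -/

set_option autoImplicit false

namespace Pool.Agent.Helper74.FB

open Finset

theorem crt (D : ℕ) (k : ℕ → ℤ) : ∃ v : ℤ, ∀ p ∈ (Icc 1 D).filter Nat.Prime, (p : ℤ) ∣ v - k p := by
  have h := Nat.chineseRemainderOfFinset (fun p : ℕ => (k p % (p : ℤ)).toNat) (fun p : ℕ => p)
    ((Icc 1 D).filter Nat.Prime) (by
      intro p hp
      exact (mem_filter.1 hp).2.ne_zero) (by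
      intro p hp q hq hpq
      exact (Nat.coprime_primes (mem_filter.1 hp).2 (mem_filter.1 hq).2).2 hpq)
  obtain ⟨v, hv⟩ := h
  refine ⟨v, fun p hp => ?_⟩
  have h1 := hv p hp
  have hp0 : (p : ℤ) ≠ 0 := by exact_mod_cast (mem_filter.1 hp).2.ne_zero
  have h2 : ((v : ℕ) : ℤ) ≡ ((k p % (p : ℤ)).toNat : ℕ) [ZMOD (p : ℤ)] := Int.natCast_modEq_iff.2 h1
  rw [Int.toNat_of_nonneg (Int.emod_nonneg _ hp0)] at h2
  have h3 : ((v : ℕ) : ℤ) ≡ k p [ZMOD (p : ℤ)] := h2.trans (Int.mod_modEq _ _)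
  exact h3.symm.dvd

/-- a class modulo `W` which contains many elements -/
theorem class_of (W : ℕ) (hW : 0 < W) (R : Finset ℕ) :
    ∃ u : ℕ, (R.card : ℝ) / W ≤ ((R.filter (fun m => m % W = u)).card : ℝ) := by
  have hWr : (0 : ℝ) < W := by exact_mod_cast hW
  obtain ⟨u, -, hu⟩ := exists_le_card_fiber_of_nsmul_le_card_of_maps_to (s := R) (t := range W)
    (f := fun m => m % W) (b := (R.card : ℝ) / W) (fun m _ => mem_range.2 (Nat.mod_lt m hW))
    ⟨0, mem_range.2 hW⟩ (by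
      rw [card_range, nsmul_eq_mul]
      apply le_of_eq
      field_simp)
  exact ⟨u, hu⟩

end Pool.Agent.Helper74.FB
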