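import Mathlib
import Pool.Agent.Helper74.FB.SecA
import Pool.Agent.Helper74.FB.FinQ
import Pool.Agent.Helper74.FB.Crt

/-! The fibred theorem for the residue classes modulo a large number `a`, for a general condition on the
prime values. -/

set_option autoImplicit false

namespace Pool.Agent.Helper74.FB

open Finset Filter Topology
open Pool.Agent.H410R2 (WW)
open Pool.Agent.Helper74.OR (Rg pz)
open Pool.Agent.Helper74.AE (WW_pos)
open Pool.Agent.Erdos456

/-- the number `b + a n` lies in `[a Y / 32, a Y]` and is the beginning of a cluster -/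
def GdAQ {T K : ℕ} [NeZero K] (Qσ : (Finset (Fin T)) → (Fin T → Fin K) → Prop) (δ : ℝ) (a Y : ℕ)
    (h : Option (Fin (T * K)) → ℕ) (b n : ℕ) : Prop :=
  b + a * n ≤ a * Y ∧ a * Y ≤ 32 * (b + a * n) ∧
    GdQ Qσ δ (a * Y) (fun q => (a : ℤ) * h q) (b + a * n)

open Classical in
theorem apQ {T K : ℕ} [NeZero K] {Qσ : (Finset (Fin T)) → (Fin T → Fin K) → Prop} {δ c : ℝ}
    (hδ : 0 < δ) (hc : 0 < c) (D : ℕ) (H : LowP T K Qσ δ c D) (h : Option (Fin (T * K)) → ℕ)
    (hh : Function.Injective h) (G : ℝ) (hG : 1 ≤ G) :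
    ∃ κ : ℝ, 0 < κ ∧ ∃ a₀ Y₀ : ℕ, ∀ a : ℕ, a₀ ≤ a → GG a ≤ G → ∀ Y : ℕ, Y₀ ≤ Y →
      Real.log a ^ (T * K + 1) ≤ Y → Y ≤ a → ∀ v : ℤ,
      (∀ p ∈ (Icc 1 D).filter Nat.Prime, ∀ q, ¬ (p : ℤ) ∣ v + (a : ℤ) * h q) →
      κ * a ≤ (((Icc 1 a).filter (fun b : ℕ => κ * (Y / Real.log a ^ (T * K + 1)) ≤
          (((Icc 1 Y).filter (fun n : ℕ => GdAQ Qσ δ a Y h b n)).card : ℝ))).card : ℝ) := by
  have hW : 0 < WW D := WW_pos D
  have hWr : (0 : ℝ) < WW D := by exact_mod_cast hW
  obtain ⟨C₀, hC₀, X₁, hsec⟩ := secA (Option (Fin (T * K))) δ hδ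
  obtain ⟨X₂, hX₂⟩ := eventually_atTop.1 H
  have hcard : Fintype.card (Option (Fin (T * K))) = T * K + 1 := by
    rw [Fintype.card_option, Fintype.card_fin]
  rw [hcard] at hsec
  have hEE : 1 ≤ EE (Option (Fin (T * K))) := by
    unfold EE
    have h1 : 0 < ((univ : Finset (Option (Fin (T * K)) ⊕ Option (Fin (T * K)))).offDiag).card := by
      rw [Finset.card_pos]
      refine ⟨(Sum.inl none, Sum.inr none), ?_⟩
      rw [mem_offDiag]
      exact ⟨mem_univ _, mem_univ _, by simp⟩
    have h2 : 0 < Fintype.card (Option (Fin (T * K))) := Fintype.card_pos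
    have h3 : 0 < 2 * Fintype.card (Option (Fin (T * K))) *
      ((univ : Finset (Option (Fin (T * K)) ⊕ Option (Fin (T * K)))).offDiag).card := by positivity
    exact h3
  obtain ⟨C₅, hC₅, hmom⟩ := moms ∅ (by simp) (by simp) 1 one_pos (Polynomial.X : Polynomial ℤ)
    (by rw [Polynomial.natDegree_X]) h hh (EE (Option (Fin (T * K)))) hEE
  obtain ⟨Y₁, hY₁⟩ := eventually_atTop.1 hmom
  set E : ℕ := EE (Option (Fin (T * K))) with hE
  set C' : ℝ := G ^ E * (C₅ + 1) with hC'
  have hGE : 1 ≤ G ^ E := one_le_pow₀ hG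
  have hC'1 : 1 ≤ C' := by
    rw [hC']
    nlinarith
  set κ₁ : ℝ := c / WW D / 2 ^ (T * K + 1) with hκ₁
  have hκ₁0 : 0 < κ₁ := by positivity
  set Hm : ℕ := ∑ q, h q with hHm
  have hHb : ∀ q, h q ≤ Hm := fun q => single_le_sum (f := h) (fun _ _ => Nat.zero_le _) (mem_univ q)
  refine ⟨min (κ₁ ^ 2 / (8 * (C₀ * C' ^ 2))) (κ₁ / 2), lt_min (by positivity) (by positivity),
    max X₁ (max X₂ 3), max Y₁ (max 64 (64 * Hm)), ?_⟩
  intro a ha hGa Y hY hLY hYa v hcop
  have haX₁ : X₁ ≤ a := (le_max_left _ _).trans ha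
  have haX₂ : X₂ ≤ a := ((le_max_left _ _).trans (le_max_right _ _)).trans ha
  have ha3 : 3 ≤ a := ((le_max_right _ _).trans (le_max_right _ _)).trans ha
  have hYY₁ : Y₁ ≤ Y := (le_max_left _ _).trans hY
  have hY64 : 64 ≤ Y := ((le_max_left _ _).trans (le_max_right _ _)).trans hY
  have hYH : 64 * Hm ≤ Y := ((le_max_right _ _).trans (le_max_right _ _)).trans hY
  have ha0 : (0 : ℝ) < a := by exact_mod_cast (by omega : 0 < a)
  have hY0 : (0 : ℝ) < Y := by exact_mod_cast (by omega : 0 < Y)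
  have hloga : 0 < Real.log a := Real.log_pos (by exact_mod_cast (by omega : 1 < a))
  set L : ℝ := Real.log a ^ (T * K + 1) with hL
  have hL0 : 0 < L := by positivity
  have haZ : (0 : ℤ) < a := by exact_mod_cast (by omega : 0 < a)
  -- the lower bound
  set X : ℕ := a * Y with hX
  have haX : a ≤ X := Nat.le_mul_of_pos_right _ (by omega)
  have hlow := hX₂ X (haX₂.trans haX) (fun q => (a : ℤ) * h q) (by
    intro q q' hqq
    apply hh
    have h1 : (a : ℤ) * h q = a * h q' := hqq
    have h2 := mul_left_cancel₀ haZ.ne' h1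
    exact_mod_cast h2) (by
    intro q
    rw [abs_of_nonneg (by positivity)]
    have h1 : 64 * (a * h q) ≤ X := by
      calc 64 * (a * h q) = a * (64 * h q) := by ring
        _ ≤ a * Y := Nat.mul_le_mul_left _ (by
          have := hHb q
          omega)
    exact_mod_cast h1) v hcop
  set ψ : ℕ → ℝ := fun b => (((Icc 1 Y).filter (fun n : ℕ => GdAQ Qσ δ a Y h b n)).card : ℝ) with hψ
  have hψe : ∀ b, ψ b = ∑ n ∈ Icc 1 Y, if GdAQ Qσ δ a Y h b n then (1 : ℝ) else 0 := by
    intro b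
    rw [hψ]
    simp only
    rw [card_filter]
    push_cast
    rfl
  have hlogX : Real.log X ≤ 2 * Real.log a := by
    have h1 : (X : ℝ) ≤ (a : ℝ) ^ 2 := by
      rw [hX]
      push_cast
      have : (Y : ℝ) ≤ a := by exact_mod_cast hYa
      nlinarith
    have h2 := Real.log_le_log (by exact_mod_cast (by omega : 0 < X)) h1
    rw [Real.log_pow] at h2
    exact_mod_cast h2
  have hlogaX : Real.log a ≤ Real.log X := Real.log_le_log ha0 (by exact_mod_cast haX)
  have hlogX0 : 0 < Real.log X := lt_of_lt_of_le hloga hlogaX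
  -- first moment
  have hfirst : (κ₁ * Y / L) * ((Icc 1 a).card : ℝ) ≤ ∑ b ∈ Icc 1 a, ψ b := by
    have h1 : (((Icc 1 X).filter (fun N : ℕ => X ≤ 32 * N ∧ 2 * N ≤ 2 * X ∧
        (N : ℤ) ≡ v [ZMOD (WW D : ℕ)] ∧ GdQ Qσ δ X (fun q => (a : ℤ) * h q) N)).card : ℝ) ≤
        ((((Icc 1 a) ×ˢ (Icc 1 Y)).filter (fun x : ℕ × ℕ => GdAQ Qσ δ a Y h x.1 x.2)).card : ℝ) := by
      rw [Nat.cast_le]
      apply card_le_card_of_injOn (fun N => ((N - 1) % a + 1, (N - 1) / a))
      · intro N hN
        rw [Finset.mem_coe] at hN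
        obtain ⟨hN1, hN2, -, -, hN5⟩ := mem_filter.1 hN
        rw [mem_Icc] at hN1
        have e1 : (N - 1) % a + 1 + a * ((N - 1) / a) = N := by
          have := Nat.mod_add_div (N - 1) a
          omega
        have hN64 : 2 * a ≤ N := by
          have h3 : 64 * a ≤ X := by
            calc 64 * a = a * 64 := by ring
              _ ≤ a * Y := Nat.mul_le_mul_left _ hY64
          omega
        simp only
        rw [Finset.mem_coe, mem_filter, mem_product]
        refine ⟨⟨?_, ?_⟩, ?_⟩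
        · rw [mem_Icc]
          have := Nat.mod_lt (N - 1) (by omega : 0 < a)
          simp only
          omega
        · rw [mem_Icc]
          simp only
          refine ⟨?_, ?_⟩
          · rw [Nat.one_le_div_iff (by omega)]
            omega
          · have h4 : (N - 1) / a ≤ X / a := Nat.div_le_div_right (by omega)
            rw [hX, Nat.mul_div_cancel_left _ (by omega)] at h4
            exact h4
        · simp only
          unfold GdAQ
          rw [e1]
          exact ⟨hN1.2, hN2, hN5⟩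
      · intro N hN N' hN' hNN
        rw [Finset.mem_coe] at hN hN'
        have hN1 := (mem_Icc.1 (mem_filter.1 hN).1).1
        have hN1' := (mem_Icc.1 (mem_filter.1 hN').1).1
        have h1 := Prod.ext_iff.1 hNN
        simp only at h1
        have e1 := Nat.mod_add_div (N - 1) a
        have e2 := Nat.mod_add_div (N' - 1) a
        have e3 : (N - 1) % a = (N' - 1) % a := by omega
        rw [e3, h1.2, e2] at e1
        omega
    have h2 : ((((Icc 1 a) ×ˢ (Icc 1 Y)).filter (fun x : ℕ × ℕ => GdAQ Qσ δ a Y h x.1 x.2)).card : ℝ) =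
        ∑ b ∈ Icc 1 a, ψ b := by
      simp only [hψe]
      rw [card_filter]
      push_cast
      rw [sum_product]
    rw [← h2]
    refine le_trans ?_ (hlow.trans h1)
    rw [Nat.card_Icc, Nat.add_sub_cancel]
    have h3 : Real.log X ^ (T * K + 1) ≤ 2 ^ (T * K + 1) * L := by
      calc Real.log X ^ (T * K + 1) ≤ (2 * Real.log a) ^ (T * K + 1) :=
            pow_le_pow_left₀ hlogX0.le hlogX _
        _ = 2 ^ (T * K + 1) * L := by rw [mul_pow, hL]
    calc κ₁ * Y / L * (a : ℝ) = c / WW D * (X / (2 ^ (T * K + 1) * L)) := by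
          rw [hκ₁, hX]
          push_cast
          field_simp
      _ ≤ c / WW D * (X / Real.log X ^ (T * K + 1)) := by gcongr
  have hpz := pz (Icc 1 a) ψ (κ₁ * Y / L) (by positivity) hfirst
  rw [Nat.card_Icc, Nat.add_sub_cancel] at hpz
  -- second moment
  set e : ℕ → Option (Fin (T * K)) → ℤ := fun n q => (a : ℤ) * ((n : ℤ) + h q) with he
  have hsecond : ∑ b ∈ Icc 1 a, ψ b ^ 2 ≤
      ∑ n ∈ Icc 1 Y, ∑ n' ∈ Icc 1 Y, (((Us (Be e n) δ a ∩ Us (Be e n') δ a).card : ℕ) : ℝ) := by
    have h1 : ∀ b ∈ Icc 1 a, ψ b ^ 2 ≤ ∑ n ∈ Icc 1 Y, ∑ n' ∈ Icc 1 Y,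
        if b ∈ Us (Be e n) δ a ∩ Us (Be e n') δ a then (1 : ℝ) else 0 := by
      intro b hb
      rw [hψe, sq, sum_mul_sum]
      apply sum_le_sum
      intro n _
      apply sum_le_sum
      intro n' _
      by_cases h1 : GdAQ Qσ δ a Y h b n
      · by_cases h2 : GdAQ Qσ δ a Y h b n'
        · have hmem : ∀ n, GdAQ Qσ δ a Y h b n → b ∈ Us (Be e n) δ a := by
            intro n hG
            unfold Us Be
            rw [mem_filter]
            refine ⟨hb, ?_⟩
            intro z hz p hp hpl hd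
            obtain ⟨q, _, rfl⟩ := mem_image.1 hz
            apply hG.2.2.1 q p hp
            · refine hpl.trans (mul_le_mul_of_nonneg_left ?_ hδ.le)
              exact hlogaX
            · have e3 : (((b + a * n : ℕ)) : ℤ) + (fun q => (a : ℤ) * h q) q = (b : ℤ) + e n q := by
                simp only [he]
                push_cast
                ring
              rw [e3]
              exact hd
          rw [if_pos h1, if_pos h2, if_pos (mem_inter.2 ⟨hmem n h1, hmem n' h2⟩)]
          norm_num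
        · rw [if_neg h2, mul_zero]
          split_ifs <;> norm_num
      · rw [if_neg h1, zero_mul]
        split_ifs <;> norm_num
    refine (sum_le_sum h1).trans ?_
    rw [sum_comm]
    apply sum_le_sum
    intro n _
    rw [sum_comm]
    apply sum_le_sum
    intro n' _
    rw [← sum_filter, sum_const, nsmul_eq_mul, mul_one, Nat.cast_le]
    apply card_le_card
    intro N hN
    exact (mem_filter.1 hN).2
  -- moments
  obtain ⟨m1, m2, m3⟩ := hY₁ Y hYY₁
  rw [card_empty, pow_zero, div_one] at m1 m2 m3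
  have hRg : Rg ∅ 1 Y = Icc 1 Y := by
    unfold Rg
    rw [filter_eq_self]
    simp
  rw [hRg] at m1 m2 m3
  simp only [Polynomial.eval_X] at m2 m3
  have hGG0 := GG_nonneg a
  have hfac : ∀ x : ℤ, GG ((a : ℤ) * x).natAbs ^ E ≤ G ^ E * GG x.natAbs ^ E := by
    intro x
    rw [Int.natAbs_mul, Int.natAbs_natCast, ← mul_pow]
    apply pow_le_pow_left₀ (GG_nonneg _)
    exact (GG_mul_le _ _).trans (mul_le_mul_of_nonneg_right hGa (GG_nonneg _))
  have hGE0 : 0 ≤ G ^ E := by positivity
  have hS := hsec a haX₁ (Icc 1 Y) e (fun n n' => ∃ q q', n + h q = n' + h q') C' Y hC'1 hY0.le (by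
    intro n _ q q' hqq
    apply hh
    have h1 : (a : ℤ) * ((n : ℤ) + h q) = a * ((n : ℤ) + h q') := hqq
    have h2 := mul_left_cancel₀ haZ.ne' h1
    have h3 : (h q : ℤ) = h q' := by linarith
    exact_mod_cast h3) (by
    intro n _ n' _ hb
    have key : ∀ (m m' : ℕ) (q q' : Option (Fin (T * K))), e m q = e m' q' → m + h q = m' + h q' := by
      intro m m' q q' hqq
      have h1 : (a : ℤ) * ((m : ℤ) + h q) = a * ((m' : ℤ) + h q') := hqq
      have h2 := mul_left_cancel₀ haZ.ne' h1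
      exact_mod_cast h2
    intro x y hxy
    rcases x with x | x <;> rcases y with y | y
    · have h1 := key n n x y hxy
      exact congrArg _ (hh (by omega))
    · exact absurd ⟨x, y, key n n' x y hxy⟩ hb
    · exact absurd ⟨y, x, (key n' n x y hxy).symm⟩ hb
    · have h1 := key n' n' x y hxy
      exact congrArg _ (hh (by omega))) (by
    intro n _
    refine ⟨(univ : Finset (Option (Fin (T * K)) × Option (Fin (T * K)))).image
      (fun x => n + h x.1 - h x.2), ?_, ?_⟩
    · refine card_image_le.trans ?_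
      rw [card_univ, Fintype.card_prod, hcard, sq]
    · rintro n' _ ⟨q, q', hqq⟩
      refine mem_image.2 ⟨(q, q'), mem_univ _, ?_⟩
      simp only
      omega) (by
    rw [Nat.card_Icc, Nat.add_sub_cancel]
    exact le_mul_of_one_le_left hY0.le hC'1) (by
    intro q q' hqq
    calc ∑ m ∈ Icc 1 Y, GG (e m q - e m q').natAbs ^ E
        ≤ ∑ m ∈ Icc 1 Y, G ^ E * GG ((m : ℤ) + h q - ((m : ℤ) + h q')).natAbs ^ E := by
          apply sum_le_sum
          intro m _
          have e3 : e m q - e m q' = (a : ℤ) * ((m : ℤ) + h q - ((m : ℤ) + h q')) := by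
            simp only [he]
            ring
          rw [e3]
          exact hfac _
      _ = G ^ E * ∑ m ∈ Icc 1 Y, GG ((m : ℤ) + h q - ((m : ℤ) + h q')).natAbs ^ E := by rw [mul_sum]
      _ ≤ G ^ E * (C₅ * Y) := mul_le_mul_of_nonneg_left (m3 q q' hqq) hGE0
      _ ≤ C' * Y := by
          rw [hC']
          nlinarith [mul_nonneg hGE0 hY0.le]) (by
    intro n hn q q'
    calc ∑ m ∈ Icc 1 Y, GG (e m q - e n q').natAbs ^ E
        ≤ ∑ m ∈ Icc 1 Y, G ^ E * GG ((m : ℤ) + h q - ((n : ℤ) + h q')).natAbs ^ E := by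
          apply sum_le_sum
          intro m _
          have e3 : e m q - e n q' = (a : ℤ) * ((m : ℤ) + h q - ((n : ℤ) + h q')) := by
            simp only [he]
            ring
          rw [e3]
          exact hfac _
      _ = G ^ E * ∑ m ∈ Icc 1 Y, GG ((m : ℤ) + h q - ((n : ℤ) + h q')).natAbs ^ E := by rw [mul_sum]
      _ ≤ G ^ E * (C₅ * Y) := mul_le_mul_of_nonneg_left (m2 n (mem_Icc.1 hn).2 q q') hGE0
      _ ≤ C' * Y := by
          rw [hC']
          nlinarith [mul_nonneg hGE0 hY0.le])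
  have hL2 : Real.log a ^ (2 * (T * K + 1)) = L ^ 2 := by rw [hL]; ring
  rw [hL2] at hS
  have hfin := fin_alg2 κ₁ (C₀ * C' ^ 2) Y a L _ _ (by positivity) hY0 ha0 hL0 (Nat.cast_nonneg _) hLY hpz
    (hsecond.trans hS)
  refine (mul_le_mul_of_nonneg_right (min_le_left _ _) ha0.le).trans (hfin.trans ?_)
  rw [Nat.cast_le]
  apply card_le_card
  intro b hb
  obtain ⟨hb1, hb2⟩ := mem_filter.1 hb
  refine mem_filter.2 ⟨hb1, le_trans ?_ hb2⟩
  calc min (κ₁ ^ 2 / (8 * (C₀ * C' ^ 2))) (κ₁ / 2) * (Y / L) ≤ κ₁ / 2 * (Y / L) :=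
        mul_le_mul_of_nonneg_right (min_le_right _ _) (by positivity)
    _ = κ₁ * Y / L / 2 := by ring

end Pool.Agent.Helper74.FB
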