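import Mathlib
import Pool.Agent.Helper74.FB.Sec

/-! Several constants `N j`: the second moment. -/

set_option autoImplicit false

namespace Pool.Agent.Helper74.FB

open Finset Filter Topology
open Pool.Agent.Erdos456

theorem Dl_image' {α : Type*} [DecidableEq α] (C : Finset α) (f : α → ℤ)
    (hf : ∀ h ∈ C, ∀ h' ∈ C, f h = f h' → h = h') :
    Dl (C.image f) = ∏ x ∈ C.offDiag, (f x.1 - f x.2).natAbs := by
  classical
  unfold Dl
  have h1 : ∏ x ∈ C.offDiag, (f x.1 - f x.2) = ∏ x ∈ (C.image f).offDiag, (x.1 - x.2) := by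
    apply prod_nbij (fun x : α × α => (f x.1, f x.2))
    · intro x hx
      rw [mem_offDiag] at hx ⊢
      exact ⟨mem_image_of_mem _ hx.1, mem_image_of_mem _ hx.2.1, fun h => hx.2.2 (hf _ hx.1 _ hx.2.1 h)⟩
    · intro x hx y hy h
      rw [Finset.mem_coe, mem_offDiag] at hx hy
      have h1 := Prod.ext_iff.1 h
      exact Prod.ext (hf _ hx.1 _ hy.1 h1.1) (hf _ hx.2.1 _ hy.2.1 h1.2)
    · rintro ⟨a, b⟩ h
      rw [Finset.mem_coe, mem_offDiag] at h
      obtain ⟨h1, h2, h3⟩ := h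
      obtain ⟨x, hxC, hx⟩ := mem_image.1 h1
      obtain ⟨y, hyC, hy⟩ := mem_image.1 h2
      refine ⟨(x, y), ?_, ?_⟩
      · rw [Finset.mem_coe, mem_offDiag]
        refine ⟨hxC, hyC, fun hxy => h3 ?_⟩
        simp only at hx hy hxy ⊢
        rw [← hx, ← hy, hxy]
      · simp only at hx hy ⊢
        rw [hx, hy]
    · intro x _
      rfl
  rw [← h1, ← Int.natAbsHom_apply, map_prod]
  rfl

theorem GG_Dl_le' {α : Type*} [DecidableEq α] (C : Finset α) (f : α → ℤ)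
    (hf : ∀ h ∈ C, ∀ h' ∈ C, f h = f h' → h = h') (n E : ℕ) (hE : n * C.offDiag.card ≤ E) :
    GG (Dl (C.image f)) ^ n ≤ 1 + ∑ x ∈ C.offDiag, GG (f x.1 - f x.2).natAbs ^ E := by
  classical
  rw [Dl_image' C f hf]
  have h1 := GG_prod_le C.offDiag (fun x => (f x.1 - f x.2).natAbs)
  have h2 := pow_le_pow_left₀ (GG_nonneg _) h1 n
  rw [← prod_pow] at h2
  refine h2.trans ((prod_le_sum_pow _ _ (fun i _ => pow_nonneg (GG_nonneg _) _)).trans ?_)
  simp only [← pow_mul]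
  apply add_le_add le_rfl
  apply sum_le_sum
  intro x hx
  rw [mem_offDiag] at hx
  apply pow_le_pow_right₀ _ hE
  apply one_le_GG
  rw [Int.natAbs_pos, sub_ne_zero]
  exact fun h3 => hx.2.2 (hf _ hx.1 _ hx.2.1 h3)

/-- the product over the coordinates -/
theorem prodJ {J : ℕ} (a : Fin J → ℝ) (s : Fin J → ℝ) (ha : ∀ j, 0 ≤ a j) (h : ∀ j, a j ^ J ≤ 1 + s j) :
    ∏ j, a j ≤ 1 + J + ∑ j, s j := by
  have h1 := prod_le_sum_pow (univ : Finset (Fin J)) a (fun j _ => ha j)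
  rw [card_univ, Fintype.card_fin] at h1
  have h2 : ∑ j : Fin J, a j ^ J ≤ ∑ j : Fin J, (1 + s j) := sum_le_sum fun j _ => h j
  rw [sum_add_distrib, sum_const, card_univ, Fintype.card_fin, nsmul_eq_mul, mul_one] at h2
  linarith

/-- the abstract form of the sum over the pairs -/
theorem pair_sum (R : Finset ℕ) (Bad : ℕ → ℕ → Prop) [∀ m, DecidablePred (Bad m)] (U A : ℕ → ℝ)
    (U₂ B : ℕ → ℕ → ℝ) (b p q α β : ℝ) (hp : 0 ≤ p) (hq : 0 ≤ q) (hb : 0 ≤ b)
    (hbad : ∀ m ∈ R, ((R.filter (fun m' => Bad m m')).card : ℝ) ≤ b)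
    (hU0 : ∀ m, 0 ≤ U m) (hB0 : ∀ m m', 0 ≤ B m m')
    (h1 : ∀ m ∈ R, U m ≤ p * A m) (h2 : ∀ m ∈ R, ∀ m' ∈ R, U₂ m m' ≤ U m)
    (h3 : ∀ m ∈ R, ∀ m' ∈ R, ¬ Bad m m' → U₂ m m' ≤ q * B m m')
    (hA : ∑ m ∈ R, A m ≤ α) (hB : ∑ m ∈ R, ∑ m' ∈ R, B m m' ≤ β) :
    ∑ m ∈ R, ∑ m' ∈ R, U₂ m m' ≤ b * (p * α) + q * β := by
  have hsplit : ∀ m ∈ R, ∑ m' ∈ R, U₂ m m' ≤ b * U m + q * ∑ m' ∈ R, B m m' := by
    intro m hm
    rw [← sum_filter_add_sum_filter_not R (fun m' => Bad m m') (fun m' => U₂ m m')]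
    apply add_le_add
    · calc ∑ m' ∈ R.filter (fun m' => Bad m m'), U₂ m m'
          ≤ ∑ _m' ∈ R.filter (fun m' => Bad m m'), U m := by
            apply sum_le_sum
            intro m' hm'
            exact h2 m hm m' (mem_filter.1 hm').1
        _ = ((R.filter (fun m' => Bad m m')).card : ℝ) * U m := by rw [sum_const, nsmul_eq_mul]
        _ ≤ _ := mul_le_mul_of_nonneg_right (hbad m hm) (hU0 m)
    · rw [mul_sum, ← sum_filter_add_sum_filter_not R (fun m' => Bad m m') (fun m' => q * B m m')]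
      have e0 : 0 ≤ ∑ m' ∈ R.filter (fun m' => Bad m m'), q * B m m' :=
        sum_nonneg fun m' _ => mul_nonneg hq (hB0 m m')
      have e1 : ∑ m' ∈ R.filter (fun m' => ¬ Bad m m'), U₂ m m'
          ≤ ∑ m' ∈ R.filter (fun m' => ¬ Bad m m'), q * B m m' := by
        apply sum_le_sum
        intro m' hm'
        exact h3 m hm m' (mem_filter.1 hm').1 (mem_filter.1 hm').2
      linarith
  calc ∑ m ∈ R, ∑ m' ∈ R, U₂ m m' ≤ ∑ m ∈ R, (b * U m + q * ∑ m' ∈ R, B m m') := sum_le_sum hsplit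
    _ = b * ∑ m ∈ R, U m + q * ∑ m ∈ R, ∑ m' ∈ R, B m m' := by
      rw [sum_add_distrib, mul_sum, mul_sum]
    _ ≤ b * (p * α) + q * β := by
      apply add_le_add
      · apply mul_le_mul_of_nonneg_left _ hb
        calc ∑ m ∈ R, U m ≤ ∑ m ∈ R, p * A m := sum_le_sum h1
          _ = p * ∑ m ∈ R, A m := by rw [mul_sum]
          _ ≤ p * α := mul_le_mul_of_nonneg_left hA hp
      · exact mul_le_mul_of_nonneg_left hB hq

theorem unifR {I : Type*} [Fintype I] (C : I → ℝ) : ∃ C₀ : ℝ, 1 ≤ C₀ ∧ ∀ i, C i ≤ C₀ := by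
  classical
  refine ⟨1 + ∑ i, |C i|, ?_, fun i => ?_⟩
  · have : 0 ≤ ∑ i, |C i| := sum_nonneg fun i _ => abs_nonneg _
    linarith
  · have h1 := single_le_sum (f := fun i => |C i|) (fun j _ => abs_nonneg (C j)) (mem_univ i)
    have h2 := le_abs_self (C i)
    linarith

/-- the exponent of the moments -/
def EJ {J : ℕ} (k : Fin J → ℕ) : ℕ := 1 + ∑ j, (2 * k j) * J * ((2 * k j) * (2 * k j))

theorem EJ_one {J : ℕ} (k : Fin J → ℕ) (j : Fin J) (C : Finset ℕ) (hC : C.card = k j) :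
    (k j * J) * C.offDiag.card ≤ EJ k := by
  have h1 : (2 * k j) * J * ((2 * k j) * (2 * k j)) ≤ ∑ j, (2 * k j) * J * ((2 * k j) * (2 * k j)) :=
    single_le_sum (f := fun j => (2 * k j) * J * ((2 * k j) * (2 * k j))) (fun _ _ => Nat.zero_le _)
      (mem_univ j)
  have h2 : C.offDiag.card ≤ (2 * k j) * (2 * k j) := by
    rw [offDiag_card, hC]
    have : k j * k j ≤ (2 * k j) * (2 * k j) := Nat.mul_le_mul (by omega) (by omega)
    omega
  have h3 : (k j * J) * C.offDiag.card ≤ (2 * k j) * J * ((2 * k j) * (2 * k j)) :=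
    Nat.mul_le_mul (Nat.mul_le_mul_right _ (by omega)) h2
  unfold EJ
  omega

theorem EJ_two {J : ℕ} (k : Fin J → ℕ) (j : Fin J) (C : Finset ℕ) (hC : C.card = k j) :
    ((2 * k j) * J) * (C.disjSum C).offDiag.card ≤ EJ k := by
  have h1 : (2 * k j) * J * ((2 * k j) * (2 * k j)) ≤ ∑ j, (2 * k j) * J * ((2 * k j) * (2 * k j)) :=
    single_le_sum (f := fun j => (2 * k j) * J * ((2 * k j) * (2 * k j))) (fun _ _ => Nat.zero_le _)
      (mem_univ j)
  have h2 : (C.disjSum C).offDiag.card ≤ (2 * k j) * (2 * k j) := by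
    rw [offDiag_card, card_disjSum, hC]
    have : (k j + k j) * (k j + k j) = (2 * k j) * (2 * k j) := by ring
    omega
  have h3 : ((2 * k j) * J) * (C.disjSum C).offDiag.card ≤ (2 * k j) * J * ((2 * k j) * (2 * k j)) :=
    Nat.mul_le_mul_left _ h2
  unfold EJ
  omega

theorem prod_scale {J : ℕ} (k : Fin J → ℕ) (t : ℕ) (C X L : ℝ) (a : Fin J → ℝ) :
    ∏ j, (C * (X / L ^ (t * k j)) * a j) = C ^ J * (X ^ J / L ^ (t * ∑ j, k j)) * ∏ j, a j := by
  rw [prod_mul_distrib, prod_mul_distrib, prod_const, card_univ, Fintype.card_fin, prod_div_distrib,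
    prod_const, card_univ, Fintype.card_fin, prod_pow_eq_pow_sum, mul_sum]

open Classical in
theorem secJ (J : ℕ) (k : Fin J → ℕ) (δ : ℝ) (hδ : 0 < δ) :
    ∃ C : ℝ, 0 < C ∧ ∃ X₀ : ℕ, ∀ X : ℕ, X₀ ≤ X → ∀ (R : Finset ℕ) (e : ℕ → Fin J → ℕ → ℤ)
      (Cc : Fin J → Finset ℕ) (Bad : ℕ → ℕ → Prop) (b C' M : ℝ), 1 ≤ C' → 0 ≤ M → 0 ≤ b →
      (∀ j, (Cc j).card = k j) →
      (∀ m ∈ R, ∀ j, ∀ h ∈ Cc j, ∀ h' ∈ Cc j, e m j h = e m j h' → h = h') →
      (∀ m ∈ R, ∀ m' ∈ R, ¬ Bad m m' → ∀ j, ∀ h ∈ Cc j, ∀ h' ∈ Cc j, e m j h ≠ e m' j h') →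
      (∀ m ∈ R, ((R.filter (fun m' => Bad m m')).card : ℝ) ≤ b) →
      ((R.card : ℕ) : ℝ) ≤ C' * M →
      (∀ j, ∀ h ∈ Cc j, ∀ h' ∈ Cc j, h ≠ h' → ∑ m ∈ R, GG (e m j h - e m j h').natAbs ^ EJ k ≤ C' * M) →
      (∀ m ∈ R, ∀ j, ∀ h ∈ Cc j, ∀ h' ∈ Cc j,
        ∑ m' ∈ R, GG (e m' j h - e m j h').natAbs ^ EJ k ≤ C' * M) →
      ∑ m ∈ R, ∑ m' ∈ R, ∏ j, (((Us ((Cc j).image (e m j)) δ X ∩
        Us ((Cc j).image (e m' j)) δ X).card : ℕ) : ℝ) ≤
        C * (1 + b) * C' ^ 2 * (M * ((X : ℝ) ^ J / Real.log X ^ (∑ j, k j)) +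
          M ^ 2 * ((X : ℝ) ^ J / Real.log X ^ (2 * ∑ j, k j))) := by
  choose c₁ hc₁ hu₁ using fun j => ub (k j) δ hδ
  choose c₂ hc₂ hu₂ using fun j => ub (2 * k j) δ hδ
  obtain ⟨C₁, hC₁1, hC₁⟩ := unifR c₁
  obtain ⟨C₂, hC₂1, hC₂⟩ := unifR c₂
  have hU₁ := eventually_all.2 hu₁
  have hU₂ := eventually_all.2 hu₂
  obtain ⟨X₁, hX₁⟩ := eventually_atTop.1 hU₁
  obtain ⟨X₂, hX₂⟩ := eventually_atTop.1 hU₂
  set n₁ : ℝ := 1 + J + ∑ j, ((k j : ℝ) * k j) with hn₁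
  set n₂ : ℝ := 1 + J + ∑ j, ((2 * k j : ℝ) * (2 * k j)) with hn₂
  have hn₁0 : 0 < n₁ := by
    have : 0 ≤ ∑ j, ((k j : ℝ) * k j) := sum_nonneg fun j _ => by positivity
    positivity
  have hn₂0 : 0 < n₂ := by
    have : 0 ≤ ∑ j, ((2 * k j : ℝ) * (2 * k j)) := sum_nonneg fun j _ => by positivity
    positivity
  refine ⟨C₁ ^ J * n₁ + C₂ ^ J * n₂, by positivity, max X₁ (max X₂ 3), ?_⟩
  intro X hX R e Cc Bad b C' M hC' hM0 hb hCc hinj1 hinj2 hbad hcardR hint hcross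
  have hXX₁ : X₁ ≤ X := (le_max_left _ _).trans hX
  have hXX₂ : X₂ ≤ X := ((le_max_left _ _).trans (le_max_right _ _)).trans hX
  have hX3 : 3 ≤ X := ((le_max_right _ _).trans (le_max_right _ _)).trans hX
  have hlogX : 0 < Real.log X := Real.log_pos (by exact_mod_cast (by omega : 1 < X))
  have hX0 : (0 : ℝ) < X := by exact_mod_cast (by omega : 0 < X)
  obtain ⟨E, hE⟩ : ∃ E : ℕ, E = EJ k := ⟨_, rfl⟩
  rw [← hE] at hint hcross
  have hCM : 0 ≤ C' * M := by positivity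
  -- the sums
  set A : ℕ → ℝ := fun m => 1 + J + ∑ j, ∑ x ∈ (Cc j).offDiag, GG (e m j x.1 - e m j x.2).natAbs ^ E with hA
  set w : ℕ → ℕ → Fin J → ℕ ⊕ ℕ → ℤ := fun m m' j => Sum.elim (e m j) (e m' j) with hw
  set B : ℕ → ℕ → ℝ := fun m m' => 1 + J + ∑ j, ∑ x ∈ ((Cc j).disjSum (Cc j)).offDiag,
    GG (w m m' j x.1 - w m m' j x.2).natAbs ^ E with hB
  have hGG0 : ∀ z : ℤ, 0 ≤ GG z.natAbs ^ E := fun z => pow_nonneg (GG_nonneg _) _
  have hA0 : ∀ m, 0 ≤ A m := by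
    intro m
    have : 0 ≤ ∑ j, ∑ x ∈ (Cc j).offDiag, GG (e m j x.1 - e m j x.2).natAbs ^ E :=
      sum_nonneg fun j _ => sum_nonneg fun x _ => hGG0 _
    simp only [hA]
    positivity
  have hB0 : ∀ m m', 0 ≤ B m m' := by
    intro m m'
    have : 0 ≤ ∑ j, ∑ x ∈ ((Cc j).disjSum (Cc j)).offDiag,
      GG (w m m' j x.1 - w m m' j x.2).natAbs ^ E := sum_nonneg fun j _ => sum_nonneg fun x _ => hGG0 _
    simp only [hB]
    positivity
  set L₁ : ℝ := (X : ℝ) ^ J / Real.log X ^ (∑ j, k j) with hL₁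
  set L₂ : ℝ := (X : ℝ) ^ J / Real.log X ^ (2 * ∑ j, k j) with hL₂
  have hL₁0 : 0 < L₁ := by positivity
  have hL₂0 : 0 < L₂ := by positivity
  -- one argument
  have hone : ∀ m ∈ R, ∏ j, (((Us ((Cc j).image (e m j)) δ X).card : ℕ) : ℝ) ≤ (C₁ ^ J * L₁) * A m := by
    intro m hm
    have h1 : ∏ j, (((Us ((Cc j).image (e m j)) δ X).card : ℕ) : ℝ) ≤
        ∏ j, (C₁ * (X / Real.log X ^ (1 * k j)) * GG (Dl ((Cc j).image (e m j))) ^ k j) := by
      apply prod_le_prod (fun _ _ => Nat.cast_nonneg _)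
      intro j _
      have hc : ((Cc j).image (e m j)).card = k j := by
        rw [card_image_of_injOn, hCc j]
        intro h hh h' hh' heq
        exact hinj1 m hm j h hh h' hh' heq
      refine (hX₁ X hXX₁ j _ hc).trans ?_
      rw [one_mul]
      apply mul_le_mul_of_nonneg_right _ (pow_nonneg (GG_nonneg _) _)
      exact mul_le_mul_of_nonneg_right (hC₁ j) (by positivity)
    refine h1.trans ?_
    rw [prod_scale k 1 C₁ X (Real.log X), one_mul]
    apply mul_le_mul_of_nonneg_left _ (by positivity)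
    apply prodJ _ _ (fun j => pow_nonneg (GG_nonneg _) _)
    intro j
    rw [← pow_mul]
    exact GG_Dl_le' (Cc j) (e m j) (hinj1 m hm j) (k j * J) E (by rw [hE]; exact EJ_one k j _ (hCc j))
  -- two arguments
  have htwo : ∀ m ∈ R, ∀ m' ∈ R, ¬ Bad m m' →
      ∏ j, (((Us ((Cc j).image (e m j)) δ X ∩ Us ((Cc j).image (e m' j)) δ X).card : ℕ) : ℝ) ≤
        (C₂ ^ J * L₂) * B m m' := by
    intro m hm m' hm' hb'
    have hwi : ∀ j, ∀ x ∈ (Cc j).disjSum (Cc j), ∀ y ∈ (Cc j).disjSum (Cc j),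
        w m m' j x = w m m' j y → x = y := by
      intro j x hx y hy hxy
      rcases x with x | x <;> rcases y with y | y
      · rw [inl_mem_disjSum] at hx hy
        exact congrArg _ (hinj1 m hm j x hx y hy hxy)
      · rw [inl_mem_disjSum] at hx
        rw [inr_mem_disjSum] at hy
        exact absurd hxy (hinj2 m hm m' hm' hb' j x hx y hy)
      · rw [inr_mem_disjSum] at hx
        rw [inl_mem_disjSum] at hy
        exact absurd hxy.symm (hinj2 m hm m' hm' hb' j y hy x hx)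
      · rw [inr_mem_disjSum] at hx hy
        exact congrArg _ (hinj1 m' hm' j x hx y hy hxy)
    have hun : ∀ j, (Cc j).image (e m j) ∪ (Cc j).image (e m' j) =
        ((Cc j).disjSum (Cc j)).image (w m m' j) := by
      intro j
      ext z
      simp only [mem_union, mem_image, hw]
      constructor
      · rintro (⟨q, hq1, hq2⟩ | ⟨q, hq1, hq2⟩)
        · exact ⟨Sum.inl q, inl_mem_disjSum.2 hq1, hq2⟩
        · exact ⟨Sum.inr q, inr_mem_disjSum.2 hq1, hq2⟩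
      · rintro ⟨q | q, hq1, hq2⟩
        · exact Or.inl ⟨q, inl_mem_disjSum.1 hq1, hq2⟩
        · exact Or.inr ⟨q, inr_mem_disjSum.1 hq1, hq2⟩
    have h1 : ∏ j, (((Us ((Cc j).image (e m j)) δ X ∩ Us ((Cc j).image (e m' j)) δ X).card : ℕ) : ℝ) ≤
        ∏ j, (C₂ * (X / Real.log X ^ (2 * k j)) *
          GG (Dl (((Cc j).disjSum (Cc j)).image (w m m' j))) ^ (2 * k j)) := by
      apply prod_le_prod (fun _ _ => Nat.cast_nonneg _)
      intro j _
      rw [Us_inter, hun]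
      have hc : (((Cc j).disjSum (Cc j)).image (w m m' j)).card = 2 * k j := by
        rw [card_image_of_injOn, card_disjSum, hCc j]
        · omega
        · intro x hx y hy hxy
          exact hwi j x hx y hy hxy
      refine (hX₂ X hXX₂ j _ hc).trans ?_
      apply mul_le_mul_of_nonneg_right _ (pow_nonneg (GG_nonneg _) _)
      exact mul_le_mul_of_nonneg_right (hC₂ j) (by positivity)
    refine h1.trans ?_
    rw [prod_scale k 2 C₂ X (Real.log X)]
    apply mul_le_mul_of_nonneg_left _ (by positivity)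
    apply prodJ _ _ (fun j => pow_nonneg (GG_nonneg _) _)
    intro j
    rw [← pow_mul]
    exact GG_Dl_le' ((Cc j).disjSum (Cc j)) (w m m' j) (hwi j) (2 * k j * J) E (by
      rw [hE]; exact EJ_two k j _ (hCc j))
  -- the sum of `A`
  have hsumA : ∑ m ∈ R, A m ≤ n₁ * (C' * M) := by
    have e1 : ∑ m ∈ R, A m = (1 + J) * R.card + ∑ j, ∑ x ∈ (Cc j).offDiag,
        ∑ m ∈ R, GG (e m j x.1 - e m j x.2).natAbs ^ E := by
      simp only [hA]
      rw [sum_add_distrib, sum_const, nsmul_eq_mul, sum_comm]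
      congr 1
      · ring
      · apply sum_congr rfl
        intro j _
        exact sum_comm
    have e2 : ∀ j, ∑ x ∈ (Cc j).offDiag, ∑ m ∈ R, GG (e m j x.1 - e m j x.2).natAbs ^ E ≤
        ((k j : ℝ) * k j) * (C' * M) := by
      intro j
      calc _ ≤ ∑ _x ∈ (Cc j).offDiag, C' * M := by
            apply sum_le_sum
            intro x hx
            rw [mem_offDiag] at hx
            exact hint j x.1 hx.1 x.2 hx.2.1 hx.2.2
        _ = ((Cc j).offDiag.card : ℝ) * (C' * M) := by rw [sum_const, nsmul_eq_mul]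
        _ ≤ _ := by
          apply mul_le_mul_of_nonneg_right _ hCM
          have : (Cc j).offDiag.card ≤ k j * k j := by
            rw [offDiag_card, hCc j]
            omega
          exact_mod_cast this
    have e3 : (1 + J + ∑ j, ((k j : ℝ) * k j)) * (C' * M) =
        (1 + J) * (C' * M) + ∑ j, ((k j : ℝ) * k j) * (C' * M) := by rw [add_mul, sum_mul]
    rw [e1, hn₁, e3]
    apply add_le_add
    · exact mul_le_mul_of_nonneg_left hcardR (by positivity)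
    · exact sum_le_sum fun j _ => e2 j
  have hc0 : (0 : ℝ) ≤ (R.card : ℝ) := Nat.cast_nonneg _
  have hRR : (R.card : ℝ) * (R.card : ℝ) ≤ (C' * M) ^ 2 := by
    rw [sq]
    exact mul_le_mul hcardR hcardR hc0 hCM
  have hsumB : ∑ m ∈ R, ∑ m' ∈ R, B m m' ≤ n₂ * (C' * M) ^ 2 := by
    have e1 : ∑ m ∈ R, ∑ m' ∈ R, B m m' = (1 + J) * ((R.card : ℝ) * R.card) +
        ∑ j, ∑ x ∈ ((Cc j).disjSum (Cc j)).offDiag,
        ∑ m ∈ R, ∑ m' ∈ R, GG (w m m' j x.1 - w m m' j x.2).natAbs ^ E := by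
      have e0 : ∀ m, ∑ m' ∈ R, B m m' = (1 + J) * R.card + ∑ j, ∑ x ∈ ((Cc j).disjSum (Cc j)).offDiag,
          ∑ m' ∈ R, GG (w m m' j x.1 - w m m' j x.2).natAbs ^ E := by
        intro m
        simp only [hB]
        rw [sum_add_distrib, sum_const, nsmul_eq_mul, sum_comm]
        congr 1
        · ring
        · apply sum_congr rfl
          intro j _
          exact sum_comm
      simp only [e0]
      rw [sum_add_distrib, sum_const, nsmul_eq_mul, sum_comm]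
      congr 1
      · ring
      · apply sum_congr rfl
        intro j _
        exact sum_comm
    have hterm : ∀ j, ∀ x ∈ ((Cc j).disjSum (Cc j)).offDiag, ∑ m ∈ R, ∑ m' ∈ R,
        GG (w m m' j x.1 - w m m' j x.2).natAbs ^ E ≤ C' * M * (C' * M) := by
      intro j x hx
      rw [mem_offDiag] at hx
      obtain ⟨x1, x2⟩ := x
      obtain ⟨hx1, hx2, hx3⟩ := hx
      rcases x1 with q | q <;> rcases x2 with q' | q'
      · rw [inl_mem_disjSum] at hx1 hx2
        have hqq : q ≠ q' := fun h0 => hx3 (by rw [h0])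
        simp only [hw, Sum.elim_inl, sum_const, nsmul_eq_mul]
        rw [← mul_sum]
        exact mul_le_mul hcardR (hint j q hx1 q' hx2 hqq) (sum_nonneg fun _ _ => hGG0 _) hCM
      · rw [inl_mem_disjSum] at hx1
        rw [inr_mem_disjSum] at hx2
        simp only [hw, Sum.elim_inl, Sum.elim_inr]
        rw [sum_comm]
        calc ∑ m' ∈ R, ∑ m ∈ R, GG (e m j q - e m' j q').natAbs ^ E
            ≤ ∑ _m' ∈ R, C' * M := by
              apply sum_le_sum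
              intro m' hm'
              exact hcross m' hm' j q hx1 q' hx2
          _ = (R.card : ℝ) * (C' * M) := by rw [sum_const, nsmul_eq_mul]
          _ ≤ _ := mul_le_mul_of_nonneg_right hcardR hCM
      · rw [inr_mem_disjSum] at hx1
        rw [inl_mem_disjSum] at hx2
        simp only [hw, Sum.elim_inl, Sum.elim_inr]
        calc ∑ m ∈ R, ∑ m' ∈ R, GG (e m' j q - e m j q').natAbs ^ E
            ≤ ∑ _m ∈ R, C' * M := by
              apply sum_le_sum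
              intro m hm
              exact hcross m hm j q hx1 q' hx2
          _ = (R.card : ℝ) * (C' * M) := by rw [sum_const, nsmul_eq_mul]
          _ ≤ _ := mul_le_mul_of_nonneg_right hcardR hCM
      · rw [inr_mem_disjSum] at hx1 hx2
        have hqq : q ≠ q' := fun h0 => hx3 (by rw [h0])
        simp only [hw, Sum.elim_inr, sum_const, nsmul_eq_mul]
        exact mul_le_mul hcardR (hint j q hx1 q' hx2 hqq) (sum_nonneg fun _ _ => hGG0 _) hCM
    have e2 : ∀ j, ∑ x ∈ ((Cc j).disjSum (Cc j)).offDiag, ∑ m ∈ R, ∑ m' ∈ R,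
        GG (w m m' j x.1 - w m m' j x.2).natAbs ^ E ≤ ((2 * k j : ℝ) * (2 * k j)) * (C' * M) ^ 2 := by
      intro j
      calc _ ≤ ∑ _x ∈ ((Cc j).disjSum (Cc j)).offDiag, C' * M * (C' * M) := sum_le_sum (hterm j)
        _ = (((Cc j).disjSum (Cc j)).offDiag.card : ℝ) * (C' * M) ^ 2 := by
          rw [sum_const, nsmul_eq_mul, sq]
        _ ≤ _ := by
          apply mul_le_mul_of_nonneg_right _ (by positivity)
          have h2 : ((Cc j).disjSum (Cc j)).offDiag.card ≤ (2 * k j) * (2 * k j) := by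
            rw [offDiag_card, card_disjSum, hCc j]
            have : (k j + k j) * (k j + k j) = (2 * k j) * (2 * k j) := by ring
            omega
          exact_mod_cast h2
    have e3 : (1 + J + ∑ j, ((2 * k j : ℝ) * (2 * k j))) * (C' * M) ^ 2 =
        (1 + J) * (C' * M) ^ 2 + ∑ j, ((2 * k j : ℝ) * (2 * k j)) * (C' * M) ^ 2 := by
      rw [add_mul, sum_mul]
    rw [e1, hn₂, e3]
    apply add_le_add
    · exact mul_le_mul_of_nonneg_left hRR (by positivity)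
    · exact sum_le_sum fun j _ => e2 j
  have hfin := pair_sum R Bad (fun m => ∏ j, (((Us ((Cc j).image (e m j)) δ X).card : ℕ) : ℝ)) A
    (fun m m' => ∏ j, (((Us ((Cc j).image (e m j)) δ X ∩ Us ((Cc j).image (e m' j)) δ X).card : ℕ) : ℝ)) B b
    (C₁ ^ J * L₁) (C₂ ^ J * L₂) (n₁ * (C' * M)) (n₂ * (C' * M) ^ 2) (by positivity) (by positivity) hb hbad
    (fun m => prod_nonneg fun j _ => Nat.cast_nonneg _) hB0 hone (by
      intro m _ m' _
      apply prod_le_prod (fun _ _ => Nat.cast_nonneg _)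
      intro j _
      rw [Nat.cast_le]
      exact card_le_card inter_subset_left) htwo hsumA hsumB
  refine hfin.trans ?_
  have hC2 : C' ≤ C' ^ 2 := by nlinarith
  have q1 : 0 ≤ C₁ ^ J * n₁ * (M * L₁) := by positivity
  have q2 : 0 ≤ C₂ ^ J * n₂ * (M ^ 2 * L₂) := by positivity
  have q3 : 0 ≤ C₁ ^ J * n₁ * (M ^ 2 * L₂) := by positivity
  have q4 : 0 ≤ C₂ ^ J * n₂ * (M * L₁) := by positivity
  have e3 : b * (C₁ ^ J * L₁ * (n₁ * (C' * M))) = (C₁ ^ J * n₁ * (M * L₁)) * b * C' := by ring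
  have e4 : C₂ ^ J * L₂ * (n₂ * (C' * M) ^ 2) = (C₂ ^ J * n₂ * (M ^ 2 * L₂)) * C' ^ 2 := by ring
  have e5 : (C₁ ^ J * n₁ * (M * L₁)) * b * C' ≤ (C₁ ^ J * n₁ * (M * L₁)) * b * C' ^ 2 :=
    mul_le_mul_of_nonneg_left hC2 (by positivity)
  have e6 : (C₁ ^ J * n₁ + C₂ ^ J * n₂) * (1 + b) * C' ^ 2 * (M * L₁ + M ^ 2 * L₂) =
      (C₁ ^ J * n₁ * (M * L₁)) * b * C' ^ 2 + (C₂ ^ J * n₂ * (M ^ 2 * L₂)) * C' ^ 2 +
      ((C₁ ^ J * n₁ * (M * L₁)) + (C₁ ^ J * n₁ * (M ^ 2 * L₂)) * (1 + b) + (C₂ ^ J * n₂ * (M * L₁)) * (1 + b) +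
        (C₂ ^ J * n₂ * (M ^ 2 * L₂)) * b) * C' ^ 2 := by ring
  have e7 : 0 ≤ ((C₁ ^ J * n₁ * (M * L₁)) + (C₁ ^ J * n₁ * (M ^ 2 * L₂)) * (1 + b) +
      (C₂ ^ J * n₂ * (M * L₁)) * (1 + b) + (C₂ ^ J * n₂ * (M ^ 2 * L₂)) * b) * C' ^ 2 := by positivity
  rw [e6, e3, e4]
  linarith

end Pool.Agent.Helper74.FB
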