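import Mathlib
import Pool.Agent.Helper74.FB.FinQ
import Pool.Agent.Helper74.FB.Crt
import Pool.Agent.Helper74.AE.LamPQ
import Pool.Agent.Helper74.AE.Cls

/-! The fibred theorem with a prescribed prime as argument: `p` and `N + Q p` prime, with almost primes
`p + h₁` and `N + Q (p + h₂)` in given groups, for a positive proportion of the `N`. -/

set_option autoImplicit false

namespace Pool.Agent.Helper74.FB

open Finset Filter Topology Polynomial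
open Pool.Agent.H410R2 (WW)
open Pool.Agent.Helper74.OR (Rg)
open Pool.Agent.Helper74.AE (WW_pos lamQW Rp Fs Fs_card)
open Pool.Agent.TH899.UG.Uni
open Pool.Agent.Z296.AP (P2)

open Classical in
/-- for one choice of shifts there are many primes `p ≤ Y` such that all the numbers are as wanted -/
def PN {T₁ K₁ T₂ K₂ : ℕ} (Q : ℤ[X]) (h₁ : Fin T₁ → Fin K₁ → ℤ) (h₂ : Fin T₂ → Fin K₂ → ℕ)
    (A X Y N : ℕ) : Prop :=
  ∃ (τ₁ : Fin T₁ → Fin K₁) (τ₂ : Fin T₂ → Fin K₂), (Y : ℝ) / Real.log X ^ A ≤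
      ((((Icc 1 Y).filter (fun p : ℕ => Y ≤ 16 * p ∧ p.Prime ∧ PrV ((N : ℤ) + Q.eval (p : ℤ)) ∧
        (∀ g, ApV 2 ((p : ℤ) + h₁ g (τ₁ g))) ∧
        ∀ g, ApV 2 ((N : ℤ) + Q.eval ((p : ℤ) + h₂ g (τ₂ g))))).card : ℕ) : ℝ)

theorem apV_P2 {z : ℤ} (hz : 1 < z) (h : P2 z) : ApV 2 z := by
  obtain ⟨q, hq⟩ := Int.eq_ofNat_of_zero_le (by linarith : 0 ≤ z)
  refine ⟨q, ?_, hq.symm, ?_⟩
  · rw [hq] at hz
    exact_mod_cast hz
  · unfold P2 at h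
    rw [hq, Int.natAbs_natCast] at h
    exact h

open Classical in
theorem primeQ (T₁ T₂ : ℕ) (hT₁ : 1 ≤ T₁) (hT₂ : 1 ≤ T₂) : ∃ K₁ K₂ A : ℕ, 1 ≤ K₁ ∧ 1 ≤ K₂ ∧
    ∀ Q : ℤ[X], 1 ≤ Q.natDegree →
    ∀ (h₁ : Fin T₁ → Fin K₁ → ℤ), Function.Injective (fun x : Fin T₁ × Fin K₁ => h₁ x.1 x.2) →
    ∀ (h₂ : Fin T₂ → Fin K₂ → ℕ), Function.Injective (fun x : Fin T₂ × Fin K₂ => h₂ x.1 x.2) →
    (∃ g i, h₁ g i = 0) → (∃ g i, h₂ g i = 0) →
    (∀ p : ℕ, p.Prime → ∃ v w : ℤ, (∀ g i, ¬ (p : ℤ) ∣ v + h₁ g i) ∧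
      ∀ g i, ¬ (p : ℤ) ∣ w + Q.eval (v + h₂ g i)) →
    ∃ κ : ℝ, 0 < κ ∧ ∃ X₀ : ℕ, ∀ X : ℕ, X₀ ≤ X → ∀ Y : ℕ, Real.log X ^ A ≤ Y →
      (Y : ℝ) ^ Q.natDegree ≤ κ * X →
      κ * X ≤ (((Icc 1 X).filter (fun N : ℕ => X ≤ 32 * N ∧ PN Q h₁ h₂ A X Y N)).card : ℝ) := by
  obtain ⟨K₁, hK₁, δ₁, hδ₁, D₁, c₁, hc₁, hsrc⟩ := lamQW T₁ hT₁
  obtain ⟨K₂, hKz, hK₂, δ, hδ, D₀, c, hc, H⟩ := lowP_pin T₂ hT₂
  obtain ⟨r, hr⟩ : ∃ r : ℕ, r = ⌊2 / δ⌋₊ := ⟨_, rfl⟩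
  set a : ℕ := T₁ * K₁ + 1 with ha
  set A : ℕ := a + (T₂ * K₂ + 1) + 1 with hA
  refine ⟨K₁, K₂, A, hK₁, by omega, ?_⟩
  intro Q hd h₁ hh₁ h₂ hh₂ hz₁ hz₂ hadm
  obtain ⟨g₁, i₁, hz₁⟩ := hz₁
  obtain ⟨g₂, i₂, hz₂⟩ := hz₂
  set D : ℕ := D₀ + D₁ + 2 with hD
  set W : ℕ := WW D with hWdef
  have hW : 0 < W := WW_pos D
  have hWr : (0 : ℝ) < W := by exact_mod_cast hW
  have hpW : ∀ p ∈ (Icc 1 D).filter Nat.Prime, (p : ℤ) ∣ (W : ℤ) := by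
    intro p hp
    rw [hWdef, WW]
    exact_mod_cast dvd_prod_of_mem _ hp
  choose! v' w' hvw using hadm
  obtain ⟨vz, hvz⟩ := crt D v'
  obtain ⟨w, hw⟩ := crt D w'
  have hWz : (0 : ℤ) < (W : ℤ) := by exact_mod_cast hW
  obtain ⟨v, hv⟩ : ∃ v : ℕ, (v : ℤ) = vz % (W : ℤ) :=
    ⟨(vz % (W : ℤ)).toNat, Int.toNat_of_nonneg (Int.emod_nonneg _ hWz.ne')⟩
  have hvW : v < W := by
    have := Int.emod_lt_of_pos vz hWz
    rw [← hv] at this
    exact_mod_cast this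
  have hvp : ∀ p ∈ (Icc 1 D).filter Nat.Prime, (p : ℤ) ∣ (v : ℤ) - v' p := by
    intro p hp
    have h1 : (W : ℤ) ∣ vz - v := by
      rw [hv]
      exact Int.dvd_self_sub_emod
    have h2 := dvd_sub (hvz p hp) ((hpW p hp).trans h1)
    have e : vz - v' p - (vz - v) = (v : ℤ) - v' p := by ring
    rwa [e] at h2
  set f : Fin T₁ → Fin K₁ → ℤ × ℤ := fun g i => ((1 : ℤ), h₁ g i) with hf
  have hfi : Function.Injective (fun x : Fin T₁ × Fin K₁ => f x.1 x.2) := by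
    intro x y hxy
    exact hh₁ (Prod.ext_iff.1 hxy).2
  obtain ⟨s, -, hs2, hs3⟩ := hsrc f hfi (fun g i => ⟨one_pos, isCoprime_one_left⟩) g₁ i₁ D (by omega)
    (fun g i => by simp only [hf, Int.natAbs_one]; omega) v hvW (by
      intro p hp g i hd
      simp only [hf, one_mul] at hd
      apply (hvw p (mem_filter.1 hp).2).1 g i
      have h2 := dvd_sub hd (hvp p hp)
      have e : (v : ℤ) + h₁ g i - ((v : ℤ) - v' p) = v' p + h₁ g i := by ring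
      rwa [e] at h2)
  set V₀ : Finset (ℤ × ℤ) := univ.image (fun x : Fin T₁ × Fin K₁ => f x.1 x.2) with hV₀
  have hV₀c : V₀.card = T₁ * K₁ := by
    rw [hV₀, card_image_of_injective _ hfi, card_univ, Fintype.card_prod, Fintype.card_fin,
      Fintype.card_fin]
  set V : Finset (ℤ × ℤ) := Fs V₀ s with hV
  have hVc : V.card = T₁ * K₁ + 1 := by
    rw [hV, Fs_card, hV₀c]
    intro x hx
    obtain ⟨z, -, rfl⟩ := mem_image.1 hx
    exact hs2 z.1 z.2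
  have hVone : ∀ x ∈ V, x.1 = 1 := by
    intro x hx
    rw [hV] at hx
    unfold Fs at hx
    rcases mem_insert.1 hx with rfl | hx
    · rfl
    · obtain ⟨z, -, rfl⟩ := mem_image.1 hx
      rfl
  have hV1 : ∀ x ∈ V, x.1 ≠ 0 := fun x hx => by rw [hVone x hx]; exact one_ne_zero
  have hV2 : ∀ x ∈ V, ∀ y ∈ V, x ≠ y → x.1 * y.2 - y.1 * x.2 ≠ 0 := by
    intro x hx y hy hxy h0
    rw [hVone x hx, hVone y hy, one_mul, one_mul] at h0
    apply hxy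
    exact Prod.ext ((hVone x hx).trans (hVone y hy).symm) (by linarith)
  have H0 := genFQ hT₂ hK₂ hδ hc D (H D (by omega) g₂ i₂) Q hd h₂ hh₂ V hV1 hV2 δ₁ hδ₁ (c₁ / W)
    (by positivity)
  rw [← hr] at H0
  obtain ⟨κ₀, hκ₀, C, hC, m₀, Y₀, hgen⟩ := H0
  obtain ⟨Y₁, hY₁⟩ := eventually_atTop.1 hs3
  set κ : ℝ := min κ₀ (1 / (C + 1)) with hκ
  have hκpos : 0 < κ := lt_min hκ₀ (by positivity)
  obtain ⟨B, hB⟩ : ∃ B : ℕ, ∀ g i, |h₁ g i| ≤ (B : ℤ) := by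
    refine ⟨∑ x : Fin T₁ × Fin K₁, (h₁ x.1 x.2).natAbs, fun g i => ?_⟩
    have h1 := single_le_sum (f := fun x : Fin T₁ × Fin K₁ => (h₁ x.1 x.2).natAbs)
      (fun _ _ => Nat.zero_le _) (mem_univ (g, i))
    rw [Int.abs_eq_natAbs]
    exact_mod_cast h1
  -- largeness
  have tN : Tendsto (fun N : ℕ => (N : ℝ)) atTop atTop := tendsto_natCast_atTop_atTop
  have hlog : Tendsto (fun N : ℕ => Real.log (N : ℝ)) atTop atTop := Real.tendsto_log_atTop.comp tN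
  obtain ⟨X₀, hX₀⟩ := eventually_atTop.1
    ((hlog.eventually_ge_atTop (1 / κ₀ + Y₀ + Y₁ + 16 * m₀ + 16 * (B + 2) + 3)).and
      (eventually_ge_atTop 3))
  refine ⟨κ, hκpos, X₀, fun X hX Y hY1 hY2 => ?_⟩
  obtain ⟨hX1, hX3⟩ := hX₀ X hX
  have hX0 : (0 : ℝ) < X := by exact_mod_cast (by omega : 0 < X)
  have h1κ : 0 ≤ 1 / κ₀ := by positivity
  have hY₀nn : (0 : ℝ) ≤ Y₀ := Nat.cast_nonneg _
  have hY₁nn : (0 : ℝ) ≤ Y₁ := Nat.cast_nonneg _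
  have hm₀nn : (0 : ℝ) ≤ m₀ := Nat.cast_nonneg _
  have hBnn : (0 : ℝ) ≤ B := Nat.cast_nonneg _
  set L : ℝ := Real.log X with hL
  have hL3 : 3 ≤ L := by linarith
  have hLY : L ≤ Y := by
    refine le_trans ?_ hY1
    calc L = L ^ 1 := (pow_one L).symm
      _ ≤ L ^ A := pow_le_pow_right₀ (by linarith) (by omega)
  have hYge : 1 / κ₀ + Y₀ + Y₁ + 16 * m₀ + 16 * (B + 2) + 3 ≤ Y := hX1.trans hLY
  have hY3 : 3 ≤ Y := by
    have : (3 : ℝ) ≤ Y := by linarith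
    exact_mod_cast this
  have hYY₀ : Y₀ ≤ Y := by
    have : (Y₀ : ℝ) ≤ Y := by linarith
    exact_mod_cast this
  have hYY₁ : Y₁ ≤ Y := by
    have : (Y₁ : ℝ) ≤ Y := by linarith
    exact_mod_cast this
  have hYm : 16 * m₀ ≤ Y := by
    have : (16 * m₀ : ℝ) ≤ Y := by linarith
    exact_mod_cast this
  have hYB : 16 * (B + 2) ≤ Y := by
    have : (16 * (B + 2) : ℝ) ≤ Y := by linarith
    exact_mod_cast this
  have hYr : (3 : ℝ) ≤ Y := by exact_mod_cast hY3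
  have hlogY : 0 < Real.log Y := Real.log_pos (by linarith)
  have hYX : (Y : ℝ) ≤ X := by
    have h1 : (Y : ℝ) ≤ (Y : ℝ) ^ Q.natDegree := by
      calc (Y : ℝ) = (Y : ℝ) ^ 1 := (pow_one _).symm
        _ ≤ _ := pow_le_pow_right₀ (by linarith) hd
    have h2 : κ ≤ 1 := (min_le_right _ _).trans (by
      rw [div_le_one (by positivity)]
      have : (0 : ℝ) ≤ C := Nat.cast_nonneg C
      linarith)
    calc (Y : ℝ) ≤ (Y : ℝ) ^ Q.natDegree := h1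
      _ ≤ κ * X := hY2
      _ ≤ 1 * X := mul_le_mul_of_nonneg_right h2 hX0.le
      _ = X := one_mul _
  have hlogYX : Real.log Y ≤ L := Real.log_le_log (by linarith) hYX
  have hlogYX' : Real.log Y ^ a ≤ L ^ a := pow_le_pow_left₀ hlogY.le hlogYX a
  have hLMM : L ^ (T₂ * K₂ + 1) ≤ Y / Real.log Y ^ V.card := by
    rw [hVc, le_div_iff₀ (by positivity)]
    calc L ^ (T₂ * K₂ + 1) * Real.log Y ^ (T₁ * K₁ + 1) ≤ L ^ (T₂ * K₂ + 1) * L ^ a := by gcongr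
      _ = L ^ (a + (T₂ * K₂ + 1)) := by rw [← pow_add]; congr 1; omega
      _ ≤ L ^ A := pow_le_pow_right₀ (by linarith) (by omega)
      _ ≤ Y := hY1
  -- the source
  obtain ⟨S₁, σ₁, τ₁, ⟨hS₁, hσ₁⟩, hcard⟩ := hY₁ Y hYY₁
  set R : Finset ℕ := (Rp f δ₁ s S₁ σ₁ τ₁ Y).filter (fun n => n ≡ v [MOD W]) with hR
  have hRp : ∀ m ∈ R, m ∈ Icc 1 Y ∧ (Y : ℝ) / 16 ≤ m ∧
      (∀ p : ℕ, p.Prime → Real.log p ≤ δ₁ * Real.log Y → ¬ (p : ℤ) ∣ (m : ℤ) - s) ∧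
      (∀ g i, ∀ p : ℕ, p.Prime → Real.log p ≤ δ₁ * Real.log Y →
        ¬ (p : ℤ) ∣ (f g i).1 * m + (f g i).2) ∧
      (∀ g, P2 ((f g (τ₁ g)).1 * (m : ℤ) + (f g (τ₁ g)).2)) ∧
      ∀ g ∈ S₁, ((f g (σ₁ g)).1 * (m : ℤ) + (f g (σ₁ g)).2).toNat.Prime := by
    intro m hm
    have h1 := (mem_filter.1 hm).1
    unfold Rp at h1
    obtain ⟨e1, e2, e3, e4, e5, e6⟩ := mem_filter.1 h1
    exact ⟨e1, e2, e3, e4, e5, e6⟩
  have hRg : R ⊆ Rg V δ₁ Y := by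
    intro m hm
    obtain ⟨e1, e2, e3, e4, -, e6⟩ := hRp m hm
    unfold Rg
    refine mem_filter.2 ⟨e1, ?_⟩
    intro x hx p hp hpl hd
    rw [hV] at hx
    unfold Fs at hx
    rcases mem_insert.1 hx with rfl | hx
    · apply e3 p hp hpl
      simp only [one_mul] at hd
      rwa [← sub_eq_add_neg] at hd
    · obtain ⟨z, -, rfl⟩ := mem_image.1 hx
      exact e4 z.1 z.2 p hp hpl hd
  have hRc : c₁ / W * (Y / Real.log Y ^ V.card) ≤ R.card := by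
    rw [hVc, ← ha]
    refine le_trans (le_of_eq ?_) hcard
    rw [← hWdef]
    field_simp
  have hmod : ∀ m ∈ R, m ≡ v [MOD W] := fun m hm => (mem_filter.1 hm).2
  have hRY : ∀ m ∈ R, Y ≤ 16 * m := by
    intro m hm
    have h1 := (hRp m hm).2.1
    have : (Y : ℝ) ≤ 16 * m := by linarith
    exact_mod_cast this
  have hCY : C * Y ^ Q.natDegree ≤ X := by
    have h1 : ((C * Y ^ Q.natDegree : ℕ) : ℝ) ≤ X := by
      push_cast
      calc (C : ℝ) * (Y : ℝ) ^ Q.natDegree ≤ (C + 1) * (κ * X) := by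
            gcongr
            linarith
        _ ≤ (C + 1) * (1 / (C + 1) * X) := by
            have : κ ≤ 1 / ((C : ℝ) + 1) := min_le_right _ _
            gcongr
        _ = X := by
            have : (0 : ℝ) < (C : ℝ) + 1 := by positivity
            field_simp
    exact_mod_cast h1
  have hmain := hgen Y hYY₀ X hCY hLMM R hRg (by
    intro m hm
    have h2 := hRY m hm
    omega) hRc w (by
    intro m hm p hp g i hd
    have hpp := (mem_filter.1 hp).2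
    apply (hvw p hpp).2 g i
    have h1 : (p : ℤ) ∣ Q.eval ((m : ℤ) + h₂ g i) - Q.eval (v' p + h₂ g i) := by
      refine dvd_trans ?_ (sub_dvd_eval_sub ((m : ℤ) + h₂ g i) (v' p + h₂ g i) Q)
      have e1 : (W : ℤ) ∣ (m : ℤ) - v := (Int.natCast_modEq_iff.2 (hmod m hm)).symm.dvd
      have e2 := dvd_add ((hpW p hp).trans e1) (hvp p hp)
      have e3 : (m : ℤ) - v + (v - v' p) = (m : ℤ) + h₂ g i - (v' p + h₂ g i) := by ring
      rwa [e3] at e2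
    have h3 := dvd_sub (dvd_sub hd h1) (hw p hp)
    have e4 : w + Q.eval ((m : ℤ) + h₂ g i) - (Q.eval ((m : ℤ) + h₂ g i) - Q.eval (v' p + h₂ g i)) -
        (w - w' p) = w' p + Q.eval (v' p + h₂ g i) := by ring
    rwa [e4] at h3)
  refine (mul_le_mul_of_nonneg_right (min_le_left _ _) hX0.le).trans (hmain.trans ?_)
  rw [Nat.cast_le]
  apply card_le_card
  intro N hN
  obtain ⟨hN1, hN2, hN3, S, σ, τ, hS, hcl⟩ := mem_filter.1 hN
  refine mem_filter.2 ⟨hN1, hN2, ?_⟩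
  refine ⟨τ₁, τ, ?_⟩
  have h1 : (Y : ℝ) / L ^ A ≤ κ₀ * (Y / Real.log Y ^ V.card / L ^ (T₂ * K₂ + 1)) := by
    rw [hVc]
    have h2 : 1 ≤ κ₀ * L := by
      have h3 : 1 / κ₀ ≤ L := by linarith
      rw [div_le_iff₀ hκ₀] at h3
      linarith
    have hL0 : 0 < L := by linarith
    calc (Y : ℝ) / L ^ A ≤ (κ₀ * L) * (Y / L ^ A) := le_mul_of_one_le_left (by positivity) h2
      _ = κ₀ * (Y / L ^ a / L ^ (T₂ * K₂ + 1)) := by
          rw [hA, pow_add, pow_add, pow_one]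
          field_simp
      _ ≤ κ₀ * (Y / Real.log Y ^ (T₁ * K₁ + 1) / L ^ (T₂ * K₂ + 1)) := by gcongr
  refine h1.trans (hcl.trans ?_)
  rw [Nat.cast_le]
  apply card_le_card
  intro m hm
  unfold Cl at hm
  obtain ⟨hmR, hp1, hp2, -⟩ := mem_filter.1 hm
  obtain ⟨e1, e2, e3, e4, e5, e6⟩ := hRp m hmR
  refine mem_filter.2 ⟨e1, hRY m hmR, ?_, ?_, ?_, hp2⟩
  · have h5 := e6 g₁ hS₁
    rw [hσ₁] at h5
    simp only [hf, one_mul] at h5
    rw [hz₁, add_zero, Int.toNat_natCast] at h5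
    exact h5
  · have h5 := hp1 g₂ hS.1
    rw [hS.2, hz₂, Nat.cast_zero, add_zero] at h5
    exact h5
  · intro g
    have h5 := e5 g
    simp only [hf, one_mul] at h5
    apply apV_P2 _ h5
    have h6 := hB g (τ₁ g)
    have h7 := neg_abs_le (h₁ g (τ₁ g))
    have h8 := hRY m hmR
    have h9 : B + 2 ≤ m := by omega
    have h10 : (B : ℤ) + 2 ≤ m := by exact_mod_cast h9
    linarith

end Pool.Agent.Helper74.FB
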