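import Mathlib
import Pool.Agent.Helper74.FB.JQMain
import Pool.Agent.Helper74.FB.JMain

/-! Several constants `N j` and families of polynomials `A j h`: arguments in a thin set. -/

set_option autoImplicit false

namespace Pool.Agent.Helper74.FB

open Finset Filter Topology Polynomial
open Pool.Agent.Erdos456
open Pool.Agent.H410R2 (WW)
open Pool.Agent.Helper74.OR (Rg)
open Pool.Agent.Helper74.AE (WW_pos)

theorem root_ev (P : ℤ[X]) (hP : P ≠ 0) : ∃ m₀ : ℕ, ∀ m : ℕ, m₀ ≤ m → P.eval (m : ℤ) ≠ 0 := by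
  classical
  refine ⟨1 + ∑ z ∈ P.roots.toFinset, z.natAbs, fun m hm h0 => ?_⟩
  have h1 : (m : ℤ) ∈ P.roots.toFinset := by
    rw [Multiset.mem_toFinset, mem_roots hP]
    exact h0
  have h2 := single_le_sum (f := fun z : ℤ => z.natAbs) (fun _ _ => Nat.zero_le _) h1
  simp only [Int.natAbs_natCast] at h2
  omega

theorem momsFam (V : Finset (ℤ × ℤ)) (hV1 : ∀ f ∈ V, f.1 ≠ 0)
    (hV2 : ∀ f ∈ V, ∀ g ∈ V, f ≠ g → f.1 * g.2 - g.1 * f.2 ≠ 0) (δ : ℝ) (hδ : 0 < δ)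
    (𝓗 : Finset ℕ) (A : ℕ → ℤ[X]) (hd : ∀ h ∈ 𝓗, 1 ≤ (A h).natDegree)
    (hA : ∀ h ∈ 𝓗, ∀ h' ∈ 𝓗, A h = A h' → h = h') (E : ℕ) (hE : 1 ≤ E) :
    ∃ c₀ : ℝ, 0 < c₀ ∧ ∀ᶠ Y : ℕ in atTop,
      (((Rg V δ Y).card : ℕ) : ℝ) ≤ c₀ * (Y / Real.log Y ^ V.card) ∧
      (∀ m ≤ Y, ∀ h ∈ 𝓗, ∀ h' ∈ 𝓗, ∑ n ∈ Rg V δ Y,
        GG ((A h).eval (n : ℤ) - (A h').eval (m : ℤ)).natAbs ^ E ≤ c₀ * (Y / Real.log Y ^ V.card)) ∧
      ∀ h ∈ 𝓗, ∀ h' ∈ 𝓗, h ≠ h' → ∑ n ∈ Rg V δ Y,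
        GG ((A h).eval (n : ℤ) - (A h').eval (n : ℤ)).natAbs ^ E ≤ c₀ * (Y / Real.log Y ^ V.card) := by
  classical
  obtain ⟨d, hdd⟩ : ∃ d : ℕ, ∀ h ∈ 𝓗, (A h).natDegree ≤ d :=
    ⟨∑ h ∈ 𝓗, (A h).natDegree, fun h hh => single_le_sum (f := fun h => (A h).natDegree)
      (fun _ _ => Nat.zero_le _) hh⟩
  obtain ⟨PP, hPP⟩ : ∃ PP : ℕ × ℕ → ℤ[X], PP = fun x => A x.1 - A x.2 := ⟨_, rfl⟩
  have hPne : ∀ x ∈ 𝓗.offDiag, PP x ≠ 0 := by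
    intro x hx h0
    rw [mem_offDiag] at hx
    rw [hPP] at h0
    exact hx.2.2 (hA _ hx.1 _ hx.2.1 (sub_eq_zero.1 h0))
  have hPd : ∀ x ∈ 𝓗.offDiag, (PP x).natDegree ≤ d := by
    intro x hx
    rw [mem_offDiag] at hx
    rw [hPP]
    exact (natDegree_sub_le _ _).trans (max_le (hdd _ hx.1) (hdd _ hx.2.1))
  obtain ⟨g, hg⟩ : ∃ g : ℕ, g = (∏ h ∈ 𝓗, (A h).leadingCoeff.natAbs) *
      ∏ x ∈ 𝓗.offDiag, (PP x).leadingCoeff.natAbs := ⟨_, rfl⟩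
  have hg0 : 0 < g := by
    rw [hg]
    apply Nat.mul_pos
    · apply Finset.prod_pos
      intro h hh
      refine Int.natAbs_pos.2 (leadingCoeff_ne_zero.2 ?_)
      intro h0
      have := hd h hh
      rw [h0] at this
      simp at this
    · apply Finset.prod_pos
      intro x hx
      exact Int.natAbs_pos.2 (leadingCoeff_ne_zero.2 (hPne x hx))
  obtain ⟨c₀, hc₀, h1⟩ := momPoly V hV1 hV2 δ hδ E d (d + 1) g hE (by omega) hg0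
  choose B hB using fun h => eval_le (A h)
  obtain ⟨B', hB'⟩ : ∃ B' : ℕ, ∀ h ∈ 𝓗, B h ≤ B' :=
    ⟨∑ h ∈ 𝓗, B h, fun h hh => single_le_sum (f := B) (fun _ _ => Nat.zero_le _) hh⟩
  refine ⟨c₀, hc₀, ?_⟩
  filter_upwards [h1, eventually_ge_atTop (2 * B' * 2 ^ d + 1)] with Y hY hYB
  have hY1 : 1 ≤ Y := by omega
  have key : ∀ h ∈ 𝓗, ∀ n ≤ Y, ((A h).eval (n : ℤ)).natAbs ≤ B' * 2 ^ d * Y ^ d := by
    intro h hh n hn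
    refine (hB h _).trans ?_
    rw [Int.natAbs_natCast]
    calc B h * (1 + n) ^ (A h).natDegree ≤ B' * (2 * Y) ^ d := by
          apply Nat.mul_le_mul (hB' h hh)
          exact (Nat.pow_le_pow_left (by omega) _).trans (Nat.pow_le_pow_right (by omega) (hdd h hh))
      _ = B' * 2 ^ d * Y ^ d := by rw [mul_pow]; ring
  have hb : ∀ h ∈ 𝓗, ∀ h' ∈ 𝓗, ∀ n ≤ Y, ∀ m ≤ Y,
      ((((A h).eval (n : ℤ) - (A h').eval (m : ℤ)).natAbs : ℕ) : ℝ) ≤ (Y : ℝ) ^ (d + 1) := by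
    intro h hh h' hh' n hn m hm
    have e1 := Int.natAbs_sub_le ((A h).eval (n : ℤ)) ((A h').eval (m : ℤ))
    have e2 := key h hh n hn
    have e3 := key h' hh' m hm
    have e4 : ((A h).eval (n : ℤ) - (A h').eval (m : ℤ)).natAbs ≤ Y ^ (d + 1) := by
      calc _ ≤ 2 * (B' * 2 ^ d * Y ^ d) := by omega
        _ = (2 * B' * 2 ^ d) * Y ^ d := by ring
        _ ≤ Y * Y ^ d := Nat.mul_le_mul_right _ (by omega)
        _ = Y ^ (d + 1) := by ring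
    exact_mod_cast e4
  refine ⟨?_, ?_, ?_⟩
  · have h2 := hY 1 (by simp) one_ne_zero (by simp) (by
      intro n hn
      simp only [eval_one, Int.natAbs_one, Nat.cast_one]
      exact one_le_pow₀ (by exact_mod_cast hY1))
    simp only [eval_one, Int.natAbs_one] at h2
    have h3 : GG 1 = 1 := by simp [GG]
    rw [h3] at h2
    simpa using h2
  · intro m hm h hh h' hh'
    obtain ⟨e1, e2, e3⟩ := shift_poly (A h) (hd h hh) 0 ((A h').eval (m : ℤ))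
    simp only [Nat.cast_zero, add_zero] at e1 e2 e3
    have h2 := hY ((A h).comp (X + C (0 : ℤ)) - C ((A h').eval (m : ℤ))) (e1.le.trans (hdd h hh)) (by
      intro h0
      rw [h0] at e1
      have := hd h hh
      simp at e1
      omega) (by
        rw [e2, hg]
        exact (dvd_prod_of_mem (fun h => (A h).leadingCoeff.natAbs) hh).mul_right _) (by
      intro n hn
      rw [e3]
      exact hb h hh h' hh' n (mem_Icc.1 hn).2 m hm)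
    refine le_trans (le_of_eq (sum_congr rfl fun n _ => ?_)) h2
    rw [e3]
  · intro h hh h' hh' hne
    have hx : (h, h') ∈ 𝓗.offDiag := mem_offDiag.2 ⟨hh, hh', hne⟩
    have hev : ∀ n : ℤ, (PP (h, h')).eval n = (A h).eval n - (A h').eval n := by
      intro n
      rw [hPP]
      simp
    have h2 := hY (PP (h, h')) (hPd _ hx) (hPne _ hx) (by
      rw [hg]
      exact (dvd_prod_of_mem (fun x => (PP x).leadingCoeff.natAbs) hx).mul_left _) (by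
      intro n hn
      rw [hev]
      exact hb h hh h' hh' n (mem_Icc.1 hn).2 n (mem_Icc.1 hn).2)
    refine le_trans (le_of_eq (sum_congr rfl fun n _ => ?_)) h2
    rw [hev]

/-- the data needed for the abstract theorem -/
theorem famData {J : ℕ} (E : ℕ) (hE : 1 ≤ E) (𝓗 : Finset ℕ) (A : Fin J → ℕ → ℤ[X])
    (hd : ∀ j, ∀ h ∈ 𝓗, 1 ≤ (A j h).natDegree) (hA : ∀ j, ∀ h ∈ 𝓗, ∀ h' ∈ 𝓗, A j h = A j h' → h = h')
    (V : Finset (ℤ × ℤ)) (hV1 : ∀ f ∈ V, f.1 ≠ 0)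
    (hV2 : ∀ f ∈ V, ∀ g ∈ V, f ≠ g → f.1 * g.2 - g.1 * f.2 ≠ 0) (δ' : ℝ) (hδ' : 0 < δ') :
    ∃ C₁ : ℝ, 1 ≤ C₁ ∧ ∃ C m₀ Y₀ : ℕ, ∀ Y : ℕ, Y₀ ≤ Y →
      (((Rg V δ' Y).card : ℕ) : ℝ) ≤ C₁ * (Y / Real.log Y ^ V.card) ∧
      (∀ m ≤ Y, ∀ j, ∀ h ∈ 𝓗, ∀ h' ∈ 𝓗, ∑ n ∈ Rg V δ' Y,
        GG ((A j h).eval (n : ℤ) - (A j h').eval (m : ℤ)).natAbs ^ E ≤ C₁ * (Y / Real.log Y ^ V.card)) ∧
      (∀ j, ∀ h ∈ 𝓗, ∀ h' ∈ 𝓗, h ≠ h' → ∑ n ∈ Rg V δ' Y,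
        GG ((A j h).eval (n : ℤ) - (A j h').eval (n : ℤ)).natAbs ^ E ≤ C₁ * (Y / Real.log Y ^ V.card)) ∧
      (∀ m : ℕ, m₀ ≤ m → ∀ j, ∀ h ∈ 𝓗, ∀ h' ∈ 𝓗, (A j h).eval (m : ℤ) = (A j h').eval (m : ℤ) → h = h') ∧
      (∀ m m' : ℕ, m₀ ≤ m → m₀ ≤ m' → ∀ j, ∀ h ∈ 𝓗, (A j h).eval (m : ℤ) = (A j h).eval (m' : ℤ) → m = m') ∧
      (∀ j, ∀ h ∈ 𝓗, ∀ X : ℕ, C * Y ^ (A j h).natDegree ≤ X → ∀ m ≤ Y,
        64 * |(A j h).eval (m : ℤ)| ≤ (X : ℤ)) := by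
  classical
  choose c₀ hc₀ hmom using fun j => momsFam V hV1 hV2 δ' hδ' 𝓗 (A j) (hd j) (hA j) E hE
  obtain ⟨c₀', hc₀', hmom'⟩ := momsFam V hV1 hV2 δ' hδ' ∅ (fun _ => 0) (by simp) (by simp) E hE
  obtain ⟨C₂, hC₂1, hC₂⟩ := unifR c₀
  obtain ⟨Y₁, hY₁⟩ := eventually_atTop.1 ((eventually_all.2 hmom).and hmom')
  have hinj : ∀ j, ∀ h : ℕ, ∃ m₁ : ℕ, h ∈ 𝓗 → ∀ x y : ℤ, (m₁ : ℤ) ≤ x → (m₁ : ℤ) ≤ y →
      (A j h).eval x = (A j h).eval y → x = y := by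
    intro j h
    by_cases hh : h ∈ 𝓗
    · obtain ⟨m₁, hm₁⟩ := inj_ev (A j h) (hd j h hh)
      exact ⟨m₁, fun _ => hm₁⟩
    · exact ⟨0, fun h0 => absurd h0 hh⟩
  choose m₁ hm₁ using hinj
  have hroot : ∀ j, ∀ h h' : ℕ, ∃ m₂ : ℕ, h ∈ 𝓗 → h' ∈ 𝓗 → h ≠ h' → ∀ m : ℕ, m₂ ≤ m →
      (A j h - A j h').eval (m : ℤ) ≠ 0 := by
    intro j h h'
    by_cases hh : h ∈ 𝓗 ∧ h' ∈ 𝓗 ∧ h ≠ h'
    · obtain ⟨m₂, hm₂⟩ := root_ev (A j h - A j h') (fun h0 =>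
        hh.2.2 (hA j h hh.1 h' hh.2.1 (sub_eq_zero.1 h0)))
      exact ⟨m₂, fun _ _ _ => hm₂⟩
    · exact ⟨0, fun a b c => absurd ⟨a, b, c⟩ hh⟩
  choose m₂ hm₂ using hroot
  obtain ⟨m₃, hm₃⟩ : ∃ m₃ : ℕ, ∀ j, ∀ h ∈ 𝓗, m₁ j h ≤ m₃ := by
    refine ⟨∑ j, ∑ h ∈ 𝓗, m₁ j h, fun j h hh => ?_⟩
    exact (single_le_sum (f := fun h => m₁ j h) (fun _ _ => Nat.zero_le _) hh).trans
      (single_le_sum (f := fun j => ∑ h ∈ 𝓗, m₁ j h) (fun _ _ => Nat.zero_le _) (mem_univ j))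
  obtain ⟨m₄, hm₄⟩ : ∃ m₄ : ℕ, ∀ j, ∀ h ∈ 𝓗, ∀ h' ∈ 𝓗, m₂ j h h' ≤ m₄ := by
    refine ⟨∑ j, ∑ h ∈ 𝓗, ∑ h' ∈ 𝓗, m₂ j h h', fun j h hh h' hh' => ?_⟩
    exact ((single_le_sum (f := fun h' => m₂ j h h') (fun _ _ => Nat.zero_le _) hh').trans
      (single_le_sum (f := fun h => ∑ h' ∈ 𝓗, m₂ j h h') (fun _ _ => Nat.zero_le _) hh)).trans
      (single_le_sum (f := fun j => ∑ h ∈ 𝓗, ∑ h' ∈ 𝓗, m₂ j h h') (fun _ _ => Nat.zero_le _) (mem_univ j))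
  choose B hB using fun j h => eval_le (A j h)
  obtain ⟨C, hC⟩ : ∃ C : ℕ, ∀ j, ∀ h ∈ 𝓗, 64 * B j h * 2 ^ (A j h).natDegree + 1 ≤ C := by
    refine ⟨∑ j, ∑ h ∈ 𝓗, (64 * B j h * 2 ^ (A j h).natDegree + 1), fun j h hh => ?_⟩
    exact (single_le_sum (f := fun h => 64 * B j h * 2 ^ (A j h).natDegree + 1)
      (fun _ _ => Nat.zero_le _) hh).trans
      (single_le_sum (f := fun j => ∑ h ∈ 𝓗, (64 * B j h * 2 ^ (A j h).natDegree + 1))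
        (fun _ _ => Nat.zero_le _) (mem_univ j))
  refine ⟨C₂ + c₀', by linarith, C, max m₃ m₄, max Y₁ 3, fun Y hY => ?_⟩
  have hYY₁ : Y₁ ≤ Y := (le_max_left _ _).trans hY
  have hY3 : 3 ≤ Y := (le_max_right _ _).trans hY
  obtain ⟨hm1, hm2⟩ := hY₁ Y hYY₁
  have hlogY : 0 < Real.log Y := Real.log_pos (by exact_mod_cast (by omega : 1 < Y))
  have h𝓜0 : 0 ≤ (Y : ℝ) / Real.log Y ^ V.card := by positivity
  have hle : ∀ j, c₀ j * ((Y : ℝ) / Real.log Y ^ V.card) ≤ (C₂ + c₀') * (Y / Real.log Y ^ V.card) := by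
    intro j
    apply mul_le_mul_of_nonneg_right _ h𝓜0
    have := hC₂ j
    linarith
  refine ⟨?_, ?_, ?_, ?_, ?_, ?_⟩
  · refine hm2.1.trans (mul_le_mul_of_nonneg_right ?_ h𝓜0)
    linarith
  · intro m hm j h hh h' hh'
    exact ((hm1 j).2.1 m hm h hh h' hh').trans (hle j)
  · intro j h hh h' hh' hne
    exact ((hm1 j).2.2 h hh h' hh' hne).trans (hle j)
  · intro m hm j h hh h' hh' heq
    by_contra hne
    apply hm₂ j h h' hh hh' hne m (((hm₄ j h hh h' hh').trans (le_max_right _ _)).trans hm)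
    rw [eval_sub, heq, sub_self]
  · intro m m' hm hm' j h hh heq
    have e1 := ((hm₃ j h hh).trans (le_max_left _ m₄)).trans hm
    have e2 := ((hm₃ j h hh).trans (le_max_left _ m₄)).trans hm'
    have := hm₁ j h hh m m' (by exact_mod_cast e1) (by exact_mod_cast e2) heq
    exact_mod_cast this
  · intro j h hh X hX m hm
    have h1 := hB j h (m : ℤ)
    rw [Int.natAbs_natCast] at h1
    have h3 : ((A j h).eval (m : ℤ)).natAbs ≤ B j h * (2 * Y) ^ (A j h).natDegree :=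
      h1.trans (Nat.mul_le_mul_left _ (Nat.pow_le_pow_left (by omega) _))
    have h4 : 64 * ((A j h).eval (m : ℤ)).natAbs ≤ X := by
      calc 64 * ((A j h).eval (m : ℤ)).natAbs ≤ 64 * (B j h * (2 * Y) ^ (A j h).natDegree) :=
            Nat.mul_le_mul_left _ h3
        _ = (64 * B j h * 2 ^ (A j h).natDegree) * Y ^ (A j h).natDegree := by rw [mul_pow]; ring
        _ ≤ C * Y ^ (A j h).natDegree := Nat.mul_le_mul_right _ (by have := hC j h hh; omega)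
        _ ≤ X := hX
    rw [Int.abs_eq_natAbs]
    exact_mod_cast h4

/-- for a given `m` there are few bad `m'` -/
theorem famBad {J : ℕ} (𝓗 : Finset ℕ) (A : Fin J → ℕ → ℤ[X]) (m₀ : ℕ) (R : Finset ℕ) (hR : ∀ m ∈ R, m₀ ≤ m)
    (hinj : ∀ m m' : ℕ, m₀ ≤ m → m₀ ≤ m' → ∀ j, ∀ h ∈ 𝓗, (A j h).eval (m : ℤ) = (A j h).eval (m' : ℤ) → m = m')
    (m : ℕ) [DecidablePred fun m' : ℕ => ∃ j, ∃ h ∈ 𝓗, ∃ h' ∈ 𝓗, (A j h).eval (m : ℤ) = (A j h').eval (m' : ℤ)] :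
    ((R.filter (fun m' : ℕ => ∃ j, ∃ h ∈ 𝓗, ∃ h' ∈ 𝓗, (A j h).eval (m : ℤ) = (A j h').eval (m' : ℤ))).card : ℝ) ≤
      J * (𝓗.card : ℝ) ^ 2 := by
  classical
  have h1 : R.filter (fun m' : ℕ => ∃ j, ∃ h ∈ 𝓗, ∃ h' ∈ 𝓗, (A j h).eval (m : ℤ) = (A j h').eval (m' : ℤ)) ⊆
      ((univ : Finset (Fin J)) ×ˢ (𝓗 ×ˢ 𝓗)).biUnion (fun x =>
        R.filter (fun m' : ℕ => (A x.1 x.2.1).eval (m : ℤ) = (A x.1 x.2.2).eval (m' : ℤ) ∧ x.2.2 ∈ 𝓗)) := by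
    intro m' hm'
    obtain ⟨hmR, j, h, hh, h', hh', heq⟩ := mem_filter.1 hm'
    refine mem_biUnion.2 ⟨(j, h, h'), mem_product.2 ⟨mem_univ _, mem_product.2 ⟨hh, hh'⟩⟩, ?_⟩
    exact mem_filter.2 ⟨hmR, heq, hh'⟩
  have h2 := (card_le_card h1).trans card_biUnion_le
  have h3 : ∀ x ∈ (univ : Finset (Fin J)) ×ˢ (𝓗 ×ˢ 𝓗),
      (R.filter (fun m' : ℕ => (A x.1 x.2.1).eval (m : ℤ) = (A x.1 x.2.2).eval (m' : ℤ) ∧ x.2.2 ∈ 𝓗)).card ≤ 1 := by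
    intro x _
    rw [card_le_one]
    intro a ha b hb
    obtain ⟨ha1, ha2, ha3⟩ := mem_filter.1 ha
    obtain ⟨hb1, hb2, -⟩ := mem_filter.1 hb
    exact hinj a b (hR a ha1) (hR b hb1) x.1 x.2.2 ha3 (ha2.symm.trans hb2)
  have h4 := h2.trans (sum_le_sum h3)
  rw [sum_const, card_product, card_product, card_univ, Fintype.card_fin, smul_eq_mul, mul_one, ← sq] at h4
  exact_mod_cast h4

end Pool.Agent.Helper74.FB
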