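import Mathlib
import Pool.Agent.Helper74.FB.Dense

/-! Several constants `N j`, families of polynomials `A j h`, and arguments in an arbitrary dense set of integers. -/

set_option autoImplicit false

namespace Pool.Agent.Helper74.FB

open Finset Filter Topology Polynomial
open Pool.Agent.Erdos456
open Pool.Agent.H410R2 (WW)
open Pool.Agent.Helper74.OR (Rg)
open Pool.Agent.Helper74.AE (WW_pos)

/-- for every prime `p`, every class `u` and every `j` the values `A j h (u)` miss a class -/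
def AdI {J : ℕ} (A : Fin J → ℕ → ℤ[X]) (H : Finset ℕ) : Prop :=
  ∀ p : ℕ, p.Prime → ∀ u : ℤ, ∀ j, ∃ w : ℤ, ∀ h ∈ H, ¬ (p : ℤ) ∣ w + (A j h).eval u

theorem Rg_empty (δ : ℝ) (Y : ℕ) : Rg ∅ δ Y = Icc 1 Y := by
  classical
  ext n
  unfold Rg
  rw [mem_filter]
  exact ⟨fun h => h.1, fun h => ⟨h, fun f hf => absurd hf (notMem_empty f)⟩⟩

/-- a dense set has many elements in one class -/
theorem denseRI (D : ℕ) (c : ℝ) (hc : 0 < c) (m₀ : ℕ) : ∃ Y₀ : ℕ, ∀ Y : ℕ, Y₀ ≤ Y →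
    ∀ 𝒬 ⊆ Icc 1 Y, c * Y ≤ 𝒬.card →
    ∃ R ⊆ 𝒬, ∃ u : ℤ, (∀ m ∈ R, m₀ ≤ m) ∧ c / (2 * WW D) * Y ≤ R.card ∧
      (∀ m ∈ R, ((WW D : ℕ) : ℤ) ∣ (m : ℤ) - u) := by
  classical
  obtain ⟨Y₁, hY₁⟩ := exists_nat_ge (2 * m₀ / c)
  refine ⟨Y₁, fun Y hY 𝒬 h𝒬 hcard => ?_⟩
  have hW : 0 < WW D := WW_pos D
  have hWr : (0 : ℝ) < WW D := by exact_mod_cast hW
  have hYr : 2 * (m₀ : ℝ) / c ≤ Y := hY₁.trans (by exact_mod_cast hY)
  rw [div_le_iff₀ hc] at hYr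
  obtain ⟨R₀, hR₀⟩ : ∃ R₀ : Finset ℕ, R₀ = 𝒬.filter (fun p => m₀ ≤ p) := ⟨_, rfl⟩
  have hR₀c : c / 2 * Y ≤ (R₀.card : ℝ) := by
    have h1 : 𝒬.card ≤ R₀.card + m₀ := by
      rw [hR₀, ← card_filter_add_card_filter_not (s := 𝒬) (fun p => m₀ ≤ p)]
      apply Nat.add_le_add_left
      refine (card_le_card (t := range m₀) ?_).trans (card_range _).le
      intro p hp
      obtain ⟨h2, h3⟩ := mem_filter.1 hp
      exact mem_range.2 (not_le.1 h3)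
    have h2 : (𝒬.card : ℝ) ≤ R₀.card + m₀ := by exact_mod_cast h1
    linarith
  obtain ⟨u, hu⟩ := class_of (WW D) hW R₀
  obtain ⟨R, hR⟩ : ∃ R : Finset ℕ, R = R₀.filter (fun m => m % WW D = u) := ⟨_, rfl⟩
  rw [← hR] at hu
  have hRm : ∀ m ∈ R, m ∈ 𝒬 ∧ m₀ ≤ m ∧ m % WW D = u := by
    intro m hm
    rw [hR] at hm
    obtain ⟨h1, h2⟩ := mem_filter.1 hm
    rw [hR₀] at h1
    exact ⟨(mem_filter.1 h1).1, (mem_filter.1 h1).2, h2⟩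
  refine ⟨R, fun m hm => (hRm m hm).1, u, fun m hm => (hRm m hm).2.1, ?_, fun m hm => ?_⟩
  · refine le_trans ?_ hu
    calc c / (2 * WW D) * Y = (c / 2 * Y) / WW D := by field_simp
      _ ≤ (R₀.card : ℝ) / WW D := div_le_div_of_nonneg_right hR₀c hWr.le
  · rw [← (hRm m hm).2.2]
    push_cast
    exact Int.dvd_self_sub_emod

/-- a class for the `N j` -/
theorem classVI {J : ℕ} (D : ℕ) (A : Fin J → ℕ → ℤ[X]) (H : Finset ℕ) (hA : AdI A H) (R : Finset ℕ) (u : ℤ)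
    (hR : ∀ m ∈ R, ((WW D : ℕ) : ℤ) ∣ (m : ℤ) - u) :
    ∃ v : Fin J → ℤ, ∀ m ∈ R, ∀ j, ∀ p ∈ (Icc 1 D).filter Nat.Prime, ∀ h ∈ H,
      ¬ (p : ℤ) ∣ v j + (A j h).eval (m : ℤ) := by
  classical
  have h1 : ∀ j, ∀ p : ℕ, ∃ w : ℤ, p ∈ (Icc 1 D).filter Nat.Prime → ∀ h ∈ H, ¬ (p : ℤ) ∣ w + (A j h).eval u := by
    intro j p
    by_cases hp : p ∈ (Icc 1 D).filter Nat.Prime
    · obtain ⟨w, hw⟩ := hA p (mem_filter.1 hp).2 u j
      exact ⟨w, fun _ => hw⟩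
    · exact ⟨0, fun h0 => absurd h0 hp⟩
  choose w hw using h1
  choose v hv using fun j => crt D (w j)
  refine ⟨v, fun m hm j p hp h hh hd => hw j p hp h hh ?_⟩
  have h2 : (p : ℤ) ∣ ((WW D : ℕ) : ℤ) := by
    rw [WW]
    exact_mod_cast dvd_prod_of_mem (fun p : ℕ => p) hp
  have h3 : (p : ℤ) ∣ (A j h).eval (m : ℤ) - (A j h).eval u :=
    (h2.trans (hR m hm)).trans (sub_dvd_eval_sub (m : ℤ) u (A j h))
  have h4 := dvd_sub (dvd_sub hd h3) (hv j p hp)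
  have e4 : v j + (A j h).eval (m : ℤ) - ((A j h).eval (m : ℤ) - (A j h).eval u) - (v j - w j p) =
      w j p + (A j h).eval u := by ring
  rwa [e4] at h4

open Classical in
theorem denseIJ (J r : ℕ) (hr : 1 ≤ r) : ∃ K B : ℕ, ∀ 𝓗 : Finset ℕ, K ≤ 𝓗.card → ∀ A : Fin J → ℕ → ℤ[X],
    (∀ j, ∀ h ∈ 𝓗, 1 ≤ (A j h).natDegree) → (∀ j, ∀ h ∈ 𝓗, ∀ h' ∈ 𝓗, A j h = A j h' → h = h') → AdI A 𝓗 →
    ∀ c : ℝ, 0 < c → ∃ κ : ℝ, 0 < κ ∧ ∃ X₀ : ℕ, ∀ X : ℕ, X₀ ≤ X → ∀ Y : ℕ, Real.log X ^ B ≤ Y →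
      (Y : ℝ) ≤ κ * X → (∀ j, ∀ h ∈ 𝓗, (Y : ℝ) ^ (A j h).natDegree ≤ κ * X) →
      ∀ 𝒬 ⊆ Icc 1 Y, c * Y ≤ 𝒬.card →
      κ * (X : ℝ) ^ J ≤ (((Fintype.piFinset (fun _ : Fin J => Icc 1 X)).filter (fun N =>
        (∀ j, X ≤ 32 * N j) ∧ ∃ P ⊆ 𝓗, P.card = r ∧ (Y : ℝ) / Real.log X ^ B ≤
          ((𝒬.filter (fun p : ℕ => ∀ j, ∀ h ∈ P, PrV ((N j : ℤ) + (A j h).eval (p : ℤ)))).card : ℝ))).card :
            ℝ) := by
  obtain ⟨K, k, D₀, hrK, habs⟩ := absJ J r hr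
  obtain ⟨k', hk'⟩ : ∃ k' : ℕ, k' = ∑ j, k j := ⟨_, rfl⟩
  refine ⟨K, k' + 2, fun 𝓗 h𝓗 A hd hA hadm c hc => ?_⟩
  obtain ⟨H, hHsub, hHK⟩ := exists_subset_card_eq h𝓗
  obtain ⟨D, hD⟩ : ∃ D : ℕ, D = D₀ + 2 := ⟨_, rfl⟩
  have hE : 1 ≤ EJ k := by unfold EJ; omega
  have hW : 0 < WW D := WW_pos D
  have hWr : (0 : ℝ) < WW D := by exact_mod_cast hW
  obtain ⟨C₁, hC₁1, C, m₀, Y₀, hdata⟩ := famData (EJ k) hE 𝓗 A hd hA ∅ (by simp) (by simp)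
    (1 / 2) (by norm_num)
  obtain ⟨κ₀, hκ₀, X₁, hmain⟩ := habs D (by omega) (c / (2 * WW D)) C₁ (J * (𝓗.card : ℝ) ^ 2) (by positivity)
    hC₁1 (by positivity)
  obtain ⟨Y₁, hY₁⟩ := denseRI D c hc m₀
  obtain ⟨κ, hκ⟩ : ∃ κ : ℝ, κ = min κ₀ (1 / (C + 1)) := ⟨_, rfl⟩
  have hκpos : 0 < κ := by rw [hκ]; exact lt_min hκ₀ (by positivity)
  have tN : Tendsto (fun N : ℕ => (N : ℝ)) atTop atTop := tendsto_natCast_atTop_atTop
  have hlog : Tendsto (fun N : ℕ => Real.log (N : ℝ)) atTop atTop := Real.tendsto_log_atTop.comp tN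
  obtain ⟨X₀, hX₀⟩ := eventually_atTop.1
    ((hlog.eventually_ge_atTop (1 / κ₀ + Y₀ + Y₁ + 3)).and (eventually_ge_atTop (X₁ + 3)))
  refine ⟨κ, hκpos, X₀, fun X hX Y hY1 hYκ hY2 𝒬 h𝒬 hcard => ?_⟩
  obtain ⟨hX1, hX3⟩ := hX₀ X hX
  have hX0 : (0 : ℝ) < X := by exact_mod_cast (by omega : 0 < X)
  have h1κ : 0 ≤ 1 / κ₀ := by positivity
  have hY₀nn : (0 : ℝ) ≤ Y₀ := Nat.cast_nonneg _
  have hY₁nn : (0 : ℝ) ≤ Y₁ := Nat.cast_nonneg _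
  obtain ⟨L, hL⟩ : ∃ L : ℝ, L = Real.log X := ⟨_, rfl⟩
  rw [← hL] at hX1 hY1 ⊢
  have hL3 : 3 ≤ L := by linarith
  have hLY : L ≤ Y := by
    refine le_trans ?_ hY1
    calc L = L ^ 1 := (pow_one L).symm
      _ ≤ L ^ (k' + 2) := pow_le_pow_right₀ (by linarith) (by omega)
  have hYge : 1 / κ₀ + Y₀ + Y₁ + 3 ≤ Y := hX1.trans hLY
  have hY3 : 3 ≤ Y := by
    have : (3 : ℝ) ≤ Y := by linarith
    exact_mod_cast this
  have hYY₀ : Y₀ ≤ Y := by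
    have : (Y₀ : ℝ) ≤ Y := by linarith
    exact_mod_cast this
  have hYY₁ : Y₁ ≤ Y := by
    have : (Y₁ : ℝ) ≤ Y := by linarith
    exact_mod_cast this
  have hYr : (3 : ℝ) ≤ Y := by exact_mod_cast hY3
  have hκ1 : κ ≤ 1 := by
    rw [hκ]
    refine (min_le_right _ _).trans ?_
    rw [div_le_one (by positivity)]
    have : (0 : ℝ) ≤ C := Nat.cast_nonneg C
    linarith
  have hYX : (Y : ℝ) ≤ X := by
    calc (Y : ℝ) ≤ κ * X := hYκ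
      _ ≤ 1 * X := mul_le_mul_of_nonneg_right hκ1 hX0.le
      _ = X := one_mul _
  have hLMM : L ^ k' ≤ Y := (pow_le_pow_right₀ (by linarith) (by omega)).trans hY1
  have hCY : ∀ j, ∀ h ∈ 𝓗, C * Y ^ (A j h).natDegree ≤ X := by
    intro j h hh
    have h1 : ((C * Y ^ (A j h).natDegree : ℕ) : ℝ) ≤ X := by
      push_cast
      calc (C : ℝ) * (Y : ℝ) ^ (A j h).natDegree ≤ (C + 1) * (κ * X) := by
            have := hY2 j h hh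
            gcongr
            linarith
        _ ≤ (C + 1) * (1 / (C + 1) * X) := by
            have : κ ≤ 1 / ((C : ℝ) + 1) := by rw [hκ]; exact min_le_right _ _
            gcongr
        _ = X := by
            have : (0 : ℝ) < (C : ℝ) + 1 := by positivity
            field_simp
    exact_mod_cast h1
  obtain ⟨R, hRQ, u, hRm, hRc, hRu⟩ := hY₁ Y hYY₁ 𝒬 h𝒬 hcard
  have hRg : R ⊆ Rg ∅ (1 / 2) Y := by
    rw [Rg_empty]
    exact hRQ.trans h𝒬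
  obtain ⟨d1, d2, d3, d4, d5, d6⟩ := hdata Y hYY₀
  obtain ⟨v, hv⟩ := classVI D A H (fun p hp u' j => by
    obtain ⟨w, hw⟩ := hadm p hp u' j
    exact ⟨w, fun h hh => hw h (hHsub hh)⟩) R u hRu
  have hRY : ∀ m ∈ R, m ≤ Y := by
    intro m hm
    exact (mem_Icc.1 (h𝒬 (hRQ hm))).2
  have hGG0 : ∀ z : ℤ, 0 ≤ GG z.natAbs ^ EJ k := fun z => pow_nonneg (GG_nonneg _) _
  rw [card_empty, pow_zero, div_one] at d1 d2 d3
  have h𝓜0 : (0 : ℝ) < Y := by linarith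
  have hm := hmain X (by omega) H hHK R (fun m j h => (A j h).eval (m : ℤ))
    (fun m m' => ∃ j, ∃ h ∈ 𝓗, ∃ h' ∈ 𝓗, (A j h).eval (m : ℤ) = (A j h').eval (m' : ℤ))
    (Y : ℝ) h𝓜0
    (fun m hm j h hh h' hh' heq => d4 m (hRm m hm) j h (hHsub hh) h' (hHsub hh') heq)
    (fun m hm m' hm' hb j h hh h' hh' heq => hb ⟨j, h, hHsub hh, h', hHsub hh', heq⟩)
    (fun m _ => by convert famBad 𝓗 A m₀ R hRm d5 m)
    (((Nat.cast_le (α := ℝ)).2 (card_le_card hRg)).trans d1) hRc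
    (fun j h hh h' hh' hne => le_trans (sum_le_sum_of_subset_of_nonneg hRg fun m _ _ => hGG0 _)
      (d3 j h (hHsub hh) h' (hHsub hh') hne))
    (fun m hm j h hh h' hh' => le_trans (sum_le_sum_of_subset_of_nonneg hRg fun m _ _ => hGG0 _)
      (d2 m (hRY m hm) j h (hHsub hh) h' (hHsub hh')))
    (by rw [← hL, ← hk']; exact hLMM)
    (fun m hm j h hh => d6 j h (hHsub hh) X (hCY j h (hHsub hh)) m (hRY m hm)) v hv
  refine (mul_le_mul_of_nonneg_right (by rw [hκ]; exact min_le_left _ _) (by positivity)).trans (hm.trans ?_)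
  rw [Nat.cast_le]
  apply card_le_card
  intro N hN
  obtain ⟨hN1, hN2, P, hP, hPc, hcl⟩ := mem_filter.1 hN
  refine mem_filter.2 ⟨hN1, fun j => (hN2 j).1, P, hP.trans hHsub, hPc, ?_⟩
  have h1 : (Y : ℝ) / L ^ (k' + 2) ≤ κ₀ * (Y / L ^ k') := by
    have h2 : 1 ≤ κ₀ * L := by
      have h3 : 1 / κ₀ ≤ L := by linarith
      rw [div_le_iff₀ hκ₀] at h3
      linarith
    have hL0 : 0 < L := by linarith
    have h4 : L ^ (k' + 1) ≤ L ^ (k' + 2) := pow_le_pow_right₀ (by linarith) (by omega)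
    calc (Y : ℝ) / L ^ (k' + 2) ≤ Y / L ^ (k' + 1) := div_le_div_of_nonneg_left (by linarith) (by positivity) h4
      _ ≤ (κ₀ * L) * (Y / L ^ (k' + 1)) := le_mul_of_one_le_left (by positivity) h2
      _ = κ₀ * (Y / L ^ k') := by
          rw [pow_add, pow_one]
          field_simp
  rw [← hL, ← hk'] at hcl
  refine h1.trans (hcl.trans ?_)
  rw [Nat.cast_le]
  apply card_le_card
  intro m hm
  obtain ⟨hmR, hp1⟩ := mem_filter.1 hm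
  exact mem_filter.2 ⟨hRQ hmR, hp1⟩

open Classical in
theorem denseIQ (J r : ℕ) : ∃ K B : ℕ, ∀ 𝓗 : Finset ℕ, K ≤ 𝓗.card → ∀ A : Fin J → ℕ → ℤ[X],
    (∀ j, ∀ h ∈ 𝓗, 1 ≤ (A j h).natDegree) → (∀ j, ∀ h ∈ 𝓗, ∀ h' ∈ 𝓗, A j h = A j h' → h = h') → AdI A 𝓗 → ∀ h₀ ∈ 𝓗,
    ∀ c : ℝ, 0 < c → ∃ κ : ℝ, 0 < κ ∧ ∃ X₀ : ℕ, ∀ X : ℕ, X₀ ≤ X → ∀ Y : ℕ, Real.log X ^ B ≤ Y →
      (Y : ℝ) ≤ κ * X → (∀ j, ∀ h ∈ 𝓗, (Y : ℝ) ^ (A j h).natDegree ≤ κ * X) →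
      ∀ 𝒬 ⊆ Icc 1 Y, c * Y ≤ 𝒬.card →
      κ * (X : ℝ) ^ J ≤ (((Fintype.piFinset (fun _ : Fin J => Icc 1 X)).filter (fun N =>
        (∀ j, X ≤ 32 * N j) ∧ ∃ P ⊆ 𝓗.erase h₀, P.card = r ∧ (Y : ℝ) / Real.log X ^ B ≤
          ((𝒬.filter (fun p : ℕ => ∀ j, PrV ((N j : ℤ) + (A j h₀).eval (p : ℤ)) ∧
            ∀ h ∈ P, ApV 2 ((N j : ℤ) + (A j h).eval (p : ℤ)))).card : ℝ))).card : ℝ) := by
  obtain ⟨K, k, D₀, hrK, habs⟩ := absJQ J r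
  obtain ⟨k', hk'⟩ : ∃ k' : ℕ, k' = ∑ j, k j := ⟨_, rfl⟩
  refine ⟨K, k' + 2, fun 𝓗 h𝓗 A hd hA hadm h₀ hh₀ c hc => ?_⟩
  obtain ⟨H, hH1, hHsub, hHK⟩ := exists_subsuperset_card_eq (s := {h₀}) (t := 𝓗) (n := K)
    (singleton_subset_iff.2 hh₀) (by rw [card_singleton]; omega) h𝓗
  have hHh₀ : h₀ ∈ H := hH1 (mem_singleton_self _)
  obtain ⟨D, hD⟩ : ∃ D : ℕ, D = D₀ + 2 := ⟨_, rfl⟩
  have hE : 1 ≤ EJ k := by unfold EJ; omega
  have hW : 0 < WW D := WW_pos D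
  have hWr : (0 : ℝ) < WW D := by exact_mod_cast hW
  obtain ⟨C₁, hC₁1, C, m₀, Y₀, hdata⟩ := famData (EJ k) hE 𝓗 A hd hA ∅ (by simp) (by simp)
    (1 / 2) (by norm_num)
  obtain ⟨κ₀, hκ₀, X₁, hmain⟩ := habs D (by omega) (c / (2 * WW D)) C₁ (J * (𝓗.card : ℝ) ^ 2) (by positivity)
    hC₁1 (by positivity)
  obtain ⟨Y₁, hY₁⟩ := denseRI D c hc m₀
  obtain ⟨κ, hκ⟩ : ∃ κ : ℝ, κ = min κ₀ (1 / (C + 1)) := ⟨_, rfl⟩
  have hκpos : 0 < κ := by rw [hκ]; exact lt_min hκ₀ (by positivity)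
  have tN : Tendsto (fun N : ℕ => (N : ℝ)) atTop atTop := tendsto_natCast_atTop_atTop
  have hlog : Tendsto (fun N : ℕ => Real.log (N : ℝ)) atTop atTop := Real.tendsto_log_atTop.comp tN
  obtain ⟨X₀, hX₀⟩ := eventually_atTop.1
    ((hlog.eventually_ge_atTop (1 / κ₀ + Y₀ + Y₁ + 3)).and (eventually_ge_atTop (X₁ + 3)))
  refine ⟨κ, hκpos, X₀, fun X hX Y hY1 hYκ hY2 𝒬 h𝒬 hcard => ?_⟩
  obtain ⟨hX1, hX3⟩ := hX₀ X hX
  have hX0 : (0 : ℝ) < X := by exact_mod_cast (by omega : 0 < X)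
  have h1κ : 0 ≤ 1 / κ₀ := by positivity
  have hY₀nn : (0 : ℝ) ≤ Y₀ := Nat.cast_nonneg _
  have hY₁nn : (0 : ℝ) ≤ Y₁ := Nat.cast_nonneg _
  obtain ⟨L, hL⟩ : ∃ L : ℝ, L = Real.log X := ⟨_, rfl⟩
  rw [← hL] at hX1 hY1 ⊢
  have hL3 : 3 ≤ L := by linarith
  have hLY : L ≤ Y := by
    refine le_trans ?_ hY1
    calc L = L ^ 1 := (pow_one L).symm
      _ ≤ L ^ (k' + 2) := pow_le_pow_right₀ (by linarith) (by omega)
  have hYge : 1 / κ₀ + Y₀ + Y₁ + 3 ≤ Y := hX1.trans hLY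
  have hY3 : 3 ≤ Y := by
    have : (3 : ℝ) ≤ Y := by linarith
    exact_mod_cast this
  have hYY₀ : Y₀ ≤ Y := by
    have : (Y₀ : ℝ) ≤ Y := by linarith
    exact_mod_cast this
  have hYY₁ : Y₁ ≤ Y := by
    have : (Y₁ : ℝ) ≤ Y := by linarith
    exact_mod_cast this
  have hYr : (3 : ℝ) ≤ Y := by exact_mod_cast hY3
  have hκ1 : κ ≤ 1 := by
    rw [hκ]
    refine (min_le_right _ _).trans ?_
    rw [div_le_one (by positivity)]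
    have : (0 : ℝ) ≤ C := Nat.cast_nonneg C
    linarith
  have hYX : (Y : ℝ) ≤ X := by
    calc (Y : ℝ) ≤ κ * X := hYκ
      _ ≤ 1 * X := mul_le_mul_of_nonneg_right hκ1 hX0.le
      _ = X := one_mul _
  have hLMM : L ^ k' ≤ Y := (pow_le_pow_right₀ (by linarith) (by omega)).trans hY1
  have hCY : ∀ j, ∀ h ∈ 𝓗, C * Y ^ (A j h).natDegree ≤ X := by
    intro j h hh
    have h1 : ((C * Y ^ (A j h).natDegree : ℕ) : ℝ) ≤ X := by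
      push_cast
      calc (C : ℝ) * (Y : ℝ) ^ (A j h).natDegree ≤ (C + 1) * (κ * X) := by
            have := hY2 j h hh
            gcongr
            linarith
        _ ≤ (C + 1) * (1 / (C + 1) * X) := by
            have : κ ≤ 1 / ((C : ℝ) + 1) := by rw [hκ]; exact min_le_right _ _
            gcongr
        _ = X := by
            have : (0 : ℝ) < (C : ℝ) + 1 := by positivity
            field_simp
    exact_mod_cast h1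
  obtain ⟨R, hRQ, u, hRm, hRc, hRu⟩ := hY₁ Y hYY₁ 𝒬 h𝒬 hcard
  have hRg : R ⊆ Rg ∅ (1 / 2) Y := by
    rw [Rg_empty]
    exact hRQ.trans h𝒬
  obtain ⟨d1, d2, d3, d4, d5, d6⟩ := hdata Y hYY₀
  obtain ⟨v, hv⟩ := classVI D A H (fun p hp u' j => by
    obtain ⟨w, hw⟩ := hadm p hp u' j
    exact ⟨w, fun h hh => hw h (hHsub hh)⟩) R u hRu
  have hRY : ∀ m ∈ R, m ≤ Y := by
    intro m hm
    exact (mem_Icc.1 (h𝒬 (hRQ hm))).2
  have hGG0 : ∀ z : ℤ, 0 ≤ GG z.natAbs ^ EJ k := fun z => pow_nonneg (GG_nonneg _) _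
  rw [card_empty, pow_zero, div_one] at d1 d2 d3
  have h𝓜0 : (0 : ℝ) < Y := by linarith
  have hm := hmain X (by omega) H hHK h₀ hHh₀ R (fun m j h => (A j h).eval (m : ℤ))
    (fun m m' => ∃ j, ∃ h ∈ 𝓗, ∃ h' ∈ 𝓗, (A j h).eval (m : ℤ) = (A j h').eval (m' : ℤ))
    (Y : ℝ) h𝓜0
    (fun m hm j h hh h' hh' heq => d4 m (hRm m hm) j h (hHsub hh) h' (hHsub hh') heq)
    (fun m hm m' hm' hb j h hh h' hh' heq => hb ⟨j, h, hHsub hh, h', hHsub hh', heq⟩)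
    (fun m _ => by convert famBad 𝓗 A m₀ R hRm d5 m)
    (((Nat.cast_le (α := ℝ)).2 (card_le_card hRg)).trans d1) hRc
    (fun j h hh h' hh' hne => le_trans (sum_le_sum_of_subset_of_nonneg hRg fun m _ _ => hGG0 _)
      (d3 j h (hHsub hh) h' (hHsub hh') hne))
    (fun m hm j h hh h' hh' => le_trans (sum_le_sum_of_subset_of_nonneg hRg fun m _ _ => hGG0 _)
      (d2 m (hRY m hm) j h (hHsub hh) h' (hHsub hh')))
    (by rw [← hL, ← hk']; exact hLMM)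
    (fun m hm j h hh => d6 j h (hHsub hh) X (hCY j h (hHsub hh)) m (hRY m hm)) v hv
  refine (mul_le_mul_of_nonneg_right (by rw [hκ]; exact min_le_left _ _) (by positivity)).trans (hm.trans ?_)
  rw [Nat.cast_le]
  apply card_le_card
  intro N hN
  obtain ⟨hN1, hN2, P, hP, hPc, hcl⟩ := mem_filter.1 hN
  refine mem_filter.2 ⟨hN1, fun j => (hN2 j).1, P, hP.trans (erase_subset_erase _ hHsub), hPc, ?_⟩
  have h1 : (Y : ℝ) / L ^ (k' + 2) ≤ κ₀ * (Y / L ^ k') := by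
    have h2 : 1 ≤ κ₀ * L := by
      have h3 : 1 / κ₀ ≤ L := by linarith
      rw [div_le_iff₀ hκ₀] at h3
      linarith
    have hL0 : 0 < L := by linarith
    have h4 : L ^ (k' + 1) ≤ L ^ (k' + 2) := pow_le_pow_right₀ (by linarith) (by omega)
    calc (Y : ℝ) / L ^ (k' + 2) ≤ Y / L ^ (k' + 1) := div_le_div_of_nonneg_left (by linarith) (by positivity) h4
      _ ≤ (κ₀ * L) * (Y / L ^ (k' + 1)) := le_mul_of_one_le_left (by positivity) h2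
      _ = κ₀ * (Y / L ^ k') := by
          rw [pow_add, pow_one]
          field_simp
  rw [← hL, ← hk'] at hcl
  refine h1.trans (hcl.trans ?_)
  rw [Nat.cast_le]
  apply card_le_card
  intro m hm
  obtain ⟨hmR, hp1⟩ := mem_filter.1 hm
  exact mem_filter.2 ⟨hRQ hmR, hp1⟩

end Pool.Agent.Helper74.FB
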