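import Mathlib
import Pool.Agent.Helper74.FB.DenseA

/-! Several constants `N j`, large moduli `a j`, families of polynomials `a j * A j h`, and arguments in an arbitrary
dense set of integers. -/

set_option autoImplicit false

namespace Pool.Agent.Helper74.FB

open Finset Filter Topology Polynomial
open Pool.Agent.Erdos456
open Pool.Agent.H410R2 (WW)
open Pool.Agent.Helper74.OR (Rg)
open Pool.Agent.Helper74.AE (WW_pos)

open Classical in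
theorem denseAQ (J r : ℕ) : ∃ K B : ℕ, ∀ 𝓗 : Finset ℕ, K ≤ 𝓗.card → ∀ A : Fin J → ℕ → ℤ[X],
    (∀ j, ∀ h ∈ 𝓗, 1 ≤ (A j h).natDegree) → (∀ j, ∀ h ∈ 𝓗, ∀ h' ∈ 𝓗, A j h = A j h' → h = h') → AdI A 𝓗 → ∀ h₀ ∈ 𝓗,
    ∀ c : ℝ, 0 < c → ∀ G : ℝ, ∃ κ : ℝ, 0 < κ ∧ ∃ X₀ : ℕ, ∀ X : ℕ, X₀ ≤ X → ∀ Y : ℕ, Real.log X ^ B ≤ Y →
      (Y : ℝ) ≤ κ * X → ∀ a : Fin J → ℕ, (∀ j, 1 ≤ a j ∧ GG (a j) ≤ G) →
      (∀ j, ∀ h ∈ 𝓗, (a j : ℝ) * (Y : ℝ) ^ (A j h).natDegree ≤ κ * X) →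
      ∀ 𝒬 ⊆ Icc 1 Y, c * Y ≤ 𝒬.card →
      κ * (X : ℝ) ^ J ≤ (((Fintype.piFinset (fun _ : Fin J => Icc 1 X)).filter (fun N =>
        (∀ j, X ≤ 32 * N j) ∧ ∃ P ⊆ 𝓗.erase h₀, P.card = r ∧ (Y : ℝ) / Real.log X ^ B ≤
          ((𝒬.filter (fun p : ℕ => ∀ j, PrV ((N j : ℤ) + a j * (A j h₀).eval (p : ℤ)) ∧
            ∀ h ∈ P, ApV 2 ((N j : ℤ) + a j * (A j h).eval (p : ℤ)))).card : ℝ))).card : ℝ) := by
  obtain ⟨K, k, D₀, hrK, habs⟩ := absJQ J r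
  obtain ⟨k', hk'⟩ : ∃ k' : ℕ, k' = ∑ j, k j := ⟨_, rfl⟩
  refine ⟨K, k' + 2, fun 𝓗 h𝓗 A hd hA hadm h₀ hh₀ c hc G => ?_⟩
  obtain ⟨H, hH1, hHsub, hHK⟩ := exists_subsuperset_card_eq (s := {h₀}) (t := 𝓗) (n := K)
    (singleton_subset_iff.2 hh₀) (by rw [card_singleton]; omega) h𝓗
  have hHh₀ : h₀ ∈ H := hH1 (mem_singleton_self _)
  obtain ⟨D, hD⟩ : ∃ D : ℕ, D = D₀ + 2 := ⟨_, rfl⟩
  have hE : 1 ≤ EJ k := by unfold EJ; omega
  have hW : 0 < WW D := WW_pos D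
  have hWr : (0 : ℝ) < WW D := by exact_mod_cast hW
  obtain ⟨C₁, hC₁1, C, m₀, Y₀, hdata⟩ := famData (EJ k) hE 𝓗 A hd hA ∅ (by simp) (by simp)
    (1 / 2) (by norm_num)
  obtain ⟨C₂, hC₂⟩ : ∃ C₂ : ℝ, C₂ = C₁ * max 1 G ^ EJ k := ⟨_, rfl⟩
  have hG1 : (1 : ℝ) ≤ max 1 G ^ EJ k := one_le_pow₀ (le_max_left _ _)
  have hC₂C₁ : C₁ ≤ C₂ := by rw [hC₂]; exact le_mul_of_one_le_right (by linarith) hG1
  have hC₂1 : 1 ≤ C₂ := hC₁1.trans hC₂C₁
  obtain ⟨κ₀, hκ₀, X₁, hmain⟩ := habs D (by omega) (c / (2 * WW D)) C₂ (J * (𝓗.card : ℝ) ^ 2) (by positivity)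
    hC₂1 (by positivity)
  obtain ⟨Y₁, hY₁⟩ := denseRI D c hc m₀
  obtain ⟨κ, hκ⟩ : ∃ κ : ℝ, κ = min κ₀ (1 / (C + 1)) := ⟨_, rfl⟩
  have hκpos : 0 < κ := by rw [hκ]; exact lt_min hκ₀ (by positivity)
  have tN : Tendsto (fun N : ℕ => (N : ℝ)) atTop atTop := tendsto_natCast_atTop_atTop
  have hlog : Tendsto (fun N : ℕ => Real.log (N : ℝ)) atTop atTop := Real.tendsto_log_atTop.comp tN
  obtain ⟨X₀, hX₀⟩ := eventually_atTop.1
    ((hlog.eventually_ge_atTop (1 / κ₀ + Y₀ + Y₁ + 3)).and (eventually_ge_atTop (X₁ + 3)))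
  refine ⟨κ, hκpos, X₀, fun X hX Y hY1 hYκ a ha hY2 𝒬 h𝒬 hcard => ?_⟩
  obtain ⟨hX1, hX3⟩ := hX₀ X hX
  have hX0 : (0 : ℝ) < X := by exact_mod_cast (by omega : 0 < X)
  have h1κ : 0 ≤ 1 / κ₀ := by positivity
  have hY₀nn : (0 : ℝ) ≤ Y₀ := Nat.cast_nonneg _
  have hY₁nn : (0 : ℝ) ≤ Y₁ := Nat.cast_nonneg _
  obtain ⟨L, hL⟩ : ∃ L : ℝ, L = Real.log X := ⟨_, rfl⟩
  rw [← hL] at hX1 hY1 ⊢
  have hL3 : 3 ≤ L := by linarith
  have hLY : L ≤ Y := by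
    refine le_trans ?_ hY1
    calc L = L ^ 1 := (pow_one L).symm
      _ ≤ L ^ (k' + 2) := pow_le_pow_right₀ (by linarith) (by omega)
  have hYge : 1 / κ₀ + Y₀ + Y₁ + 3 ≤ Y := hX1.trans hLY
  have hY3 : 3 ≤ Y := by
    have : (3 : ℝ) ≤ Y := by linarith
    exact_mod_cast this
  have hYY₀ : Y₀ ≤ Y := by
    have : (Y₀ : ℝ) ≤ Y := by linarith
    exact_mod_cast this
  have hYY₁ : Y₁ ≤ Y := by
    have : (Y₁ : ℝ) ≤ Y := by linarith
    exact_mod_cast this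
  have hYr : (3 : ℝ) ≤ Y := by exact_mod_cast hY3
  have hκ1 : κ ≤ 1 := by
    rw [hκ]
    refine (min_le_right _ _).trans ?_
    rw [div_le_one (by positivity)]
    have : (0 : ℝ) ≤ C := Nat.cast_nonneg C
    linarith
  have hYX : (Y : ℝ) ≤ X := by
    calc (Y : ℝ) ≤ κ * X := hYκ
      _ ≤ 1 * X := mul_le_mul_of_nonneg_right hκ1 hX0.le
      _ = X := one_mul _
  have hLMM : L ^ k' ≤ Y := (pow_le_pow_right₀ (by linarith) (by omega)).trans hY1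
  have hCY : ∀ j, ∀ h ∈ 𝓗, a j * (C * Y ^ (A j h).natDegree) ≤ X := by
    intro j h hh
    have h1 : ((a j * (C * Y ^ (A j h).natDegree) : ℕ) : ℝ) ≤ X := by
      push_cast
      calc (a j : ℝ) * (C * (Y : ℝ) ^ (A j h).natDegree) = C * (a j * (Y : ℝ) ^ (A j h).natDegree) := by ring
        _ ≤ (C + 1) * (κ * X) := by
            have := hY2 j h hh
            gcongr
            linarith
        _ ≤ (C + 1) * (1 / (C + 1) * X) := by
            have : κ ≤ 1 / ((C : ℝ) + 1) := by rw [hκ]; exact min_le_right _ _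
            gcongr
        _ = X := by
            have : (0 : ℝ) < (C : ℝ) + 1 := by positivity
            field_simp
    exact_mod_cast h1
  have hGa : ∀ j, ∀ z : ℤ, GG ((a j : ℤ) * z).natAbs ^ EJ k ≤ max 1 G ^ EJ k * GG z.natAbs ^ EJ k := by
    intro j z
    rw [← mul_pow]
    apply pow_le_pow_left₀ (GG_nonneg _)
    rw [Int.natAbs_mul, Int.natAbs_natCast]
    exact (GG_mul_le _ _).trans (mul_le_mul_of_nonneg_right ((ha j).2.trans (le_max_right _ _)) (GG_nonneg _))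
  obtain ⟨R, hRQ, u, hRm, hRc, hRu⟩ := hY₁ Y hYY₁ 𝒬 h𝒬 hcard
  have hRg : R ⊆ Rg ∅ (1 / 2) Y := by
    rw [Rg_empty]
    exact hRQ.trans h𝒬
  obtain ⟨d1, d2, d3, d4, d5, d6⟩ := hdata Y hYY₀
  obtain ⟨v, hv⟩ := classVI (J := J) D (fun j h => Polynomial.C ((a j : ℕ) : ℤ) * A j h) H (by
    intro p hp u' j
    obtain ⟨w, hw⟩ := hadm p hp u' j
    by_cases hpa : (p : ℤ) ∣ (a j : ℤ)
    · refine ⟨1, fun h hh hd => ?_⟩
      rw [eval_mul, eval_C] at hd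
      have h1 := dvd_sub hd (hpa.mul_right ((A j h).eval u'))
      rw [add_sub_cancel_right] at h1
      exact (Nat.prime_iff_prime_int.1 hp).not_isUnit (isUnit_of_dvd_one h1)
    · refine ⟨a j * w, fun h hh hd => ?_⟩
      rw [eval_mul, eval_C, ← mul_add] at hd
      rcases (Nat.prime_iff_prime_int.1 hp).dvd_mul.1 hd with h1 | h1
      · exact hpa h1
      · exact hw h (hHsub hh) h1) R u hRu
  have hRY : ∀ m ∈ R, m ≤ Y := by
    intro m hm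
    exact (mem_Icc.1 (h𝒬 (hRQ hm))).2
  have hGG0 : ∀ z : ℤ, 0 ≤ GG z.natAbs ^ EJ k := fun z => pow_nonneg (GG_nonneg _) _
  rw [card_empty, pow_zero, div_one] at d1 d2 d3
  have h𝓜0 : (0 : ℝ) < Y := by linarith
  have haz : ∀ j, ∀ x y : ℤ, (a j : ℤ) * x = a j * y → x = y := by
    intro j x y hxy
    have : (a j : ℤ) ≠ 0 := by
      have := (ha j).1
      exact_mod_cast (by omega : a j ≠ 0)
    exact mul_left_cancel₀ this hxy
  have hm := hmain X (by omega) H hHK h₀ hHh₀ R (fun m j h => a j * (A j h).eval (m : ℤ))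
    (fun m m' => ∃ j, ∃ h ∈ 𝓗, ∃ h' ∈ 𝓗, (A j h).eval (m : ℤ) = (A j h').eval (m' : ℤ))
    (Y : ℝ) h𝓜0
    (fun m hm j h hh h' hh' heq => d4 m (hRm m hm) j h (hHsub hh) h' (hHsub hh') (haz j _ _ heq))
    (fun m hm m' hm' hb j h hh h' hh' heq => hb ⟨j, h, hHsub hh, h', hHsub hh', haz j _ _ heq⟩)
    (fun m _ => by convert famBad 𝓗 A m₀ R hRm d5 m)
    (((Nat.cast_le (α := ℝ)).2 (card_le_card hRg)).trans (d1.trans (mul_le_mul_of_nonneg_right hC₂C₁ h𝓜0.le))) hRc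
    (fun j h hh h' hh' hne => by
      refine (sum_le_sum_of_subset_of_nonneg hRg fun m _ _ => hGG0 _).trans ?_
      have h1 := d3 j h (hHsub hh) h' (hHsub hh') hne
      calc ∑ m ∈ Rg ∅ (1 / 2) Y, GG ((a j : ℤ) * (A j h).eval (m : ℤ) - a j * (A j h').eval (m : ℤ)).natAbs ^ EJ k
          ≤ ∑ m ∈ Rg ∅ (1 / 2) Y, max 1 G ^ EJ k *
            GG ((A j h).eval (m : ℤ) - (A j h').eval (m : ℤ)).natAbs ^ EJ k := by
            apply sum_le_sum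
            intro m _
            rw [← mul_sub]
            exact hGa j _
        _ ≤ C₂ * Y := by
            rw [← mul_sum, hC₂, mul_comm C₁, mul_assoc]
            exact mul_le_mul_of_nonneg_left h1 (by positivity))
    (fun m hm j h hh h' hh' => by
      refine (sum_le_sum_of_subset_of_nonneg hRg fun m _ _ => hGG0 _).trans ?_
      have h1 := d2 m (hRY m hm) j h (hHsub hh) h' (hHsub hh')
      calc ∑ m' ∈ Rg ∅ (1 / 2) Y, GG ((a j : ℤ) * (A j h).eval (m' : ℤ) - a j * (A j h').eval (m : ℤ)).natAbs ^ EJ k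
          ≤ ∑ m' ∈ Rg ∅ (1 / 2) Y, max 1 G ^ EJ k *
            GG ((A j h).eval (m' : ℤ) - (A j h').eval (m : ℤ)).natAbs ^ EJ k := by
            apply sum_le_sum
            intro m' _
            rw [← mul_sub]
            exact hGa j _
        _ ≤ C₂ * Y := by
            rw [← mul_sum, hC₂, mul_comm C₁, mul_assoc]
            exact mul_le_mul_of_nonneg_left h1 (by positivity))
    (by rw [← hL, ← hk']; exact hLMM)
    (fun m hm j h hh => by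
      have h1 := d6 j h (hHsub hh) (C * Y ^ (A j h).natDegree) le_rfl m (hRY m hm)
      have h2 := hCY j h (hHsub hh)
      have h3 : ((a j * (C * Y ^ (A j h).natDegree) : ℕ) : ℤ) ≤ X := by exact_mod_cast h2
      rw [Nat.cast_mul] at h3
      refine le_trans ?_ h3
      rw [abs_mul, Nat.abs_cast]
      calc (64 : ℤ) * (a j * |(A j h).eval (m : ℤ)|) = a j * (64 * |(A j h).eval (m : ℤ)|) := by ring
        _ ≤ _ := mul_le_mul_of_nonneg_left h1 (Nat.cast_nonneg _)) v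
    (fun m hm j p hp h hh hd => hv m hm j p hp h hh (by
      rw [eval_mul, eval_C]
      exact hd))
  refine (mul_le_mul_of_nonneg_right (by rw [hκ]; exact min_le_left _ _) (by positivity)).trans (hm.trans ?_)
  rw [Nat.cast_le]
  apply card_le_card
  intro N hN
  obtain ⟨hN1, hN2, P, hP, hPc, hcl⟩ := mem_filter.1 hN
  refine mem_filter.2 ⟨hN1, fun j => (hN2 j).1, P, hP.trans (erase_subset_erase _ hHsub), hPc, ?_⟩
  have h1 : (Y : ℝ) / L ^ (k' + 2) ≤ κ₀ * (Y / L ^ k') := by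
    have h2 : 1 ≤ κ₀ * L := by
      have h3 : 1 / κ₀ ≤ L := by linarith
      rw [div_le_iff₀ hκ₀] at h3
      linarith
    have hL0 : 0 < L := by linarith
    have h4 : L ^ (k' + 1) ≤ L ^ (k' + 2) := pow_le_pow_right₀ (by linarith) (by omega)
    calc (Y : ℝ) / L ^ (k' + 2) ≤ Y / L ^ (k' + 1) := div_le_div_of_nonneg_left (by linarith) (by positivity) h4
      _ ≤ (κ₀ * L) * (Y / L ^ (k' + 1)) := le_mul_of_one_le_left (by positivity) h2
      _ = κ₀ * (Y / L ^ k') := by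
          rw [pow_add, pow_one]
          field_simp
  rw [← hL, ← hk'] at hcl
  refine h1.trans (hcl.trans ?_)
  rw [Nat.cast_le]
  apply card_le_card
  intro m hm
  obtain ⟨hmR, hp1⟩ := mem_filter.1 hm
  exact mem_filter.2 ⟨hRQ hmR, hp1⟩

end Pool.Agent.Helper74.FB
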