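import Mathlib
import Pool.Agent.Helper74.FB.Mom

/-! Moments of `n / φ(n)` over dispersed sets. -/

set_option autoImplicit false

namespace Pool.Agent.Helper74.FB

open Finset Filter Topology
open Pool.Agent.Erdos456 Pool.Agent.Erdos456.Mert Pool.Agent.W218.HF Pool.Agent.W218.LF
open Pool.Agent.Helper74.OR

theorem sum_sqrt : ∃ C₀ : ℝ, 0 < C₀ ∧ ∀ S : Finset ℕ, (∀ p ∈ S, 0 < p) →
    ∑ p ∈ S, 1 / ((p : ℝ) * Real.sqrt p) ≤ C₀ := by
  have hs : Summable (fun n : ℕ => 1 / (n : ℝ) ^ (3 / 2 : ℝ)) :=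
    Real.summable_one_div_nat_rpow.2 (by norm_num)
  refine ⟨(∑' n : ℕ, 1 / (n : ℝ) ^ (3 / 2 : ℝ)) + 1, ?_, fun S hS => ?_⟩
  · have : 0 ≤ ∑' n : ℕ, 1 / (n : ℝ) ^ (3 / 2 : ℝ) := tsum_nonneg fun n => by positivity
    linarith
  · have h1 : ∑ p ∈ S, 1 / ((p : ℝ) * Real.sqrt p) = ∑ p ∈ S, 1 / (p : ℝ) ^ (3 / 2 : ℝ) := by
      apply sum_congr rfl
      intro p hp
      have hp0 : (0 : ℝ) < p := by exact_mod_cast hS p hp
      congr 1
      rw [Real.sqrt_eq_rpow, show (3 / 2 : ℝ) = 1 + 1 / 2 by norm_num, Real.rpow_add hp0, Real.rpow_one]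
    rw [h1]
    have h2 := hs.sum_le_tsum S (fun n _ => by positivity)
    linarith

theorem momD (m : ℕ) (hm : 1 ≤ m) (e : ℕ) (he : 1 ≤ e) (g : ℕ) (hg0 : 0 < g) (Cd : ℝ) (hCd : 0 ≤ Cd) :
    ∃ C : ℝ, 0 < C ∧ ∀ (A : Finset ℕ) (G : ℕ → ℤ) (Z : ℕ), 1 ≤ Z →
      (∀ n ∈ A, (((G n).natAbs : ℕ) : ℝ) ≤ Real.exp (4 * (e * Z))) →
      (∀ d : ℕ, 0 < d → d ≤ 4 ^ Z → d.Coprime g →
        (((A.filter (fun n => d ∣ (G n).natAbs)).card : ℕ) : ℝ) ≤ Cd * A.card / Real.sqrt d) →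
      ∑ n ∈ A, GG (G n).natAbs ^ m ≤ C * A.card := by
  classical
  obtain ⟨C₀, hC₀, hsum0⟩ := sum_sqrt
  set h : ℝ := 2 ^ (m + 1) with hh
  have hh0 : 0 ≤ h := by positivity
  refine ⟨(Real.exp 6 * e) ^ m * (GG g ^ m * (Cd * Real.exp (h * C₀))) + 1, by
    have := GG_nonneg g
    positivity, ?_⟩
  intro A G Z hZ1 hbd hcls
  set W : Finset ℕ := (PP Z).filter (fun p => ¬ p ∣ g) with hW
  have hWp : ∀ p ∈ W, p.Prime := fun p hp => by
    rw [hW, mem_filter] at hp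
    unfold PP at hp
    rw [mem_filter] at hp; exact hp.1.2
  set w : Finset ℕ → ℝ := fun S => ∏ p ∈ S, ((2 : ℝ) ^ (m + 1) / (p : ℝ)) with hw
  have hw0 : ∀ S, 0 ≤ w S := fun S => prod_nonneg fun p _ => by positivity
  -- pointwise bound
  have hpt : ∀ t ∈ A, (GG (G t).natAbs) ^ m ≤ (Real.exp 6 * e) ^ m * (GG g ^ m *
      ∑ S ∈ W.powerset, if (∀ p ∈ S, p ∣ (G t).natAbs) then w S else 0) := by
    intro t ht
    set n := (G t).natAbs with hn
    have hR0 : 0 ≤ ∑ S ∈ W.powerset, (if (∀ p ∈ S, p ∣ n) then w S else 0) :=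
      sum_nonneg fun S _ => by split_ifs; exacts [hw0 S, le_rfl]
    have hGgm : 0 ≤ GG g ^ m := pow_nonneg (GG_nonneg g) m
    rcases Nat.eq_zero_or_pos n with h0 | h0
    · rw [h0] at hR0 ⊢
      rw [GG_zero, zero_pow (by omega)]
      positivity
    have h1 := GG_le_small' (Z := Z) (e := e) h0 hZ1 he (hbd t ht)
    set Fs := (PP Z).filter (fun p => p ∣ n) with hFs
    have hFp : ∀ p ∈ Fs, p.Prime := fun p hp => by
      rw [hFs, mem_filter] at hp
      unfold PP at hp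
      rw [mem_filter] at hp; exact hp.1.2
    have hsp := Finset.prod_filter_mul_prod_filter_not Fs (fun p => p ∣ g)
      (fun p : ℕ => (1 - (p : ℝ)⁻¹)⁻¹)
    have h2 : ∏ p ∈ Fs.filter (fun p => p ∣ g), (1 - (p : ℝ)⁻¹)⁻¹ ≤ GG g := by
      rw [GG_eq_prod hg0]
      apply Finset.prod_le_prod_of_subset_of_one_le
      · intro p hp
        rw [mem_filter] at hp
        rw [Nat.mem_primeFactors]
        exact ⟨hFp p hp.1, hp.2, hg0.ne'⟩
      · intro p hp
        rw [mem_filter] at hp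
        exact zero_le_one.trans (factor_ge_one (hFp p hp.1))
      · intro p hp _
        exact factor_ge_one (Nat.prime_of_mem_primeFactors hp)
    set V := Fs.filter (fun p => ¬ p ∣ g) with hV
    have hV0 : 0 ≤ ∏ p ∈ V, (1 - (p : ℝ)⁻¹)⁻¹ := prod_nonneg fun p hp => by
      rw [hV, mem_filter] at hp
      exact zero_le_one.trans (factor_ge_one (hFp p hp.1))
    have h3 : GG n ≤ (Real.exp 6 * e) * (GG g * ∏ p ∈ V, (1 - (p : ℝ)⁻¹)⁻¹) := by
      refine h1.trans ?_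
      rw [← hsp]
      gcongr
    have h4 : (∏ p ∈ V, (1 - (p : ℝ)⁻¹)⁻¹) ^ m ≤ ∏ p ∈ V, (1 + 2 ^ (m + 1) / (p : ℝ)) := by
      rw [← prod_pow]
      apply Finset.prod_le_prod
      · intro p hp
        have : 0 ≤ (1 - (p : ℝ)⁻¹)⁻¹ := by
          rw [hV, mem_filter] at hp
          exact zero_le_one.trans (factor_ge_one (hFp p hp.1))
        positivity
      · intro p hp
        rw [hV, mem_filter] at hp
        exact pow_factor m (hFp p hp.1)
    have h5 : ∏ p ∈ V, (1 + 2 ^ (m + 1) / (p : ℝ)) =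
        ∑ S ∈ W.powerset, if (∀ p ∈ S, p ∣ n) then w S else 0 := by
      rw [prod_one_add, ← sum_filter]
      apply sum_congr _ fun _ _ => rfl
      ext S
      simp only [mem_powerset, mem_filter, subset_iff, hV, hW, hFs]
      constructor
      · intro h
        exact ⟨fun p hp => ⟨(h hp).1.1, (h hp).2⟩, fun p hp => (h hp).1.2⟩
      · rintro ⟨h, h'⟩ p hp
        exact ⟨⟨(h hp).1, h' p hp⟩, (h hp).2⟩
    rw [← h5]
    calc GG n ^ m ≤ ((Real.exp 6 * e) * (GG g * ∏ p ∈ V, (1 - (p : ℝ)⁻¹)⁻¹)) ^ m :=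
          pow_le_pow_left₀ (GG_nonneg n) h3 m
      _ = (Real.exp 6 * e) ^ m * (GG g ^ m * (∏ p ∈ V, (1 - (p : ℝ)⁻¹)⁻¹) ^ m) := by
          rw [mul_pow (Real.exp 6 * e), mul_pow (GG g)]
      _ ≤ _ := by
          gcongr
  refine (sum_le_sum fun t ht => hpt t ht).trans ?_
  rw [← mul_sum, ← mul_sum, sum_comm]
  set M : ℝ := ((A.card : ℕ) : ℝ) with hM
  have hM0 : 0 ≤ M := Nat.cast_nonneg _
  -- the size of the moduli
  have hSN : ∀ S ∈ W.powerset, ∏ p ∈ S, p ≤ 4 ^ Z := by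
    intro S hS
    rw [mem_powerset] at hS
    have h1 : ∏ p ∈ S, p ≤ primorial Z := by
      unfold primorial
      apply Finset.prod_le_prod_of_subset_of_one_le'
      · intro p hp
        have := hS hp
        rw [hW, mem_filter] at this
        have h2 := this.1
        unfold PP at h2
        rw [mem_filter, mem_Icc] at h2
        rw [mem_filter, mem_range]
        exact ⟨by omega, h2.2⟩
      · intro p hp _
        exact (mem_filter.1 hp).2.one_le
    exact h1.trans (primorial_le_four_pow Z)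
  have hin : ∀ S ∈ W.powerset, ∑ t ∈ A,
      (if (∀ p ∈ S, p ∣ (G t).natAbs) then w S else 0) ≤
      Cd * M * ∏ p ∈ S, (h * (1 / ((p : ℝ) * Real.sqrt p))) := by
    intro S hS
    have hS' := mem_powerset.1 hS
    rw [← sum_filter, sum_const, nsmul_eq_mul]
    have hSp : ∀ p ∈ S, p.Prime := fun p hp => hWp p (hS' hp)
    have hd0 : 0 < ∏ p ∈ S, p := prod_pos fun p hp => (hSp p hp).pos
    have hcop : (∏ p ∈ S, p).Coprime g := by
      apply Nat.Coprime.prod_left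
      intro p hp
      rw [(hSp p hp).coprime_iff_not_dvd]
      exact (mem_filter.1 (hS' hp)).2
    have h1 := hcls (∏ p ∈ S, p) hd0 (hSN S hS) hcop
    have h0 : ((A.filter (fun t => ∀ p ∈ S, p ∣ (G t).natAbs)).card : ℝ) ≤
        ((A.filter (fun n => ∏ p ∈ S, p ∣ (G n).natAbs)).card : ℝ) := by
      rw [Nat.cast_le]
      apply card_le_card
      intro t ht
      obtain ⟨ht1, ht2⟩ := mem_filter.1 ht
      refine mem_filter.2 ⟨ht1, ?_⟩
      exact Finset.prod_primes_dvd _ (fun p hp => (hSp p hp).prime) ht2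
    have h2 := mul_le_mul_of_nonneg_right (h0.trans h1) (hw0 S)
    refine h2.trans (le_of_eq ?_)
    have e1 : ∏ p ∈ S, (h * (1 / ((p : ℝ) * Real.sqrt p))) = w S * (1 / Real.sqrt ((∏ p ∈ S, p : ℕ) : ℝ)) := by
      rw [hw]
      push_cast
      have e2 : Real.sqrt (∏ p ∈ S, (p : ℝ)) = ∏ p ∈ S, Real.sqrt (p : ℝ) := by
        rw [Real.sqrt_eq_rpow, ← Real.finsetProd_rpow _ _ (fun p _ => Nat.cast_nonneg p)]
        apply prod_congr rfl
        intro p _
        rw [Real.sqrt_eq_rpow]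
      rw [e2, one_div, ← prod_inv_distrib, ← prod_mul_distrib]
      apply prod_congr rfl
      intro p hp
      have hp0 : (p : ℝ) ≠ 0 := by exact_mod_cast (hSp p hp).ne_zero
      have hp1 : Real.sqrt (p : ℝ) ≠ 0 := Real.sqrt_ne_zero'.2 (by exact_mod_cast (hSp p hp).pos)
      rw [hh]
      field_simp
    rw [e1]
    ring
  have hsum := sum_le_sum hin
  rw [← mul_sum] at hsum
  have e1 : ∑ S ∈ W.powerset, ∏ p ∈ S, (h * (1 / ((p : ℝ) * Real.sqrt p))) =
      ∏ p ∈ W, (1 + h * (1 / ((p : ℝ) * Real.sqrt p))) := (prod_one_add _).symm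
  rw [e1] at hsum
  have h1 : ∏ p ∈ W, (1 + h * (1 / ((p : ℝ) * Real.sqrt p))) ≤ Real.exp (h * C₀) := by
    refine (prod_exp_le W _ fun p _ => by positivity).trans (Real.exp_le_exp.2 ?_)
    rw [← mul_sum]
    exact mul_le_mul_of_nonneg_left (hsum0 W fun p hp => (hWp p hp).pos) hh0
  have hGg := GG_nonneg g
  calc (Real.exp 6 * e) ^ m * (GG g ^ m * ∑ S ∈ W.powerset, ∑ t ∈ A,
        (if (∀ p ∈ S, p ∣ (G t).natAbs) then w S else 0))
      ≤ (Real.exp 6 * e) ^ m * (GG g ^ m * (Cd * M * Real.exp (h * C₀))) := by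
        gcongr
        exact hsum.trans (by gcongr)
    _ = (Real.exp 6 * e) ^ m * (GG g ^ m * (Cd * Real.exp (h * C₀))) * M := by ring
    _ ≤ _ := by
        apply mul_le_mul_of_nonneg_right _ hM0
        linarith

end Pool.Agent.Helper74.FB
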