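import Mathlib
import Pool.Agent.Helper74.FB.MomD

/-! Moments of `n / φ(n)` along linear forms with large coefficients. -/

set_option autoImplicit false

namespace Pool.Agent.Helper74.FB

open Finset Filter Topology
open Pool.Agent.Erdos456 Pool.Agent.Erdos456.Mert Pool.Agent.W218.HF Pool.Agent.W218.LF
open Pool.Agent.Helper74.OR

theorem sub_prod (T Z : ℕ) (hT : 1 ≤ T) (S : Finset ℕ) : (∀ p ∈ S, p ≤ Z) → T < ∏ p ∈ S, p →
    ∃ S' ⊆ S, T < ∏ p ∈ S', p ∧ ∏ p ∈ S', p ≤ T * Z := by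
  classical
  refine Finset.induction_on S ?_ ?_
  · intro _ h
    rw [prod_empty] at h
    omega
  · intro p S hp ih hZ h
    by_cases h1 : T < ∏ p ∈ S, p
    · obtain ⟨S', h2, h3, h4⟩ := ih (fun q hq => hZ q (mem_insert_of_mem hq)) h1
      exact ⟨S', h2.trans (subset_insert _ _), h3, h4⟩
    · refine ⟨insert p S, Subset.rfl, h, ?_⟩
      rw [prod_insert hp, mul_comm]
      exact Nat.mul_le_mul (not_lt.1 h1) (hZ p (mem_insert_self _ _))

theorem sum_inv_le (Z : ℕ) (S : Finset ℕ) (hS : S ⊆ Icc 1 Z) : ∑ p ∈ S, 1 / (p : ℝ) ≤ 1 + Real.log Z := by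
  have h1 : ∑ p ∈ S, 1 / (p : ℝ) ≤ ∑ p ∈ Icc 1 Z, 1 / (p : ℝ) :=
    sum_le_sum_of_subset_of_nonneg hS fun p _ _ => by positivity
  have h2 := harmonic_le_one_add_log Z
  have h3 : ((harmonic Z : ℚ) : ℝ) = ∑ p ∈ Icc 1 Z, 1 / (p : ℝ) := by
    rw [harmonic_eq_sum_Icc]
    push_cast
    exact sum_congr rfl fun p _ => (one_div _).symm
  rw [h3] at h2
  exact h1.trans h2

theorem count_class (Y d s : ℕ) (hd : 0 < d) : ((((Icc 1 Y).filter (fun n => n ≡ s [MOD d])).card : ℕ) : ℝ) ≤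
    Y / d + 1 := by
  have h1 : ((Icc 1 Y).filter (fun n => n ≡ s [MOD d])).card ≤ (range (Y / d + 1)).card := by
    refine card_le_card_of_injOn (fun n => n / d) ?_ ?_
    · intro n hn
      obtain ⟨h3, -⟩ := mem_filter.1 (Finset.mem_coe.1 hn)
      refine Finset.mem_coe.2 (mem_range.2 ?_)
      have := Nat.div_le_div_right (c := d) (mem_Icc.1 h3).2
      simp only
      omega
    · intro n hn n' hn' heq
      obtain ⟨-, h4⟩ := mem_filter.1 (Finset.mem_coe.1 hn)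
      obtain ⟨-, h5⟩ := mem_filter.1 (Finset.mem_coe.1 hn')
      simp only at heq
      have h6 : n % d = n' % d := h4.trans h5.symm
      rw [← Nat.div_add_mod n d, ← Nat.div_add_mod n' d, heq, h6]
  rw [card_range] at h1
  have h2 : (((Icc 1 Y).filter (fun n => n ≡ s [MOD d])).card : ℝ) ≤ ((Y / d : ℕ) : ℝ) + 1 := by exact_mod_cast h1
  have h3 : ((Y / d : ℕ) : ℝ) ≤ Y / d := Nat.cast_div_le
  linarith

theorem momL (m r : ℕ) (hm : 1 ≤ m) (hr : 1 ≤ r) : ∃ C : ℝ, 0 < C ∧ ∃ M₀ : ℕ, ∀ Y Z : ℕ, 1 ≤ Z → Z ^ M₀ ≤ Y → ∀ g : ℕ, 0 < g →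
    ∀ G : ℕ → ℤ, (∀ n ∈ Icc 1 Y, (((G n).natAbs : ℕ) : ℝ) ≤ Real.exp (4 * ((1 : ℕ) * Z))) →
      (∀ p : ℕ, p.Prime → ¬ p ∣ g → ∃ R : Finset ℕ, R.card ≤ r ∧ ∀ n : ℕ, p ∣ (G n).natAbs →
        ∃ s ∈ R, n ≡ s [MOD p]) →
      ∑ n ∈ Icc 1 Y, GG (G n).natAbs ^ m ≤ C * GG g ^ m * Y := by
  classical
  obtain ⟨C₀, hC₀, hsum0⟩ := sum_sqrt
  obtain ⟨h', hh'⟩ : ∃ h' : ℕ, h' = r * 2 ^ (m + 1) := ⟨_, rfl⟩
  obtain ⟨h, hh⟩ : ∃ h : ℝ, h = r * 2 ^ (m + 1) := ⟨_, rfl⟩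
  have hhh : (h' : ℝ) = h := by rw [hh', hh]; push_cast; rfl
  have hh0 : 0 ≤ h := by rw [hh]; positivity
  have hrr : (1 : ℝ) ≤ r := by exact_mod_cast hr
  refine ⟨Real.exp 6 ^ m * (2 * Real.exp (h * C₀) + 2 * Real.exp h), by positivity, h' + 1, ?_⟩
  intro Y Z hZ1 hZY g hg0 G hbd hcls
  set W : Finset ℕ := (PP Z).filter (fun p => ¬ p ∣ g) with hW
  have hWp : ∀ p ∈ W, p.Prime := fun p hp => by
    rw [hW, mem_filter] at hp
    unfold PP at hp
    rw [mem_filter] at hp; exact hp.1.2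
  have hWZ : W ⊆ Icc 1 Z := fun p hp => by
    have h1 := hWp p hp
    rw [hW, mem_filter] at hp
    have h2 := hp.1
    unfold PP at h2
    rw [mem_filter, mem_Icc] at h2
    exact mem_Icc.2 ⟨h1.one_lt.le, by omega⟩
  set w : Finset ℕ → ℝ := fun S => ∏ p ∈ S, ((2 : ℝ) ^ (m + 1) / (p : ℝ)) with hw
  have hw0 : ∀ S, 0 ≤ w S := fun S => prod_nonneg fun p _ => by positivity
  -- pointwise bound
  have hpt : ∀ t ∈ Icc 1 Y, (GG (G t).natAbs) ^ m ≤ (Real.exp 6 * (1 : ℕ)) ^ m * (GG g ^ m *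
      ∑ S ∈ W.powerset, if (∀ p ∈ S, p ∣ (G t).natAbs) then w S else 0) := by
    intro t ht
    set n := (G t).natAbs with hn
    have hR0 : 0 ≤ ∑ S ∈ W.powerset, (if (∀ p ∈ S, p ∣ n) then w S else 0) :=
      sum_nonneg fun S _ => by split_ifs; exacts [hw0 S, le_rfl]
    have hGgm : 0 ≤ GG g ^ m := pow_nonneg (GG_nonneg g) m
    rcases Nat.eq_zero_or_pos n with h0 | h0
    · rw [h0] at hR0 ⊢
      rw [GG_zero, zero_pow (by omega)]
      positivity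
    have h1 := GG_le_small' (Z := Z) (e := 1) h0 hZ1 le_rfl (hbd t ht)
    set Fs := (PP Z).filter (fun p => p ∣ n) with hFs
    have hFp : ∀ p ∈ Fs, p.Prime := fun p hp => by
      rw [hFs, mem_filter] at hp
      unfold PP at hp
      rw [mem_filter] at hp; exact hp.1.2
    have hsp := Finset.prod_filter_mul_prod_filter_not Fs (fun p => p ∣ g)
      (fun p : ℕ => (1 - (p : ℝ)⁻¹)⁻¹)
    have h2 : ∏ p ∈ Fs.filter (fun p => p ∣ g), (1 - (p : ℝ)⁻¹)⁻¹ ≤ GG g := by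
      rw [GG_eq_prod hg0]
      apply Finset.prod_le_prod_of_subset_of_one_le
      · intro p hp
        rw [mem_filter] at hp
        rw [Nat.mem_primeFactors]
        exact ⟨hFp p hp.1, hp.2, hg0.ne'⟩
      · intro p hp
        rw [mem_filter] at hp
        exact zero_le_one.trans (factor_ge_one (hFp p hp.1))
      · intro p hp _
        exact factor_ge_one (Nat.prime_of_mem_primeFactors hp)
    set V := Fs.filter (fun p => ¬ p ∣ g) with hV
    have hV0 : 0 ≤ ∏ p ∈ V, (1 - (p : ℝ)⁻¹)⁻¹ := prod_nonneg fun p hp => by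
      rw [hV, mem_filter] at hp
      exact zero_le_one.trans (factor_ge_one (hFp p hp.1))
    have h3 : GG n ≤ (Real.exp 6 * (1 : ℕ)) * (GG g * ∏ p ∈ V, (1 - (p : ℝ)⁻¹)⁻¹) := by
      refine h1.trans ?_
      rw [← hsp]
      gcongr
    have h4 : (∏ p ∈ V, (1 - (p : ℝ)⁻¹)⁻¹) ^ m ≤ ∏ p ∈ V, (1 + 2 ^ (m + 1) / (p : ℝ)) := by
      rw [← prod_pow]
      apply Finset.prod_le_prod
      · intro p hp
        have : 0 ≤ (1 - (p : ℝ)⁻¹)⁻¹ := by
          rw [hV, mem_filter] at hp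
          exact zero_le_one.trans (factor_ge_one (hFp p hp.1))
        positivity
      · intro p hp
        rw [hV, mem_filter] at hp
        exact pow_factor m (hFp p hp.1)
    have h5 : ∏ p ∈ V, (1 + 2 ^ (m + 1) / (p : ℝ)) =
        ∑ S ∈ W.powerset, if (∀ p ∈ S, p ∣ n) then w S else 0 := by
      rw [prod_one_add, ← sum_filter]
      apply sum_congr _ fun _ _ => rfl
      ext S
      simp only [mem_powerset, mem_filter, subset_iff, hV, hW, hFs]
      constructor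
      · intro h
        exact ⟨fun p hp => ⟨(h hp).1.1, (h hp).2⟩, fun p hp => (h hp).1.2⟩
      · rintro ⟨h, h'⟩ p hp
        exact ⟨⟨(h hp).1, h' p hp⟩, (h hp).2⟩
    rw [← h5]
    calc GG n ^ m ≤ ((Real.exp 6 * (1 : ℕ)) * (GG g * ∏ p ∈ V, (1 - (p : ℝ)⁻¹)⁻¹)) ^ m :=
          pow_le_pow_left₀ (GG_nonneg n) h3 m
      _ = (Real.exp 6 * (1 : ℕ)) ^ m * (GG g ^ m * (∏ p ∈ V, (1 - (p : ℝ)⁻¹)⁻¹) ^ m) := by
          rw [mul_pow (Real.exp 6 * (1 : ℕ)), mul_pow (GG g)]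
      _ ≤ _ := by
          gcongr
  refine (sum_le_sum fun t ht => hpt t ht).trans ?_
  rw [← mul_sum, ← mul_sum, sum_comm]
  have hY1 : 1 ≤ Y := le_trans (Nat.one_le_pow _ _ hZ1) hZY
  have hYr : (1 : ℝ) ≤ Y := by exact_mod_cast hY1
  have hZr : (1 : ℝ) ≤ Z := by exact_mod_cast hZ1
  -- counting
  have hcnt : ∀ S ⊆ W, ∏ p ∈ S, p ≤ Y →
      (((Icc 1 Y).filter (fun t => ∀ p ∈ S, p ∣ (G t).natAbs)).card : ℝ) ≤
        (r : ℝ) ^ S.card * (2 * Y / (∏ p ∈ S, p : ℕ)) := by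
    intro S hS hSY
    have hSp : ∀ p ∈ S, p.Prime := fun p hp => hWp p (hS hp)
    have hd0 : 0 < ∏ p ∈ S, p := prod_pos fun p hp => (hSp p hp).pos
    have hdr : (0 : ℝ) < (∏ p ∈ S, p : ℕ) := by exact_mod_cast hd0
    have h1 := card_multi (Icc 1 Y) S hSp (fun p n => p ∣ (G n).natAbs) r
      (fun p hp => hcls p (hSp p hp) (mem_filter.1 (hS hp)).2)
      ((Y : ℝ) / (∏ p ∈ S, p : ℕ) + 1) (by positivity) (fun r => count_class Y _ r hd0)
    refine h1.trans (mul_le_mul_of_nonneg_left ?_ (by positivity))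
    have h2 : (1 : ℝ) ≤ (Y : ℝ) / (∏ p ∈ S, p : ℕ) := by
      rw [le_div_iff₀ hdr, one_mul]
      exact_mod_cast hSY
    calc (Y : ℝ) / (∏ p ∈ S, p : ℕ) + 1 ≤ (Y : ℝ) / (∏ p ∈ S, p : ℕ) + (Y : ℝ) / (∏ p ∈ S, p : ℕ) := by linarith
      _ = 2 * Y / (∏ p ∈ S, p : ℕ) := by ring
  have hin : ∀ S ∈ W.powerset, ∑ t ∈ Icc 1 Y,
      (if (∀ p ∈ S, p ∣ (G t).natAbs) then w S else 0) ≤
      2 * Y * ∏ p ∈ S, (h * (1 / ((p : ℝ) * Real.sqrt p))) + 2 * Y / (Z : ℝ) ^ h' * ∏ p ∈ S, (h * (1 / (p : ℝ))) := by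
    intro S hS
    have hS' := mem_powerset.1 hS
    rw [← sum_filter, sum_const, nsmul_eq_mul]
    have hSp : ∀ p ∈ S, p.Prime := fun p hp => hWp p (hS' hp)
    have hn1 : 0 ≤ 2 * (Y : ℝ) * ∏ p ∈ S, (h * (1 / ((p : ℝ) * Real.sqrt p))) :=
      mul_nonneg (by positivity) (prod_nonneg fun p _ => by positivity)
    have hn2 : 0 ≤ 2 * (Y : ℝ) / (Z : ℝ) ^ h' * ∏ p ∈ S, (h * (1 / (p : ℝ))) :=
      mul_nonneg (by positivity) (prod_nonneg fun p _ => by positivity)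
    by_cases hSY : ∏ p ∈ S, p ≤ Y
    · have h1 := mul_le_mul_of_nonneg_right (hcnt S hS' hSY) (hw0 S)
      have h2 : (r : ℝ) ^ S.card * (2 * (Y : ℝ) / (∏ p ∈ S, p : ℕ)) * w S ≤
          2 * Y * ∏ p ∈ S, (h * (1 / ((p : ℝ) * Real.sqrt p))) := by
        have e1 : (r : ℝ) ^ S.card * (2 * (Y : ℝ) / (∏ p ∈ S, p : ℕ)) * w S =
            2 * Y * ∏ p ∈ S, (h * (1 / ((p : ℝ) * p))) := by
          rw [hw]
          push_cast
          have e0 : (r : ℝ) ^ S.card * (2 * (Y : ℝ) / (∏ p ∈ S, (p : ℝ))) * ∏ p ∈ S, ((2 : ℝ) ^ (m + 1) / (p : ℝ)) =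
              2 * Y * ((∏ _p ∈ S, (r : ℝ)) * (∏ p ∈ S, ((2 : ℝ) ^ (m + 1) / (p : ℝ))) / (∏ p ∈ S, (p : ℝ))) := by
            rw [prod_const]
            ring
          rw [e0, ← prod_mul_distrib, ← prod_div_distrib]
          congr 1
          apply prod_congr rfl
          intro p hp
          have hp0 : (p : ℝ) ≠ 0 := by exact_mod_cast (hSp p hp).ne_zero
          rw [hh]
          field_simp
        rw [e1]
        apply mul_le_mul_of_nonneg_left _ (by positivity)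
        apply Finset.prod_le_prod
        · intro p _
          positivity
        · intro p hp
          have hp0 : (0 : ℝ) < p := by exact_mod_cast (hSp p hp).pos
          have hp1 : (1 : ℝ) ≤ p := by exact_mod_cast (hSp p hp).one_lt.le
          have hp2 : Real.sqrt p ≤ p := by
            rw [Real.sqrt_le_left hp0.le]
            nlinarith
          have hp3 : 0 < Real.sqrt p := Real.sqrt_pos.2 hp0
          gcongr
      linarith
    · push Not at hSY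
      have hT1 : 1 ≤ Z ^ h' := Nat.one_le_pow _ _ hZ1
      have hTY : Z ^ h' ≤ Y := (Nat.pow_le_pow_right hZ1 (by omega)).trans hZY
      obtain ⟨S', hS1, hS2, hS3⟩ := sub_prod (Z ^ h') Z hT1 S (fun p hp => (mem_Icc.1 (hWZ (hS' hp))).2)
        (hTY.trans_lt hSY)
      have h1 := hcnt S' (hS1.trans hS') (hS3.trans (by rw [← pow_succ]; exact hZY))
      have h2 : (((Icc 1 Y).filter (fun t => ∀ p ∈ S, p ∣ (G t).natAbs)).card : ℝ) ≤
          (r : ℝ) ^ S.card * (2 * Y / (Z : ℝ) ^ h') := by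
        have h3 : (((Icc 1 Y).filter (fun t => ∀ p ∈ S, p ∣ (G t).natAbs)).card : ℝ) ≤
            (((Icc 1 Y).filter (fun t => ∀ p ∈ S', p ∣ (G t).natAbs)).card : ℝ) := by
          rw [Nat.cast_le]
          apply card_le_card
          intro t ht
          obtain ⟨h4, h5⟩ := mem_filter.1 ht
          exact mem_filter.2 ⟨h4, fun p hp => h5 p (hS1 hp)⟩
        refine h3.trans (h1.trans ?_)
        have h6 : (r : ℝ) ^ S'.card ≤ (r : ℝ) ^ S.card := pow_le_pow_right₀ hrr (card_le_card hS1)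
        have h7 : 2 * (Y : ℝ) / (∏ p ∈ S', p : ℕ) ≤ 2 * Y / (Z : ℝ) ^ h' := by
          apply div_le_div_of_nonneg_left (by positivity) (by positivity)
          exact_mod_cast hS2.le
        exact mul_le_mul h6 h7 (by positivity) (by positivity)
      have h3 := mul_le_mul_of_nonneg_right h2 (hw0 S)
      have e1 : (r : ℝ) ^ S.card * (2 * Y / (Z : ℝ) ^ h') * w S =
          2 * Y / (Z : ℝ) ^ h' * ∏ p ∈ S, (h * (1 / (p : ℝ))) := by
        have e0 : (r : ℝ) ^ S.card * (2 * Y / (Z : ℝ) ^ h') * w S =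
            2 * Y / (Z : ℝ) ^ h' * ((∏ _p ∈ S, (r : ℝ)) * (∏ p ∈ S, ((2 : ℝ) ^ (m + 1) / (p : ℝ)))) := by
          rw [prod_const, hw]
          ring
        rw [e0, ← prod_mul_distrib, hh]
        congr 1
        exact prod_congr rfl fun p _ => by ring
      rw [e1] at h3
      linarith
  have hsum := sum_le_sum hin
  rw [sum_add_distrib, ← mul_sum, ← mul_sum, ← prod_one_add, ← prod_one_add] at hsum
  have h1 : ∏ p ∈ W, (1 + h * (1 / ((p : ℝ) * Real.sqrt p))) ≤ Real.exp (h * C₀) := by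
    refine (prod_exp_le W _ fun p _ => by positivity).trans (Real.exp_le_exp.2 ?_)
    rw [← mul_sum]
    exact mul_le_mul_of_nonneg_left (hsum0 W fun p hp => (hWp p hp).pos) hh0
  have h2 : ∏ p ∈ W, (1 + h * (1 / (p : ℝ))) ≤ Real.exp h * (Z : ℝ) ^ h' := by
    refine (prod_exp_le W _ fun p _ => by positivity).trans ?_
    rw [← mul_sum]
    have h3 := sum_inv_le Z W hWZ
    calc Real.exp (h * ∑ p ∈ W, 1 / (p : ℝ)) ≤ Real.exp (h * (1 + Real.log Z)) :=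
          Real.exp_le_exp.2 (mul_le_mul_of_nonneg_left h3 hh0)
      _ = Real.exp h * (Z : ℝ) ^ h' := by
          rw [mul_add, mul_one, Real.exp_add, ← hhh, Real.exp_nat_mul, Real.exp_log (by linarith)]
  have h3 : 2 * (Y : ℝ) * ∏ p ∈ W, (1 + h * (1 / ((p : ℝ) * Real.sqrt p))) +
      2 * Y / (Z : ℝ) ^ h' * ∏ p ∈ W, (1 + h * (1 / (p : ℝ))) ≤ (2 * Real.exp (h * C₀) + 2 * Real.exp h) * Y := by
    have h4 : 2 * (Y : ℝ) * ∏ p ∈ W, (1 + h * (1 / ((p : ℝ) * Real.sqrt p))) ≤ 2 * Y * Real.exp (h * C₀) :=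
      mul_le_mul_of_nonneg_left h1 (by positivity)
    have h5 : 2 * (Y : ℝ) / (Z : ℝ) ^ h' * ∏ p ∈ W, (1 + h * (1 / (p : ℝ))) ≤
        2 * Y / (Z : ℝ) ^ h' * (Real.exp h * (Z : ℝ) ^ h') := mul_le_mul_of_nonneg_left h2 (by positivity)
    have h6 : 2 * (Y : ℝ) / (Z : ℝ) ^ h' * (Real.exp h * (Z : ℝ) ^ h') = 2 * Y * Real.exp h := by
      field_simp
    linarith
  have hGg : 0 ≤ GG g ^ m := pow_nonneg (GG_nonneg g) m
  calc _ ≤ (Real.exp 6 * (1 : ℕ)) ^ m * (GG g ^ m * ((2 * Real.exp (h * C₀) + 2 * Real.exp h) * Y)) := by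
        apply mul_le_mul_of_nonneg_left _ (by positivity)
        exact mul_le_mul_of_nonneg_left (hsum.trans h3) hGg
    _ = _ := by
        rw [Nat.cast_one, mul_one]
        ring

end Pool.Agent.Helper74.FB
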