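import Mathlib
import Pool.Agent.Helper74.FB.SecA
import Pool.Agent.Helper74.FB.LowL
import Pool.Agent.Helper74.FB.Gen
import Pool.Agent.Helper74.OR.Core

/-! The localised fibred theorem: for a positive proportion of the `N` in an interval `[M₀, M₀ + 3 X / 4]`,
many of the arguments `m` of a given set are such that the numbers `N + Q (m + h q)` form a cluster. -/

set_option autoImplicit false

namespace Pool.Agent.Helper74.FB

open Finset Filter Topology Polynomial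
open Pool.Agent.Erdos456
open Pool.Agent.H410R2 (WW)
open Pool.Agent.Helper74.OR (Rg pz)
open Pool.Agent.Helper74.AE (WW_pos)

/-- the polynomial part of the constants; `W` is positive -/
noncomputable def Aq (Q : ℤ[X]) (W h₀ : ℕ) {I : Type} (h : I → ℕ) : Option I → ℤ[X]
  | none => C ((1 : ℤ) + W) * Q.comp (X + C (h₀ : ℤ))
  | some i => Q.comp (X + C (h i : ℤ))

/-- the constants -/
noncomputable def eL (Q : ℤ[X]) (W h₀ M₀ : ℕ) {I : Type} (h : I → ℕ) (m : ℕ) : Option I → ℤ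
  | none => (1 + W) * Q.eval ((m : ℤ) + h₀) - M₀
  | some i => Q.eval ((m : ℤ) + h i)

theorem comp_shift (Q : ℤ[X]) (hd : 1 ≤ Q.natDegree) (h : ℕ) :
    (Q.comp (X + C (h : ℤ))).natDegree = Q.natDegree ∧
    (Q.comp (X + C (h : ℤ))).coeff Q.natDegree = Q.leadingCoeff := by
  obtain ⟨h1, h2, -⟩ := shift_poly Q hd h 0
  rw [C_0, sub_zero] at h1 h2
  refine ⟨h1, ?_⟩
  rw [leadingCoeff, h1] at h2
  exact h2

/-- the leading coefficients of the differences -/
theorem Aq_deg (Q : ℤ[X]) (hd : 1 ≤ Q.natDegree) (W h₀ : ℕ) {I : Type} (h : I → ℕ) (q : Option I) :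
    (Aq Q W h₀ h q).natDegree ≤ Q.natDegree ∧
    (Aq Q W h₀ h q).coeff Q.natDegree = (if q.isNone then (1 + (W : ℤ)) else 1) * Q.leadingCoeff := by
  rcases q with _ | i
  · obtain ⟨h1, h2⟩ := comp_shift Q hd h₀
    refine ⟨?_, ?_⟩
    · show (C ((1 : ℤ) + W) * Q.comp (X + C (h₀ : ℤ))).natDegree ≤ _
      exact (natDegree_C_mul_le _ _).trans h1.le
    · show (C ((1 : ℤ) + W) * Q.comp (X + C (h₀ : ℤ))).coeff _ = _
      rw [coeff_C_mul, h2]
      simp
  · obtain ⟨h1, h2⟩ := comp_shift Q hd (h i)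
    refine ⟨h1.le, ?_⟩
    show (Q.comp (X + C (h i : ℤ))).coeff _ = _
    rw [h2]
    simp

theorem eL_eq (Q : ℤ[X]) (W h₀ M₀ : ℕ) {I : Type} (h : I → ℕ) (m : ℕ) (q : Option I) :
    eL Q W h₀ M₀ h m q = (Aq Q W h₀ h q).eval (m : ℤ) - (if q.isNone then (M₀ : ℤ) else 0) := by
  rcases q with _ | i
  · simp [eL, Aq, eval_comp]
  · simp [eL, Aq, eval_comp]

/-- the moments -/
theorem momsL (V : Finset (ℤ × ℤ)) (hV1 : ∀ f ∈ V, f.1 ≠ 0)
    (hV2 : ∀ f ∈ V, ∀ g ∈ V, f ≠ g → f.1 * g.2 - g.1 * f.2 ≠ 0) (δ : ℝ) (hδ : 0 < δ)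
    (Q : ℤ[X]) (hd : 1 ≤ Q.natDegree) (W : ℕ) (hW : 0 < W) (h₀ : ℕ) {I : Type} [Fintype I] [DecidableEq I]
    (h : I → ℕ) (hh : Function.Injective h) (E : ℕ) (hE : 1 ≤ E) (s : ℕ) :
    ∃ c₀ : ℝ, 0 < c₀ ∧ ∀ᶠ Y : ℕ in atTop,
      (((Rg V δ Y).card : ℕ) : ℝ) ≤ c₀ * (Y / Real.log Y ^ V.card) ∧ ∀ X : ℕ, X ≤ Y ^ s →
      (∀ n ≤ Y, ∀ q, 64 * |eL Q W h₀ 0 h n q| ≤ (X : ℤ)) → ∀ M₀ : ℕ, M₀ ≤ 2 * X →
      (∀ m ≤ Y, ∀ q q', ∑ n ∈ Rg V δ Y, GG (eL Q W h₀ M₀ h n q - eL Q W h₀ M₀ h m q').natAbs ^ E ≤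
          c₀ * (Y / Real.log Y ^ V.card)) ∧
      ∀ q q', q ≠ q' → ∑ n ∈ Rg V δ Y, GG (eL Q W h₀ M₀ h n q - eL Q W h₀ M₀ h n q').natAbs ^ E ≤
          c₀ * (Y / Real.log Y ^ V.card) := by
  classical
  obtain ⟨c₁, hc₁, h1⟩ := moms V hV1 hV2 δ hδ Q hd h hh E hE
  have hQ0 : Q ≠ 0 := by
    rintro rfl
    simp at hd
  have hl : Q.leadingCoeff ≠ 0 := leadingCoeff_ne_zero.2 hQ0
  set g : ℕ := (W * (1 + W)) * Q.leadingCoeff.natAbs with hg
  have hg0 : 0 < g := by
    have := Int.natAbs_pos.2 hl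
    positivity
  obtain ⟨c₂, hc₂, h2⟩ := momPoly V hV1 hV2 δ hδ E Q.natDegree (s + 3) g hE (by omega) hg0
  refine ⟨max c₁ c₂, lt_max_of_lt_left hc₁, ?_⟩
  filter_upwards [h1, h2, eventually_ge_atTop 8] with Y hY1 hY2 hY8
  obtain ⟨hY1a, hY1b, hY1c⟩ := hY1
  have hYr : (1 : ℝ) < Y := by exact_mod_cast (by omega : 1 < Y)
  have hlogY : 0 < Real.log Y := Real.log_pos hYr
  have hm1 : c₁ * (Y / Real.log Y ^ V.card) ≤ max c₁ c₂ * (Y / Real.log Y ^ V.card) :=
    mul_le_mul_of_nonneg_right (le_max_left _ _) (by positivity)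
  have hm2 : c₂ * (Y / Real.log Y ^ V.card) ≤ max c₁ c₂ * (Y / Real.log Y ^ V.card) :=
    mul_le_mul_of_nonneg_right (le_max_right _ _) (by positivity)
  refine ⟨hY1a.trans hm1, ?_⟩
  intro X hX hb M₀ hM₀
  have hbM : ∀ n ≤ Y, ∀ q, |eL Q W h₀ M₀ h n q| ≤ 3 * (X : ℤ) := by
    intro n hn q
    have e1 := hb n hn q
    rw [eL_eq] at e1 ⊢
    have hM : (M₀ : ℤ) ≤ 2 * X := by exact_mod_cast hM₀
    have hM0 : (0 : ℤ) ≤ M₀ := Nat.cast_nonneg _
    have hX0 : (0 : ℤ) ≤ X := Nat.cast_nonneg _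
    rcases q with _ | i
    · simp only [Option.isNone_none, if_true, Nat.cast_zero, sub_zero] at e1 ⊢
      have e2 := abs_sub ((Aq Q W h₀ h none).eval (n : ℤ)) (M₀ : ℤ)
      rw [abs_of_nonneg hM0] at e2
      linarith
    · simp only [Option.isNone_some, Bool.false_eq_true, if_false, sub_zero] at e1 ⊢
      linarith [abs_nonneg ((Aq Q W h₀ h (some i)).eval (n : ℤ))]
  have hval : ∀ z : ℤ, |z| ≤ 6 * (X : ℤ) → (((z.natAbs : ℕ) : ℝ)) ≤ (Y : ℝ) ^ (s + 3) := by
    intro z hz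
    rw [Int.abs_eq_natAbs] at hz
    have e1 : z.natAbs ≤ 6 * X := by exact_mod_cast hz
    have e2 : 6 * X ≤ Y ^ (s + 3) := by
      calc 6 * X ≤ Y * Y ^ s := Nat.mul_le_mul (by omega) hX
        _ = Y ^ (s + 1) := by ring
        _ ≤ Y ^ (s + 3) := Nat.pow_le_pow_right (by omega) (by omega)
    exact_mod_cast e1.trans e2
  -- a polynomial with known leading coefficient
  have key : ∀ (P : ℤ[X]), P.natDegree ≤ Q.natDegree → ∀ a : ℤ, a ≠ 0 → P.coeff Q.natDegree = a →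
      a.natAbs ∣ g → (∀ n ∈ Icc 1 Y, |P.eval (n : ℤ)| ≤ 6 * (X : ℤ)) →
      ∑ n ∈ Rg V δ Y, GG (P.eval (n : ℤ)).natAbs ^ E ≤ max c₁ c₂ * (Y / Real.log Y ^ V.card) := by
    intro P hP a ha hPa hag hPb
    have e1 : P.natDegree = Q.natDegree := by
      apply le_antisymm hP
      apply le_natDegree_of_ne_zero
      rw [hPa]
      exact ha
    refine (hY2 P hP (by
      rintro rfl
      rw [coeff_zero] at hPa
      exact ha hPa.symm) (by
      rw [leadingCoeff, e1, hPa]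
      exact hag) (fun n hn => hval _ (hPb n hn))).trans hm2
  have hL0 : ∀ q : Option I, ((if q.isNone then (1 + (W : ℤ)) else 1) * Q.leadingCoeff) ≠ 0 := by
    intro q
    apply mul_ne_zero _ hl
    split_ifs
    · have : (0 : ℤ) ≤ W := Nat.cast_nonneg _
      omega
    · exact one_ne_zero
  have hW1 : (1 + (W : ℤ)).natAbs = 1 + W := by
    have : (1 + (W : ℤ)) = ((1 + W : ℕ) : ℤ) := by push_cast; ring
    rw [this, Int.natAbs_natCast]
  have hLg : ∀ q : Option I, ((if q.isNone then (1 + (W : ℤ)) else 1) * Q.leadingCoeff).natAbs ∣ g := by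
    intro q
    rw [Int.natAbs_mul, hg]
    apply mul_dvd_mul_right
    split_ifs
    · rw [hW1]
      exact dvd_mul_left _ _
    · simp
  refine ⟨?_, ?_⟩
  · intro m hm q q'
    have h5 := key (Aq Q W h₀ h q - C ((if q.isNone then (M₀ : ℤ) else 0) + eL Q W h₀ M₀ h m q'))
      ((natDegree_sub_C).le.trans (Aq_deg Q hd W h₀ h q).1) _ (hL0 q) (by
        rw [coeff_sub, coeff_C, if_neg (by omega), sub_zero]
        exact (Aq_deg Q hd W h₀ h q).2) (hLg q) (by
        intro n hn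
        rw [eval_sub, eval_C]
        have e1 := hbM n (mem_Icc.1 hn).2 q
        have e2 := hbM m hm q'
        rw [eL_eq Q W h₀ M₀ h n q] at e1
        have e3 : (Aq Q W h₀ h q).eval (n : ℤ) - ((if q.isNone then (M₀ : ℤ) else 0) + eL Q W h₀ M₀ h m q') =
          ((Aq Q W h₀ h q).eval (n : ℤ) - (if q.isNone then (M₀ : ℤ) else 0)) - eL Q W h₀ M₀ h m q' := by ring
        rw [e3]
        have e4 := abs_sub ((Aq Q W h₀ h q).eval (n : ℤ) - (if q.isNone then (M₀ : ℤ) else 0))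
          (eL Q W h₀ M₀ h m q')
        linarith)
    refine le_trans (le_of_eq (sum_congr rfl fun n _ => ?_)) h5
    rw [eval_sub, eval_C, eL_eq Q W h₀ M₀ h n q]
    congr 3
    ring
  · intro q q' hqq
    by_cases hboth : q.isNone = false ∧ q'.isNone = false
    · rcases q with _ | i
      · simp at hboth
      · rcases q' with _ | j
        · simp at hboth
        · refine le_trans (le_of_eq (sum_congr rfl fun n _ => ?_)) ((hY1c i j (fun h0 => hqq (by rw [h0]))).trans hm1)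
          rfl
    · have hne : q.isNone ≠ q'.isNone := by
        rcases q with _ | i <;> rcases q' with _ | j
        · exact absurd rfl hqq
        · simp
        · simp
        · simp at hboth
      obtain ⟨d1, l1⟩ := Aq_deg Q hd W h₀ h q
      obtain ⟨d2, l2⟩ := Aq_deg Q hd W h₀ h q'
      have hWz : (0 : ℤ) < W := by exact_mod_cast hW
      have h5 := key (Aq Q W h₀ h q - Aq Q W h₀ h q' -
          C ((if q.isNone then (M₀ : ℤ) else 0) - (if q'.isNone then (M₀ : ℤ) else 0)))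
        ((natDegree_sub_C).le.trans ((natDegree_sub_le _ _).trans (max_le d1 d2)))
        (((if q.isNone then (1 + (W : ℤ)) else 1) - (if q'.isNone then (1 + (W : ℤ)) else 1)) * Q.leadingCoeff)
        (by
          apply mul_ne_zero _ hl
          rcases q with _ | i <;> rcases q' with _ | j
          · simp at hne
          · simp [hW.ne']
          · simp [hW.ne']
          · simp at hne) (by
          rw [coeff_sub, coeff_C, if_neg (by omega), sub_zero, coeff_sub, l1, l2]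
          ring) (by
          rw [Int.natAbs_mul, hg]
          apply mul_dvd_mul_right
          rcases q with _ | i <;> rcases q' with _ | j
          · simp at hne
          · have e : (if (none : Option I).isNone then (1 + (W : ℤ)) else 1) -
                (if (some j).isNone then (1 + (W : ℤ)) else 1) = (W : ℤ) := by simp
            rw [e, Int.natAbs_natCast]
            exact dvd_mul_right _ _
          · have e : (if (some i).isNone then (1 + (W : ℤ)) else 1) -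
                (if (none : Option I).isNone then (1 + (W : ℤ)) else 1) = -(W : ℤ) := by simp
            rw [e, Int.natAbs_neg, Int.natAbs_natCast]
            exact dvd_mul_right _ _
          · simp at hne) (by
          intro n hn
          rw [eval_sub, eval_sub, eval_C]
          have e1 := hbM n (mem_Icc.1 hn).2 q
          have e2 := hbM n (mem_Icc.1 hn).2 q'
          rw [eL_eq] at e1 e2
          have e4 := abs_sub ((Aq Q W h₀ h q).eval (n : ℤ) - (if q.isNone then (M₀ : ℤ) else 0))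
            ((Aq Q W h₀ h q').eval (n : ℤ) - (if q'.isNone then (M₀ : ℤ) else 0))
          have e3 : (Aq Q W h₀ h q).eval (n : ℤ) - (Aq Q W h₀ h q').eval (n : ℤ) -
              ((if q.isNone then (M₀ : ℤ) else 0) - (if q'.isNone then (M₀ : ℤ) else 0)) =
              ((Aq Q W h₀ h q).eval (n : ℤ) - (if q.isNone then (M₀ : ℤ) else 0)) -
              ((Aq Q W h₀ h q').eval (n : ℤ) - (if q'.isNone then (M₀ : ℤ) else 0)) := by ring
          rw [e3]
          linarith)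
      refine le_trans (le_of_eq (sum_congr rfl fun n _ => ?_)) h5
      rw [eval_sub, eval_sub, eval_C, eL_eq, eL_eq]
      congr 3
      ring

theorem EE_pos (ι : Type) [Fintype ι] [Nonempty ι] : 1 ≤ EE ι := by
  classical
  unfold EE
  have h1 : 0 < (univ : Finset (ι ⊕ ι)).offDiag.card := by
    rw [Finset.card_pos]
    obtain ⟨i⟩ := ‹Nonempty ι›
    refine ⟨(Sum.inl i, Sum.inr i), ?_⟩
    rw [mem_offDiag]
    exact ⟨mem_univ _, mem_univ _, by simp⟩
  have h2 : 0 < Fintype.card ι := Fintype.card_pos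
  exact Nat.mul_pos (Nat.mul_pos (by norm_num) h2) h1

open Classical in
theorem genL {T K : ℕ} [NeZero K] {Qσ : (Finset (Fin T)) → (Fin T → Fin K) → Prop} {δ c : ℝ}
    (hδ : 0 < δ) (hc : 0 < c) (D : ℕ) (H : LowL T K Qσ δ c D) (Q : ℤ[X]) (hd : 1 ≤ Q.natDegree) (h₀ : ℕ)
    (h : Fin (T * K) → ℕ) (hh : Function.Injective h)
    (V : Finset (ℤ × ℤ)) (hV1 : ∀ f ∈ V, f.1 ≠ 0)
    (hV2 : ∀ f ∈ V, ∀ g ∈ V, f ≠ g → f.1 * g.2 - g.1 * f.2 ≠ 0) (δ' : ℝ) (hδ' : 0 < δ')
    (c₁ : ℝ) (hc₁ : 0 < c₁) (s : ℕ) :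
    ∃ κ : ℝ, 0 < κ ∧ ∃ m₀ Y₀ X₀ : ℕ, ∀ Y : ℕ, Y₀ ≤ Y → ∀ X : ℕ, X₀ ≤ X → X ≤ Y ^ s → ∀ R ⊆ Rg V δ' Y,
      (∀ m ∈ R, m₀ ≤ m) → c₁ * (Y / Real.log Y ^ V.card) ≤ R.card →
      Real.log X ^ (T * K + 1) ≤ Y / Real.log Y ^ V.card →
      (∀ n ≤ Y, ∀ q, 64 * |eL Q (WW D) h₀ 0 h n q| ≤ (X : ℤ)) → ∀ M₀ : ℕ, X ≤ 4 * M₀ → 5 * M₀ ≤ 6 * X →
      ∀ v : ℤ,
      (∀ m ∈ R, ∀ p ∈ (Icc 1 D).filter Nat.Prime, ∀ q, ¬ (p : ℤ) ∣ v + eL Q (WW D) h₀ M₀ h m q) →
      κ * X ≤ (((Icc 1 (2 * X)).filter (fun N : ℕ => M₀ ≤ N ∧ 4 * N ≤ 4 * M₀ + 3 * X ∧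
        (N : ℤ) ≡ v [ZMOD (WW D : ℕ)] ∧
        κ * (Y / Real.log Y ^ V.card / Real.log X ^ (T * K + 1)) ≤
          ((R.filter (fun m : ℕ => GdQ Qσ δ X (eL Q (WW D) h₀ M₀ h m) N)).card : ℝ))).card : ℝ) := by
  have hW : 0 < WW D := WW_pos D
  have hWr : (0 : ℝ) < WW D := by exact_mod_cast hW
  obtain ⟨C, hC, X₁, hsec⟩ := secA (Option (Fin (T * K))) (δ / 2) (by positivity)
  obtain ⟨C₀, hC₀, hmom⟩ := momsL V hV1 hV2 δ' hδ' Q hd (WW D) hW h₀ h hh (EE (Option (Fin (T * K))))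
    (EE_pos _) s
  obtain ⟨Y₁, hY₁⟩ := eventually_atTop.1 hmom
  obtain ⟨X₂, hX₂⟩ := eventually_atTop.1 H
  obtain ⟨m₂, hm₂⟩ := inj_ev Q hd
  have hcard : Fintype.card (Option (Fin (T * K))) = T * K + 1 := by
    rw [Fintype.card_option, Fintype.card_fin]
  rw [hcard] at hsec
  set κ₁ : ℝ := c₁ * (c / WW D) / 2 with hκ₁
  have hκ₁0 : 0 < κ₁ := by positivity
  set C' : ℝ := max 1 C₀ with hC'
  have hC'1 : 1 ≤ C' := le_max_left _ _
  set C₂ : ℝ := C * C' ^ 2 with hC₂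
  have hC₂0 : 0 < C₂ := by positivity
  refine ⟨min (κ₁ ^ 2 / (8 * C₂)) (κ₁ / 2), lt_min (by positivity) (by positivity), m₂,
    max Y₁ 3, max X₁ (max X₂ 3), ?_⟩
  intro Y hY X hX hXs R hR hRm hRc hLM hbd M₀ hM1 hM2 v hcop
  have hXX₁ : X₁ ≤ X := (le_max_left _ _).trans hX
  have hXX₂ : X₂ ≤ X := ((le_max_left _ _).trans (le_max_right _ _)).trans hX
  have hX3 : 3 ≤ X := ((le_max_right _ _).trans (le_max_right _ _)).trans hX
  have hY3 : 3 ≤ Y := (le_max_right _ _).trans hY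
  have hlogY : 0 < Real.log Y := Real.log_pos (by exact_mod_cast (by omega : 1 < Y))
  have hlogX : 0 < Real.log X := Real.log_pos (by exact_mod_cast (by omega : 1 < X))
  have hY0 : (0 : ℝ) < Y := by exact_mod_cast (by omega : 0 < Y)
  have hX0 : (0 : ℝ) < X := by exact_mod_cast (by omega : 0 < X)
  have hXz : (3 : ℤ) ≤ X := by exact_mod_cast hX3
  have hM1z : (X : ℤ) ≤ 4 * M₀ := by exact_mod_cast hM1
  have hM2z : 5 * (M₀ : ℤ) ≤ 6 * X := by exact_mod_cast hM2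
  obtain ⟨hRg, hmm⟩ := hY₁ Y ((le_max_left _ _).trans hY)
  obtain ⟨hcr, hin⟩ := hmm X hXs hbd M₀ (by omega)
  set 𝓜 : ℝ := Y / Real.log Y ^ V.card with h𝓜
  have h𝓜0 : 0 < 𝓜 := by positivity
  set L : ℝ := Real.log X ^ (T * K + 1) with hL
  have hL0 : 0 < L := by positivity
  set X' : ℕ := 2 * X with hX'
  have hX'0 : (0 : ℝ) < X' := by exact_mod_cast (by omega : 0 < X')
  have hX'2 : (X' : ℝ) = 2 * X := by rw [hX']; push_cast; ring
  have hlogX' : Real.log X ≤ Real.log X' := Real.log_le_log hX0 (by rw [hX'2]; linarith)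
  have hlogX'2 : Real.log X' ≤ 2 * Real.log X := by
    have h1 : (X' : ℝ) ≤ (X : ℝ) ^ 2 := by
      have : (3 : ℝ) ≤ X := by exact_mod_cast hX3
      rw [hX'2]
      nlinarith
    have h2 := Real.log_le_log hX'0 h1
    rw [Real.log_pow] at h2
    exact_mod_cast h2
  have hRY : ∀ m ∈ R, m ≤ Y := by
    intro m hm
    have := hR hm
    unfold Rg at this
    exact (mem_Icc.1 (mem_filter.1 this).1).2
  set e : ℕ → Option (Fin (T * K)) → ℤ := eL Q (WW D) h₀ M₀ h with he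
  -- sizes
  have hsome : ∀ m ≤ Y, ∀ i, 64 * |e m (some i)| ≤ (X : ℤ) := fun m hm i => hbd m hm (some i)
  have hnone : ∀ m ≤ Y, -(X : ℤ) ≤ 64 * (e m none + M₀) ∧ 64 * (e m none + M₀) ≤ (X : ℤ) := by
    intro m hm
    have h1 := hbd m hm none
    have h2 : eL Q (WW D) h₀ 0 h m none = e m none + M₀ := by
      simp [he, eL]
    rw [h2] at h1
    have h3 := le_abs_self (e m none + M₀)
    have h4 := neg_abs_le (e m none + M₀)
    constructor <;> linarith
  have hsep : ∀ m ≤ Y, ∀ m' ≤ Y, ∀ i, e m none ≠ e m' (some i) := by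
    intro m hm m' hm' i h0
    have h1 := (hnone m hm).2
    have h2 := hsome m' hm' i
    have h3 := neg_abs_le (e m' (some i))
    rw [← h0] at h2 h3
    linarith
  have hsminj : ∀ m, m₂ ≤ m → ∀ m', m₂ ≤ m' → ∀ i j, e m (some i) = e m' (some j) → m + h i = m' + h j := by
    intro m hm m' hm' i j h0
    have h1 := hm₂ ((m : ℤ) + h i) ((m' : ℤ) + h j) (by omega) (by omega) h0
    exact_mod_cast h1
  have hnoinj : ∀ m, m₂ ≤ m → ∀ m', m₂ ≤ m' → e m none = e m' none → m = m' := by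
    intro m hm m' hm' h0
    have h1 : (1 + (WW D : ℤ)) * Q.eval ((m : ℤ) + h₀) - M₀ =
      (1 + (WW D : ℤ)) * Q.eval ((m' : ℤ) + h₀) - M₀ := h0
    have h2 : (1 + (WW D : ℤ)) ≠ 0 := by
      have : (0 : ℤ) ≤ (WW D : ℤ) := Nat.cast_nonneg _
      omega
    have h3 : (1 + (WW D : ℤ)) * Q.eval ((m : ℤ) + h₀) = (1 + (WW D : ℤ)) * Q.eval ((m' : ℤ) + h₀) := by
      linarith
    have h4 := mul_left_cancel₀ h2 h3
    have h5 := hm₂ ((m : ℤ) + h₀) ((m' : ℤ) + h₀) (by omega) (by omega) h4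
    have : (m : ℤ) = m' := by linarith
    exact_mod_cast this
  have hinj : ∀ m ∈ R, Function.Injective (e m) := by
    intro m hm q q' hqq
    have h1 := hRm m hm
    have h2 := hRY m hm
    rcases q with _ | i <;> rcases q' with _ | j
    · rfl
    · exact absurd hqq (hsep m h2 m h2 j)
    · exact absurd hqq.symm (hsep m h2 m h2 i)
    · have h3 := hsminj m h1 m h1 i j hqq
      have h4 : h i = h j := by omega
      rw [hh h4]
  set Bad : ℕ → ℕ → Prop := fun m m' => m = m' ∨ ∃ i j, m + h i = m' + h j with hBad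
  have hinj2 : ∀ m ∈ R, ∀ m' ∈ R, ¬ Bad m m' → Function.Injective (Sum.elim (e m) (e m')) := by
    intro m hm m' hm' hb
    have key : ∀ q q', e m q ≠ e m' q' := by
      intro q q' h0
      rcases q with _ | i <;> rcases q' with _ | j
      · exact hb (Or.inl (hnoinj m (hRm m hm) m' (hRm m' hm') h0))
      · exact hsep m (hRY m hm) m' (hRY m' hm') j h0
      · exact hsep m' (hRY m' hm') m (hRY m hm) i h0.symm
      · exact hb (Or.inr ⟨i, j, hsminj m (hRm m hm) m' (hRm m' hm') i j h0⟩)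
    intro x y hxy
    rcases x with x | x <;> rcases y with y | y
    · exact congrArg _ (hinj m hm hxy)
    · exact absurd hxy (key x y)
    · exact absurd hxy.symm (key y x)
    · exact congrArg _ (hinj m' hm' hxy)
  have hbadF : ∀ m ∈ R, ∃ F : Finset ℕ, F.card ≤ (T * K + 1) ^ 2 ∧
      ∀ m' ∈ R, Bad m m' → m' ∈ F := by
    intro m hm
    refine ⟨insert m ((univ : Finset (Fin (T * K) × Fin (T * K))).image (fun x => m + h x.1 - h x.2)), ?_, ?_⟩
    · refine (card_insert_le _ _).trans ?_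
      have h1 : ((univ : Finset (Fin (T * K) × Fin (T * K))).image (fun x => m + h x.1 - h x.2)).card ≤
          (T * K) * (T * K) := by
        refine card_image_le.trans ?_
        rw [card_univ, Fintype.card_prod, Fintype.card_fin]
      nlinarith
    · rintro m' hm' (h0 | ⟨i, j, h0⟩)
      · rw [h0]
        exact mem_insert_self _ _
      · apply mem_insert_of_mem
        refine mem_image.2 ⟨(i, j), mem_univ _, ?_⟩
        simp only
        omega
  have hsubR : ∀ g : ℕ → ℝ, (∀ n, 0 ≤ g n) → ∑ n ∈ R, g n ≤ ∑ n ∈ Rg V δ' Y, g n := fun g hg =>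
    sum_le_sum_of_subset_of_nonneg hR fun n _ _ => hg n
  have hC₀' : C₀ * 𝓜 ≤ C' * 𝓜 := mul_le_mul_of_nonneg_right (le_max_right _ _) h𝓜0.le
  have hS := hsec X' (by omega) R e Bad C' 𝓜 hC'1 h𝓜0.le hinj hinj2 hbadF
    ((by exact_mod_cast card_le_card hR : ((R.card : ℕ) : ℝ) ≤ ((Rg V δ' Y).card : ℕ)).trans (hRg.trans hC₀'))
    (fun q q' hqq => (hsubR _ fun n => pow_nonneg (GG_nonneg _) _).trans ((hin q q' hqq).trans hC₀'))
    (fun m hm q q' => (hsubR _ fun n => pow_nonneg (GG_nonneg _) _).trans ((hcr m (hRY m hm) q q').trans hC₀'))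
  have hS' : ∑ m ∈ R, ∑ m' ∈ R, (((Us (Be e m) (δ / 2) X' ∩ Us (Be e m') (δ / 2) X').card : ℕ) : ℝ) ≤
      C₂ * (𝓜 * (X' / L) + 𝓜 ^ 2 * (X' / L ^ 2)) := by
    refine hS.trans ?_
    have e1 : L ≤ Real.log X' ^ (T * K + 1) := pow_le_pow_left₀ hlogX.le hlogX' _
    have e2 : L ^ 2 ≤ Real.log X' ^ (2 * (T * K + 1)) := by
      rw [Nat.mul_comm 2, pow_mul]
      exact pow_le_pow_left₀ hL0.le e1 2
    have hl' : 0 < Real.log X' := hlogX.trans_le hlogX'
    rw [hC₂]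
    gcongr
  set G : ℕ → ℕ → Prop := fun N m => (X : ℤ) ≤ 16 * (N + e m none) ∧ 2 * (N + e m none) ≤ (X : ℤ) ∧
    (N : ℤ) ≡ v [ZMOD (WW D : ℕ)] ∧ GdQ Qσ δ X (e m) N with hG
  set f : ℕ → ℝ := fun N => ((R.filter (fun m => G N m)).card : ℝ) with hf
  have hfe : ∀ N, f N = ∑ m ∈ R, if G N m then (1 : ℝ) else 0 := by
    intro N
    rw [hf]
    simp only
    rw [card_filter]
    push_cast
    rfl
  -- first moment
  have hfirst : (κ₁ * 𝓜 / L) * ((Icc 1 X').card : ℝ) ≤ ∑ N ∈ Icc 1 X', f N := by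
    simp only [hfe]
    rw [sum_comm]
    have h1 : ∀ m ∈ R, c / WW D * (X / L) ≤ ∑ N ∈ Icc 1 X', if G N m then (1 : ℝ) else 0 := by
      intro m hm
      have hmY := hRY m hm
      have h2 := hX₂ X hXX₂ (e m) (hinj m hm) (hsome m hmY) (by
        have := (hnone m hmY).2
        linarith) (by
        have := (hnone m hmY).1
        linarith) v (hcop m hm)
      refine h2.trans (le_of_eq ?_)
      rw [card_filter]
      push_cast
      rfl
    have h3 : (R.card : ℝ) * (c / WW D * (X / L)) ≤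
        ∑ m ∈ R, ∑ N ∈ Icc 1 X', if G N m then (1 : ℝ) else 0 := by
      rw [← nsmul_eq_mul, ← sum_const]
      exact sum_le_sum h1
    refine le_trans ?_ h3
    rw [Nat.card_Icc, Nat.add_sub_cancel]
    calc κ₁ * 𝓜 / L * (X' : ℝ) = (c₁ * 𝓜) * (c / WW D * (X / L)) := by
          rw [hκ₁, hX'2]; ring
      _ ≤ (R.card : ℝ) * (c / WW D * (X / L)) := mul_le_mul_of_nonneg_right hRc (by positivity)
  have hpz := pz (Icc 1 X') f (κ₁ * 𝓜 / L) (by positivity) hfirst
  rw [Nat.card_Icc, Nat.add_sub_cancel] at hpz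
  -- second moment
  have hsecond : ∑ N ∈ Icc 1 X', f N ^ 2 ≤
      ∑ m ∈ R, ∑ m' ∈ R, (((Us (Be e m) (δ / 2) X' ∩ Us (Be e m') (δ / 2) X').card : ℕ) : ℝ) := by
    have h1 : ∀ N ∈ Icc 1 X', f N ^ 2 ≤ ∑ m ∈ R, ∑ m' ∈ R,
        if N ∈ Us (Be e m) (δ / 2) X' ∩ Us (Be e m') (δ / 2) X' then (1 : ℝ) else 0 := by
      intro N hN
      rw [hfe, sq, sum_mul_sum]
      apply sum_le_sum
      intro m _
      apply sum_le_sum
      intro m' _
      by_cases h1 : G N m
      · by_cases h2 : G N m'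
        · have hmem : ∀ m, G N m → N ∈ Us (Be e m) (δ / 2) X' := by
            intro m hGm
            unfold Us Be
            rw [mem_filter]
            refine ⟨hN, ?_⟩
            intro z hz p hp hpl
            obtain ⟨q, _, rfl⟩ := mem_image.1 hz
            refine hGm.2.2.2.1 q p hp (hpl.trans ?_)
            have : δ / 2 * Real.log X' ≤ δ / 2 * (2 * Real.log X) :=
              mul_le_mul_of_nonneg_left hlogX'2 (by positivity)
            linarith
          rw [if_pos h1, if_pos h2, if_pos (mem_inter.2 ⟨hmem m h1, hmem m' h2⟩)]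
          norm_num
        · rw [if_neg h2, mul_zero]
          split_ifs <;> norm_num
      · rw [if_neg h1, zero_mul]
        split_ifs <;> norm_num
    refine (sum_le_sum h1).trans ?_
    rw [sum_comm]
    apply sum_le_sum
    intro m _
    rw [sum_comm]
    apply sum_le_sum
    intro m' _
    rw [← sum_filter, sum_const, nsmul_eq_mul, mul_one, Nat.cast_le]
    apply card_le_card
    intro N hN
    exact (mem_filter.1 hN).2
  have hfin := fin_alg2 κ₁ C₂ 𝓜 X' L _ _ hC₂0 h𝓜0 hX'0 hL0 (Nat.cast_nonneg _) hLM hpz (hsecond.trans hS')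
  have hXX' : (X : ℝ) ≤ X' := by rw [hX'2]; linarith
  refine (mul_le_mul (min_le_left _ _) hXX' hX0.le (by positivity)).trans (hfin.trans ?_)
  rw [Nat.cast_le]
  apply card_le_card
  intro N hN
  obtain ⟨hN1, hN2⟩ := mem_filter.1 hN
  have hpos : 0 < f N := lt_of_lt_of_le (by positivity) hN2
  have hne : (R.filter (fun m => G N m)).Nonempty := by
    rw [← Finset.card_pos]
    have hpos' : (0 : ℝ) < ((R.filter (fun m => G N m)).card : ℝ) := hpos
    exact_mod_cast hpos'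
  obtain ⟨m, hm⟩ := hne
  obtain ⟨hmR, hm1, hm2, hm3, -⟩ := mem_filter.1 hm
  obtain ⟨hn1, hn2⟩ := hnone m (hRY m hmR)
  refine mem_filter.2 ⟨hN1, by omega, by omega, hm3, ?_⟩
  calc min (κ₁ ^ 2 / (8 * C₂)) (κ₁ / 2) * (𝓜 / L) ≤ κ₁ / 2 * (𝓜 / L) :=
        mul_le_mul_of_nonneg_right (min_le_right _ _) (by positivity)
    _ = κ₁ * 𝓜 / L / 2 := by ring
    _ ≤ f N := hN2
    _ ≤ _ := by
      rw [hf]
      simp only
      rw [Nat.cast_le]
      apply card_le_card
      intro m hm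
      obtain ⟨h1, h2⟩ := mem_filter.1 hm
      exact mem_filter.2 ⟨h1, h2.2.2.2⟩

end Pool.Agent.Helper74.FB
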