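import Mathlib

/-! Palindromes with `2 N + 1` digits: outer and inner parts, and their distribution in residue classes. -/

set_option autoImplicit false

namespace Pool.Agent.Helper74.FB

open Finset

/-- the reversal of the lowest `M` digits of `x` -/
def rv (b : ℕ) : ℕ → ℕ → ℕ
  | 0, _ => 0
  | M + 1, x => (x % b) * b ^ M + rv b M (x / b)

theorem rv_lt {b : ℕ} (hb : 0 < b) : ∀ M x : ℕ, rv b M x < b ^ M
  | 0, x => by simp [rv]
  | M + 1, x => by
    have h1 := rv_lt hb M (x / b)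
    have h2 : x % b ≤ b - 1 := Nat.le_sub_one_of_lt (Nat.mod_lt x hb)
    have h3 : (x % b) * b ^ M ≤ (b - 1) * b ^ M := Nat.mul_le_mul_right _ h2
    have h4 : (b - 1) * b ^ M + b ^ M = b ^ (M + 1) := by
      rw [← Nat.succ_mul, Nat.succ_eq_add_one, Nat.sub_add_cancel hb, pow_succ, Nat.mul_comm]
    show (x % b) * b ^ M + rv b M (x / b) < b ^ (M + 1)
    omega

theorem rv_split {b : ℕ} (hb : 0 < b) : ∀ L M w₁ w₀ : ℕ, w₀ < b ^ L →
    rv b (L + M) (w₁ * b ^ L + w₀) = b ^ M * rv b L w₀ + rv b M w₁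
  | 0, M, w₁, w₀, h => by
    have : w₀ = 0 := by simpa using h
    rw [this]
    simp [rv]
  | L + 1, M, w₁, w₀, h => by
    have e0 : L + 1 + M = (L + M) + 1 := by ring
    rw [e0]
    have e1 : (w₁ * b ^ (L + 1) + w₀) % b = w₀ % b := by
      rw [pow_succ, ← mul_assoc, Nat.add_comm, Nat.add_mul_mod_self_right]
    have e2 : (w₁ * b ^ (L + 1) + w₀) / b = w₁ * b ^ L + w₀ / b := by
      rw [pow_succ, ← mul_assoc, Nat.add_comm, Nat.add_mul_div_right _ _ hb, Nat.add_comm]
    have h' : w₀ / b < b ^ L := by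
      rw [Nat.div_lt_iff_lt_mul hb, ← pow_succ]
      exact h
    show ((w₁ * b ^ (L + 1) + w₀) % b) * b ^ (L + M) + rv b (L + M) ((w₁ * b ^ (L + 1) + w₀) / b) =
      b ^ M * ((w₀ % b) * b ^ L + rv b L (w₀ / b)) + rv b M w₁
    rw [e1, e2, rv_split hb L M w₁ (w₀ / b) h', pow_add]
    ring

theorem rv_digit {b : ℕ} (hb : 0 < b) : ∀ M x i : ℕ, i < M →
    rv b M x / b ^ i % b = x / b ^ (M - 1 - i) % b
  | 0, x, i, h => absurd h (Nat.not_lt_zero _)
  | M + 1, x, i, h => by
    show ((x % b) * b ^ M + rv b M (x / b)) / b ^ i % b = x / b ^ (M + 1 - 1 - i) % b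
    have hlt := rv_lt hb M (x / b)
    rcases Nat.lt_or_ge i M with h1 | h1
    · have e1 : (x % b) * b ^ M = ((x % b) * b ^ (M - i - 1) * b) * b ^ i := by
        have : M = (M - i - 1) + 1 + i := by omega
        conv_lhs => rw [this, pow_add, pow_add, pow_one]
        ring
      rw [e1, Nat.add_comm, Nat.add_mul_div_right _ _ (by positivity), Nat.add_mul_mod_self_right,
        rv_digit hb M (x / b) i h1, Nat.div_div_eq_div_mul]
      have e2 : b * b ^ (M - 1 - i) = b ^ (M + 1 - 1 - i) := by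
        rw [← pow_succ']
        congr 1
        omega
      rw [e2]
    · have hi : i = M := by omega
      subst hi
      rw [Nat.add_comm, Nat.add_mul_div_right _ _ (by positivity), Nat.div_eq_of_lt hlt, Nat.zero_add,
        Nat.mod_mod]
      simp

/-- the palindrome with `2 N + 1` digits whose leading `N + 1` digits are those of `u` -/
def palN (b N u : ℕ) : ℕ := u * b ^ N + rv b N (u / b)

/-- the outer part: leading digits `w` (`M` digits), then `2 g + 1` zeros -/
def outp (b M g w : ℕ) : ℕ := w * b ^ (M + 2 * g + 1) + rv b M w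

/-- the inner part: `2 g + 1` digits -/
def inn (b g y : ℕ) : ℕ := y * b ^ g + rv b g (y / b)

theorem palN_eq {b : ℕ} (hb : 0 < b) (M g w y : ℕ) (hy : y < b ^ (g + 1)) :
    palN b (M + g) (w * b ^ (g + 1) + y) = outp b M g w + b ^ M * inn b g y := by
  have e1 : (w * b ^ (g + 1) + y) / b = w * b ^ g + y / b := by
    rw [pow_succ, ← mul_assoc, Nat.add_comm, Nat.add_mul_div_right _ _ hb, Nat.add_comm]
  have hy' : y / b < b ^ g := by
    rw [Nat.div_lt_iff_lt_mul hb, ← pow_succ]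
    exact hy
  unfold palN outp inn
  rw [e1, Nat.add_comm M g, rv_split hb g M w (y / b) hy', pow_add]
  ring

theorem palN_div {b : ℕ} (hb : 0 < b) (N u : ℕ) : palN b N u / b ^ N = u := by
  unfold palN
  rw [Nat.add_comm, Nat.add_mul_div_right _ _ (by positivity), Nat.div_eq_of_lt (rv_lt hb _ _), Nat.zero_add]

theorem palN_low {b : ℕ} (hb : 0 < b) (N u i : ℕ) (hi : i < N) :
    palN b N u / b ^ i % b = u / b ^ (N - i) % b := by
  unfold palN
  have e1 : u * b ^ N = (u * b ^ (N - i - 1) * b) * b ^ i := by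
    have : N = (N - i - 1) + 1 + i := by omega
    conv_lhs => rw [this, pow_add, pow_add, pow_one]
    ring
  rw [e1, Nat.add_comm, Nat.add_mul_div_right _ _ (by positivity), Nat.add_mul_mod_self_right,
    rv_digit hb N (u / b) i hi, Nat.div_div_eq_div_mul]
  have e2 : b * b ^ (N - 1 - i) = b ^ (N - i) := by
    rw [← pow_succ']
    congr 1
    omega
  rw [e2]

theorem palN_high {b : ℕ} (hb : 0 < b) (N u j : ℕ) : palN b N u / b ^ (N + j) % b = u / b ^ j % b := by
  rw [pow_add, ← Nat.div_div_eq_div_mul, palN_div hb]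

theorem digits_pal {b : ℕ} (hb : 2 ≤ b) (N n : ℕ) (h1 : b ^ (2 * N) ≤ n) (h2 : n < b ^ (2 * N + 1))
    (h : ∀ i ≤ 2 * N, n / b ^ i % b = n / b ^ (2 * N - i) % b) :
    (Nat.digits b n).reverse = Nat.digits b n := by
  have hn : n ≠ 0 := by
    have : 0 < b ^ (2 * N) := by positivity
    omega
  have hlen : (Nat.digits b n).length = 2 * N + 1 := by
    rw [Nat.digits_len b n hb hn, Nat.log_eq_of_pow_le_of_lt_pow h1 h2]
  apply List.ext_getElem
  · rw [List.length_reverse]
  · intro i hi1 hi2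
    rw [List.getElem_reverse]
    have hi3 : i ≤ 2 * N := by omega
    have e1 : ∀ j (hj : j < (Nat.digits b n).length), (Nat.digits b n)[j] = n / b ^ j % b := by
      intro j hj
      have := Nat.getD_digits n j hb
      rw [List.getD_eq_getElem _ _ hj] at this
      exact this
    rw [e1, e1, h i hi3]
    congr 3
    omega

theorem palN_pal {b : ℕ} (hb : 2 ≤ b) (N u : ℕ) (h1 : b ^ N ≤ u) (h2 : u < b ^ (N + 1)) :
    b ^ (2 * N) ≤ palN b N u ∧ palN b N u < b ^ (2 * N + 1) ∧
      (Nat.digits b (palN b N u)).reverse = Nat.digits b (palN b N u) := by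
  have hb0 : 0 < b := by omega
  have hlt := rv_lt hb0 N (u / b)
  have a1 : b ^ (2 * N) ≤ palN b N u := by
    unfold palN
    calc b ^ (2 * N) = b ^ N * b ^ N := by rw [← pow_add]; congr 1; ring
      _ ≤ u * b ^ N := Nat.mul_le_mul_right _ h1
      _ ≤ _ := Nat.le_add_right _ _
  have a2 : palN b N u < b ^ (2 * N + 1) := by
    unfold palN
    calc u * b ^ N + rv b N (u / b) < u * b ^ N + b ^ N := Nat.add_lt_add_left hlt _
      _ = (u + 1) * b ^ N := by ring
      _ ≤ b ^ (N + 1) * b ^ N := Nat.mul_le_mul_right _ h2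
      _ = b ^ (2 * N + 1) := by rw [← pow_add]; congr 1; ring
  refine ⟨a1, a2, digits_pal hb N _ a1 a2 ?_⟩
  intro i hi
  rcases Nat.lt_trichotomy i N with h | h | h
  · rw [palN_low hb0 N u i h]
    have e : 2 * N - i = N + (N - i) := by omega
    rw [e, palN_high hb0]
  · have e : 2 * N - i = i := by omega
    rw [e]
  · have e : i = N + (i - N) := by omega
    conv_lhs => rw [e, palN_high hb0]
    rw [palN_low hb0 N u (2 * N - i) (by omega)]
    congr 3
    omega

theorem outp_div {b : ℕ} (hb : 0 < b) (M g w : ℕ) : outp b M g w / b ^ (M + 2 * g + 1) = w := by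
  unfold outp
  have h1 : rv b M w < b ^ (M + 2 * g + 1) :=
    (rv_lt hb M w).trans_le (Nat.pow_le_pow_right hb (by omega))
  rw [Nat.add_comm, Nat.add_mul_div_right _ _ (by positivity), Nat.div_eq_of_lt h1, Nat.zero_add]

theorem inn_inj {b : ℕ} (hb : 0 < b) (g : ℕ) : Function.Injective (inn b g) := by
  intro y y' h
  have e : ∀ y, inn b g y / b ^ g = y := by
    intro y
    unfold inn
    rw [Nat.add_comm, Nat.add_mul_div_right _ _ (by positivity), Nat.div_eq_of_lt (rv_lt hb _ _), Nat.zero_add]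
  rw [← e y, ← e y', h]

/-- the outer part in terms of the leading digits and the following `L` digits -/
theorem outp_split {b : ℕ} (hb : 0 < b) (L M g w₁ w₀ : ℕ) (h : w₀ < b ^ L) :
    outp b (L + M) g (w₁ * b ^ L + w₀) = (w₁ * b ^ (2 * L + M + 2 * g + 1) + rv b M w₁) +
      b ^ M * (w₀ * b ^ (L + 2 * g + 1) + rv b L w₀) := by
  unfold outp
  rw [rv_split hb L M w₁ w₀ h]
  have e1 : b ^ (L + M + 2 * g + 1) = b ^ M * b ^ (L + 2 * g + 1) := by
    rw [← pow_add]
    congr 1
    ring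
  have e2 : b ^ (2 * L + M + 2 * g + 1) = b ^ L * (b ^ M * b ^ (L + 2 * g + 1)) := by
    rw [← pow_add, ← pow_add]
    congr 1
    ring
  rw [e1, e2]
  ring

/-- **the outer parts are dispersed** -/
theorem disp {b : ℕ} (hb : 2 ≤ b) (M g : ℕ) (c : ℤ) (d : ℕ) (hd0 : 0 < d) (hd : d ≤ b ^ (2 * M))
    (hdb : d.Coprime b) :
    ((((Ico (b ^ (M - 1)) (b ^ M)).filter (fun w => (d : ℤ) ∣ (outp b M g w : ℤ) - c)).card : ℕ) : ℝ) ≤
      (b : ℝ) ^ (g + 2) * (Ico (b ^ (M - 1)) (b ^ M)).card / Real.sqrt d := by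
  have hb0 : 0 < b := by omega
  have hbr : (1 : ℝ) ≤ b := by exact_mod_cast hb0
  have hsd : 0 < Real.sqrt d := Real.sqrt_pos.2 (by exact_mod_cast hd0)
  have hsub : (((Ico (b ^ (M - 1)) (b ^ M)).filter (fun w => (d : ℤ) ∣ (outp b M g w : ℤ) - c)).card : ℝ) ≤
      ((Ico (b ^ (M - 1)) (b ^ M)).card : ℝ) := by exact_mod_cast card_filter_le _ _
  by_cases hsmall : d < b ^ (2 * g + 3)
  · rw [le_div_iff₀ hsd]
    have h1 : Real.sqrt d ≤ (b : ℝ) ^ (g + 2) := by
      rw [Real.sqrt_le_left (by positivity)]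
      have h2 : (d : ℝ) ≤ (b : ℝ) ^ (2 * g + 3) := by exact_mod_cast hsmall.le
      calc (d : ℝ) ≤ (b : ℝ) ^ (2 * g + 3) := h2
        _ ≤ (b : ℝ) ^ (2 * g + 4) := pow_le_pow_right₀ hbr (by omega)
        _ = ((b : ℝ) ^ (g + 2)) ^ 2 := by rw [← pow_mul]; congr 1; ring
    calc _ ≤ ((Ico (b ^ (M - 1)) (b ^ M)).card : ℝ) * (b : ℝ) ^ (g + 2) := by gcongr
      _ = _ := mul_comm _ _
  · push Not at hsmall
    -- the number of the free digits
    obtain ⟨L, hL1, hL2⟩ : ∃ L : ℕ, b ^ (2 * L + 2 * g + 1) ≤ d ∧ d < b ^ (2 * (L + 1) + 2 * g + 1) := by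
      have hex : ∃ L : ℕ, d < b ^ (2 * (L + 1) + 2 * g + 1) := by
        refine ⟨M, hd.trans_lt (Nat.pow_lt_pow_right (by omega) (by omega))⟩
      classical
      refine ⟨Nat.find hex, ?_, Nat.find_spec hex⟩
      rcases Nat.eq_zero_or_pos (Nat.find hex) with h0 | h0
      · rw [h0]
        exact (Nat.pow_le_pow_right hb0 (by omega)).trans hsmall
      · have h1 := Nat.find_min hex (m := Nat.find hex - 1) (by omega)
        push Not at h1
        have e : 2 * (Nat.find hex - 1 + 1) + 2 * g + 1 = 2 * Nat.find hex + 2 * g + 1 := by omega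
        rwa [e] at h1
    have hLM : L < M := by
      by_contra hcon
      push Not at hcon
      have h1 : b ^ (2 * M + 1) ≤ b ^ (2 * L + 2 * g + 1) := Nat.pow_le_pow_right hb0 (by omega)
      have h2 : b ^ (2 * M) < b ^ (2 * M + 1) := Nat.pow_lt_pow_right (by omega) (by omega)
      omega
    obtain ⟨M', rfl⟩ : ∃ M', M = L + M' := ⟨M - L, by omega⟩
    have hM' : 1 ≤ M' := by omega
    set F := (Ico (b ^ (L + M' - 1)) (b ^ (L + M'))).filter
      (fun w => (d : ℤ) ∣ (outp b (L + M') g w : ℤ) - c) with hF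
    have hbL : 0 < b ^ L := by positivity
    have hinj : Set.InjOn (fun w => w / b ^ L) (F : Set ℕ) := by
      intro w hw w' hw' h0
      rw [Finset.mem_coe, hF, mem_filter] at hw hw'
      simp only at h0
      have a1 : w = (w / b ^ L) * b ^ L + w % b ^ L := by
        rw [Nat.mul_comm]; exact (Nat.div_add_mod w (b ^ L)).symm
      have a2 : w' = (w / b ^ L) * b ^ L + w' % b ^ L := by
        rw [h0, Nat.mul_comm]; exact (Nat.div_add_mod w' (b ^ L)).symm
      set w₁ := w / b ^ L with hw₁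
      set x := w % b ^ L with hx
      set x' := w' % b ^ L with hx'
      have hxl : x < b ^ L := Nat.mod_lt _ hbL
      have hxl' : x' < b ^ L := Nat.mod_lt _ hbL
      have e1 := hw.2
      have e2 := hw'.2
      rw [a1, outp_split hb0 L M' g w₁ x hxl] at e1
      rw [a2, outp_split hb0 L M' g w₁ x' hxl'] at e2
      have e3 := dvd_sub e1 e2
      have e4 : ((((w₁ * b ^ (2 * L + M' + 2 * g + 1) + rv b M' w₁) +
          b ^ M' * (x * b ^ (L + 2 * g + 1) + rv b L x) : ℕ) : ℤ) - c) -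
          ((((w₁ * b ^ (2 * L + M' + 2 * g + 1) + rv b M' w₁) +
          b ^ M' * (x' * b ^ (L + 2 * g + 1) + rv b L x') : ℕ) : ℤ) - c) =
          (b : ℤ) ^ M' * (((x * b ^ (L + 2 * g + 1) + rv b L x : ℕ) : ℤ) -
            ((x' * b ^ (L + 2 * g + 1) + rv b L x' : ℕ) : ℤ)) := by
        push_cast
        ring
      rw [e4] at e3
      have hco : IsCoprime (d : ℤ) ((b : ℤ) ^ M') := by
        apply IsCoprime.pow_right
        exact Nat.isCoprime_iff_coprime.2 hdb
      have e5 := hco.dvd_of_dvd_mul_left e3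
      have hz : ∀ z, z < b ^ L → z * b ^ (L + 2 * g + 1) + rv b L z < b ^ (2 * L + 2 * g + 1) := by
        intro z hz
        have h1 : rv b L z < b ^ (L + 2 * g + 1) :=
          (rv_lt hb0 L z).trans_le (Nat.pow_le_pow_right hb0 (by omega))
        calc z * b ^ (L + 2 * g + 1) + rv b L z < z * b ^ (L + 2 * g + 1) + b ^ (L + 2 * g + 1) :=
              Nat.add_lt_add_left h1 _
          _ = (z + 1) * b ^ (L + 2 * g + 1) := by ring
          _ ≤ b ^ L * b ^ (L + 2 * g + 1) := Nat.mul_le_mul_right _ hz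
          _ = b ^ (2 * L + 2 * g + 1) := by rw [← pow_add]; congr 1; ring
      have e6 : ((x * b ^ (L + 2 * g + 1) + rv b L x : ℕ) : ℤ) =
          ((x' * b ^ (L + 2 * g + 1) + rv b L x' : ℕ) : ℤ) := by
        have f1 := (hz x hxl).trans_le hL1
        have f2 := (hz x' hxl').trans_le hL1
        have f3 : |((x * b ^ (L + 2 * g + 1) + rv b L x : ℕ) : ℤ) -
            ((x' * b ^ (L + 2 * g + 1) + rv b L x' : ℕ) : ℤ)| < (d : ℤ) := by
          have g1 : ((x * b ^ (L + 2 * g + 1) + rv b L x : ℕ) : ℤ) < d := by exact_mod_cast f1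
          have g2 : ((x' * b ^ (L + 2 * g + 1) + rv b L x' : ℕ) : ℤ) < d := by exact_mod_cast f2
          have g3 : (0 : ℤ) ≤ ((x * b ^ (L + 2 * g + 1) + rv b L x : ℕ) : ℤ) := Nat.cast_nonneg _
          have g4 : (0 : ℤ) ≤ ((x' * b ^ (L + 2 * g + 1) + rv b L x' : ℕ) : ℤ) := Nat.cast_nonneg _
          rw [abs_lt]
          constructor <;> linarith
        have f4 := Int.eq_zero_of_abs_lt_dvd e5 f3
        linarith
      have e7 : x * b ^ (L + 2 * g + 1) + rv b L x = x' * b ^ (L + 2 * g + 1) + rv b L x' := by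
        exact_mod_cast e6
      have hdv : ∀ z, (z * b ^ (L + 2 * g + 1) + rv b L z) / b ^ (L + 2 * g + 1) = z := by
        intro z
        have h1 : rv b L z < b ^ (L + 2 * g + 1) :=
          (rv_lt hb0 L z).trans_le (Nat.pow_le_pow_right hb0 (by omega))
        rw [Nat.add_comm, Nat.add_mul_div_right _ _ (by positivity), Nat.div_eq_of_lt h1, Nat.zero_add]
      have e8 : x = x' := by rw [← hdv x, ← hdv x', e7]
      rw [a1, a2, e8]
    have hmaps : ∀ w ∈ F, w / b ^ L ∈ Ico (b ^ (M' - 1)) (b ^ M') := by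
      intro w hw
      rw [hF, mem_filter, mem_Ico] at hw
      obtain ⟨⟨h1, h2⟩, -⟩ := hw
      rw [mem_Ico]
      constructor
      · rw [Nat.le_div_iff_mul_le hbL, ← pow_add]
        have : M' - 1 + L = L + M' - 1 := by omega
        rw [this]
        exact h1
      · rw [Nat.div_lt_iff_lt_mul hbL, ← pow_add, Nat.add_comm M' L]
        exact h2
    have hcard : F.card ≤ (Ico (b ^ (M' - 1)) (b ^ M')).card := card_le_card_of_injOn _ hmaps hinj
    have hc1 : (Ico (b ^ (L + M' - 1)) (b ^ (L + M'))).card = b ^ L * (Ico (b ^ (M' - 1)) (b ^ M')).card := by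
      rw [Nat.card_Ico, Nat.card_Ico, Nat.mul_sub, ← pow_add, ← pow_add]
      congr 2
      omega
    rw [hc1]
    push_cast
    rw [le_div_iff₀ hsd]
    have hsq : Real.sqrt d ≤ (b : ℝ) ^ (g + 2) * (b : ℝ) ^ L := by
      rw [Real.sqrt_le_left (by positivity)]
      have h2 : (d : ℝ) ≤ (b : ℝ) ^ (2 * (L + 1) + 2 * g + 1) := by exact_mod_cast hL2.le
      calc (d : ℝ) ≤ (b : ℝ) ^ (2 * (L + 1) + 2 * g + 1) := h2
        _ ≤ (b : ℝ) ^ (2 * L + 2 * g + 4) := pow_le_pow_right₀ hbr (by omega)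
        _ = ((b : ℝ) ^ (g + 2) * (b : ℝ) ^ L) ^ 2 := by
            rw [← pow_add, ← pow_mul]
            congr 1
            ring
    have hcr : (F.card : ℝ) ≤ ((Ico (b ^ (M' - 1)) (b ^ M')).card : ℝ) := by exact_mod_cast hcard
    calc (F.card : ℝ) * Real.sqrt d ≤ ((Ico (b ^ (M' - 1)) (b ^ M')).card : ℝ) *
          ((b : ℝ) ^ (g + 2) * (b : ℝ) ^ L) := by gcongr
      _ = _ := by ring

end Pool.Agent.Helper74.FB
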