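import Mathlib
import Pool.Agent.Helper74.FB.Ab
import Pool.Agent.Helper74.FB.MomD
import Pool.Agent.Helper74.FB.Pal
import Pool.Agent.Helper74.FB.GenL
import Pool.Agent.Helper74.FB.Crt

/-! The fibred theorem for the outer parts of palindromes. -/

set_option autoImplicit false

namespace Pool.Agent.Helper74.FB

open Finset Filter Topology
open Pool.Agent.Erdos456
open Pool.Agent.H410R2 (WW)
open Pool.Agent.Helper74.AE (WW_pos)
open Pool.Agent.TH899.UG.Uni
open Pool.Agent.Z296.AP (P2)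

theorem GG_pow_mul {b : ℕ} (hb : 0 < b) (M : ℕ) (n : ℕ) : GG (b ^ M * n) ≤ GG b * GG n := by
  refine (GG_mul_le _ _).trans (mul_le_mul_of_nonneg_right ?_ (GG_nonneg _))
  rcases Nat.eq_zero_or_pos M with h | h
  · rw [h, pow_zero]
    have : GG 1 = 1 := by simp [GG]
    rw [this]
    exact one_le_GG hb
  · rw [GG_eq_prod hb, GG_eq_prod (by positivity), Nat.primeFactors_pow _ h.ne']

theorem fin_bdd2 {I : Type*} [Finite I] (F : I → I → ℝ) : ∃ C : ℝ, 0 ≤ C ∧ ∀ x y, F x y ≤ C := by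
  obtain ⟨C, hC⟩ := (Set.finite_range (fun x : I × I => F x.1 x.2)).bddAbove
  refine ⟨max C 0, le_max_right _ _, fun x y => ?_⟩
  exact (hC (Set.mem_range_self (x, y))).trans (le_max_left _ _)

open Classical in
/-- the leading digits `w` for which the numbers `N + n`, `n` with the leading digits `w` and the middle part
`z g i`, form a cluster -/
noncomputable def ClW {T K : ℕ} (b M g : ℕ) (z : Fin T → Fin K → ℕ) (r : ℕ) (S : Finset (Fin T))
    (σ τ : Fin T → Fin K) (N : ℕ) : Finset ℕ :=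
  (Ico (b ^ (M - 1)) (b ^ M)).filter (fun w : ℕ =>
    (∀ j ∈ S, PrV ((N : ℤ) + ((outp b M g w + b ^ M * z j (σ j) : ℕ) : ℤ))) ∧
    (∀ j, ApV 2 ((N : ℤ) + ((outp b M g w + b ^ M * z j (τ j) : ℕ) : ℤ))) ∧
    ∀ j i, ApV r ((N : ℤ) + ((outp b M g w + b ^ M * z j i : ℕ) : ℤ)))

open Classical in
theorem palG {T K : ℕ} [NeZero K] {Qσ : (Finset (Fin T)) → (Fin T → Fin K) → Prop} {δ c : ℝ}
    (hT : 1 ≤ T) (hδ : 0 < δ) (hc : 0 < c) (D : ℕ) (H : LowP T K Qσ δ c D) (b : ℕ) (hb : 2 ≤ b) (g : ℕ)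
    (z : Fin T → Fin K → ℕ) (hz : Function.Injective (fun x : Fin T × Fin K => z x.1 x.2))
    (hzb : ∀ j i, z j i < b ^ (2 * g + 1))
    (hadm : ∀ p ∈ (Icc 1 D).filter Nat.Prime, ¬ p ∣ b → ∃ a : ℤ, ∀ j i, ¬ (p : ℤ) ∣ a + z j i) :
    ∃ κ : ℝ, 0 < κ ∧ ∃ C X₀ : ℕ, ∀ X : ℕ, X₀ ≤ X → ∀ M : ℕ, 1 ≤ M →
      Real.log X ^ (T * K + 1) ≤ (b : ℝ) ^ M → C * b ^ (2 * M) ≤ X →
      κ * X ≤ (((Icc 1 X).filter (fun N : ℕ => X ≤ 32 * N ∧
        ∃ (S : Finset (Fin T)) (σ τ : Fin T → Fin K), Qσ S σ ∧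
        κ * ((b : ℝ) ^ M / Real.log X ^ (T * K + 1)) ≤
          ((ClW b M g z ⌊2 / δ⌋₊ S σ τ N).card : ℝ))).card : ℝ) := by
  have hb0 : 0 < b := by omega
  have hbr : (1 : ℝ) ≤ b := by exact_mod_cast hb0
  set W : ℕ := WW D with hWdef
  have hW : 0 < W := WW_pos D
  have hWr : (0 : ℝ) < W := by exact_mod_cast hW
  have hK : 0 < K := Nat.pos_of_ne_zero (NeZero.ne K)
  set g₀ : Fin T := ⟨0, hT⟩ with hg₀
  set i₀ : Fin K := ⟨0, hK⟩ with hi₀
  set z' : Option (Fin (T * K)) → ℕ := fun q => match q with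
    | none => z g₀ i₀ + W * b ^ (2 * g + 1)
    | some i => z (cl i) (sx i) with hz'
  have hbg : 0 < b ^ (2 * g + 1) := by positivity
  have hz'i : Function.Injective z' := by
    intro q q' hqq
    rcases q with _ | i <;> rcases q' with _ | j
    · rfl
    · exfalso
      have h1 : z g₀ i₀ + W * b ^ (2 * g + 1) = z (cl j) (sx j) := hqq
      have h2 := hzb (cl j) (sx j)
      have h3 : b ^ (2 * g + 1) ≤ W * b ^ (2 * g + 1) := Nat.le_mul_of_pos_left _ hW
      omega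
    · exfalso
      have h1 : z (cl i) (sx i) = z g₀ i₀ + W * b ^ (2 * g + 1) := hqq
      have h2 := hzb (cl i) (sx i)
      have h3 : b ^ (2 * g + 1) ≤ W * b ^ (2 * g + 1) := Nat.le_mul_of_pos_left _ hW
      omega
    · have h1 : z (cl i) (sx i) = z (cl j) (sx j) := hqq
      have h2 := hz (a₁ := (cl i, sx i)) (a₂ := (cl j, sx j)) h1
      have h3 := Prod.ext_iff.1 h2
      simp only at h3
      rw [← ix_cl i, ← ix_cl j, h3.1, h3.2]
  have hz'b : ∀ q, z' q ≤ (1 + W) * b ^ (2 * g + 1) := by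
    intro q
    rcases q with _ | i
    · have h1 := hzb g₀ i₀
      show z g₀ i₀ + W * b ^ (2 * g + 1) ≤ _
      nlinarith
    · have h1 := hzb (cl i) (sx i)
      show z (cl i) (sx i) ≤ _
      nlinarith
  obtain ⟨E, hE⟩ : ∃ E : ℕ, E = EE (Option (Fin (T * K))) := ⟨_, rfl⟩
  have hE1 : 1 ≤ E := by
    rw [hE]
    exact EE_pos _
  set B₁ : ℕ := (2 + W) * b ^ (2 * g + 1) with hB₁
  set e₀ : ℕ := b + 2 * B₁ with he₀
  obtain ⟨C₂, hC₂, hmom⟩ := momD E hE1 e₀ (by omega) b hb0 ((b : ℝ) ^ (g + 2)) (by positivity)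
  obtain ⟨C₃, hC₃0, hC₃⟩ : ∃ C₃ : ℝ, 0 ≤ C₃ ∧ ∀ q q', (GG b * GG ((z' q : ℤ) - z' q').natAbs) ^ E ≤ C₃ := by
    obtain ⟨C₃, h1, h2⟩ := fin_bdd2 (fun q q' : Option (Fin (T * K)) =>
      (GG b * GG ((z' q : ℤ) - z' q').natAbs) ^ E)
    exact ⟨C₃, h1, h2⟩
  set C₁ : ℝ := 1 + C₂ + C₃ with hC₁
  have hC₁1 : 1 ≤ C₁ := by linarith
  have hmain0 := absF hδ hc D H (1 / (2 * W)) C₁ (by positivity) hC₁1
  rw [← hE] at hmain0
  obtain ⟨κ, hκ, X₀, hmain⟩ := hmain0
  refine ⟨κ, hκ, 64 * B₁, max X₀ 2, ?_⟩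
  intro X hX M hM1 hLM hCX
  have hX2 : 2 ≤ X := (le_max_right _ _).trans hX
  have hpW : ∀ p ∈ (Icc 1 D).filter Nat.Prime, (p : ℤ) ∣ (W : ℤ) := by
    intro p hp
    rw [hWdef, WW]
    exact_mod_cast dvd_prod_of_mem _ hp
  set 𝓦 : Finset ℕ := Ico (b ^ (M - 1)) (b ^ M) with h𝓦
  have h𝓦c : (𝓦.card : ℝ) ≤ (b : ℝ) ^ M ∧ (b : ℝ) ^ M ≤ 2 * 𝓦.card := by
    have h1 : 𝓦.card = b ^ M - b ^ (M - 1) := by rw [h𝓦, Nat.card_Ico]
    have h2 : 2 * b ^ (M - 1) ≤ b ^ M := by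
      have : b ^ M = b * b ^ (M - 1) := by rw [← pow_succ']; congr 1; omega
      rw [this]
      exact Nat.mul_le_mul_right _ hb
    constructor
    · have : 𝓦.card ≤ b ^ M := by omega
      exact_mod_cast this
    · have : b ^ M ≤ 2 * 𝓦.card := by omega
      exact_mod_cast this
  -- a residue class
  obtain ⟨u, -, hu⟩ := exists_le_card_fiber_of_nsmul_le_card_of_maps_to (s := 𝓦) (t := range W)
    (f := fun w => outp b M g w % W) (b := (𝓦.card : ℝ) / W) (fun m _ => mem_range.2 (Nat.mod_lt _ hW))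
    ⟨0, mem_range.2 hW⟩ (by
      rw [card_range, nsmul_eq_mul]
      apply le_of_eq
      field_simp)
  set R : Finset ℕ := 𝓦.filter (fun w => outp b M g w % W = u) with hR
  have hR𝓦 : R ⊆ 𝓦 := filter_subset _ _
  set e : ℕ → Option (Fin (T * K)) → ℤ := fun w q => ((outp b M g w : ℕ) : ℤ) + (b : ℤ) ^ M * z' q with he
  have hbM : (0 : ℤ) < (b : ℤ) ^ M := by positivity
  have hout : ∀ w ∈ 𝓦, outp b M g w < b ^ (2 * M) * b ^ (2 * g + 1) := by
    intro w hw
    rw [h𝓦, mem_Ico] at hw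
    unfold outp
    have h1 : rv b M w < b ^ (M + 2 * g + 1) :=
      (rv_lt hb0 M w).trans_le (Nat.pow_le_pow_right hb0 (by omega))
    calc w * b ^ (M + 2 * g + 1) + rv b M w < w * b ^ (M + 2 * g + 1) + b ^ (M + 2 * g + 1) :=
          Nat.add_lt_add_left h1 _
      _ = (w + 1) * b ^ (M + 2 * g + 1) := by ring
      _ ≤ b ^ M * b ^ (M + 2 * g + 1) := Nat.mul_le_mul_right _ hw.2
      _ = b ^ (2 * M) * b ^ (2 * g + 1) := by rw [← pow_add, ← pow_add]; congr 1; ring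
  have heb : ∀ w ∈ 𝓦, ∀ q, 0 ≤ e w q ∧ e w q ≤ ((b ^ (2 * M) * B₁ : ℕ) : ℤ) := by
    intro w hw q
    have h1 := hout w hw
    have h2 := hz'b q
    have h3 : b ^ M * z' q ≤ b ^ (2 * M) * ((1 + W) * b ^ (2 * g + 1)) :=
      Nat.mul_le_mul (Nat.pow_le_pow_right hb0 (by omega)) h2
    have h4 : outp b M g w + b ^ M * z' q ≤ b ^ (2 * M) * B₁ := by
      calc outp b M g w + b ^ M * z' q ≤ b ^ (2 * M) * b ^ (2 * g + 1) +
            b ^ (2 * M) * ((1 + W) * b ^ (2 * g + 1)) := Nat.add_le_add h1.le h3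
        _ = b ^ (2 * M) * B₁ := by rw [hB₁]; ring
    have h5 : e w q = ((outp b M g w + b ^ M * z' q : ℕ) : ℤ) := by
      simp only [he]
      push_cast
      ring
    rw [h5]
    exact ⟨Nat.cast_nonneg _, by exact_mod_cast h4⟩
  have hinj : ∀ m ∈ R, Function.Injective (e m) := by
    intro m _ q q' hqq
    simp only [he] at hqq
    have h1 : (b : ℤ) ^ M * z' q = (b : ℤ) ^ M * z' q' := by linarith
    have h2 := mul_left_cancel₀ hbM.ne' h1
    apply hz'i
    exact_mod_cast h2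
  set Bad : ℕ → ℕ → Prop := fun m m' => ∃ q q', e m q = e m' q' with hBad
  have hinj2 : ∀ m ∈ R, ∀ m' ∈ R, ¬ Bad m m' → Function.Injective (Sum.elim (e m) (e m')) := by
    intro m hm m' hm' hb
    have key : ∀ q q', e m q ≠ e m' q' := fun q q' h0 => hb ⟨q, q', h0⟩
    intro x y hxy
    rcases x with x | x <;> rcases y with y | y
    · exact congrArg _ (hinj m hm hxy)
    · exact absurd hxy (key x y)
    · exact absurd hxy.symm (key y x)
    · exact congrArg _ (hinj m' hm' hxy)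
  have hbadF : ∀ m ∈ R, ∃ F : Finset ℕ, F.card ≤ (T * K + 1) ^ 2 ∧ ∀ m' ∈ R, Bad m m' → m' ∈ F := by
    intro m hm
    refine ⟨(univ : Finset (Option (Fin (T * K)) × Option (Fin (T * K)))).image
      (fun x => (e m x.1 - (b : ℤ) ^ M * z' x.2).toNat / b ^ (M + 2 * g + 1)), ?_, ?_⟩
    · refine card_image_le.trans ?_
      rw [card_univ, Fintype.card_prod, Fintype.card_option, Fintype.card_fin, sq]
    · rintro m' hm' ⟨q, q', h0⟩
      refine mem_image.2 ⟨(q, q'), mem_univ _, ?_⟩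
      have h1 : e m q - (b : ℤ) ^ M * z' q' = ((outp b M g m' : ℕ) : ℤ) := by
        rw [h0]
        simp only [he]
        ring
      simp only
      rw [h1, Int.toNat_natCast, outp_div hb0]
  have h4M : (4 : ℕ) ^ M ≤ b ^ (2 * M) := by
    rw [pow_mul]
    apply Nat.pow_le_pow_left
    nlinarith
  -- cross moments
  have hcr : ∀ m ∈ R, ∀ q q', ∑ m' ∈ R, GG (e m' q - e m q').natAbs ^ E ≤ C₁ * (b : ℝ) ^ M := by
    intro m hm q q'
    have h1 : ∑ m' ∈ R, GG (e m' q - e m q').natAbs ^ E ≤ ∑ m' ∈ 𝓦, GG (e m' q - e m q').natAbs ^ E :=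
      sum_le_sum_of_subset_of_nonneg hR𝓦 fun _ _ _ => pow_nonneg (GG_nonneg _) _
    refine h1.trans ((hmom 𝓦 (fun w => e w q - e m q') M hM1 ?_ ?_).trans ?_)
    · intro w hw
      obtain ⟨a1, a2⟩ := heb w hw q
      obtain ⟨a3, a4⟩ := heb m (hR𝓦 hm) q'
      have a5 : (e w q - e m q').natAbs ≤ b ^ (2 * M) * (2 * B₁) := by
        have : |e w q - e m q'| ≤ ((b ^ (2 * M) * (2 * B₁) : ℕ) : ℤ) := by
          push_cast at a2 a4 ⊢
          rw [abs_le]
          constructor <;> nlinarith [pow_pos (show (0 : ℤ) < b by exact_mod_cast hb0) (2 * M)]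
        rw [Int.abs_eq_natAbs] at this
        exact_mod_cast this
      have a6 : b ^ (2 * M) * (2 * B₁) ≤ 2 ^ (4 * (e₀ * M)) := by
        have c1 : b ≤ 2 ^ e₀ := (Nat.lt_two_pow_self.le).trans (Nat.pow_le_pow_right (by norm_num) (by omega))
        have c2 : 2 * B₁ ≤ 2 ^ e₀ := (Nat.lt_two_pow_self.le).trans (Nat.pow_le_pow_right (by norm_num) (by omega))
        calc b ^ (2 * M) * (2 * B₁) ≤ (2 ^ e₀) ^ (2 * M) * (2 ^ e₀) :=
              Nat.mul_le_mul (Nat.pow_le_pow_left c1 _) c2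
          _ ≤ (2 ^ e₀) ^ (2 * M) * (2 ^ e₀) ^ (2 * M) :=
              Nat.mul_le_mul_left _ (Nat.le_self_pow (by omega) _)
          _ = 2 ^ (4 * (e₀ * M)) := by rw [← pow_add, ← pow_mul]; congr 1; ring
      have a7 : ((2 : ℝ)) ^ (4 * (e₀ * M)) ≤ Real.exp (4 * (e₀ * M)) := by
        have c3 : (2 : ℝ) ≤ Real.exp 1 := by
          have := Real.add_one_le_exp (1 : ℝ)
          linarith
        calc ((2 : ℝ)) ^ (4 * (e₀ * M)) ≤ Real.exp 1 ^ (4 * (e₀ * M)) :=
              pow_le_pow_left₀ (by norm_num) c3 _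
          _ = Real.exp (4 * (e₀ * M)) := by
              rw [← Real.exp_nat_mul]
              push_cast
              ring_nf
      refine le_trans ?_ a7
      exact_mod_cast a5.trans a6
    · intro d hd0 hd4 hdb
      have h2 := disp hb M g (e m q' - (b : ℤ) ^ M * z' q) d hd0 (hd4.trans h4M) hdb
      refine le_trans ?_ h2
      rw [Nat.cast_le]
      apply card_le_card
      intro w hw
      obtain ⟨hw1, hw2⟩ := mem_filter.1 hw
      refine mem_filter.2 ⟨hw1, ?_⟩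
      have e3 : ((outp b M g w : ℕ) : ℤ) - (e m q' - (b : ℤ) ^ M * z' q) = e w q - e m q' := by
        simp only [he]
        ring
      rw [e3]
      exact Int.natCast_dvd.2 hw2
    · calc C₂ * (𝓦.card : ℝ) ≤ C₂ * (b : ℝ) ^ M := mul_le_mul_of_nonneg_left h𝓦c.1 hC₂.le
        _ ≤ C₁ * (b : ℝ) ^ M := by
            apply mul_le_mul_of_nonneg_right _ (by positivity)
            linarith
  have hRc0 : (R.card : ℝ) ≤ (b : ℝ) ^ M := (by exact_mod_cast card_le_card hR𝓦 : (R.card : ℝ) ≤ 𝓦.card).trans h𝓦c.1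
  have hin : ∀ q q', q ≠ q' → ∑ m ∈ R, GG (e m q - e m q').natAbs ^ E ≤ C₁ * (b : ℝ) ^ M := by
    intro q q' _
    have h1 : ∀ m ∈ R, GG (e m q - e m q').natAbs ^ E ≤ C₃ := by
      intro m _
      have h2 : (e m q - e m q').natAbs = b ^ M * ((z' q : ℤ) - z' q').natAbs := by
        have : e m q - e m q' = ((b ^ M : ℕ) : ℤ) * ((z' q : ℤ) - z' q') := by
          simp only [he]
          push_cast
          ring
        rw [this, Int.natAbs_mul, Int.natAbs_natCast]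
      rw [h2]
      have h3 := pow_le_pow_left₀ (GG_nonneg _) (GG_pow_mul hb0 M ((z' q : ℤ) - z' q').natAbs) E
      exact h3.trans (hC₃ q q')
    calc ∑ m ∈ R, GG (e m q - e m q').natAbs ^ E ≤ ∑ _m ∈ R, C₃ := sum_le_sum h1
      _ = R.card * C₃ := by rw [sum_const, nsmul_eq_mul]
      _ ≤ (b : ℝ) ^ M * C₃ := mul_le_mul_of_nonneg_right hRc0 hC₃0
      _ ≤ C₁ * (b : ℝ) ^ M := by
          rw [mul_comm]
          apply mul_le_mul_of_nonneg_right _ (by positivity)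
          linarith
  -- the class of the translates
  have hex : ∀ p : ℕ, ∃ k : ℤ, p ∈ (Icc 1 D).filter Nat.Prime → ∀ j i,
      ¬ (p : ℤ) ∣ k + (u + (b : ℤ) ^ M * z j i) := by
    intro p
    by_cases hp : p ∈ (Icc 1 D).filter Nat.Prime
    · have hpp := (mem_filter.1 hp).2
      by_cases hpb : p ∣ b
      · refine ⟨1 - u, fun _ j i hd => ?_⟩
        have h1 : (p : ℤ) ∣ (b : ℤ) ^ M * z j i := by
          apply Dvd.dvd.mul_right
          exact (Int.natCast_dvd_natCast.2 hpb).trans (dvd_pow_self _ (by omega))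
        have h2 := dvd_sub hd h1
        have e3 : 1 - (u : ℤ) + (u + (b : ℤ) ^ M * z j i) - (b : ℤ) ^ M * z j i = 1 := by ring
        rw [e3] at h2
        have h4 : p ∣ 1 := by exact_mod_cast h2
        exact hpp.one_lt.ne' (Nat.dvd_one.1 h4)
      · obtain ⟨a, ha⟩ := hadm p hp hpb
        refine ⟨(b : ℤ) ^ M * a - u, fun _ j i hd => ?_⟩
        have e3 : (b : ℤ) ^ M * a - (u : ℤ) + (u + (b : ℤ) ^ M * z j i) = (b : ℤ) ^ M * (a + z j i) := by ring
        rw [e3] at hd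
        rcases (Nat.prime_iff_prime_int.1 hpp).dvd_mul.1 hd with h1 | h1
        · have h2 := (Nat.prime_iff_prime_int.1 hpp).dvd_of_dvd_pow h1
          exact hpb (by exact_mod_cast h2)
        · exact ha j i h1
    · exact ⟨0, fun h => absurd h hp⟩
  choose k hk using hex
  obtain ⟨v, hv⟩ := crt D k
  have hcop : ∀ m ∈ R, ∀ p ∈ (Icc 1 D).filter Nat.Prime, ∀ q, ¬ (p : ℤ) ∣ v + e m q := by
    intro m hm p hp q hd
    have hmu : outp b M g m % W = u := (mem_filter.1 hm).2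
    have h1 : (p : ℤ) ∣ ((outp b M g m : ℕ) : ℤ) - u := by
      refine (hpW p hp).trans ?_
      rw [← hmu]
      push_cast
      exact Int.dvd_self_sub_emod
    have key : ∀ j i, (p : ℤ) ∣ (z' q : ℤ) - z j i → False := by
      intro j i hji
      apply hk p hp j i
      have h2 := dvd_sub (dvd_sub (dvd_sub hd (hv p hp)) h1) (hji.mul_left ((b : ℤ) ^ M))
      have e3 : v + e m q - (v - k p) - (((outp b M g m : ℕ) : ℤ) - u) - (b : ℤ) ^ M * ((z' q : ℤ) - z j i) =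
          k p + (u + (b : ℤ) ^ M * z j i) := by
        simp only [he]
        ring
      rwa [e3] at h2
    rcases q with _ | i
    · apply key g₀ i₀
      have e4 : ((z' none : ℕ) : ℤ) - z g₀ i₀ = (W : ℤ) * (b : ℤ) ^ (2 * g + 1) := by
        simp only [hz']
        push_cast
        ring
      rw [e4]
      exact (hpW p hp).mul_right _
    · apply key (cl i) (sx i)
      have e4 : ((z' (some i) : ℕ) : ℤ) - z (cl i) (sx i) = 0 := by
        simp only [hz']
        ring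
      rw [e4]
      exact dvd_zero _
  have hfinal := hmain X ((le_max_left _ _).trans hX) R e Bad ((b : ℝ) ^ M) (by positivity) hinj hinj2 hbadF
    (hRc0.trans (le_mul_of_one_le_left (by positivity) hC₁1)) (by
      refine le_trans ?_ hu
      rw [div_mul_eq_mul_div, div_le_div_iff₀ (by positivity) hWr]
      nlinarith [h𝓦c.2]) hin hcr hLM (by
      intro m hm q
      obtain ⟨a1, a2⟩ := heb m (hR𝓦 hm) q
      rw [abs_of_nonneg a1]
      have a3 : ((64 * B₁ * b ^ (2 * M) : ℕ) : ℤ) ≤ X := by exact_mod_cast hCX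
      push_cast at a2 a3
      linarith) v hcop
  refine hfinal.trans ?_
  rw [Nat.cast_le]
  apply card_le_card
  intro N hN
  obtain ⟨hN1, hN2, -, S, σ, τ, hS, hcl⟩ := mem_filter.1 hN
  refine mem_filter.2 ⟨hN1, hN2, S, σ, τ, hS, hcl.trans ?_⟩
  rw [Nat.cast_le]
  apply card_le_card
  intro w hw
  unfold ClA at hw
  obtain ⟨hw0, hw1, hw2, hw3⟩ := mem_filter.1 hw
  have hix : ∀ j i, e w (some (ix j i)) = ((outp b M g w + b ^ M * z j i : ℕ) : ℤ) := by
    intro j i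
    have e1 : cl (ix j i) = j := cl_ix j i
    have e2 : sx (ix j i) = i := by
      unfold sx ix
      rw [Equiv.symm_apply_apply]
    simp only [he, hz', e1, e2]
    push_cast
    ring
  unfold ClW
  refine mem_filter.2 ⟨hR𝓦 hw0, fun j hj => ?_, fun j => ?_, fun j i => ?_⟩
  · rw [← hix]
    exact hw1 j hj
  · rw [← hix]
    exact hw2 j
  · rw [← hix]
    exact hw3 j i

end Pool.Agent.Helper74.FB
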