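import Mathlib
import Pool.Agent.Helper74.FB.MomL
import Pool.Agent.Helper74.FB.Poly
import Pool.Agent.Helper74.FB.PalG

/-! Moments of `n / φ(n)` for polynomials along progressions with large differences. -/

set_option autoImplicit false

namespace Pool.Agent.Helper74.FB

open Finset Filter Topology Polynomial
open Pool.Agent.Erdos456

/-- the linear polynomial `q x + s` -/
noncomputable def lin (q s : ℕ) : ℤ[X] := C (q : ℤ) * X + C (s : ℤ)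

theorem lin_deg (q s : ℕ) (hq : 1 ≤ q) : (lin q s).natDegree = 1 :=
  natDegree_linear (by exact_mod_cast (by omega : q ≠ 0))

theorem lin_lc (q s : ℕ) (hq : 1 ≤ q) : (lin q s).leadingCoeff = q :=
  leadingCoeff_linear (by exact_mod_cast (by omega : q ≠ 0))

theorem lin_eval (q s : ℕ) (x : ℤ) : (lin q s).eval x = q * x + s := by
  unfold lin
  simp

theorem comp_deg (P : ℤ[X]) (q s : ℕ) (hq : 1 ≤ q) : (P.comp (lin q s)).natDegree = P.natDegree := by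
  rw [natDegree_comp, lin_deg q s hq, mul_one]

theorem comp_lc (P : ℤ[X]) (q s : ℕ) (hq : 1 ≤ q) :
    (P.comp (lin q s)).leadingCoeff = P.leadingCoeff * (q : ℤ) ^ P.natDegree := by
  rw [leadingCoeff_comp (by rw [lin_deg q s hq]; exact one_ne_zero), lin_lc q s hq]

theorem comp_ev (P : ℤ[X]) (q s : ℕ) (x : ℤ) : (P.comp (lin q s)).eval x = P.eval ((q : ℤ) * x + s) := by
  rw [eval_comp, lin_eval]

theorem not_dvd_lc (P : ℤ[X]) (q s : ℕ) (hq : 1 ≤ q) (p : ℕ) (hp : p.Prime)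
    (hpg : ¬ p ∣ P.leadingCoeff.natAbs * q) : ¬ (p : ℤ) ∣ (P.comp (lin q s)).leadingCoeff := by
  rw [comp_lc P q s hq]
  intro h
  rcases (Nat.prime_iff_prime_int.1 hp).dvd_mul.1 h with h1 | h1
  · exact hpg ((Int.natCast_dvd.1 h1).mul_right _)
  · have h2 := (Nat.prime_iff_prime_int.1 hp).dvd_of_dvd_pow h1
    exact hpg ((Int.natCast_dvd_natCast.1 h2).mul_left _)

theorem momS (𝓗 : Finset ℕ) (A : ℕ → ℤ[X]) (hd : ∀ h ∈ 𝓗, 1 ≤ (A h).natDegree)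
    (hA : ∀ h ∈ 𝓗, ∀ h' ∈ 𝓗, A h = A h' → h = h') (E : ℕ) (hE : 1 ≤ E) :
    ∃ M₀ : ℕ, ∀ G₀ : ℝ, ∃ C₁ : ℝ, 0 ≤ C₁ ∧ ∀ Y Z : ℕ, 1 ≤ Z → Z ^ M₀ ≤ Y → ∀ q s : ℕ, 1 ≤ q → GG q ≤ G₀ →
      (∀ n ∈ Icc 1 Y, ∀ h ∈ 𝓗, 2 * (((A h).eval ((q : ℤ) * n + s)).natAbs : ℝ) ≤ Real.exp (4 * ((1 : ℕ) * Z))) →
      (∀ h ∈ 𝓗, ∀ c : ℤ, 2 * ((c.natAbs : ℕ) : ℝ) ≤ Real.exp (4 * ((1 : ℕ) * Z)) →
        ∑ n ∈ Icc 1 Y, GG ((A h).eval ((q : ℤ) * n + s) - c).natAbs ^ E ≤ C₁ * Y) ∧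
      (∀ h ∈ 𝓗, ∀ h' ∈ 𝓗, h ≠ h' →
        ∑ n ∈ Icc 1 Y, GG ((A h).eval ((q : ℤ) * n + s) - (A h').eval ((q : ℤ) * n + s)).natAbs ^ E ≤ C₁ * Y) := by
  classical
  obtain ⟨r, hr⟩ : ∃ r : ℕ, r = 1 + ∑ h ∈ 𝓗, (A h).natDegree := ⟨_, rfl⟩
  have hdr : ∀ h ∈ 𝓗, (A h).natDegree ≤ r := by
    intro h hh
    have := single_le_sum (f := fun h => (A h).natDegree) (fun _ _ => Nat.zero_le _) hh
    omega
  obtain ⟨K₅, hK₅, M₀, hmom⟩ := momL E r hE (by omega)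
  obtain ⟨Γ, hΓ⟩ : ∃ Γ : ℝ, Γ = ∑ h ∈ 𝓗, GG (A h).leadingCoeff.natAbs +
      ∑ h ∈ 𝓗, ∑ h' ∈ 𝓗, GG (A h - A h').leadingCoeff.natAbs := ⟨_, rfl⟩
  have hn1 : 0 ≤ ∑ h ∈ 𝓗, GG (A h).leadingCoeff.natAbs := sum_nonneg fun _ _ => GG_nonneg _
  have hn2 : 0 ≤ ∑ h ∈ 𝓗, ∑ h' ∈ 𝓗, GG (A h - A h').leadingCoeff.natAbs :=
    sum_nonneg fun _ _ => sum_nonneg fun _ _ => GG_nonneg _
  have hΓ0 : 0 ≤ Γ := by rw [hΓ]; linarith
  have hΓ1 : ∀ h ∈ 𝓗, GG (A h).leadingCoeff.natAbs ≤ Γ := by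
    intro h hh
    have := single_le_sum (f := fun h => GG (A h).leadingCoeff.natAbs) (fun _ _ => GG_nonneg _) hh
    rw [hΓ]
    linarith
  have hΓ2 : ∀ h ∈ 𝓗, ∀ h' ∈ 𝓗, GG (A h - A h').leadingCoeff.natAbs ≤ Γ := by
    intro h hh h' hh'
    have h1 := single_le_sum (f := fun h' => GG (A h - A h').leadingCoeff.natAbs) (fun _ _ => GG_nonneg _) hh'
    have h2 := single_le_sum (f := fun h => ∑ h' ∈ 𝓗, GG (A h - A h').leadingCoeff.natAbs)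
      (fun _ _ => sum_nonneg fun _ _ => GG_nonneg _) hh
    rw [hΓ]
    linarith
  refine ⟨M₀, fun G₀ => ⟨K₅ * (Γ * max 1 G₀) ^ E, by positivity, fun Y Z hZ1 hZY q s hq hGq hbd => ?_⟩⟩
  have hGq' : GG q ≤ max 1 G₀ := hGq.trans (le_max_right _ _)
  have key : ∀ P : ℤ[X], P ≠ 0 → P.natDegree ≤ r → GG P.leadingCoeff.natAbs ≤ Γ → ∀ Q : ℤ[X],
      Q.natDegree = P.natDegree → Q.leadingCoeff = (P.comp (lin q s)).leadingCoeff →
      (∀ n ∈ Icc 1 Y, (((Q.eval (n : ℤ)).natAbs : ℕ) : ℝ) ≤ Real.exp (4 * ((1 : ℕ) * Z))) →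
      ∑ n ∈ Icc 1 Y, GG (Q.eval (n : ℤ)).natAbs ^ E ≤ K₅ * (Γ * max 1 G₀) ^ E * Y := by
    intro P hP hPr hPΓ Q hQd hQl hQb
    have hg0 : 0 < P.leadingCoeff.natAbs * q :=
      Nat.mul_pos (Int.natAbs_pos.2 (leadingCoeff_ne_zero.2 hP)) hq
    have h1 := hmom Y Z hZ1 hZY (P.leadingCoeff.natAbs * q) hg0 (fun n => Q.eval (n : ℤ)) hQb (by
      intro p hp hpg
      obtain ⟨R, hR1, hR2⟩ := roots_mod Q p hp (by
        rw [hQl]
        exact not_dvd_lc P q s hq p hp hpg)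
      exact ⟨R, by rw [hQd] at hR1; omega, hR2⟩)
    refine h1.trans ?_
    have h2 : GG (P.leadingCoeff.natAbs * q) ^ E ≤ (Γ * max 1 G₀) ^ E :=
      pow_le_pow_left₀ (GG_nonneg _) ((GG_mul_le _ _).trans (mul_le_mul hPΓ hGq' (GG_nonneg _) hΓ0)) E
    gcongr
  constructor
  · intro h hh c hc
    have hdh := hd h hh
    have hP0 : A h ≠ 0 := by
      intro h0
      rw [h0] at hdh
      simp at hdh
    have hQd : ((A h).comp (lin q s) - C c).natDegree = (A h).natDegree := by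
      rw [natDegree_sub_C, comp_deg _ _ _ hq]
    have hQl : ((A h).comp (lin q s) - C c).leadingCoeff = ((A h).comp (lin q s)).leadingCoeff := by
      unfold leadingCoeff
      rw [natDegree_sub_C, coeff_sub, coeff_C_of_ne_zero (by rw [comp_deg _ _ _ hq]; omega), sub_zero]
    have h1 := key (A h) hP0 (hdr h hh) (hΓ1 h hh) _ hQd hQl (by
      intro n hn
      rw [eval_sub, eval_C, comp_ev]
      have h2 := Int.natAbs_sub_le ((A h).eval ((q : ℤ) * n + s)) c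
      have h3 : ((((A h).eval ((q : ℤ) * n + s) - c).natAbs : ℕ) : ℝ) ≤
          (((A h).eval ((q : ℤ) * n + s)).natAbs : ℝ) + (c.natAbs : ℝ) := by exact_mod_cast h2
      have h4 := hbd n hn h hh
      linarith)
    refine le_trans (le_of_eq ?_) h1
    apply sum_congr rfl
    intro n _
    rw [eval_sub, eval_C, comp_ev]
  · intro h hh h' hh' hne
    have hP0 : A h - A h' ≠ 0 := fun h0 => hne (hA h hh h' hh' (sub_eq_zero.1 h0))
    have h1 := key (A h - A h') hP0 ((natDegree_sub_le _ _).trans (max_le (hdr h hh) (hdr h' hh')))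
      (hΓ2 h hh h' hh') ((A h - A h').comp (lin q s)) (comp_deg _ _ _ hq) rfl (by
      intro n hn
      rw [comp_ev, eval_sub]
      have h2 := Int.natAbs_sub_le ((A h).eval ((q : ℤ) * n + s)) ((A h').eval ((q : ℤ) * n + s))
      have h3 : ((((A h).eval ((q : ℤ) * n + s) - (A h').eval ((q : ℤ) * n + s)).natAbs : ℕ) : ℝ) ≤
          (((A h).eval ((q : ℤ) * n + s)).natAbs : ℝ) + (((A h').eval ((q : ℤ) * n + s)).natAbs : ℝ) := by
        exact_mod_cast h2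
      have h4 := hbd n hn h hh
      have h5 := hbd n hn h' hh'
      linarith)
    refine le_trans (le_of_eq ?_) h1
    apply sum_congr rfl
    intro n _
    rw [comp_ev, eval_sub]

end Pool.Agent.Helper74.FB
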