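import Mathlib
import Pool.Agent.Helper74.FB.DenseI
import Pool.Agent.Helper74.FB.MomT

/-! Several constants `N j`, and arguments in dense subsets of progressions `s j + q j * m` with large differences. -/

set_option autoImplicit false

namespace Pool.Agent.Helper74.FB

open Finset Filter Topology Polynomial
open Pool.Agent.Erdos456
open Pool.Agent.H410R2 (WW)
open Pool.Agent.Helper74.OR (Rg)
open Pool.Agent.Helper74.AE (WW_pos)

open Classical in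
theorem denseTJ (J r : ℕ) (hr : 1 ≤ r) : ∃ K : ℕ, ∀ d : ℕ, ∃ B : ℕ, ∀ 𝓗 : Finset ℕ, K ≤ 𝓗.card →
    ∀ A : Fin J → ℕ → ℤ[X],
    (∀ j, ∀ h ∈ 𝓗, 1 ≤ (A j h).natDegree) → (∀ j, ∀ h ∈ 𝓗, (A j h).natDegree ≤ d) → (∀ j, ∀ h ∈ 𝓗, ∀ h' ∈ 𝓗, A j h = A j h' → h = h') → AdI A 𝓗 →
    ∀ c : ℝ, 0 < c → ∀ G : ℝ, ∃ κ : ℝ, 0 < κ ∧ ∃ X₀ : ℕ, ∀ X : ℕ, X₀ ≤ X → ∀ Y : ℕ, Real.log X ^ B ≤ Y →
      (Y : ℝ) ≤ κ * X → ∀ q s : Fin J → ℕ, (∀ j, 1 ≤ q j ∧ GG (q j) ≤ G) →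
      (∀ j, ∀ h ∈ 𝓗, ((s j : ℝ) + q j * Y) ^ (A j h).natDegree ≤ κ * X) →
      ∀ 𝒬 ⊆ Icc 1 Y, c * Y ≤ 𝒬.card →
      κ * (X : ℝ) ^ J ≤ (((Fintype.piFinset (fun _ : Fin J => Icc 1 X)).filter (fun N =>
        (∀ j, X ≤ 32 * N j) ∧ ∃ P ⊆ 𝓗, P.card = r ∧ (Y : ℝ) / Real.log X ^ B ≤
          ((𝒬.filter (fun p : ℕ => ∀ j, ∀ h ∈ P,
            PrV ((N j : ℤ) + (A j h).eval ((q j : ℤ) * p + s j)))).card : ℝ))).card : ℝ) := by
  obtain ⟨K, k, D₀, hrK, habs⟩ := absJ J r hr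
  obtain ⟨k', hk'⟩ : ∃ k' : ℕ, k' = ∑ j, k j := ⟨_, rfl⟩
  refine ⟨K, fun d => ?_⟩
  have hE : 1 ≤ EJ k := by unfold EJ; omega
  obtain ⟨M', hM'⟩ := momT d (EJ k) hE
  refine ⟨k' + 2 + 2 * M', fun 𝓗 h𝓗 A hd hdD hA hadm c hc G => ?_⟩
  choose c₀ hc₀ hmom using fun j => hM' 𝓗 (A j) (hd j) (hdD j) (hA j) G
  obtain ⟨H, hHsub, hHK⟩ := exists_subset_card_eq h𝓗
  obtain ⟨D, hD⟩ : ∃ D : ℕ, D = D₀ + 2 := ⟨_, rfl⟩
  have hW : 0 < WW D := WW_pos D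
  have hWr : (0 : ℝ) < WW D := by exact_mod_cast hW
  obtain ⟨C₁, hC₁1, C, m₀, Y₀, hdata⟩ := famData 1 le_rfl 𝓗 A hd hA ∅ (by simp) (by simp)
    (1 / 2) (by norm_num)
  obtain ⟨C₂, hC₂1, hC₂⟩ : ∃ C₂ : ℝ, 1 ≤ C₂ ∧ ∀ j, c₀ j ≤ C₂ := by
    refine ⟨1 + ∑ j, c₀ j, ?_, fun j => ?_⟩
    · have : 0 ≤ ∑ j, c₀ j := sum_nonneg fun j _ => hc₀ j
      linarith
    · have := single_le_sum (f := c₀) (fun j _ => hc₀ j) (mem_univ j)
      linarith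
  obtain ⟨κ₀, hκ₀, X₁, hmain⟩ := habs D (by omega) (c / (2 * WW D)) C₂ (J * (𝓗.card : ℝ) ^ 2) (by positivity)
    hC₂1 (by positivity)
  obtain ⟨Y₁, hY₁⟩ := denseRI D c hc m₀
  obtain ⟨κ, hκ⟩ : ∃ κ : ℝ, κ = min κ₀ (1 / (C + 1)) := ⟨_, rfl⟩
  have hκpos : 0 < κ := by rw [hκ]; exact lt_min hκ₀ (by positivity)
  have tN : Tendsto (fun N : ℕ => (N : ℝ)) atTop atTop := tendsto_natCast_atTop_atTop
  have hlog : Tendsto (fun N : ℕ => Real.log (N : ℝ)) atTop atTop := Real.tendsto_log_atTop.comp tN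
  obtain ⟨X₀, hX₀⟩ := eventually_atTop.1
    ((hlog.eventually_ge_atTop (1 / κ₀ + Y₀ + Y₁ + 3)).and (eventually_ge_atTop (X₁ + 3)))
  refine ⟨κ, hκpos, X₀, fun X hX Y hY1 hYκ q s hqs hY2 𝒬 h𝒬 hcard => ?_⟩
  obtain ⟨hX1, hX3⟩ := hX₀ X hX
  have hX0 : (0 : ℝ) < X := by exact_mod_cast (by omega : 0 < X)
  have h1κ : 0 ≤ 1 / κ₀ := by positivity
  have hY₀nn : (0 : ℝ) ≤ Y₀ := Nat.cast_nonneg _
  have hY₁nn : (0 : ℝ) ≤ Y₁ := Nat.cast_nonneg _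
  obtain ⟨L, hL⟩ : ∃ L : ℝ, L = Real.log X := ⟨_, rfl⟩
  rw [← hL] at hX1 hY1 ⊢
  have hL3 : 3 ≤ L := by linarith
  have hLY : L ≤ Y := by
    refine le_trans ?_ hY1
    calc L = L ^ 1 := (pow_one L).symm
      _ ≤ L ^ (k' + 2 + 2 * M') := pow_le_pow_right₀ (by linarith) (by omega)
  have hYge : 1 / κ₀ + Y₀ + Y₁ + 3 ≤ Y := hX1.trans hLY
  have hY3 : 3 ≤ Y := by
    have : (3 : ℝ) ≤ Y := by linarith
    exact_mod_cast this
  have hYY₀ : Y₀ ≤ Y := by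
    have : (Y₀ : ℝ) ≤ Y := by linarith
    exact_mod_cast this
  have hYY₁ : Y₁ ≤ Y := by
    have : (Y₁ : ℝ) ≤ Y := by linarith
    exact_mod_cast this
  have hYr : (3 : ℝ) ≤ Y := by exact_mod_cast hY3
  have hLMM : L ^ k' ≤ Y := (pow_le_pow_right₀ (by linarith) (by omega)).trans hY1
  have hCY : ∀ j, ∀ h ∈ 𝓗, C * (s j + q j * Y) ^ (A j h).natDegree ≤ X := by
    intro j h hh
    have h1 : ((C * (s j + q j * Y) ^ (A j h).natDegree : ℕ) : ℝ) ≤ X := by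
      push_cast
      calc (C : ℝ) * ((s j : ℝ) + q j * Y) ^ (A j h).natDegree ≤ (C + 1) * (κ * X) := by
            have := hY2 j h hh
            gcongr
            linarith
        _ ≤ (C + 1) * (1 / (C + 1) * X) := by
            have : κ ≤ 1 / ((C : ℝ) + 1) := by rw [hκ]; exact min_le_right _ _
            gcongr
        _ = X := by
            have : (0 : ℝ) < (C : ℝ) + 1 := by positivity
            field_simp
    exact_mod_cast h1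
  have hq1 : ∀ j, 1 ≤ q j := fun j => (hqs j).1
  have hqY : ∀ j, Y ≤ s j + q j * Y := fun j => (Nat.le_mul_of_pos_left Y (hq1 j)).trans (Nat.le_add_left _ _)
  have hsq : ∀ j, ∀ m : ℕ, ((q j : ℤ) * m + s j) = ((s j + q j * m : ℕ) : ℤ) := by
    intro j m
    push_cast
    ring
  have hbound : ∀ j, ∀ h ∈ 𝓗, ∀ m ≤ Y, 64 * |(A j h).eval ((q j : ℤ) * m + s j)| ≤ (X : ℤ) := by
    intro j h hh m hm
    obtain ⟨-, -, -, -, -, d6⟩ := hdata (s j + q j * Y) (hYY₀.trans (hqY j))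
    rw [hsq j m]
    exact d6 j h hh X (hCY j h hh) (s j + q j * m) (by
      have := Nat.mul_le_mul_left (q j) hm
      omega)
  obtain ⟨Z, hZ⟩ : ∃ Z : ℕ, Z = ⌈L⌉₊ := ⟨_, rfl⟩
  have hZ1 : 1 ≤ Z := by
    rw [hZ, Nat.one_le_ceil_iff]
    linarith
  have hZL : L ≤ Z := by rw [hZ]; exact Nat.le_ceil L
  have hZ2 : (Z : ℝ) ≤ L ^ 2 := by
    have := Nat.ceil_lt_add_one (by linarith : (0 : ℝ) ≤ L)
    rw [← hZ] at this
    nlinarith
  have hZY : Z ^ M' ≤ Y := by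
    have h1 : ((Z ^ M' : ℕ) : ℝ) ≤ Y := by
      push_cast
      refine le_trans ?_ hY1
      calc (Z : ℝ) ^ M' ≤ (L ^ 2) ^ M' := pow_le_pow_left₀ (Nat.cast_nonneg _) hZ2 _
        _ = L ^ (2 * M') := by rw [pow_mul]
        _ ≤ L ^ (k' + 2 + 2 * M') := pow_le_pow_right₀ (by linarith) (by omega)
    exact_mod_cast h1
  have hexp : ∀ j, ∀ h ∈ 𝓗, ∀ m ≤ Y, 2 * ((((A j h).eval ((q j : ℤ) * m + s j)).natAbs : ℕ) : ℝ) ≤
      Real.exp (4 * ((1 : ℕ) * Z)) := by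
    intro j h hh m hm
    have h1 := hbound j h hh m hm
    rw [Int.abs_eq_natAbs] at h1
    have h2 : (64 : ℝ) * ((((A j h).eval ((q j : ℤ) * m + s j)).natAbs : ℕ) : ℝ) ≤ X := by exact_mod_cast h1
    have h3 : (0 : ℝ) ≤ ((((A j h).eval ((q j : ℤ) * m + s j)).natAbs : ℕ) : ℝ) := Nat.cast_nonneg _
    have h4 : (X : ℝ) = Real.exp L := by rw [hL, Real.exp_log hX0]
    have h5 : Real.exp L ≤ Real.exp (4 * ((1 : ℕ) * Z)) := by
      apply Real.exp_le_exp.2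
      push_cast
      linarith
    linarith
  obtain ⟨R, hRQ, u, hRm, hRc, hRu⟩ := hY₁ Y hYY₁ 𝒬 h𝒬 hcard
  have hRg : R ⊆ Icc 1 Y := hRQ.trans h𝒬
  obtain ⟨-, -, -, d4, d5, -⟩ := hdata Y hYY₀
  obtain ⟨v, hv⟩ := classVI (J := J) D (fun j h => (A j h).comp (lin (q j) (s j))) H (by
    intro p hp u' j
    obtain ⟨w, hw⟩ := hadm p hp ((q j : ℤ) * u' + s j) j
    exact ⟨w, fun h hh hd => hw h (hHsub hh) (by rwa [comp_ev] at hd)⟩) R u hRu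
  have hRY : ∀ m ∈ R, m ≤ Y := by
    intro m hm
    exact (mem_Icc.1 (hRg hm)).2
  have hGG0 : ∀ z : ℤ, 0 ≤ GG z.natAbs ^ EJ k := fun z => pow_nonneg (GG_nonneg _) _
  have h𝓜0 : (0 : ℝ) < Y := by linarith
  have hge : ∀ m ∈ R, ∀ j, m₀ ≤ s j + q j * m := fun m hm j =>
    (hRm m hm).trans ((Nat.le_mul_of_pos_left m (hq1 j)).trans (Nat.le_add_left _ _))
  have hinj : ∀ m m' : ℕ, m₀ ≤ m → m₀ ≤ m' → ∀ j, ∀ h ∈ 𝓗,
      ((A j h).comp (lin (q j) (s j))).eval (m : ℤ) = ((A j h).comp (lin (q j) (s j))).eval (m' : ℤ) → m = m' := by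
    intro m m' hm hm' j h hh heq
    rw [comp_ev, comp_ev, hsq, hsq] at heq
    have h1 := d5 _ _ (hm.trans ((Nat.le_mul_of_pos_left m (hq1 j)).trans (Nat.le_add_left _ (s j))))
      (hm'.trans ((Nat.le_mul_of_pos_left m' (hq1 j)).trans (Nat.le_add_left _ (s j)))) j h hh heq
    exact Nat.eq_of_mul_eq_mul_left (hq1 j) (Nat.add_left_cancel h1)
  have hm := hmain X (by omega) H hHK R (fun m j h => (A j h).eval ((q j : ℤ) * m + s j))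
    (fun m m' => ∃ j, ∃ h ∈ 𝓗, ∃ h' ∈ 𝓗, ((A j h).comp (lin (q j) (s j))).eval (m : ℤ) =
      ((A j h').comp (lin (q j) (s j))).eval (m' : ℤ))
    (Y : ℝ) h𝓜0
    (fun m hm j h hh h' hh' heq => d4 (s j + q j * m) (hge m hm j) j h (hHsub hh) h' (hHsub hh') (by
      rw [← hsq]
      exact heq))
    (fun m hm m' hm' hb j h hh h' hh' heq => hb ⟨j, h, hHsub hh, h', hHsub hh', by
      rw [comp_ev, comp_ev]
      exact heq⟩)
    (fun m _ => by convert famBad 𝓗 (fun j h => (A j h).comp (lin (q j) (s j))) m₀ R hRm hinj m)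
    (by
      have h1 := card_le_card hRg
      rw [Nat.card_Icc, Nat.add_sub_cancel] at h1
      have h2 : (R.card : ℝ) ≤ Y := by exact_mod_cast h1
      exact h2.trans (le_mul_of_one_le_left h𝓜0.le hC₂1)) hRc
    (fun j h hh h' hh' hne => by
      refine (sum_le_sum_of_subset_of_nonneg hRg fun m _ _ => hGG0 _).trans ?_
      refine ((hmom j Y Z hZ1 hZY (q j) (s j) (hq1 j) (hqs j).2 (fun n hn h hh =>
        hexp j h hh n (mem_Icc.1 hn).2)).2 h (hHsub hh) h' (hHsub hh') hne).trans ?_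
      exact mul_le_mul_of_nonneg_right (hC₂ j) h𝓜0.le)
    (fun m hm j h hh h' hh' => by
      refine (sum_le_sum_of_subset_of_nonneg hRg fun m _ _ => hGG0 _).trans ?_
      refine ((hmom j Y Z hZ1 hZY (q j) (s j) (hq1 j) (hqs j).2 (fun n hn h hh =>
        hexp j h hh n (mem_Icc.1 hn).2)).1 h (hHsub hh) _ (hexp j h' (hHsub hh') m (hRY m hm))).trans ?_
      exact mul_le_mul_of_nonneg_right (hC₂ j) h𝓜0.le)
    (by rw [← hL, ← hk']; exact hLMM)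
    (fun m hm j h hh => hbound j h (hHsub hh) m (hRY m hm)) v
    (fun m hm j p hp h hh hd => hv m hm j p hp h hh (by
      rw [comp_ev]
      exact hd))
  refine (mul_le_mul_of_nonneg_right (by rw [hκ]; exact min_le_left _ _) (by positivity)).trans (hm.trans ?_)
  rw [Nat.cast_le]
  apply card_le_card
  intro N hN
  obtain ⟨hN1, hN2, P, hP, hPc, hcl⟩ := mem_filter.1 hN
  refine mem_filter.2 ⟨hN1, fun j => (hN2 j).1, P, hP.trans hHsub, hPc, ?_⟩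
  have h1 : (Y : ℝ) / L ^ (k' + 2 + 2 * M') ≤ κ₀ * (Y / L ^ k') := by
    have h2 : 1 ≤ κ₀ * L := by
      have h3 : 1 / κ₀ ≤ L := by linarith
      rw [div_le_iff₀ hκ₀] at h3
      linarith
    have hL0 : 0 < L := by linarith
    have h4 : L ^ (k' + 1) ≤ L ^ (k' + 2 + 2 * M') := pow_le_pow_right₀ (by linarith) (by omega)
    calc (Y : ℝ) / L ^ (k' + 2 + 2 * M') ≤ Y / L ^ (k' + 1) := div_le_div_of_nonneg_left (by linarith) (by positivity) h4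
      _ ≤ (κ₀ * L) * (Y / L ^ (k' + 1)) := le_mul_of_one_le_left (by positivity) h2
      _ = κ₀ * (Y / L ^ k') := by
          rw [pow_add, pow_one]
          field_simp
  rw [← hL, ← hk'] at hcl
  refine h1.trans (hcl.trans ?_)
  rw [Nat.cast_le]
  apply card_le_card
  intro m hm
  obtain ⟨hmR, hp1⟩ := mem_filter.1 hm
  exact mem_filter.2 ⟨hRQ hmR, hp1⟩

end Pool.Agent.Helper74.FB
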