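import Mathlib
import Pool.Agent.Helper74.FB.GenL

/-! The localised fibred theorem in its final form. -/

set_option autoImplicit false

namespace Pool.Agent.Helper74.FB

open Finset Filter Topology Polynomial
open Pool.Agent.H410R2 (WW)
open Pool.Agent.Helper74.OR (Rg pz)
open Pool.Agent.Helper74.AE (WW_pos omega_rough)
open Pool.Agent.TH899.UG.Uni
open Pool.Agent.Z296.AP (P2)

open Classical in
theorem genFL {T K : ℕ} [NeZero K] {Qσ : (Finset (Fin T)) → (Fin T → Fin K) → Prop} {δ c : ℝ}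
    (hT : 1 ≤ T) (hδ : 0 < δ) (hc : 0 < c) (D : ℕ) (H : LowL T K Qσ δ c D) (Q : ℤ[X])
    (hd : 1 ≤ Q.natDegree)
    (h : Fin T → Fin K → ℕ) (hh : Function.Injective (fun x : Fin T × Fin K => h x.1 x.2))
    (V : Finset (ℤ × ℤ)) (hV1 : ∀ f ∈ V, f.1 ≠ 0)
    (hV2 : ∀ f ∈ V, ∀ g ∈ V, f ≠ g → f.1 * g.2 - g.1 * f.2 ≠ 0) (δ' : ℝ) (hδ' : 0 < δ') (c₁ : ℝ)
    (hc₁ : 0 < c₁) (s : ℕ) :
    ∃ κ : ℝ, 0 < κ ∧ ∃ C : ℕ, 1 ≤ C ∧ ∃ m₀ Y₀ : ℕ, ∀ Y : ℕ, Y₀ ≤ Y → ∀ X : ℕ, C * Y ^ Q.natDegree ≤ X →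
      X ≤ Y ^ s →
      Real.log X ^ (T * K + 1) ≤ Y / Real.log Y ^ V.card → ∀ R ⊆ Rg V δ' Y,
      (∀ m ∈ R, m₀ ≤ m) → c₁ * (Y / Real.log Y ^ V.card) ≤ R.card →
      ∀ M₀ : ℕ, X ≤ 4 * M₀ → 5 * M₀ ≤ 6 * X → WW D ∣ M₀ → ∀ v : ℤ,
      (∀ m ∈ R, ∀ p ∈ (Icc 1 D).filter Nat.Prime, ∀ g i,
        ¬ (p : ℤ) ∣ v + Q.eval ((m : ℤ) + h g i)) →
      κ * X ≤ (((Icc 1 (2 * X)).filter (fun N : ℕ => M₀ ≤ N ∧ 4 * N ≤ 4 * M₀ + 3 * X ∧
        (N : ℤ) ≡ v [ZMOD (WW D : ℕ)] ∧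
        ∃ (S : Finset (Fin T)) (σ τ : Fin T → Fin K), Qσ S σ ∧
        κ * (Y / Real.log Y ^ V.card / Real.log X ^ (T * K + 1)) ≤
          ((Cl Q h ⌊2 / (δ / 2)⌋₊ S σ τ N R).card : ℝ))).card : ℝ) := by
  have hW : 0 < WW D := WW_pos D
  have hK : 0 < K := Nat.pos_of_ne_zero (NeZero.ne K)
  set Hm : ℕ := ∑ x : Fin T × Fin K, h x.1 x.2 with hHm
  have hHb : ∀ g i, h g i ≤ Hm := fun g i =>
    single_le_sum (f := fun x : Fin T × Fin K => h x.1 x.2) (fun _ _ => Nat.zero_le _) (mem_univ (g, i))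
  set g₀ : Fin T := ⟨0, hT⟩ with hg₀
  set i₀ : Fin K := ⟨0, hK⟩ with hi₀
  set h₀ : ℕ := h g₀ i₀ with hh₀
  set h' : Fin (T * K) → ℕ := fun i => h (cl i) (sx i) with hh'
  have hh'i : Function.Injective h' := by
    intro i j hij
    have h1 : h (cl i) (sx i) = h (cl j) (sx j) := hij
    have h2 := hh (a₁ := (cl i, sx i)) (a₂ := (cl j, sx j)) h1
    have h3 := Prod.ext_iff.1 h2
    simp only at h3
    rw [← ix_cl i, ← ix_cl j, h3.1, h3.2]
  obtain ⟨κ, hκ, m₀, Y₀, X₀, hgen⟩ := genL hδ hc D H Q hd h₀ h' hh'i V hV1 hV2 δ' hδ' c₁ hc₁ s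
  obtain ⟨B, hB⟩ := eval_le Q
  set P : ℕ := 2 ^ T * K ^ T * K ^ T with hP
  have hP0 : 0 < P := by rw [hP]; positivity
  have hPr : (0 : ℝ) < P := by exact_mod_cast hP0
  have hP1 : (1 : ℝ) ≤ P := by exact_mod_cast hP0
  refine ⟨κ / P, by positivity, 64 * (1 + WW D) * B * 2 ^ Q.natDegree + 1, by omega, m₀,
    max Y₀ (max X₀ (max 129 (1 + Hm))), ?_⟩
  intro Y hY X hX hXs hLM R hR hRm hRc M₀ hM1 hM2 hWM v hcop
  have hYY : Y₀ ≤ Y := (le_max_left _ _).trans hY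
  have hYX : X₀ ≤ Y := ((le_max_left _ _).trans (le_max_right _ _)).trans hY
  have hY129 : 129 ≤ Y := ((le_max_left _ _).trans ((le_max_right _ _).trans (le_max_right _ _))).trans hY
  have hYh : 1 + Hm ≤ Y := ((le_max_right _ _).trans ((le_max_right _ _).trans (le_max_right _ _))).trans hY
  have hYd : Y ≤ Y ^ Q.natDegree := Nat.le_self_pow (by omega) Y
  have hXY : Y ≤ X := by
    calc Y ≤ Y ^ Q.natDegree := hYd
      _ ≤ (64 * (1 + WW D) * B * 2 ^ Q.natDegree + 1) * Y ^ Q.natDegree :=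
        Nat.le_mul_of_pos_left _ (by omega)
      _ ≤ X := hX
  have hQb : ∀ n ≤ Y, ∀ g i, 64 * (1 + WW D) * (Q.eval ((n : ℤ) + h g i)).natAbs ≤ X := by
    intro n hn g i
    have h1 := hB ((n : ℤ) + h g i)
    have h2 : 1 + ((n : ℤ) + h g i).natAbs ≤ 2 * Y := by
      have := hHb g i
      omega
    have h3 : (Q.eval ((n : ℤ) + h g i)).natAbs ≤ B * (2 * Y) ^ Q.natDegree :=
      h1.trans (Nat.mul_le_mul_left _ (Nat.pow_le_pow_left h2 _))
    calc 64 * (1 + WW D) * (Q.eval ((n : ℤ) + h g i)).natAbs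
        ≤ 64 * (1 + WW D) * (B * (2 * Y) ^ Q.natDegree) := Nat.mul_le_mul_left _ h3
      _ = (64 * (1 + WW D) * B * 2 ^ Q.natDegree) * Y ^ Q.natDegree := by rw [mul_pow]; ring
      _ ≤ (64 * (1 + WW D) * B * 2 ^ Q.natDegree + 1) * Y ^ Q.natDegree := Nat.mul_le_mul_right _ (by omega)
      _ ≤ X := hX
  have hQ1 : ∀ n ≤ Y, ∀ g i, 64 * |Q.eval ((n : ℤ) + h g i)| ≤ (X : ℤ) := by
    intro n hn g i
    rw [Int.abs_eq_natAbs]
    have h1 := hQb n hn g i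
    have h2 : 64 * (Q.eval ((n : ℤ) + h g i)).natAbs ≤
        64 * (1 + WW D) * (Q.eval ((n : ℤ) + h g i)).natAbs :=
      Nat.mul_le_mul_right _ (Nat.le_mul_of_pos_right _ (by omega))
    exact_mod_cast h2.trans h1
  have hbd : ∀ n ≤ Y, ∀ q, 64 * |eL Q (WW D) h₀ 0 h' n q| ≤ (X : ℤ) := by
    intro n hn q
    rcases q with _ | i
    · have h1 := hQb n hn g₀ i₀
      have e : eL Q (WW D) h₀ 0 h' n none = (1 + (WW D : ℤ)) * Q.eval ((n : ℤ) + h g₀ i₀) := by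
        simp [eL, hh₀]
      rw [e, abs_mul, Int.abs_eq_natAbs (Q.eval _)]
      have h2 : |(1 + (WW D : ℤ))| = 1 + (WW D : ℤ) := abs_of_nonneg (by positivity)
      rw [h2]
      have h3 : ((64 * (1 + WW D) * (Q.eval ((n : ℤ) + h g₀ i₀)).natAbs : ℕ) : ℤ) ≤ X := by
        exact_mod_cast h1
      push_cast at h3 ⊢
      linarith
    · exact hQ1 n hn (cl i) (sx i)
  have hpW : ∀ p ∈ (Icc 1 D).filter Nat.Prime, (p : ℤ) ∣ ((WW D : ℕ) : ℤ) := by
    intro p hp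
    rw [WW]
    exact_mod_cast dvd_prod_of_mem _ hp
  have hcop' : ∀ m ∈ R, ∀ p ∈ (Icc 1 D).filter Nat.Prime, ∀ q,
      ¬ (p : ℤ) ∣ v + eL Q (WW D) h₀ M₀ h' m q := by
    intro m hm p hp q hd
    rcases q with _ | i
    · apply hcop m hm p hp g₀ i₀
      have hM : (p : ℤ) ∣ (M₀ : ℤ) := (hpW p hp).trans (by exact_mod_cast hWM)
      have e : v + Q.eval ((m : ℤ) + h g₀ i₀) = v + eL Q (WW D) h₀ M₀ h' m none -
          (WW D : ℤ) * Q.eval ((m : ℤ) + h g₀ i₀) + M₀ := by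
        simp only [eL, hh₀]
        ring
      rw [e]
      exact dvd_add (dvd_sub hd ((hpW p hp).mul_right _)) hM
    · exact hcop m hm p hp (cl i) (sx i) hd
  have hmain := hgen Y hYY X (hYX.trans hXY) hXs R hR hRm hRc hLM hbd M₀ hM1 hM2 v hcop'
  have hX0 : (0 : ℝ) ≤ X := Nat.cast_nonneg X
  have hκP : κ / P ≤ κ := div_le_self hκ.le hP1
  refine (mul_le_mul_of_nonneg_right hκP hX0).trans (hmain.trans ?_)
  rw [Nat.cast_le]
  apply card_le_card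
  intro N hN
  obtain ⟨hN1, hN2, hN3, hN5, hN4⟩ := mem_filter.1 hN
  refine mem_filter.2 ⟨hN1, hN2, hN3, hN5, ?_⟩
  have hNX := (mem_Icc.1 hN1).2
  have hX129 : 129 ≤ 2 * X := by omega
  have hN32 : 2 * X ≤ 32 * N := by omega
  have hRY : ∀ m ∈ R, m ≤ Y := by
    intro m hm
    have := hR hm
    unfold Rg at this
    exact (mem_Icc.1 (mem_filter.1 this).1).2
  have hQ2 : ∀ n ≤ Y, ∀ g i, 64 * |Q.eval ((n : ℤ) + h g i)| ≤ ((2 * X : ℕ) : ℤ) := by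
    intro n hn g i
    have := hQ1 n hn g i
    push_cast
    linarith [(Nat.cast_nonneg X : (0 : ℤ) ≤ X)]
  have hXr : (129 : ℝ) ≤ X := by exact_mod_cast hY129.trans hXY
  have hlog2 : Real.log ((2 * X : ℕ) : ℝ) ≤ 2 * Real.log X := by
    have h1 : (((2 * X : ℕ) : ℕ) : ℝ) ≤ (X : ℝ) ^ 2 := by
      push_cast
      nlinarith
    have h2 := Real.log_le_log (by push_cast; linarith) h1
    rw [Real.log_pow] at h2
    exact_mod_cast h2
  -- pigeonhole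
  set Z : ℝ := Y / Real.log Y ^ V.card / Real.log X ^ (T * K + 1) with hZ
  set QQ : Finset (Finset (Fin T) × (Fin T → Fin K) × (Fin T → Fin K)) :=
    univ.filter (fun q => Qσ q.1 q.2.1) with hQQ
  obtain ⟨r, hr⟩ : ∃ r : ℕ, r = ⌊2 / (δ / 2)⌋₊ := ⟨_, rfl⟩
  rw [← hr]
  have hsub : R.filter (fun m : ℕ => GdQ Qσ δ X (eL Q (WW D) h₀ M₀ h' m) N) ⊆
      QQ.biUnion (fun q => Cl Q h r q.1 q.2.1 q.2.2 N R) := by
    intro m hm
    obtain ⟨hmR, hr', S, σ, τ, hS, hτ, hσ⟩ := mem_filter.1 hm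
    refine mem_biUnion.2 ⟨(S, σ, τ), mem_filter.2 ⟨mem_univ _, hS⟩, ?_⟩
    have hix : ∀ g i, eL Q (WW D) h₀ M₀ h' m (some (ix g i)) = Q.eval ((m : ℤ) + h g i) := by
      intro g i
      have e1 : cl (ix g i) = g := cl_ix g i
      have e2 : sx (ix g i) = i := by
        unfold sx ix
        rw [Equiv.symm_apply_apply]
      show Q.eval ((m : ℤ) + h (cl (ix g i)) (sx (ix g i))) = _
      rw [e1, e2]
    unfold Cl
    refine mem_filter.2 ⟨hmR, ?_, ?_, ?_⟩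
    · intro g hg
      have h1 := hσ g hg
      rw [hix] at h1
      exact prV_of h1
    · intro g
      have h1 := hτ g
      rw [hix] at h1
      exact apV_two hX129 hNX hN32 (hQ2 m (hRY m hmR) g (τ g)) h1
    · intro g i
      have h1 := hr' (some (ix g i))
      rw [hix] at h1
      rw [hr]
      refine apV_of (by positivity) hX129 hNX hN32 (hQ2 m (hRY m hmR) g i) ?_
      intro p hp hpl
      apply h1 p hp
      have : δ / 2 * Real.log ((2 * X : ℕ) : ℝ) ≤ δ / 2 * (2 * Real.log X) :=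
        mul_le_mul_of_nonneg_left hlog2 (by positivity)
      linarith
  by_contra hcon
  push Not at hcon
  have e1 := (Nat.cast_le (α := ℝ)).2 ((card_le_card hsub).trans card_biUnion_le)
  rw [Nat.cast_sum] at e1
  have e3 : QQ.card ≤ P := by
    refine (card_le_univ _).trans ?_
    rw [Fintype.card_prod, Fintype.card_prod, Fintype.card_finset, Fintype.card_fun, Fintype.card_fin,
      Fintype.card_fin, hP, mul_assoc]
  have e4 : (QQ.card : ℝ) ≤ P := by exact_mod_cast e3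
  have hY3 : (1 : ℝ) < Y := by exact_mod_cast (by omega : 1 < Y)
  have hX3 : (1 : ℝ) < X := by linarith
  have hlogY : 0 < Real.log Y := Real.log_pos hY3
  have hlogX : 0 < Real.log X := Real.log_pos hX3
  have hZ0 : 0 < Z := by positivity
  rcases QQ.eq_empty_or_nonempty with hQe | hQne
  · rw [hQe, Finset.sum_empty] at e1
    have := hN4.trans e1
    nlinarith
  · have e2 : ∑ q ∈ QQ, ((Cl Q h r q.1 q.2.1 q.2.2 N R).card : ℝ) < ∑ _q ∈ QQ, κ / P * Z := by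
      apply Finset.sum_lt_sum_of_nonempty hQne
      intro q hq
      exact hcon q.1 q.2.1 q.2.2 (mem_filter.1 hq).2
    rw [Finset.sum_const, nsmul_eq_mul] at e2
    have e5 : (QQ.card : ℝ) * (κ / P * Z) ≤ P * (κ / P * Z) :=
      mul_le_mul_of_nonneg_right e4 (by positivity)
    have e6 : (P : ℝ) * (κ / P * Z) = κ * Z := by
      field_simp
    rw [e6] at e5
    have := hN4.trans e1
    linarith

end Pool.Agent.Helper74.FB
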