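import Mathlib
import Pool.Agent.Helper74.FB.JMain

/-! Several constants `N j`: polynomials `Q j` and arguments in a thin set. -/

set_option autoImplicit false

namespace Pool.Agent.Helper74.FB

open Finset Filter Topology Polynomial
open Pool.Agent.Erdos456
open Pool.Agent.H410R2 (WW)
open Pool.Agent.Helper74.OR (Rg)
open Pool.Agent.Helper74.AE (WW_pos)

open Classical in
theorem polyJ (J r : ℕ) (hr : 1 ≤ r) : ∃ (K : ℕ) (k : Fin J → ℕ) (D₀ : ℕ), r ≤ K ∧ ∀ D : ℕ, D₀ ≤ D →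
    ∀ Q : Fin J → ℤ[X], (∀ j, 1 ≤ (Q j).natDegree) → ∀ 𝓗 : Finset ℕ,
    ∀ V : Finset (ℤ × ℤ), (∀ f ∈ V, f.1 ≠ 0) →
    (∀ f ∈ V, ∀ g ∈ V, f ≠ g → f.1 * g.2 - g.1 * f.2 ≠ 0) → ∀ δ' : ℝ, 0 < δ' → ∀ c₁ : ℝ, 0 < c₁ →
    ∃ κ : ℝ, 0 < κ ∧ ∃ C m₀ Y₀ : ℕ, ∀ Y : ℕ, Y₀ ≤ Y → ∀ X : ℕ, Y ≤ X → (∀ j, C * Y ^ (Q j).natDegree ≤ X) →
      Real.log X ^ (∑ j, k j) ≤ Y / Real.log Y ^ V.card → ∀ R ⊆ Rg V δ' Y,
      (∀ m ∈ R, m₀ ≤ m) → c₁ * (Y / Real.log Y ^ V.card) ≤ R.card → ∀ H ⊆ 𝓗, H.card = K →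
      ∀ v : Fin J → ℤ, (∀ m ∈ R, ∀ j, ∀ p ∈ (Icc 1 D).filter Nat.Prime, ∀ h ∈ H,
        ¬ (p : ℤ) ∣ v j + (Q j).eval ((m : ℤ) + h)) →
      κ * (X : ℝ) ^ J ≤ (((Fintype.piFinset (fun _ : Fin J => Icc 1 X)).filter (fun N =>
        (∀ j, X ≤ 32 * N j ∧ (N j : ℤ) ≡ v j [ZMOD (WW D : ℕ)]) ∧ ∃ P ⊆ H, P.card = r ∧
          κ * (Y / Real.log Y ^ V.card / Real.log X ^ (∑ j, k j)) ≤
            ((R.filter (fun m : ℕ => ∀ j, ∀ h ∈ P, PrV ((N j : ℤ) + (Q j).eval ((m : ℤ) + h)))).card : ℝ))).card :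
              ℝ) := by
  obtain ⟨K, k, D₀, hrK, habs⟩ := absJ J r hr
  refine ⟨K, k, D₀, hrK, fun D hD Q hd 𝓗 V hV1 hV2 δ' hδ' c₁ hc₁ => ?_⟩
  have hE : 1 ≤ EJ k := by unfold EJ; omega
  -- moments
  choose c₀ hc₀ hmom using fun j => moms V hV1 hV2 δ' hδ' (Q j) (hd j)
    (fun x : {x // x ∈ 𝓗} => (x : ℕ)) Subtype.val_injective (EJ k) hE
  obtain ⟨c₀', hc₀', hmom'⟩ := moms V hV1 hV2 δ' hδ' (Polynomial.X : ℤ[X]) (by rw [natDegree_X])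
    (fun x : {x // x ∈ 𝓗} => (x : ℕ)) Subtype.val_injective (EJ k) hE
  obtain ⟨C₂, hC₂1, hC₂⟩ := unifR c₀
  obtain ⟨C₁, hC₁⟩ : ∃ C₁ : ℝ, C₁ = C₂ + c₀' := ⟨_, rfl⟩
  have hC₁1 : 1 ≤ C₁ := by linarith
  have hmomall := eventually_all.2 hmom
  obtain ⟨Y₁, hY₁⟩ := eventually_atTop.1 (hmomall.and hmom')
  choose m₁ hm₁ using fun j => inj_ev (Q j) (hd j)
  obtain ⟨m₂, hm₂⟩ : ∃ m₂ : ℕ, ∀ j, m₁ j ≤ m₂ :=
    ⟨∑ j, m₁ j, fun j => single_le_sum (f := m₁) (fun _ _ => Nat.zero_le _) (mem_univ j)⟩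
  choose B hB using fun j => eval_le (Q j)
  obtain ⟨C, hC⟩ : ∃ C : ℕ, ∀ j, 64 * B j * 2 ^ (Q j).natDegree + 1 ≤ C :=
    ⟨∑ j, (64 * B j * 2 ^ (Q j).natDegree + 1), fun j =>
      single_le_sum (f := fun j => 64 * B j * 2 ^ (Q j).natDegree + 1) (fun _ _ => Nat.zero_le _) (mem_univ j)⟩
  obtain ⟨Hm, hHm⟩ : ∃ Hm : ℕ, ∀ h ∈ 𝓗, h ≤ Hm :=
    ⟨∑ h ∈ 𝓗, h, fun h hh => single_le_sum (f := fun h : ℕ => h) (fun _ _ => Nat.zero_le _) hh⟩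
  obtain ⟨κ, hκ, X₀, hmain⟩ := habs D hD c₁ C₁ ((𝓗.card : ℝ) ^ 2) hc₁ hC₁1 (by positivity)
  refine ⟨κ, hκ, C, m₂, max (max X₀ Y₁) (max 3 (Hm + 1)), ?_⟩
  intro Y hY X hYX hCY hLM R hR hRm hRc H hH hHK v hcop
  have hYX₀ : X₀ ≤ Y := ((le_max_left _ _).trans (le_max_left _ _)).trans hY
  have hYY₁ : Y₁ ≤ Y := ((le_max_right _ _).trans (le_max_left _ _)).trans hY
  have hY3 : 3 ≤ Y := ((le_max_left _ _).trans (le_max_right _ _)).trans hY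
  have hYH : Hm + 1 ≤ Y := ((le_max_right _ _).trans (le_max_right _ _)).trans hY
  obtain ⟨hm1, hm2⟩ := hY₁ Y hYY₁
  have hlogY : 0 < Real.log Y := Real.log_pos (by exact_mod_cast (by omega : 1 < Y))
  have hY0 : (0 : ℝ) < Y := by exact_mod_cast (by omega : 0 < Y)
  obtain ⟨𝓜, h𝓜⟩ : ∃ 𝓜 : ℝ, 𝓜 = Y / Real.log Y ^ V.card := ⟨_, rfl⟩
  have h𝓜0 : 0 < 𝓜 := by rw [h𝓜]; positivity
  simp only [← h𝓜] at hm1 hm2
  rw [← h𝓜] at hLM hRc ⊢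
  have hRY : ∀ m ∈ R, m ≤ Y := by
    intro m hm
    have := hR hm
    unfold Rg at this
    exact (mem_Icc.1 (mem_filter.1 this).1).2
  have hGG0 : ∀ z : ℤ, 0 ≤ GG z.natAbs ^ EJ k := fun z => pow_nonneg (GG_nonneg _) _
  have hinj : ∀ m ∈ R, ∀ m' ∈ R, ∀ j, ∀ h h' : ℕ, (Q j).eval ((m : ℤ) + h) = (Q j).eval ((m' : ℤ) + h') →
      m + h = m' + h' := by
    intro m hm m' hm' j h h' heq
    have h1 := hRm m hm
    have h1' := hRm m' hm'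
    have h2 := hm₂ j
    have h3 := hm₁ j ((m : ℤ) + h) ((m' : ℤ) + h') (by omega) (by omega) heq
    omega
  refine hmain X (hYX₀.trans hYX) H hHK R (fun m j h => (Q j).eval ((m : ℤ) + h))
    (fun m m' => ∃ h ∈ 𝓗, ∃ h' ∈ 𝓗, m + h = m' + h') 𝓜 h𝓜0 ?_ ?_ ?_ ?_ hRc ?_ ?_ hLM ?_ v hcop
  · intro m hm j h _ h' _ heq
    have := hinj m hm m hm j h h' heq
    omega
  · intro m hm m' hm' hb j h hh h' hh' heq
    exact hb ⟨h, hH hh, h', hH hh', hinj m hm m' hm' j h h' heq⟩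
  · intro m _
    have h1 : R.filter (fun m' => ∃ h ∈ 𝓗, ∃ h' ∈ 𝓗, m + h = m' + h') ⊆
        (𝓗 ×ˢ 𝓗).image (fun x => m + x.1 - x.2) := by
      intro m' hm'
      obtain ⟨-, h, hh, h', hh', heq⟩ := mem_filter.1 hm'
      refine mem_image.2 ⟨(h, h'), mem_product.2 ⟨hh, hh'⟩, ?_⟩
      simp only
      omega
    have h2 := (card_le_card h1).trans card_image_le
    rw [card_product, ← sq] at h2
    have h3 : ((R.filter (fun m' => ∃ h ∈ 𝓗, ∃ h' ∈ 𝓗, m + h = m' + h')).card : ℝ) ≤ (𝓗.card : ℝ) ^ 2 := by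
      exact_mod_cast h2
    convert h3
  · have h1 := (Nat.cast_le (α := ℝ)).2 (card_le_card hR)
    refine h1.trans (hm2.1.trans ?_)
    apply mul_le_mul_of_nonneg_right _ h𝓜0.le
    linarith
  · intro j h hh h' hh' hne
    have h1 := (hm1 j).2.2 ⟨h, hH hh⟩ ⟨h', hH hh'⟩ (fun h0 => hne (congrArg Subtype.val h0))
    refine le_trans ?_ (h1.trans ?_)
    · exact sum_le_sum_of_subset_of_nonneg hR fun m _ _ => hGG0 _
    · apply mul_le_mul_of_nonneg_right _ h𝓜0.le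
      have := hC₂ j
      linarith
  · intro m hm j h hh h' hh'
    have h1 := (hm1 j).2.1 m (hRY m hm) ⟨h, hH hh⟩ ⟨h', hH hh'⟩
    refine le_trans ?_ (h1.trans ?_)
    · exact sum_le_sum_of_subset_of_nonneg hR fun m _ _ => hGG0 _
    · apply mul_le_mul_of_nonneg_right _ h𝓜0.le
      have := hC₂ j
      linarith
  · intro m hm j h hh
    have h1 := hB j ((m : ℤ) + h)
    have h2 : 1 + ((m : ℤ) + h).natAbs ≤ 2 * Y := by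
      have := hHm h (hH hh)
      have := hRY m hm
      omega
    have h3 : ((Q j).eval ((m : ℤ) + h)).natAbs ≤ B j * (2 * Y) ^ (Q j).natDegree :=
      h1.trans (Nat.mul_le_mul_left _ (Nat.pow_le_pow_left h2 _))
    have h4 : 64 * ((Q j).eval ((m : ℤ) + h)).natAbs ≤ X := by
      calc 64 * ((Q j).eval ((m : ℤ) + h)).natAbs ≤ 64 * (B j * (2 * Y) ^ (Q j).natDegree) :=
            Nat.mul_le_mul_left _ h3
        _ = (64 * B j * 2 ^ (Q j).natDegree) * Y ^ (Q j).natDegree := by rw [mul_pow]; ring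
        _ ≤ C * Y ^ (Q j).natDegree := Nat.mul_le_mul_right _ (by have := hC j; omega)
        _ ≤ X := hCY j
    rw [Int.abs_eq_natAbs]
    exact_mod_cast h4

end Pool.Agent.Helper74.FB
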