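import Mathlib
import Pool.Agent.Helper74.FB.JPoly
import Pool.Agent.Helper74.FB.PrimeArg

/-! The fibred theorem with clusters of primes as arguments and several constants: `r` primes `m + h` with all
`N j + Q j (m + h)` prime, for a positive proportion of the tuples `N`. -/

set_option autoImplicit false

namespace Pool.Agent.Helper74.FB

open Finset Filter Topology Polynomial
open Pool.Agent.H410R2 (WW)
open Pool.Agent.Helper74.OR (Rg)
open Pool.Agent.Helper74.AE (WW_pos lamPW Rp Fs Fs_card)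
open Pool.Agent.TH899.UG.Uni

open Classical in
/-- there is a set `P ⊆ [1, H]` of `r` shifts such that all the numbers `m + h` and `N j + Q j (m + h)`, `h ∈ P`,
are prime for many `m ≤ Y` -/
def PHJ {J : ℕ} (Q : Fin J → ℤ[X]) (H A r X Y : ℕ) (N : Fin J → ℕ) : Prop :=
  (∀ j, X ≤ 32 * N j ∧ ¬ (2 : ℤ) ∣ (N j : ℤ) + (Q j).eval 1) ∧
    ∃ P ⊆ Icc 1 H, P.card = r ∧ (Y : ℝ) / Real.log X ^ A ≤
      ((((Icc 1 Y).filter (fun m : ℕ => Y ≤ 16 * m ∧
        ∀ h ∈ P, (m + h).Prime ∧ ∀ j, PrV ((N j : ℤ) + (Q j).eval ((m : ℤ) + h)))).card : ℕ) : ℝ)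

open Classical in
theorem primeJ (J r : ℕ) (hr : 1 ≤ r) : ∃ H A : ℕ, ∀ Q : Fin J → ℤ[X], (∀ j, 1 ≤ (Q j).natDegree) →
    ∃ κ : ℝ, 0 < κ ∧ ∃ X₀ : ℕ, ∀ X : ℕ, X₀ ≤ X → ∀ Y : ℕ, Real.log X ^ A ≤ Y → (Y : ℝ) ≤ κ * X →
      (∀ j, (Y : ℝ) ^ (Q j).natDegree ≤ κ * X) →
      κ * (X : ℝ) ^ J ≤
        (((Fintype.piFinset (fun _ : Fin J => Icc 1 X)).filter (fun N => PHJ Q H A r X Y N)).card : ℝ) := by
  obtain ⟨K, k, D₀, hrK, hgen⟩ := polyJ J r hr
  obtain ⟨k', hk'⟩ : ∃ k' : ℕ, k' = ∑ j, k j := ⟨_, rfl⟩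
  set T₂ : ℕ := 4 * K with hT₂
  have hK1 : 1 ≤ K := hr.trans hrK
  have hTM₂ : (18 / 5 : ℝ) * (K : ℕ) < T₂ := by
    have : (1 : ℝ) ≤ (K : ℕ) := by exact_mod_cast hK1
    rw [hT₂]
    push_cast at this ⊢
    linarith
  have hT₂1 : 1 ≤ T₂ := by omega
  obtain ⟨K₂, hK₂, δ₂, hδ₂, D₂, c₂, hc₂, hsrc⟩ := lamPW T₂ K hT₂1 hTM₂
  set D : ℕ := D₀ + D₂ + 2 with hD
  set W : ℕ := WW D with hWdef
  have hW : 0 < W := WW_pos D
  have hWr : (0 : ℝ) < W := by exact_mod_cast hW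
  have hpW : ∀ p ∈ (Icc 1 D).filter Nat.Prime, (p : ℤ) ∣ (W : ℤ) := by
    intro p hp
    rw [hWdef, WW]
    exact_mod_cast dvd_prod_of_mem _ hp
  have h2W : 2 ∣ W := by
    have h1 : (2 : ℕ) ∈ (Icc 1 D).filter Nat.Prime := by
      rw [mem_filter, mem_Icc]
      exact ⟨by omega, Nat.prime_two⟩
    have := hpW 2 h1
    exact_mod_cast this
  -- the shifts
  set h₂ : Fin T₂ → Fin K₂ → ℕ := fun g i => W * ((ix g i).val + 1) with hh₂
  have hh₂i : Function.Injective (fun x : Fin T₂ × Fin K₂ => h₂ x.1 x.2) := by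
    intro x y hxy
    have h1 : W * ((ix x.1 x.2).val + 1) = W * ((ix y.1 y.2).val + 1) := hxy
    have h2 := Nat.eq_of_mul_eq_mul_left hW h1
    have h3 : ix x.1 x.2 = ix y.1 y.2 := Fin.ext (by omega)
    have h4 := finProdFinEquiv.injective h3
    exact h4
  set Hm : ℕ := W * (T₂ * K₂ + 1) with hHm
  have hh₂b : ∀ g i, 1 ≤ h₂ g i ∧ h₂ g i ≤ Hm := by
    intro g i
    constructor
    · exact Nat.mul_pos hW (by omega)
    · apply Nat.mul_le_mul_left
      have := (ix g i).isLt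
      omega
  set f : Fin T₂ → Fin K₂ → ℤ × ℤ := fun g i => ((1 : ℤ), (h₂ g i : ℤ)) with hf
  have hfi : Function.Injective (fun x : Fin T₂ × Fin K₂ => f x.1 x.2) := by
    intro x y hxy
    apply hh₂i
    have h1 : ((h₂ x.1 x.2 : ℕ) : ℤ) = (h₂ y.1 y.2 : ℕ) := (Prod.ext_iff.1 hxy).2
    exact_mod_cast h1
  obtain ⟨s, -, hs2, hs3⟩ := hsrc f hfi (fun g i => ⟨one_pos, isCoprime_one_left⟩) D (by omega)
    (fun g i => by simp only [hf, Int.natAbs_one]; omega) 1 (by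
      have : 2 ≤ W := Nat.le_of_dvd hW h2W
      omega) (by
      intro p hp g i hd
      simp only [hf, hh₂] at hd
      have h1 : (p : ℤ) ∣ ((W * ((ix g i).val + 1) : ℕ) : ℤ) := by
        push_cast
        exact (hpW p hp).mul_right _
      have h2 := (Int.dvd_add_left h1).1 hd
      have h3 : (p : ℤ) ∣ 1 := by simpa using h2
      have h4 : p ∣ 1 := by exact_mod_cast h3
      exact (mem_filter.1 hp).2.one_lt.ne' (Nat.dvd_one.1 h4))
  set V₀ : Finset (ℤ × ℤ) := univ.image (fun x : Fin T₂ × Fin K₂ => f x.1 x.2) with hV₀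
  have hV₀c : V₀.card = T₂ * K₂ := by
    rw [hV₀, card_image_of_injective _ hfi, card_univ, Fintype.card_prod, Fintype.card_fin,
      Fintype.card_fin]
  set V : Finset (ℤ × ℤ) := Fs V₀ s with hV
  have hVc : V.card = T₂ * K₂ + 1 := by
    rw [hV, Fs_card, hV₀c]
    intro x hx
    obtain ⟨z, -, rfl⟩ := mem_image.1 hx
    exact hs2 z.1 z.2
  have hVone : ∀ x ∈ V, x.1 = 1 := by
    intro x hx
    rw [hV] at hx
    unfold Fs at hx
    rcases mem_insert.1 hx with rfl | hx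
    · rfl
    · obtain ⟨z, -, rfl⟩ := mem_image.1 hx
      rfl
  have hV1 : ∀ x ∈ V, x.1 ≠ 0 := fun x hx => by rw [hVone x hx]; exact one_ne_zero
  have hV2 : ∀ x ∈ V, ∀ y ∈ V, x ≠ y → x.1 * y.2 - y.1 * x.2 ≠ 0 := by
    intro x hx y hy hxy h0
    rw [hVone x hx, hVone y hy, one_mul, one_mul] at h0
    apply hxy
    exact Prod.ext ((hVone x hx).trans (hVone y hy).symm) (by linarith)
  -- exponents
  set a : ℕ := T₂ * K₂ + 1 with ha
  set A : ℕ := a + k' + 1 with hA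
  refine ⟨Hm, A, fun Q hd => ?_⟩
  set 𝓗 : Finset ℕ := univ.image (fun x : Fin T₂ × Fin K₂ => h₂ x.1 x.2) with h𝓗
  obtain ⟨κ₀, hκ₀, C, m₀, Y₀, hmain⟩ := hgen D (by omega) Q hd 𝓗 V hV1 hV2 δ₂ hδ₂ (c₂ / W) (by positivity)
  rw [← hk'] at hmain
  obtain ⟨Y₁, hY₁⟩ := eventually_atTop.1 hs3
  choose v hv using fun j : Fin J => crt D (fun _ => 1 - (Q j).eval 1)
  set κ : ℝ := min κ₀ (1 / (C + 1)) with hκ
  have hκpos : 0 < κ := lt_min hκ₀ (by positivity)
  -- largeness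
  have tN : Tendsto (fun N : ℕ => (N : ℝ)) atTop atTop := tendsto_natCast_atTop_atTop
  have hlog : Tendsto (fun N : ℕ => Real.log (N : ℝ)) atTop atTop := Real.tendsto_log_atTop.comp tN
  obtain ⟨X₀, hX₀⟩ := eventually_atTop.1
    ((hlog.eventually_ge_atTop (1 / κ₀ + Y₀ + Y₁ + 16 * m₀ + 3)).and (eventually_ge_atTop 3))
  refine ⟨κ, hκpos, X₀, fun X hX Y hY1 hYκ hY2 => ?_⟩
  obtain ⟨hX1, hX3⟩ := hX₀ X hX
  have hX0 : (0 : ℝ) < X := by exact_mod_cast (by omega : 0 < X)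
  have h1κ : 0 ≤ 1 / κ₀ := by positivity
  have hY₀nn : (0 : ℝ) ≤ Y₀ := Nat.cast_nonneg _
  have hY₁nn : (0 : ℝ) ≤ Y₁ := Nat.cast_nonneg _
  have hm₀nn : (0 : ℝ) ≤ m₀ := Nat.cast_nonneg _
  set L : ℝ := Real.log X with hL
  have hL3 : 3 ≤ L := by linarith
  have hLY : L ≤ Y := by
    refine le_trans ?_ hY1
    calc L = L ^ 1 := (pow_one L).symm
      _ ≤ L ^ A := pow_le_pow_right₀ (by linarith) (by omega)
  have hYge : 1 / κ₀ + Y₀ + Y₁ + 16 * m₀ + 3 ≤ Y := hX1.trans hLY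
  have hY3 : 3 ≤ Y := by
    have : (3 : ℝ) ≤ Y := by linarith
    exact_mod_cast this
  have hYY₀ : Y₀ ≤ Y := by
    have : (Y₀ : ℝ) ≤ Y := by linarith
    exact_mod_cast this
  have hYY₁ : Y₁ ≤ Y := by
    have : (Y₁ : ℝ) ≤ Y := by linarith
    exact_mod_cast this
  have hYm : 16 * m₀ ≤ Y := by
    have : (16 * m₀ : ℝ) ≤ Y := by linarith
    exact_mod_cast this
  have hYr : (3 : ℝ) ≤ Y := by exact_mod_cast hY3
  have hlogY : 0 < Real.log Y := Real.log_pos (by linarith)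
  have hκ1 : κ ≤ 1 := (min_le_right _ _).trans (by
    rw [div_le_one (by positivity)]
    have : (0 : ℝ) ≤ C := Nat.cast_nonneg C
    linarith)
  have hYX : (Y : ℝ) ≤ X := by
    calc (Y : ℝ) ≤ κ * X := hYκ
      _ ≤ 1 * X := mul_le_mul_of_nonneg_right hκ1 hX0.le
      _ = X := one_mul _
  have hYXn : Y ≤ X := by exact_mod_cast hYX
  have hlogYX : Real.log Y ≤ L := Real.log_le_log (by linarith) hYX
  have hlogYX' : Real.log Y ^ a ≤ L ^ a := pow_le_pow_left₀ hlogY.le hlogYX a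
  have hLMM : L ^ k' ≤ Y / Real.log Y ^ V.card := by
    rw [hVc, le_div_iff₀ (by positivity)]
    calc L ^ k' * Real.log Y ^ (T₂ * K₂ + 1) ≤ L ^ k' * L ^ a := by gcongr
      _ = L ^ (a + k') := by rw [← pow_add]; congr 1; omega
      _ ≤ L ^ A := pow_le_pow_right₀ (by linarith) (by omega)
      _ ≤ Y := hY1
  -- the source
  obtain ⟨S₂, σ₂, τ₂, hS₂, hcard⟩ := hY₁ Y hYY₁
  set R : Finset ℕ := (Rp f δ₂ s S₂ σ₂ τ₂ Y).filter (fun n => n ≡ 1 [MOD W]) with hR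
  have hRp : ∀ m ∈ R, m ∈ Icc 1 Y ∧ (Y : ℝ) / 16 ≤ m ∧
      (∀ p : ℕ, p.Prime → Real.log p ≤ δ₂ * Real.log Y → ¬ (p : ℤ) ∣ (m : ℤ) - s) ∧
      (∀ g i, ∀ p : ℕ, p.Prime → Real.log p ≤ δ₂ * Real.log Y →
        ¬ (p : ℤ) ∣ (f g i).1 * m + (f g i).2) ∧
      ∀ g ∈ S₂, ((f g (σ₂ g)).1 * (m : ℤ) + (f g (σ₂ g)).2).toNat.Prime := by
    intro m hm
    have h1 := (mem_filter.1 hm).1
    unfold Rp at h1
    obtain ⟨e1, e2, e3, e4, -, e6⟩ := mem_filter.1 h1
    exact ⟨e1, e2, e3, e4, e6⟩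
  have hRg : R ⊆ Rg V δ₂ Y := by
    intro m hm
    obtain ⟨e1, e2, e3, e4, e6⟩ := hRp m hm
    unfold Rg
    refine mem_filter.2 ⟨e1, ?_⟩
    intro x hx p hp hpl hd
    rw [hV] at hx
    unfold Fs at hx
    rcases mem_insert.1 hx with rfl | hx
    · apply e3 p hp hpl
      simp only [one_mul] at hd
      rwa [← sub_eq_add_neg] at hd
    · obtain ⟨z, -, rfl⟩ := mem_image.1 hx
      exact e4 z.1 z.2 p hp hpl hd
  have hRc : c₂ / W * (Y / Real.log Y ^ V.card) ≤ R.card := by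
    rw [hVc]
    refine le_trans (le_of_eq ?_) hcard
    rw [← hWdef]
    field_simp
  have hmod : ∀ m ∈ R, m ≡ 1 [MOD W] := fun m hm => (mem_filter.1 hm).2
  -- the admissible set
  have hHc : K ≤ (S₂.image (fun g => h₂ g (σ₂ g))).card := by
    rw [card_image_of_injective]
    · omega
    · intro g g' hgg
      exact (Prod.ext_iff.1 (hh₂i (a₁ := (g, σ₂ g)) (a₂ := (g', σ₂ g')) hgg)).1
  obtain ⟨H, hHsub, hHK⟩ := exists_subset_card_eq hHc
  have hH𝓗 : H ⊆ 𝓗 := by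
    intro z hz
    obtain ⟨g, -, rfl⟩ := mem_image.1 (hHsub hz)
    rw [h𝓗]
    exact mem_image_of_mem (fun x : Fin T₂ × Fin K₂ => h₂ x.1 x.2) (mem_univ (g, σ₂ g))
  have hWdvd : ∀ h ∈ H, (W : ℤ) ∣ (h : ℤ) := by
    intro z hz
    obtain ⟨g, -, rfl⟩ := mem_image.1 (hHsub hz)
    simp only [hh₂]
    push_cast
    exact dvd_mul_right _ _
  have hCY : ∀ j, C * Y ^ (Q j).natDegree ≤ X := by
    intro j
    have h1 : ((C * Y ^ (Q j).natDegree : ℕ) : ℝ) ≤ X := by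
      push_cast
      calc (C : ℝ) * (Y : ℝ) ^ (Q j).natDegree ≤ (C + 1) * (κ * X) := by
            have := hY2 j
            gcongr
            linarith
        _ ≤ (C + 1) * (1 / (C + 1) * X) := by
            have : κ ≤ 1 / ((C : ℝ) + 1) := min_le_right _ _
            gcongr
        _ = X := by
            have : (0 : ℝ) < (C : ℝ) + 1 := by positivity
            field_simp
    exact_mod_cast h1
  have hmain' := hmain Y hYY₀ X hYXn hCY hLMM R hRg (by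
    intro m hm
    have h1 := (hRp m hm).2.1
    have h2 : Y ≤ 16 * m := by
      have : (Y : ℝ) ≤ 16 * m := by linarith
      exact_mod_cast this
    omega) hRc H hH𝓗 hHK v (by
    intro m hm j p hp h hh hdv
    have hpp := (mem_filter.1 hp).2
    have h1 : (p : ℤ) ∣ (Q j).eval ((m : ℤ) + h) - (Q j).eval 1 := by
      refine dvd_trans ?_ (sub_dvd_eval_sub ((m : ℤ) + h) 1 (Q j))
      have e1 : (W : ℤ) ∣ (m : ℤ) - 1 := by
        have := (Int.natCast_modEq_iff.2 (hmod m hm)).symm.dvd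
        simpa using this
      have e3 : (m : ℤ) + h - 1 = ((m : ℤ) - 1) + h := by ring
      rw [e3]
      exact (hpW p hp).trans (dvd_add e1 (hWdvd h hh))
    have h2 := hv j p hp
    have h3 := dvd_sub (dvd_sub hdv h1) h2
    have e4 : v j + (Q j).eval ((m : ℤ) + h) - ((Q j).eval ((m : ℤ) + h) - (Q j).eval 1) -
        (v j - (1 - (Q j).eval 1)) = 1 := by ring
    rw [e4] at h3
    have h4 : p ∣ 1 := by exact_mod_cast h3
    exact hpp.one_lt.ne' (Nat.dvd_one.1 h4))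
  refine (mul_le_mul_of_nonneg_right (min_le_left _ _) (by positivity)).trans (hmain'.trans ?_)
  rw [Nat.cast_le]
  apply card_le_card
  intro N hN
  obtain ⟨hN1, hN2, P, hPH, hPc, hcl⟩ := mem_filter.1 hN
  refine mem_filter.2 ⟨hN1, fun j => ⟨(hN2 j).1, ?_⟩, P, ?_, hPc, ?_⟩
  · intro hdv
    have h1 : (2 : ℤ) ∣ v j - N j := by
      have h3 : ((2 : ℕ) : ℤ) ∣ (W : ℤ) := by exact_mod_cast h2W
      exact h3.trans (hN2 j).2.dvd
    have h2 : (2 : ℤ) ∣ v j - (1 - (Q j).eval 1) := by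
      have h3 : (2 : ℕ) ∈ (Icc 1 D).filter Nat.Prime := by
        rw [mem_filter, mem_Icc]
        exact ⟨by omega, Nat.prime_two⟩
      have := hv j 2 h3
      exact_mod_cast this
    have h3 := dvd_sub (dvd_add hdv h1) h2
    have e4 : (N j : ℤ) + (Q j).eval 1 + (v j - N j) - (v j - (1 - (Q j).eval 1)) = 1 := by ring
    rw [e4] at h3
    norm_num at h3
  · intro z hz
    obtain ⟨g, -, rfl⟩ := mem_image.1 (hHsub (hPH hz))
    rw [mem_Icc]
    exact hh₂b _ _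
  · have h1 : (Y : ℝ) / L ^ A ≤ κ₀ * (Y / Real.log Y ^ V.card / L ^ k') := by
      rw [hVc]
      have h2 : 1 ≤ κ₀ * L := by
        have h3 : 1 / κ₀ ≤ L := by linarith
        rw [div_le_iff₀ hκ₀] at h3
        linarith
      have hL0 : 0 < L := by linarith
      calc (Y : ℝ) / L ^ A ≤ (κ₀ * L) * (Y / L ^ A) := le_mul_of_one_le_left (by positivity) h2
        _ = κ₀ * (Y / L ^ a / L ^ k') := by
            rw [hA, pow_add, pow_add, pow_one]
            field_simp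
        _ ≤ κ₀ * (Y / Real.log Y ^ (T₂ * K₂ + 1) / L ^ k') := by
            gcongr
    refine h1.trans (hcl.trans ?_)
    rw [Nat.cast_le]
    apply card_le_card
    intro m hm
    obtain ⟨hmR, hp1⟩ := mem_filter.1 hm
    obtain ⟨e1, e2, e3, e4, e6⟩ := hRp m hmR
    refine mem_filter.2 ⟨e1, ?_, ?_⟩
    · have : (Y : ℝ) ≤ 16 * m := by linarith
      exact_mod_cast this
    · intro z hz
      refine ⟨?_, fun j => hp1 j z hz⟩
      obtain ⟨g, hg, rfl⟩ := mem_image.1 (hHsub (hPH hz))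
      have h5 := e6 g hg
      have h6 : (f g (σ₂ g)).1 * (m : ℤ) + (f g (σ₂ g)).2 = ((m + h₂ g (σ₂ g) : ℕ) : ℤ) := by
        simp only [hf, one_mul]
        push_cast
        ring
      rw [h6, Int.toNat_natCast] at h5
      exact h5

end Pool.Agent.Helper74.FB
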