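import Mathlib
import Pool.Agent.Helper74.FB.JQPoly

/-! The fibred theorem with several constants, a prescribed prime as argument and almost prime neighbours. -/

set_option autoImplicit false

namespace Pool.Agent.Helper74.FB

open Finset Filter Topology Polynomial
open Pool.Agent.H410R2 (WW)
open Pool.Agent.Helper74.OR (Rg)
open Pool.Agent.Helper74.AE (WW_pos lamQW Rp Fs Fs_card)
open Pool.Agent.TH899.UG.Uni
open Pool.Agent.Z296.AP (P2)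

/-- the set `𝓗` of shifts is admissible for the polynomials `F j` -/
def AdF {J : ℕ} (F : Fin J → ℤ[X]) (𝓗 : Finset ℕ) : Prop :=
  ∀ p : ℕ, p.Prime → ∃ v : ℤ, (∀ h ∈ 𝓗, ¬ (p : ℤ) ∣ v + h) ∧
    ∀ j, ∃ w : ℤ, ∀ h ∈ 𝓗, ¬ (p : ℤ) ∣ w + (F j).eval (v + h)

open Classical in
/-- there is a set `P` of `r` shifts in `𝓗` such that for many `m ≤ Y` the numbers `m + h₀` and
`N j + F j (m + h₀)` are prime and the numbers `m + h`, `N j + F j (m + h)`, `h ∈ P`, almost prime -/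
def PHQ {J : ℕ} (F : Fin J → ℤ[X]) (𝓗 : Finset ℕ) (h₀ A r X Y : ℕ) (N : Fin J → ℕ) : Prop :=
  (∀ j, X ≤ 32 * N j) ∧ ∃ P ⊆ 𝓗.erase h₀, P.card = r ∧ (Y : ℝ) / Real.log X ^ A ≤
      ((((Icc 1 Y).filter (fun m : ℕ => Y ≤ 16 * m ∧ (m + h₀).Prime ∧
        (∀ j, PrV ((N j : ℤ) + (F j).eval ((m : ℤ) + h₀))) ∧
        ∀ h ∈ P, ApV 2 ((m : ℤ) + h) ∧ ∀ j, ApV 2 ((N j : ℤ) + (F j).eval ((m : ℤ) + h)))).card : ℕ) : ℝ)

open Classical in
theorem primeJQ (J r : ℕ) : ∃ K A : ℕ, ∀ F : Fin J → ℤ[X], (∀ j, 1 ≤ (F j).natDegree) →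
    ∀ 𝓗 : Finset ℕ, K ≤ 𝓗.card → ∀ h₀ ∈ 𝓗, AdF F 𝓗 →
    ∃ κ : ℝ, 0 < κ ∧ ∃ X₀ : ℕ, ∀ X : ℕ, X₀ ≤ X → ∀ Y : ℕ, Real.log X ^ A ≤ Y → (Y : ℝ) ≤ κ * X →
      (∀ j, (Y : ℝ) ^ (F j).natDegree ≤ κ * X) →
      κ * (X : ℝ) ^ J ≤
        (((Fintype.piFinset (fun _ : Fin J => Icc 1 X)).filter (fun N => PHQ F 𝓗 h₀ A r X Y N)).card : ℝ) := by
  obtain ⟨T₁, k, D₀, hrK, hgen⟩ := polyJQ J r
  obtain ⟨k', hk'⟩ : ∃ k' : ℕ, k' = ∑ j, k j := ⟨_, rfl⟩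
  have hT₁ : 1 ≤ T₁ := by omega
  obtain ⟨K₁, hK₁, δ₁, hδ₁, D₁, c₁, hc₁, hsrc⟩ := lamQW T₁ hT₁
  set a : ℕ := T₁ * K₁ + 1 with ha
  set A : ℕ := a + k' + 1 with hA
  refine ⟨T₁ * K₁, A, ?_⟩
  intro F hd 𝓗 h𝓗 h₀ hh₀ hadm
  -- the groups
  obtain ⟨𝓗', h1𝓗', h2𝓗', h3𝓗'⟩ := exists_subsuperset_card_eq (s := {h₀}) (t := 𝓗) (n := T₁ * K₁)
    (singleton_subset_iff.2 hh₀) (by rw [card_singleton]; exact Nat.mul_pos hT₁ hK₁) h𝓗
  have hh₀' : h₀ ∈ 𝓗' := h1𝓗' (mem_singleton_self _)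
  obtain ⟨g₁, hg₁⟩ : ∃ g₁ : Fin T₁, g₁ = ⟨0, hT₁⟩ := ⟨_, rfl⟩
  obtain ⟨i₁, hi₁⟩ : ∃ i₁ : Fin K₁, i₁ = ⟨0, hK₁⟩ := ⟨_, rfl⟩
  obtain ⟨φ, hφ⟩ : ∃ φ : (Fin T₁ × Fin K₁) ≃ {x // x ∈ 𝓗'}, φ (g₁, i₁) = ⟨h₀, hh₀'⟩ := by
    obtain ⟨φ₀⟩ : Nonempty ((Fin T₁ × Fin K₁) ≃ {x // x ∈ 𝓗'}) := ⟨Fintype.equivOfCardEq (by
      rw [Fintype.card_prod, Fintype.card_fin, Fintype.card_fin, Fintype.card_coe, h3𝓗'])⟩
    refine ⟨φ₀.trans (Equiv.swap (φ₀ (g₁, i₁)) ⟨h₀, hh₀'⟩), ?_⟩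
    rw [Equiv.trans_apply, Equiv.swap_apply_left]
  set h₁ : Fin T₁ → Fin K₁ → ℕ := fun g i => (φ (g, i) : ℕ) with hh₁
  have hh₁i : Function.Injective (fun x : Fin T₁ × Fin K₁ => h₁ x.1 x.2) := by
    intro x y hxy
    exact φ.injective (Subtype.ext hxy)
  have hh₁m : ∀ g i, h₁ g i ∈ 𝓗 := fun g i => h2𝓗' (φ (g, i)).2
  have hz₁ : h₁ g₁ i₁ = h₀ := by simp only [hh₁, hφ]
  set D : ℕ := D₀ + D₁ + 2 with hD
  set W : ℕ := WW D with hWdef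
  have hW : 0 < W := WW_pos D
  have hWr : (0 : ℝ) < W := by exact_mod_cast hW
  have hpW : ∀ p ∈ (Icc 1 D).filter Nat.Prime, (p : ℤ) ∣ (W : ℤ) := by
    intro p hp
    rw [hWdef, WW]
    exact_mod_cast dvd_prod_of_mem _ hp
  choose! v' hv' using hadm
  choose! w' hw' using fun (p : ℕ) (hp : p.Prime) => (hv' p hp).2
  obtain ⟨vz, hvz⟩ := crt D v'
  choose w hw using fun j => crt D (fun p => w' p j)
  have hWz : (0 : ℤ) < (W : ℤ) := by exact_mod_cast hW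
  obtain ⟨v, hv⟩ : ∃ v : ℕ, (v : ℤ) = vz % (W : ℤ) :=
    ⟨(vz % (W : ℤ)).toNat, Int.toNat_of_nonneg (Int.emod_nonneg _ hWz.ne')⟩
  have hvW : v < W := by
    have := Int.emod_lt_of_pos vz hWz
    rw [← hv] at this
    exact_mod_cast this
  have hvp : ∀ p ∈ (Icc 1 D).filter Nat.Prime, (p : ℤ) ∣ (v : ℤ) - v' p := by
    intro p hp
    have h1 : (W : ℤ) ∣ vz - v := by
      rw [hv]
      exact Int.dvd_self_sub_emod
    have h2 := dvd_sub (hvz p hp) ((hpW p hp).trans h1)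
    have e : vz - v' p - (vz - v) = (v : ℤ) - v' p := by ring
    rwa [e] at h2
  set f : Fin T₁ → Fin K₁ → ℤ × ℤ := fun g i => ((1 : ℤ), (h₁ g i : ℤ)) with hf
  have hfi : Function.Injective (fun x : Fin T₁ × Fin K₁ => f x.1 x.2) := by
    intro x y hxy
    apply hh₁i
    have h1 : ((h₁ x.1 x.2 : ℕ) : ℤ) = (h₁ y.1 y.2 : ℕ) := (Prod.ext_iff.1 hxy).2
    exact_mod_cast h1
  obtain ⟨s, -, hs2, hs3⟩ := hsrc f hfi (fun g i => ⟨one_pos, isCoprime_one_left⟩) g₁ i₁ D (by omega)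
    (fun g i => by simp only [hf, Int.natAbs_one]; omega) v hvW (by
      intro p hp g i hd
      simp only [hf, one_mul] at hd
      apply (hv' p (mem_filter.1 hp).2).1 (h₁ g i) (hh₁m g i)
      have h2 := dvd_sub hd (hvp p hp)
      have e : (v : ℤ) + h₁ g i - ((v : ℤ) - v' p) = v' p + h₁ g i := by ring
      rwa [e] at h2)
  set V₀ : Finset (ℤ × ℤ) := univ.image (fun x : Fin T₁ × Fin K₁ => f x.1 x.2) with hV₀
  have hV₀c : V₀.card = T₁ * K₁ := by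
    rw [hV₀, card_image_of_injective _ hfi, card_univ, Fintype.card_prod, Fintype.card_fin,
      Fintype.card_fin]
  set V : Finset (ℤ × ℤ) := Fs V₀ s with hV
  have hVc : V.card = T₁ * K₁ + 1 := by
    rw [hV, Fs_card, hV₀c]
    intro x hx
    obtain ⟨z, -, rfl⟩ := mem_image.1 hx
    exact hs2 z.1 z.2
  have hVone : ∀ x ∈ V, x.1 = 1 := by
    intro x hx
    rw [hV] at hx
    unfold Fs at hx
    rcases mem_insert.1 hx with rfl | hx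
    · rfl
    · obtain ⟨z, -, rfl⟩ := mem_image.1 hx
      rfl
  have hV1 : ∀ x ∈ V, x.1 ≠ 0 := fun x hx => by rw [hVone x hx]; exact one_ne_zero
  have hV2 : ∀ x ∈ V, ∀ y ∈ V, x ≠ y → x.1 * y.2 - y.1 * x.2 ≠ 0 := by
    intro x hx y hy hxy h0
    rw [hVone x hx, hVone y hy, one_mul, one_mul] at h0
    apply hxy
    exact Prod.ext ((hVone x hx).trans (hVone y hy).symm) (by linarith)
  obtain ⟨κ₀, hκ₀, C, m₀, Y₀, hmain⟩ := hgen D (by omega) F hd 𝓗 V hV1 hV2 δ₁ hδ₁ (c₁ / W) (by positivity)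
  rw [← hk'] at hmain
  obtain ⟨Y₁, hY₁⟩ := eventually_atTop.1 hs3
  set κ : ℝ := min κ₀ (1 / (C + 1)) with hκ
  have hκpos : 0 < κ := lt_min hκ₀ (by positivity)
  -- largeness
  have tN : Tendsto (fun N : ℕ => (N : ℝ)) atTop atTop := tendsto_natCast_atTop_atTop
  have hlog : Tendsto (fun N : ℕ => Real.log (N : ℝ)) atTop atTop := Real.tendsto_log_atTop.comp tN
  obtain ⟨X₀, hX₀⟩ := eventually_atTop.1
    ((hlog.eventually_ge_atTop (1 / κ₀ + Y₀ + Y₁ + 16 * m₀ + 32)).and (eventually_ge_atTop 3))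
  refine ⟨κ, hκpos, X₀, fun X hX Y hY1 hYκ hY2 => ?_⟩
  obtain ⟨hX1, hX3⟩ := hX₀ X hX
  have hX0 : (0 : ℝ) < X := by exact_mod_cast (by omega : 0 < X)
  have h1κ : 0 ≤ 1 / κ₀ := by positivity
  have hY₀nn : (0 : ℝ) ≤ Y₀ := Nat.cast_nonneg _
  have hY₁nn : (0 : ℝ) ≤ Y₁ := Nat.cast_nonneg _
  have hm₀nn : (0 : ℝ) ≤ m₀ := Nat.cast_nonneg _
  set L : ℝ := Real.log X with hL
  have hL3 : 3 ≤ L := by linarith
  have hLY : L ≤ Y := by
    refine le_trans ?_ hY1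
    calc L = L ^ 1 := (pow_one L).symm
      _ ≤ L ^ A := pow_le_pow_right₀ (by linarith) (by omega)
  have hYge : 1 / κ₀ + Y₀ + Y₁ + 16 * m₀ + 32 ≤ Y := hX1.trans hLY
  have hY3 : 32 ≤ Y := by
    have : (32 : ℝ) ≤ Y := by linarith
    exact_mod_cast this
  have hYY₀ : Y₀ ≤ Y := by
    have : (Y₀ : ℝ) ≤ Y := by linarith
    exact_mod_cast this
  have hYY₁ : Y₁ ≤ Y := by
    have : (Y₁ : ℝ) ≤ Y := by linarith
    exact_mod_cast this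
  have hYm : 16 * m₀ ≤ Y := by
    have : (16 * m₀ : ℝ) ≤ Y := by linarith
    exact_mod_cast this
  have hYr : (32 : ℝ) ≤ Y := by exact_mod_cast hY3
  have hlogY : 0 < Real.log Y := Real.log_pos (by linarith)
  have hκ1 : κ ≤ 1 := (min_le_right _ _).trans (by
    rw [div_le_one (by positivity)]
    have : (0 : ℝ) ≤ C := Nat.cast_nonneg C
    linarith)
  have hYX : (Y : ℝ) ≤ X := by
    calc (Y : ℝ) ≤ κ * X := hYκ
      _ ≤ 1 * X := mul_le_mul_of_nonneg_right hκ1 hX0.le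
      _ = X := one_mul _
  have hYXn : Y ≤ X := by exact_mod_cast hYX
  have hlogYX : Real.log Y ≤ L := Real.log_le_log (by linarith) hYX
  have hlogYX' : Real.log Y ^ a ≤ L ^ a := pow_le_pow_left₀ hlogY.le hlogYX a
  have hLMM : L ^ k' ≤ Y / Real.log Y ^ V.card := by
    rw [hVc, le_div_iff₀ (by positivity)]
    calc L ^ k' * Real.log Y ^ (T₁ * K₁ + 1) ≤ L ^ k' * L ^ a := by gcongr
      _ = L ^ (a + k') := by rw [← pow_add]; congr 1; omega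
      _ ≤ L ^ A := pow_le_pow_right₀ (by linarith) (by omega)
      _ ≤ Y := hY1
  -- the source
  obtain ⟨S₁, σ₁, τ₁, ⟨hS₁, hσ₁⟩, hcard⟩ := hY₁ Y hYY₁
  set R : Finset ℕ := (Rp f δ₁ s S₁ σ₁ τ₁ Y).filter (fun n => n ≡ v [MOD W]) with hR
  have hRp : ∀ m ∈ R, m ∈ Icc 1 Y ∧ (Y : ℝ) / 16 ≤ m ∧
      (∀ p : ℕ, p.Prime → Real.log p ≤ δ₁ * Real.log Y → ¬ (p : ℤ) ∣ (m : ℤ) - s) ∧
      (∀ g i, ∀ p : ℕ, p.Prime → Real.log p ≤ δ₁ * Real.log Y →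
        ¬ (p : ℤ) ∣ (f g i).1 * m + (f g i).2) ∧
      (∀ g, P2 ((f g (τ₁ g)).1 * (m : ℤ) + (f g (τ₁ g)).2)) ∧
      ∀ g ∈ S₁, ((f g (σ₁ g)).1 * (m : ℤ) + (f g (σ₁ g)).2).toNat.Prime := by
    intro m hm
    have h1 := (mem_filter.1 hm).1
    unfold Rp at h1
    obtain ⟨e1, e2, e3, e4, e5, e6⟩ := mem_filter.1 h1
    exact ⟨e1, e2, e3, e4, e5, e6⟩
  have hRg : R ⊆ Rg V δ₁ Y := by
    intro m hm
    obtain ⟨e1, e2, e3, e4, -, e6⟩ := hRp m hm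
    unfold Rg
    refine mem_filter.2 ⟨e1, ?_⟩
    intro x hx p hp hpl hd
    rw [hV] at hx
    unfold Fs at hx
    rcases mem_insert.1 hx with rfl | hx
    · apply e3 p hp hpl
      simp only [one_mul] at hd
      rwa [← sub_eq_add_neg] at hd
    · obtain ⟨z, -, rfl⟩ := mem_image.1 hx
      exact e4 z.1 z.2 p hp hpl hd
  have hRc : c₁ / W * (Y / Real.log Y ^ V.card) ≤ R.card := by
    rw [hVc, ← ha]
    refine le_trans (le_of_eq ?_) hcard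
    rw [← hWdef]
    field_simp
  have hmod : ∀ m ∈ R, m ≡ v [MOD W] := fun m hm => (mem_filter.1 hm).2
  have hRY : ∀ m ∈ R, Y ≤ 16 * m := by
    intro m hm
    have h1 := (hRp m hm).2.1
    have : (Y : ℝ) ≤ 16 * m := by linarith
    exact_mod_cast this
  have hCY : ∀ j, C * Y ^ (F j).natDegree ≤ X := by
    intro j
    have h1 : ((C * Y ^ (F j).natDegree : ℕ) : ℝ) ≤ X := by
      push_cast
      calc (C : ℝ) * (Y : ℝ) ^ (F j).natDegree ≤ (C + 1) * (κ * X) := by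
            have := hY2 j
            gcongr
            linarith
        _ ≤ (C + 1) * (1 / (C + 1) * X) := by
            have : κ ≤ 1 / ((C : ℝ) + 1) := min_le_right _ _
            gcongr
        _ = X := by
            have : (0 : ℝ) < (C : ℝ) + 1 := by positivity
            field_simp
    exact_mod_cast h1
  -- the admissible set
  obtain ⟨ρ, hρ⟩ : ∃ ρ : Fin T₁ → Fin K₁, ρ = fun g => if g = g₁ then i₁ else τ₁ g := ⟨_, rfl⟩
  have hρ1 : ρ g₁ = i₁ := by rw [hρ]; simp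
  have hρ2 : ∀ g, g ≠ g₁ → ρ g = τ₁ g := by
    intro g hg
    rw [hρ]
    simp [hg]
  obtain ⟨H, hHdef⟩ : ∃ H : Finset ℕ, H = univ.image (fun g => h₁ g (ρ g)) := ⟨_, rfl⟩
  have hHK : H.card = T₁ := by
    rw [hHdef, card_image_of_injective, card_univ, Fintype.card_fin]
    intro g g' hgg
    exact (Prod.ext_iff.1 (hh₁i (a₁ := (g, ρ g)) (a₂ := (g', ρ g')) hgg)).1
  have hH𝓗 : H ⊆ 𝓗 := by
    intro z hz
    rw [hHdef] at hz
    obtain ⟨g, -, rfl⟩ := mem_image.1 hz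
    exact hh₁m _ _
  have hHh₀ : h₀ ∈ H := by
    rw [hHdef, ← hz₁, ← hρ1]
    exact mem_image_of_mem (fun g => h₁ g (ρ g)) (mem_univ g₁)
  have hmain' := hmain Y hYY₀ X hYXn hCY hLMM R hRg (by
    intro m hm
    have h2 := hRY m hm
    omega) hRc H hH𝓗 hHK h₀ hHh₀ w (by
    intro m hm j p hp h hh hdv
    have hpp := (mem_filter.1 hp).2
    apply hw' p hpp j h (hH𝓗 hh)
    have h1 : (p : ℤ) ∣ (F j).eval ((m : ℤ) + h) - (F j).eval (v' p + h) := by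
      refine dvd_trans ?_ (sub_dvd_eval_sub ((m : ℤ) + h) (v' p + h) (F j))
      have e1 : (W : ℤ) ∣ (m : ℤ) - v := (Int.natCast_modEq_iff.2 (hmod m hm)).symm.dvd
      have e2 := dvd_add ((hpW p hp).trans e1) (hvp p hp)
      have e3 : (m : ℤ) - v + (v - v' p) = (m : ℤ) + h - (v' p + h) := by ring
      rwa [e3] at e2
    have h3 := dvd_sub (dvd_sub hdv h1) (hw j p hp)
    have e4 : w j + (F j).eval ((m : ℤ) + h) - ((F j).eval ((m : ℤ) + h) - (F j).eval (v' p + h)) -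
        (w j - w' p j) = w' p j + (F j).eval (v' p + h) := by ring
    rwa [e4] at h3)
  refine (mul_le_mul_of_nonneg_right (min_le_left _ _) (by positivity)).trans (hmain'.trans ?_)
  rw [Nat.cast_le]
  apply card_le_card
  intro N hN
  obtain ⟨hN1, hN2, P, hPH, hPc, hcl⟩ := mem_filter.1 hN
  refine mem_filter.2 ⟨hN1, fun j => (hN2 j).1, P, hPH.trans (erase_subset_erase _ hH𝓗), hPc, ?_⟩
  have h1 : (Y : ℝ) / L ^ A ≤ κ₀ * (Y / Real.log Y ^ V.card / L ^ k') := by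
    rw [hVc]
    have h2 : 1 ≤ κ₀ * L := by
      have h3 : 1 / κ₀ ≤ L := by linarith
      rw [div_le_iff₀ hκ₀] at h3
      linarith
    have hL0 : 0 < L := by linarith
    calc (Y : ℝ) / L ^ A ≤ (κ₀ * L) * (Y / L ^ A) := le_mul_of_one_le_left (by positivity) h2
      _ = κ₀ * (Y / L ^ a / L ^ k') := by
          rw [hA, pow_add, pow_add, pow_one]
          field_simp
      _ ≤ κ₀ * (Y / Real.log Y ^ (T₁ * K₁ + 1) / L ^ k') := by gcongr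
  refine h1.trans (hcl.trans ?_)
  rw [Nat.cast_le]
  apply card_le_card
  intro m hm
  obtain ⟨hmR, hp1⟩ := mem_filter.1 hm
  obtain ⟨e1, e2, e3, e4, e5, e6⟩ := hRp m hmR
  refine mem_filter.2 ⟨e1, hRY m hmR, ?_, fun j => (hp1 j).1, fun h hh => ⟨?_, fun j => (hp1 j).2 h hh⟩⟩
  · have h5 := e6 g₁ hS₁
    rw [hσ₁] at h5
    have h6 : (f g₁ i₁).1 * (m : ℤ) + (f g₁ i₁).2 = ((m + h₀ : ℕ) : ℤ) := by
      simp only [hf, one_mul]
      rw [hz₁]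
      push_cast
      ring
    rw [h6, Int.toNat_natCast] at h5
    exact h5
  · obtain ⟨hne, hhH⟩ := mem_erase.1 (hPH hh)
    rw [hHdef] at hhH
    obtain ⟨g, -, hg⟩ := mem_image.1 hhH
    have hgg : g ≠ g₁ := by
      intro h0
      apply hne
      rw [← hg, h0, hρ1, hz₁]
    rw [hρ2 g hgg] at hg
    have h5 := e5 g
    simp only [hf, one_mul] at h5
    rw [hg] at h5
    apply apV_P2 _ h5
    have h8 := hRY m hmR
    have h9 : 2 ≤ m := by omega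
    have h10 : (2 : ℤ) ≤ m := by exact_mod_cast h9
    have h11 : (0 : ℤ) ≤ h := Int.natCast_nonneg h
    linarith

end Pool.Agent.Helper74.FB
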