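import Mathlib
import Pool.Agent.Helper74.FB.PalG
import Pool.Agent.Helper74.FB.JMain
import Pool.Agent.Helper74.FB.JQMain

/-! Several constants `N j` and linear forms `a h * n + t h` of palindromes `n` in a dense set. -/

set_option autoImplicit false

namespace Pool.Agent.Helper74.FB

open Finset Filter Topology
open Pool.Agent.Erdos456
open Pool.Agent.H410R2 (WW)
open Pool.Agent.Helper74.AE (WW_pos)

/-- dispersion of the multiples -/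
theorem dispA {b : ℕ} (hb : 2 ≤ b) (M : ℕ) (a c : ℤ) (d : ℕ) (hd0 : 0 < d) (hd : d ≤ b ^ (2 * M))
    (hdb : d.Coprime b) (hda : d.Coprime a.natAbs) :
    ((((Ico (b ^ (M - 1)) (b ^ M)).filter (fun w => (d : ℤ) ∣ a * (outp b M 0 w : ℤ) - c)).card : ℕ) : ℝ) ≤
      (b : ℝ) ^ (0 + 2) * (Ico (b ^ (M - 1)) (b ^ M)).card / Real.sqrt d := by
  obtain ⟨u, v, huv⟩ : IsCoprime a (d : ℤ) := by
    rw [Int.isCoprime_iff_gcd_eq_one, Int.gcd_comm]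
    exact hda
  refine le_trans ?_ (disp hb M 0 (u * c) d hd0 hd hdb)
  rw [Nat.cast_le]
  apply card_le_card
  intro w hw
  obtain ⟨h1, h2⟩ := mem_filter.1 hw
  refine mem_filter.2 ⟨h1, ?_⟩
  have e1 : (outp b M 0 w : ℤ) - u * c = u * (a * (outp b M 0 w : ℤ) - c) + (v * outp b M 0 w) * d := by
    linear_combination (-(outp b M 0 w : ℤ)) * huv
  rw [e1]
  exact dvd_add (h2.mul_left _) (dvd_mul_left _ _)

/-- the value of the linear form `h` at the palindrome with leading digits `m` and middle digit `y` -/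
def ee (b M y : ℕ) (a t : ℕ → ℤ) (m h : ℕ) : ℤ := a h * ((outp b M 0 m + b ^ M * y : ℕ) : ℤ) + t h

theorem palData (b : ℕ) (hb : 2 ≤ b) (𝓗 : Finset ℕ) (a t : ℕ → ℤ) (ha : ∀ h ∈ 𝓗, a h ≠ 0)
    (E : ℕ) (hE : 1 ≤ E) :
    ∃ C₁ : ℝ, 1 ≤ C₁ ∧ ∃ B₁ : ℕ, ∀ M : ℕ, 1 ≤ M → ∀ y < b,
      (∀ m ∈ Ico (b ^ (M - 1)) (b ^ M), ∀ h ∈ 𝓗, ∀ h' ∈ 𝓗, ∑ m' ∈ Ico (b ^ (M - 1)) (b ^ M),
        GG (ee b M y a t m' h - ee b M y a t m h').natAbs ^ E ≤ C₁ * (b : ℝ) ^ M) ∧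
      (∀ h ∈ 𝓗, ∀ h' ∈ 𝓗, h ≠ h' → ∑ m ∈ Ico (b ^ (M - 1)) (b ^ M),
        GG (ee b M y a t m h - ee b M y a t m h').natAbs ^ E ≤ C₁ * (b : ℝ) ^ M) ∧
      (∀ m ∈ Ico (b ^ (M - 1)) (b ^ M), ∀ h ∈ 𝓗, |ee b M y a t m h| ≤ ((b ^ (2 * M) * B₁ : ℕ) : ℤ)) ∧
      ((Ico (b ^ (M - 1)) (b ^ M)).card : ℝ) ≤ (b : ℝ) ^ M := by
  classical
  have hb0 : 0 < b := by omega
  have hbr : (1 : ℝ) ≤ b := by exact_mod_cast hb0
  obtain ⟨A, hA⟩ : ∃ A : ℕ, ∀ h ∈ 𝓗, (a h).natAbs ≤ A :=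
    ⟨∑ h ∈ 𝓗, (a h).natAbs, fun h hh => single_le_sum (f := fun h => (a h).natAbs) (fun _ _ => Nat.zero_le _) hh⟩
  obtain ⟨T, hT⟩ : ∃ T : ℕ, ∀ h ∈ 𝓗, (t h).natAbs ≤ T :=
    ⟨∑ h ∈ 𝓗, (t h).natAbs, fun h hh => single_le_sum (f := fun h => (t h).natAbs) (fun _ _ => Nat.zero_le _) hh⟩
  obtain ⟨B₁, hB₁⟩ : ∃ B₁ : ℕ, B₁ = 2 * b * A + T + 1 := ⟨_, rfl⟩
  obtain ⟨e₀, he₀⟩ : ∃ e₀ : ℕ, e₀ = b + 2 * B₁ := ⟨_, rfl⟩
  obtain ⟨g, hg⟩ : ∃ g : ℕ, g = b * ((∏ h ∈ 𝓗, (a h).natAbs) *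
      ∏ x ∈ (𝓗 ×ˢ 𝓗).filter (fun x => a x.1 ≠ a x.2), (a x.1 - a x.2).natAbs) := ⟨_, rfl⟩
  have hg0 : 0 < g := by
    rw [hg]
    apply Nat.mul_pos hb0
    apply Nat.mul_pos
    · exact Finset.prod_pos fun h hh => Int.natAbs_pos.2 (ha h hh)
    · exact Finset.prod_pos fun x hx => Int.natAbs_pos.2 (sub_ne_zero.2 (mem_filter.1 hx).2)
  obtain ⟨C₂, hC₂, hmom⟩ := momD E hE e₀ (by omega) g hg0 ((b : ℝ) ^ (0 + 2)) (by positivity)
  obtain ⟨C₃, hC₃⟩ : ∃ C₃ : ℝ, C₃ = ∑ h ∈ 𝓗, ∑ h' ∈ 𝓗, GG (t h - t h').natAbs ^ E := ⟨_, rfl⟩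
  have hGG0 : ∀ z : ℤ, 0 ≤ GG z.natAbs ^ E := fun z => pow_nonneg (GG_nonneg _) _
  have hC₃0 : 0 ≤ C₃ := by
    rw [hC₃]
    exact sum_nonneg fun h _ => sum_nonneg fun h' _ => hGG0 _
  refine ⟨1 + C₂ + C₃, by linarith, B₁, fun M hM y hy => ?_⟩
  obtain ⟨𝓦, h𝓦⟩ : ∃ 𝓦 : Finset ℕ, 𝓦 = Ico (b ^ (M - 1)) (b ^ M) := ⟨_, rfl⟩
  rw [← h𝓦]
  have h𝓦c : (𝓦.card : ℝ) ≤ (b : ℝ) ^ M := by
    have h1 : 𝓦.card = b ^ M - b ^ (M - 1) := by rw [h𝓦, Nat.card_Ico]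
    have : 𝓦.card ≤ b ^ M := by omega
    exact_mod_cast this
  have hout : ∀ w ∈ 𝓦, outp b M 0 w + b ^ M * y ≤ b ^ (2 * M) * (2 * b) := by
    intro w hw
    rw [h𝓦, mem_Ico] at hw
    unfold outp
    have h1 : rv b M w < b ^ (M + 2 * 0 + 1) :=
      (rv_lt hb0 M w).trans_le (Nat.pow_le_pow_right hb0 (by omega))
    have h2 : w * b ^ (M + 2 * 0 + 1) + rv b M w < b ^ (2 * M) * b := by
      calc w * b ^ (M + 2 * 0 + 1) + rv b M w < w * b ^ (M + 2 * 0 + 1) + b ^ (M + 2 * 0 + 1) :=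
            Nat.add_lt_add_left h1 _
        _ = (w + 1) * b ^ (M + 2 * 0 + 1) := by ring
        _ ≤ b ^ M * b ^ (M + 2 * 0 + 1) := Nat.mul_le_mul_right _ hw.2
        _ = b ^ (2 * M) * b := by rw [← pow_add, ← pow_succ]; congr 1; ring
    have h3 : b ^ M * y ≤ b ^ (2 * M) * b :=
      Nat.mul_le_mul (Nat.pow_le_pow_right hb0 (by omega)) hy.le
    linarith
  have heb : ∀ w ∈ 𝓦, ∀ h ∈ 𝓗, |ee b M y a t w h| ≤ ((b ^ (2 * M) * B₁ : ℕ) : ℤ) := by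
    intro w hw h hh
    have h1 := hout w hw
    have h2 : (ee b M y a t w h).natAbs ≤ b ^ (2 * M) * B₁ := by
      unfold ee
      refine (Int.natAbs_add_le _ _).trans ?_
      rw [Int.natAbs_mul, Int.natAbs_natCast]
      have h3 : (a h).natAbs * (outp b M 0 w + b ^ M * y) ≤ A * (b ^ (2 * M) * (2 * b)) :=
        Nat.mul_le_mul (hA h hh) h1
      have h4 : (t h).natAbs ≤ b ^ (2 * M) * T :=
        (hT h hh).trans (Nat.le_mul_of_pos_left _ (by positivity))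
      calc (a h).natAbs * (outp b M 0 w + b ^ M * y) + (t h).natAbs ≤
            A * (b ^ (2 * M) * (2 * b)) + b ^ (2 * M) * T := Nat.add_le_add h3 h4
        _ ≤ A * (b ^ (2 * M) * (2 * b)) + b ^ (2 * M) * T + b ^ (2 * M) := Nat.le_add_right _ _
        _ = b ^ (2 * M) * B₁ := by rw [hB₁]; ring
    rw [Int.abs_eq_natAbs]
    exact_mod_cast h2
  have h4M : (4 : ℕ) ^ M ≤ b ^ (2 * M) := by
    rw [pow_mul]
    apply Nat.pow_le_pow_left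
    nlinarith
  have key : ∀ α : ℤ, α.natAbs ∣ g / b → b * (g / b) = g → ∀ γ : ℤ,
      (∀ w ∈ 𝓦, |α * (outp b M 0 w : ℤ) - γ| ≤ ((b ^ (2 * M) * (2 * B₁) : ℕ) : ℤ)) →
      ∑ w ∈ 𝓦, GG (α * (outp b M 0 w : ℤ) - γ).natAbs ^ E ≤ C₂ * 𝓦.card := by
    intro α hα hgb γ hγ
    refine hmom 𝓦 (fun w => α * (outp b M 0 w : ℤ) - γ) M hM ?_ ?_
    · intro w hw
      have a5 : (α * (outp b M 0 w : ℤ) - γ).natAbs ≤ b ^ (2 * M) * (2 * B₁) := by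
        have := hγ w hw
        rw [Int.abs_eq_natAbs] at this
        exact_mod_cast this
      have a6 : b ^ (2 * M) * (2 * B₁) ≤ 2 ^ (4 * (e₀ * M)) := by
        have c1 : b ≤ 2 ^ e₀ := (Nat.lt_two_pow_self.le).trans (Nat.pow_le_pow_right (by norm_num) (by omega))
        have c2 : 2 * B₁ ≤ 2 ^ e₀ := (Nat.lt_two_pow_self.le).trans (Nat.pow_le_pow_right (by norm_num) (by omega))
        calc b ^ (2 * M) * (2 * B₁) ≤ (2 ^ e₀) ^ (2 * M) * (2 ^ e₀) :=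
              Nat.mul_le_mul (Nat.pow_le_pow_left c1 _) c2
          _ ≤ (2 ^ e₀) ^ (2 * M) * (2 ^ e₀) ^ (2 * M) :=
              Nat.mul_le_mul_left _ (Nat.le_self_pow (by omega) _)
          _ = 2 ^ (4 * (e₀ * M)) := by rw [← pow_add, ← pow_mul]; congr 1; ring
      have a7 : ((2 : ℝ)) ^ (4 * (e₀ * M)) ≤ Real.exp (4 * (e₀ * M)) := by
        have c3 : (2 : ℝ) ≤ Real.exp 1 := by
          have := Real.add_one_le_exp (1 : ℝ)
          linarith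
        calc ((2 : ℝ)) ^ (4 * (e₀ * M)) ≤ Real.exp 1 ^ (4 * (e₀ * M)) :=
              pow_le_pow_left₀ (by norm_num) c3 _
          _ = Real.exp (4 * (e₀ * M)) := by
              rw [← Real.exp_nat_mul]
              push_cast
              ring_nf
      refine le_trans ?_ a7
      exact_mod_cast a5.trans a6
    · intro d hd0 hd4 hdg
      rw [← hgb] at hdg
      have hdb : d.Coprime b := Nat.Coprime.coprime_mul_right_right hdg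
      have hda : d.Coprime α.natAbs :=
        Nat.Coprime.coprime_dvd_right hα (Nat.Coprime.coprime_mul_left_right hdg)
      have h2 := dispA hb M α γ d hd0 (hd4.trans h4M) hdb hda
      rw [← h𝓦] at h2
      refine le_trans ?_ h2
      rw [Nat.cast_le]
      apply card_le_card
      intro w hw
      obtain ⟨hw1, hw2⟩ := mem_filter.1 hw
      exact mem_filter.2 ⟨hw1, Int.natCast_dvd.2 hw2⟩
  have hgb : g / b = (∏ h ∈ 𝓗, (a h).natAbs) *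
      ∏ x ∈ (𝓗 ×ˢ 𝓗).filter (fun x => a x.1 ≠ a x.2), (a x.1 - a x.2).natAbs := by
    rw [hg]
    exact Nat.mul_div_cancel_left _ hb0
  have hgb2 : b * (g / b) = g := by rw [hgb, hg]
  have htri : ∀ m ∈ 𝓦, ∀ m' ∈ 𝓦, ∀ h ∈ 𝓗, ∀ h' ∈ 𝓗,
      |ee b M y a t m' h - ee b M y a t m h'| ≤ ((b ^ (2 * M) * (2 * B₁) : ℕ) : ℤ) := by
    intro m hm m' hm' h hh h' hh'
    have h1 := abs_sub (ee b M y a t m' h) (ee b M y a t m h')
    have h2 := heb m' hm' h hh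
    have h3 := heb m hm h' hh'
    have h4 : ((b ^ (2 * M) * (2 * B₁) : ℕ) : ℤ) = ((b ^ (2 * M) * B₁ : ℕ) : ℤ) + ((b ^ (2 * M) * B₁ : ℕ) : ℤ) := by
      push_cast
      ring
    rw [h4]
    linarith
  have hcc : ∀ s : ℝ, s ≤ C₂ * 𝓦.card → s ≤ (1 + C₂ + C₃) * (b : ℝ) ^ M := by
    intro s hs
    calc s ≤ C₂ * 𝓦.card := hs
      _ ≤ C₂ * (b : ℝ) ^ M := mul_le_mul_of_nonneg_left h𝓦c hC₂.le
      _ ≤ _ := mul_le_mul_of_nonneg_right (by linarith) (by positivity)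
  refine ⟨?_, ?_, heb, h𝓦c⟩
  · intro m hm h hh h' hh'
    apply hcc
    have e1 : ∀ m', ee b M y a t m' h - ee b M y a t m h' = a h * (outp b M 0 m' : ℤ) -
        (ee b M y a t m h' - a h * ((b : ℤ) ^ M * y) - t h) := by
      intro m'
      unfold ee
      push_cast
      ring
    have h1 := key (a h) (by
      rw [hgb]
      exact (dvd_prod_of_mem (fun h => (a h).natAbs) hh).mul_right _) hgb2
      (ee b M y a t m h' - a h * ((b : ℤ) ^ M * y) - t h) (by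
      intro w hw
      rw [← e1]
      exact htri m hm w hw h hh h' hh')
    refine le_trans (le_of_eq ?_) h1
    exact sum_congr rfl fun w _ => by rw [e1]
  · intro h hh h' hh' hne
    by_cases haa : a h = a h'
    · have e1 : ∀ m, ee b M y a t m h - ee b M y a t m h' = t h - t h' := by
        intro m
        unfold ee
        rw [haa]
        ring
      have h2 : GG (t h - t h').natAbs ^ E ≤ C₃ := by
        rw [hC₃]
        have h3 := single_le_sum (f := fun h => ∑ h' ∈ 𝓗, GG (t h - t h').natAbs ^ E)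
          (fun h _ => sum_nonneg fun h' _ => hGG0 _) hh
        have h4 := single_le_sum (f := fun h' => GG (t h - t h').natAbs ^ E) (fun h' _ => hGG0 _) hh'
        exact h4.trans h3
      calc ∑ m ∈ 𝓦, GG (ee b M y a t m h - ee b M y a t m h').natAbs ^ E
          = ∑ m ∈ 𝓦, GG (t h - t h').natAbs ^ E := sum_congr rfl fun m _ => by rw [e1]
        _ = 𝓦.card * GG (t h - t h').natAbs ^ E := by rw [sum_const, nsmul_eq_mul]
        _ ≤ (b : ℝ) ^ M * C₃ := mul_le_mul h𝓦c h2 (hGG0 _) (by positivity)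
        _ ≤ (1 + C₂ + C₃) * (b : ℝ) ^ M := by
            rw [mul_comm]
            exact mul_le_mul_of_nonneg_right (by linarith) (by positivity)
    · apply hcc
      have e1 : ∀ m, ee b M y a t m h - ee b M y a t m h' = (a h - a h') * (outp b M 0 m : ℤ) -
          (-((a h - a h') * ((b : ℤ) ^ M * y) + (t h - t h'))) := by
        intro m
        unfold ee
        push_cast
        ring
      have h1 := key (a h - a h') (by
        rw [hgb]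
        exact (dvd_prod_of_mem (fun x : ℕ × ℕ => (a x.1 - a x.2).natAbs)
          (mem_filter.2 ⟨mem_product.2 ⟨hh, hh'⟩, haa⟩ : (h, h') ∈ _)).mul_left _) hgb2
        (-((a h - a h') * ((b : ℤ) ^ M * y) + (t h - t h'))) (by
        intro w hw
        rw [← e1]
        exact htri w hw w hw h hh h' hh')
      refine le_trans (le_of_eq ?_) h1
      exact sum_congr rfl fun w _ => by rw [e1]

theorem palBad {b : ℕ} (hb : 0 < b) (M y : ℕ) (𝓗 : Finset ℕ) (a t : ℕ → ℤ) (ha : ∀ h ∈ 𝓗, a h ≠ 0)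
    (R : Finset ℕ) (m : ℕ) [DecidablePred (fun m' => ∃ h ∈ 𝓗, ∃ h' ∈ 𝓗, ee b M y a t m h = ee b M y a t m' h')] :
    ((R.filter (fun m' => ∃ h ∈ 𝓗, ∃ h' ∈ 𝓗, ee b M y a t m h = ee b M y a t m' h')).card : ℝ) ≤
      (𝓗.card : ℝ) ^ 2 := by
  classical
  have h1 : R.filter (fun m' => ∃ h ∈ 𝓗, ∃ h' ∈ 𝓗, ee b M y a t m h = ee b M y a t m' h') ⊆
      (𝓗 ×ˢ 𝓗).image (fun x => ((ee b M y a t m x.1 - t x.2) / a x.2 - (b : ℤ) ^ M * y).toNat / b ^ (M + 2 * 0 + 1)) := by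
    intro m' hm'
    obtain ⟨-, h, hh, h', hh', heq⟩ := mem_filter.1 hm'
    refine mem_image.2 ⟨(h, h'), mem_product.2 ⟨hh, hh'⟩, ?_⟩
    have e1 : (ee b M y a t m h - t h') / a h' - (b : ℤ) ^ M * y = ((outp b M 0 m' : ℕ) : ℤ) := by
      rw [heq]
      unfold ee
      rw [add_sub_cancel_right, Int.mul_ediv_cancel_left _ (ha h' hh')]
      push_cast
      ring
    simp only
    rw [e1, Int.toNat_natCast, outp_div hb]
  have h2 := (card_le_card h1).trans card_image_le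
  rw [card_product] at h2
  rw [sq]
  exact_mod_cast h2

/-- a residue class of the `m` and a class for the `N j` -/
theorem palClass (b M y D : ℕ) (a t : ℕ → ℤ) (H : Finset ℕ)
    (hadm : ∀ p : ℕ, p.Prime → ∀ u : ℤ, ∃ w : ℤ, ∀ h ∈ H, ¬ (p : ℤ) ∣ w + (a h * u + t h)) (R₁ : Finset ℕ) :
    ∃ R ⊆ R₁, (R₁.card : ℝ) / WW D ≤ R.card ∧ ∃ v : ℤ, ∀ m ∈ R, ∀ p ∈ (Icc 1 D).filter Nat.Prime, ∀ h ∈ H,
      ¬ (p : ℤ) ∣ v + ee b M y a t m h := by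
  classical
  have hW : 0 < WW D := WW_pos D
  have hWr : (0 : ℝ) < WW D := by exact_mod_cast hW
  obtain ⟨u, -, hu⟩ := exists_le_card_fiber_of_nsmul_le_card_of_maps_to (s := R₁) (t := range (WW D))
    (f := fun w => (outp b M 0 w + b ^ M * y) % WW D) (b := (R₁.card : ℝ) / WW D)
    (fun m _ => mem_range.2 (Nat.mod_lt _ hW)) ⟨0, mem_range.2 hW⟩ (by
      rw [card_range, nsmul_eq_mul]
      apply le_of_eq
      field_simp)
  refine ⟨_, filter_subset _ _, hu, ?_⟩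
  have h1 : ∀ p : ℕ, ∃ w : ℤ, p ∈ (Icc 1 D).filter Nat.Prime → ∀ h ∈ H, ¬ (p : ℤ) ∣ w + (a h * u + t h) := by
    intro p
    by_cases hp : p ∈ (Icc 1 D).filter Nat.Prime
    · obtain ⟨w, hw⟩ := hadm p (mem_filter.1 hp).2 u
      exact ⟨w, fun _ => hw⟩
    · exact ⟨0, fun h0 => absurd h0 hp⟩
  choose w hw using h1
  obtain ⟨v, hv⟩ := crt D w
  refine ⟨v, fun m hm p hp h hh hd => hw p hp h hh ?_⟩
  have hmu : (outp b M 0 m + b ^ M * y) % WW D = u := (mem_filter.1 hm).2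
  have h2 : (p : ℤ) ∣ ((WW D : ℕ) : ℤ) := by
    rw [WW]
    exact_mod_cast dvd_prod_of_mem (fun p : ℕ => p) hp
  have h3 : (p : ℤ) ∣ ((outp b M 0 m + b ^ M * y : ℕ) : ℤ) - u := by
    refine h2.trans ?_
    rw [← hmu, Int.natCast_mod]
    exact Int.dvd_self_sub_emod
  have h4 := dvd_sub (dvd_sub hd (h3.mul_left (a h))) (hv p hp)
  have e4 : v + ee b M y a t m h - a h * (((outp b M 0 m + b ^ M * y : ℕ) : ℤ) - u) - (v - w p) =
      w p + (a h * u + t h) := by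
    unfold ee
    ring
  rwa [e4] at h4

theorem palInj {b : ℕ} (hb : 2 ≤ b) (𝓗 : Finset ℕ) (a t : ℕ → ℤ)
    (hinj : ∀ h ∈ 𝓗, ∀ h' ∈ 𝓗, a h = a h' → t h = t h' → h = h') :
    ∃ T : ℕ, ∀ M y : ℕ, 1 ≤ M → T < b ^ M → ∀ m ∈ Ico (b ^ (M - 1)) (b ^ M), ∀ h ∈ 𝓗, ∀ h' ∈ 𝓗,
      ee b M y a t m h = ee b M y a t m h' → h = h' := by
  classical
  have hb0 : 0 < b := by omega
  refine ⟨∑ h ∈ 𝓗, ∑ h' ∈ 𝓗, (t h' - t h).natAbs, fun M y hM hT m hm h hh h' hh' heq => ?_⟩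
  by_cases haa : a h = a h'
  · refine hinj h hh h' hh' haa ?_
    unfold ee at heq
    rw [haa] at heq
    linarith
  · exfalso
    have h1 : (a h - a h') * ((outp b M 0 m + b ^ M * y : ℕ) : ℤ) = t h' - t h := by
      unfold ee at heq
      linarith
    have h2 : (t h' - t h).natAbs ≤ ∑ h ∈ 𝓗, ∑ h' ∈ 𝓗, (t h' - t h).natAbs := by
      have h3 := single_le_sum (f := fun h => ∑ h' ∈ 𝓗, (t h' - t h).natAbs) (fun h _ => Nat.zero_le _) hh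
      have h4 := single_le_sum (f := fun h' => (t h' - t h).natAbs) (fun h' _ => Nat.zero_le _) hh'
      exact h4.trans h3
    have h3 : outp b M 0 m + b ^ M * y ≤ (t h' - t h).natAbs := by
      rw [← h1, Int.natAbs_mul, Int.natAbs_natCast]
      exact Nat.le_mul_of_pos_left _ (Int.natAbs_pos.2 (sub_ne_zero.2 haa))
    have h4 : b ^ M ≤ outp b M 0 m := by
      unfold outp
      have h5 := (mem_Ico.1 hm).1
      have h6 : 1 ≤ m := le_trans (Nat.one_le_pow _ _ hb0) h5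
      calc b ^ M ≤ b ^ (M + 2 * 0 + 1) := Nat.pow_le_pow_right hb0 (by omega)
        _ ≤ m * b ^ (M + 2 * 0 + 1) := Nat.le_mul_of_pos_left _ h6
        _ ≤ _ := Nat.le_add_right _ _
    omega

open Classical in
theorem palDenseQ (J r : ℕ) : ∃ K B : ℕ, ∀ b : ℕ, 2 ≤ b → ∀ 𝓗 : Finset ℕ, K ≤ 𝓗.card → ∀ a t : ℕ → ℤ,
    (∀ h ∈ 𝓗, a h ≠ 0) → (∀ h ∈ 𝓗, ∀ h' ∈ 𝓗, a h = a h' → t h = t h' → h = h') →
    (∀ p : ℕ, p.Prime → ∀ u : ℤ, ∃ w : ℤ, ∀ h ∈ 𝓗, ¬ (p : ℤ) ∣ w + (a h * u + t h)) → ∀ h₀ ∈ 𝓗,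
    ∀ c : ℝ, 0 < c → ∃ κ : ℝ, 0 < κ ∧ ∃ X₀ : ℕ, ∀ X : ℕ, X₀ ≤ X → ∀ M : ℕ, 1 ≤ M →
    Real.log X ^ B ≤ (b : ℝ) ^ M → (b : ℝ) ^ (2 * M) ≤ κ * X →
      ∀ y < b, ∀ R₁ ⊆ Ico (b ^ (M - 1)) (b ^ M), c * (b : ℝ) ^ M ≤ R₁.card →
      κ * (X : ℝ) ^ J ≤ (((Fintype.piFinset (fun _ : Fin J => Icc 1 X)).filter (fun N =>
        (∀ j, X ≤ 32 * N j) ∧ ∃ P ⊆ 𝓗.erase h₀, P.card = r ∧ (b : ℝ) ^ M / Real.log X ^ B ≤
          ((R₁.filter (fun w => ∀ j, PrV ((N j : ℤ) + ee b M y a t w h₀) ∧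
            ∀ h ∈ P, ApV 2 ((N j : ℤ) + ee b M y a t w h))).card : ℝ))).card : ℝ) := by
  obtain ⟨K, k, D₀, hrK, habs⟩ := absJQ J r
  obtain ⟨k', hk'⟩ : ∃ k' : ℕ, k' = ∑ j, k j := ⟨_, rfl⟩
  refine ⟨K, k' + 1, fun b hb 𝓗 h𝓗 a t ha hinj hadm h₀ hh₀ c hc => ?_⟩
  obtain ⟨H, hH1, hHsub, hHK⟩ := exists_subsuperset_card_eq (s := {h₀}) (t := 𝓗) (n := K)
    (singleton_subset_iff.2 hh₀) (by rw [card_singleton]; omega) h𝓗
  have hHh₀ : h₀ ∈ H := hH1 (mem_singleton_self _)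
  have hb0 : 0 < b := by omega
  have hE : 1 ≤ EJ k := by unfold EJ; omega
  have hW : 0 < WW D₀ := WW_pos D₀
  have hWr : (0 : ℝ) < WW D₀ := by exact_mod_cast hW
  obtain ⟨C₁, hC₁1, B₁, hdata⟩ := palData b hb 𝓗 a t ha (EJ k) hE
  obtain ⟨T, hT⟩ := palInj hb 𝓗 a t hinj
  obtain ⟨κ₀, hκ₀, X₁, hmain⟩ := habs D₀ le_rfl (c / WW D₀) C₁ ((𝓗.card : ℝ) ^ 2) (by positivity)
    hC₁1 (by positivity)
  obtain ⟨κ, hκ⟩ : ∃ κ : ℝ, κ = min κ₀ (1 / (64 * B₁ + 1)) := ⟨_, rfl⟩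
  have hκpos : 0 < κ := by rw [hκ]; exact lt_min hκ₀ (by positivity)
  have tN : Tendsto (fun N : ℕ => (N : ℝ)) atTop atTop := tendsto_natCast_atTop_atTop
  have hlog : Tendsto (fun N : ℕ => Real.log (N : ℝ)) atTop atTop := Real.tendsto_log_atTop.comp tN
  obtain ⟨X₀, hX₀⟩ := eventually_atTop.1
    ((hlog.eventually_ge_atTop (1 / κ₀ + T + 3)).and (eventually_ge_atTop (X₁ + 3)))
  refine ⟨κ, hκpos, X₀, fun X hX M hM1 hY1 hY2 y hy R₁ hR₁ hcard => ?_⟩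
  obtain ⟨hX1, hX3⟩ := hX₀ X hX
  have hX0 : (0 : ℝ) < X := by exact_mod_cast (by omega : 0 < X)
  have h1κ : 0 ≤ 1 / κ₀ := by positivity
  have hTnn : (0 : ℝ) ≤ T := Nat.cast_nonneg _
  obtain ⟨L, hL⟩ : ∃ L : ℝ, L = Real.log X := ⟨_, rfl⟩
  rw [← hL] at hX1 hY1 ⊢
  have hL3 : 3 ≤ L := by linarith
  have hLY : L ≤ (b : ℝ) ^ M := by
    refine le_trans ?_ hY1
    calc L = L ^ 1 := (pow_one L).symm
      _ ≤ L ^ (k' + 1) := pow_le_pow_right₀ (by linarith) (by omega)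
  have hTM : T < b ^ M := by
    have : (T : ℝ) < ((b ^ M : ℕ) : ℝ) := by
      push_cast
      linarith
    exact_mod_cast this
  have hLMM : L ^ k' ≤ (b : ℝ) ^ M :=
    (pow_le_pow_right₀ (by linarith) (by omega)).trans hY1
  have hCY : 64 * (b ^ (2 * M) * B₁) ≤ X := by
    have h1 : ((64 * (b ^ (2 * M) * B₁) : ℕ) : ℝ) ≤ X := by
      push_cast
      calc (64 : ℝ) * ((b : ℝ) ^ (2 * M) * B₁) ≤ (64 * B₁ + 1) * (b : ℝ) ^ (2 * M) := by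
            have : (0 : ℝ) ≤ (b : ℝ) ^ (2 * M) := by positivity
            nlinarith
        _ ≤ (64 * B₁ + 1) * (κ * X) := by gcongr
        _ ≤ (64 * B₁ + 1) * (1 / (64 * B₁ + 1) * X) := by
            have : κ ≤ 1 / (64 * (B₁ : ℝ) + 1) := by rw [hκ]; exact min_le_right _ _
            gcongr
        _ = X := by
            have : (0 : ℝ) < 64 * (B₁ : ℝ) + 1 := by positivity
            field_simp
    exact_mod_cast h1
  obtain ⟨R, hRR₁, hRc, v, hv⟩ := palClass b M y D₀ a t H (fun p hp u => by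
    obtain ⟨w, hw⟩ := hadm p hp u
    exact ⟨w, fun h hh => hw h (hHsub hh)⟩) R₁
  obtain ⟨d1, d2, d3, d4⟩ := hdata M hM1 y hy
  have hR𝓦 : R ⊆ Ico (b ^ (M - 1)) (b ^ M) := hRR₁.trans hR₁
  have hGG0 : ∀ z : ℤ, 0 ≤ GG z.natAbs ^ EJ k := fun z => pow_nonneg (GG_nonneg _) _
  have hbM0 : (0 : ℝ) < (b : ℝ) ^ M := by positivity
  have hm := hmain X (by omega) H hHK h₀ hHh₀ R (fun m _ h => ee b M y a t m h)
    (fun m m' => ∃ h ∈ 𝓗, ∃ h' ∈ 𝓗, ee b M y a t m h = ee b M y a t m' h')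
    ((b : ℝ) ^ M) hbM0
    (fun m hm j h hh h' hh' heq => hT M y hM1 hTM m (hR𝓦 hm) h (hHsub hh) h' (hHsub hh') heq)
    (fun m hm m' hm' hb' j h hh h' hh' heq => hb' ⟨h, hHsub hh, h', hHsub hh', heq⟩)
    (fun m _ => by convert palBad hb0 M y 𝓗 a t ha R m)
    (((Nat.cast_le (α := ℝ)).2 (card_le_card hR𝓦)).trans (d4.trans (le_mul_of_one_le_left hbM0.le hC₁1)))
    (by
      refine le_trans ?_ hRc
      rw [div_mul_eq_mul_div]
      exact div_le_div_of_nonneg_right hcard hWr.le)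
    (fun j h hh h' hh' hne => le_trans (sum_le_sum_of_subset_of_nonneg hR𝓦 fun m _ _ => hGG0 _)
      (d2 h (hHsub hh) h' (hHsub hh') hne))
    (fun m hm j h hh h' hh' => le_trans (sum_le_sum_of_subset_of_nonneg hR𝓦 fun m _ _ => hGG0 _)
      (d1 m (hR𝓦 hm) h (hHsub hh) h' (hHsub hh')))
    (by rw [← hL, ← hk']; exact hLMM)
    (fun m hm j h hh => by
      have h1 := d3 m (hR𝓦 hm) h (hHsub hh)
      have h2 : ((64 * (b ^ (2 * M) * B₁) : ℕ) : ℤ) ≤ (X : ℤ) := by exact_mod_cast hCY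
      push_cast at h1 h2
      linarith) (fun _ => v) (fun m hm j p hp h hh => hv m hm p hp h hh)
  refine (mul_le_mul_of_nonneg_right (by rw [hκ]; exact min_le_left _ _) (by positivity)).trans (hm.trans ?_)
  rw [Nat.cast_le]
  apply card_le_card
  intro N hN
  obtain ⟨hN1, hN2, P, hP, hPc, hcl⟩ := mem_filter.1 hN
  refine mem_filter.2 ⟨hN1, fun j => (hN2 j).1, P, hP.trans (erase_subset_erase _ hHsub), hPc, ?_⟩
  have h1 : (b : ℝ) ^ M / L ^ (k' + 1) ≤ κ₀ * ((b : ℝ) ^ M / L ^ k') := by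
    have h2 : 1 ≤ κ₀ * L := by
      have h3 : 1 / κ₀ ≤ L := by linarith
      rw [div_le_iff₀ hκ₀] at h3
      linarith
    have hL0 : 0 < L := by linarith
    calc (b : ℝ) ^ M / L ^ (k' + 1) ≤ (κ₀ * L) * ((b : ℝ) ^ M / L ^ (k' + 1)) :=
          le_mul_of_one_le_left (by positivity) h2
      _ = κ₀ * ((b : ℝ) ^ M / L ^ k') := by
          rw [pow_add, pow_one]
          field_simp
  rw [← hL, ← hk'] at hcl
  refine h1.trans (hcl.trans ?_)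
  rw [Nat.cast_le]
  apply card_le_card
  intro m hm
  obtain ⟨hmR, hp1⟩ := mem_filter.1 hm
  exact mem_filter.2 ⟨hRR₁ hmR, hp1⟩

open Classical in
theorem palDenseJ (J r : ℕ) (hr : 1 ≤ r) : ∃ K B : ℕ, ∀ b : ℕ, 2 ≤ b → ∀ 𝓗 : Finset ℕ, K ≤ 𝓗.card →
    ∀ a t : ℕ → ℤ, (∀ h ∈ 𝓗, a h ≠ 0) → (∀ h ∈ 𝓗, ∀ h' ∈ 𝓗, a h = a h' → t h = t h' → h = h') →
    (∀ p : ℕ, p.Prime → ∀ u : ℤ, ∃ w : ℤ, ∀ h ∈ 𝓗, ¬ (p : ℤ) ∣ w + (a h * u + t h)) →
    ∀ c : ℝ, 0 < c → ∃ κ : ℝ, 0 < κ ∧ ∃ X₀ : ℕ, ∀ X : ℕ, X₀ ≤ X → ∀ M : ℕ, 1 ≤ M →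
    Real.log X ^ B ≤ (b : ℝ) ^ M → (b : ℝ) ^ (2 * M) ≤ κ * X →
      ∀ y < b, ∀ R₁ ⊆ Ico (b ^ (M - 1)) (b ^ M), c * (b : ℝ) ^ M ≤ R₁.card →
      κ * (X : ℝ) ^ J ≤ (((Fintype.piFinset (fun _ : Fin J => Icc 1 X)).filter (fun N =>
        (∀ j, X ≤ 32 * N j) ∧ ∃ P ⊆ 𝓗, P.card = r ∧ (b : ℝ) ^ M / Real.log X ^ B ≤
          ((R₁.filter (fun w => ∀ j, ∀ h ∈ P, PrV ((N j : ℤ) + ee b M y a t w h))).card : ℝ))).card : ℝ) := by
  obtain ⟨K, k, D₀, hrK, habs⟩ := absJ J r hr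
  obtain ⟨k', hk'⟩ : ∃ k' : ℕ, k' = ∑ j, k j := ⟨_, rfl⟩
  refine ⟨K, k' + 1, fun b hb 𝓗 h𝓗 a t ha hinj hadm c hc => ?_⟩
  obtain ⟨H, hHsub, hHK⟩ := exists_subset_card_eq h𝓗
  have hb0 : 0 < b := by omega
  have hE : 1 ≤ EJ k := by unfold EJ; omega
  have hW : 0 < WW D₀ := WW_pos D₀
  have hWr : (0 : ℝ) < WW D₀ := by exact_mod_cast hW
  obtain ⟨C₁, hC₁1, B₁, hdata⟩ := palData b hb 𝓗 a t ha (EJ k) hE
  obtain ⟨T, hT⟩ := palInj hb 𝓗 a t hinj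
  obtain ⟨κ₀, hκ₀, X₁, hmain⟩ := habs D₀ le_rfl (c / WW D₀) C₁ ((𝓗.card : ℝ) ^ 2) (by positivity)
    hC₁1 (by positivity)
  obtain ⟨κ, hκ⟩ : ∃ κ : ℝ, κ = min κ₀ (1 / (64 * B₁ + 1)) := ⟨_, rfl⟩
  have hκpos : 0 < κ := by rw [hκ]; exact lt_min hκ₀ (by positivity)
  have tN : Tendsto (fun N : ℕ => (N : ℝ)) atTop atTop := tendsto_natCast_atTop_atTop
  have hlog : Tendsto (fun N : ℕ => Real.log (N : ℝ)) atTop atTop := Real.tendsto_log_atTop.comp tN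
  obtain ⟨X₀, hX₀⟩ := eventually_atTop.1
    ((hlog.eventually_ge_atTop (1 / κ₀ + T + 3)).and (eventually_ge_atTop (X₁ + 3)))
  refine ⟨κ, hκpos, X₀, fun X hX M hM1 hY1 hY2 y hy R₁ hR₁ hcard => ?_⟩
  obtain ⟨hX1, hX3⟩ := hX₀ X hX
  have hX0 : (0 : ℝ) < X := by exact_mod_cast (by omega : 0 < X)
  have h1κ : 0 ≤ 1 / κ₀ := by positivity
  have hTnn : (0 : ℝ) ≤ T := Nat.cast_nonneg _
  obtain ⟨L, hL⟩ : ∃ L : ℝ, L = Real.log X := ⟨_, rfl⟩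
  rw [← hL] at hX1 hY1 ⊢
  have hL3 : 3 ≤ L := by linarith
  have hLY : L ≤ (b : ℝ) ^ M := by
    refine le_trans ?_ hY1
    calc L = L ^ 1 := (pow_one L).symm
      _ ≤ L ^ (k' + 1) := pow_le_pow_right₀ (by linarith) (by omega)
  have hTM : T < b ^ M := by
    have : (T : ℝ) < ((b ^ M : ℕ) : ℝ) := by
      push_cast
      linarith
    exact_mod_cast this
  have hLMM : L ^ k' ≤ (b : ℝ) ^ M :=
    (pow_le_pow_right₀ (by linarith) (by omega)).trans hY1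
  have hCY : 64 * (b ^ (2 * M) * B₁) ≤ X := by
    have h1 : ((64 * (b ^ (2 * M) * B₁) : ℕ) : ℝ) ≤ X := by
      push_cast
      calc (64 : ℝ) * ((b : ℝ) ^ (2 * M) * B₁) ≤ (64 * B₁ + 1) * (b : ℝ) ^ (2 * M) := by
            have : (0 : ℝ) ≤ (b : ℝ) ^ (2 * M) := by positivity
            nlinarith
        _ ≤ (64 * B₁ + 1) * (κ * X) := by gcongr
        _ ≤ (64 * B₁ + 1) * (1 / (64 * B₁ + 1) * X) := by
            have : κ ≤ 1 / (64 * (B₁ : ℝ) + 1) := by rw [hκ]; exact min_le_right _ _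
            gcongr
        _ = X := by
            have : (0 : ℝ) < 64 * (B₁ : ℝ) + 1 := by positivity
            field_simp
    exact_mod_cast h1
  obtain ⟨R, hRR₁, hRc, v, hv⟩ := palClass b M y D₀ a t H (fun p hp u => by
    obtain ⟨w, hw⟩ := hadm p hp u
    exact ⟨w, fun h hh => hw h (hHsub hh)⟩) R₁
  obtain ⟨d1, d2, d3, d4⟩ := hdata M hM1 y hy
  have hR𝓦 : R ⊆ Ico (b ^ (M - 1)) (b ^ M) := hRR₁.trans hR₁
  have hGG0 : ∀ z : ℤ, 0 ≤ GG z.natAbs ^ EJ k := fun z => pow_nonneg (GG_nonneg _) _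
  have hbM0 : (0 : ℝ) < (b : ℝ) ^ M := by positivity
  have hm := hmain X (by omega) H hHK R (fun m _ h => ee b M y a t m h)
    (fun m m' => ∃ h ∈ 𝓗, ∃ h' ∈ 𝓗, ee b M y a t m h = ee b M y a t m' h')
    ((b : ℝ) ^ M) hbM0
    (fun m hm j h hh h' hh' heq => hT M y hM1 hTM m (hR𝓦 hm) h (hHsub hh) h' (hHsub hh') heq)
    (fun m hm m' hm' hb' j h hh h' hh' heq => hb' ⟨h, hHsub hh, h', hHsub hh', heq⟩)
    (fun m _ => by convert palBad hb0 M y 𝓗 a t ha R m)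
    (((Nat.cast_le (α := ℝ)).2 (card_le_card hR𝓦)).trans (d4.trans (le_mul_of_one_le_left hbM0.le hC₁1)))
    (by
      refine le_trans ?_ hRc
      rw [div_mul_eq_mul_div]
      exact div_le_div_of_nonneg_right hcard hWr.le)
    (fun j h hh h' hh' hne => le_trans (sum_le_sum_of_subset_of_nonneg hR𝓦 fun m _ _ => hGG0 _)
      (d2 h (hHsub hh) h' (hHsub hh') hne))
    (fun m hm j h hh h' hh' => le_trans (sum_le_sum_of_subset_of_nonneg hR𝓦 fun m _ _ => hGG0 _)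
      (d1 m (hR𝓦 hm) h (hHsub hh) h' (hHsub hh')))
    (by rw [← hL, ← hk']; exact hLMM)
    (fun m hm j h hh => by
      have h1 := d3 m (hR𝓦 hm) h (hHsub hh)
      have h2 : ((64 * (b ^ (2 * M) * B₁) : ℕ) : ℤ) ≤ (X : ℤ) := by exact_mod_cast hCY
      push_cast at h1 h2
      linarith) (fun _ => v) (fun m hm j p hp h hh => hv m hm p hp h hh)
  refine (mul_le_mul_of_nonneg_right (by rw [hκ]; exact min_le_left _ _) (by positivity)).trans (hm.trans ?_)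
  rw [Nat.cast_le]
  apply card_le_card
  intro N hN
  obtain ⟨hN1, hN2, P, hP, hPc, hcl⟩ := mem_filter.1 hN
  refine mem_filter.2 ⟨hN1, fun j => (hN2 j).1, P, hP.trans hHsub, hPc, ?_⟩
  have h1 : (b : ℝ) ^ M / L ^ (k' + 1) ≤ κ₀ * ((b : ℝ) ^ M / L ^ k') := by
    have h2 : 1 ≤ κ₀ * L := by
      have h3 : 1 / κ₀ ≤ L := by linarith
      rw [div_le_iff₀ hκ₀] at h3
      linarith
    have hL0 : 0 < L := by linarith
    calc (b : ℝ) ^ M / L ^ (k' + 1) ≤ (κ₀ * L) * ((b : ℝ) ^ M / L ^ (k' + 1)) :=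
          le_mul_of_one_le_left (by positivity) h2
      _ = κ₀ * ((b : ℝ) ^ M / L ^ k') := by
          rw [pow_add, pow_one]
          field_simp
  rw [← hL, ← hk'] at hcl
  refine h1.trans (hcl.trans ?_)
  rw [Nat.cast_le]
  apply card_le_card
  intro m hm
  obtain ⟨hmR, hp1⟩ := mem_filter.1 hm
  exact mem_filter.2 ⟨hRR₁ hmR, hp1⟩

end Pool.Agent.Helper74.FB
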