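import Mathlib
import Pool.Agent.Helper74.FB.Pal

/-! Palindromes with `2 N + 1` digits are given by their leading digits and the middle digit. -/

set_option autoImplicit false

namespace Pool.Agent.Helper74.FB

open Finset

theorem eq_of_digits {b : ℕ} (hb : 0 < b) : ∀ N x y : ℕ, x < b ^ N → y < b ^ N →
    (∀ i < N, x / b ^ i % b = y / b ^ i % b) → x = y
  | 0, x, y, hx, hy, _ => by
    rw [pow_zero] at hx hy
    omega
  | N + 1, x, y, hx, hy, h => by
    have h0 := h 0 (by omega)
    rw [pow_zero, Nat.div_one, Nat.div_one] at h0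
    have h1 : x / b = y / b := by
      apply eq_of_digits hb N
      · rw [Nat.div_lt_iff_lt_mul hb, ← pow_succ]
        exact hx
      · rw [Nat.div_lt_iff_lt_mul hb, ← pow_succ]
        exact hy
      · intro i hi
        have h2 := h (i + 1) (by omega)
        rw [pow_succ', ← Nat.div_div_eq_div_mul, ← Nat.div_div_eq_div_mul] at h2
        exact h2
    rw [← Nat.div_add_mod x b, ← Nat.div_add_mod y b, h1, h0]

theorem pal_inv {b : ℕ} (hb : 2 ≤ b) (N n : ℕ) (h1 : b ^ (2 * N) ≤ n) (h2 : n < b ^ (2 * N + 1))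
    (h3 : (Nat.digits b n).reverse = Nat.digits b n) :
    n = outp b N 0 (n / b ^ (N + 1)) + b ^ N * (n / b ^ N % b) := by
  have hb0 : 0 < b := by omega
  have hn : n ≠ 0 := by
    have : 0 < b ^ (2 * N) := by positivity
    omega
  have hlen : (Nat.digits b n).length = 2 * N + 1 := by
    rw [Nat.digits_len b n hb hn, Nat.log_eq_of_pow_le_of_lt_pow h1 h2]
  have e1 : ∀ j (hj : j < (Nat.digits b n).length), (Nat.digits b n)[j] = n / b ^ j % b := by
    intro j hj
    have := Nat.getD_digits n j hb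
    rw [List.getD_eq_getElem _ _ hj] at this
    exact this
  have hd : ∀ i ≤ 2 * N, n / b ^ i % b = n / b ^ (2 * N - i) % b := by
    intro i hi
    have hi1 : i < (Nat.digits b n).length := by omega
    have hi2 : 2 * N - i < (Nat.digits b n).length := by omega
    rw [← e1 i hi1, ← e1 (2 * N - i) hi2]
    have h4 : (Nat.digits b n)[i] = (Nat.digits b n).reverse[i]'(by rw [List.length_reverse]; exact hi1) := by
      congr 1
      exact h3.symm
    rw [h4, List.getElem_reverse]
    congr 1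
    omega
  -- `n` is the palindrome with leading digits `n / b ^ N`
  have e2 : n = palN b N (n / b ^ N) := by
    have hmod : n % b ^ N = rv b N (n / b ^ N / b) := by
      apply eq_of_digits hb0 N _ _ (Nat.mod_lt _ (by positivity)) (rv_lt hb0 _ _)
      intro i hi
      rw [rv_digit hb0 N _ i hi]
      have e3 : n % b ^ N / b ^ i % b = n / b ^ i % b := by
        have e4 : b ^ N = b ^ i * b ^ (N - i) := by rw [← pow_add]; congr 1; omega
        rw [e4, Nat.mod_mul_right_div_self]
        have e5 : b ^ (N - i) = b * b ^ (N - i - 1) := by rw [← pow_succ']; congr 1; omega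
        rw [e5, Nat.mod_mul_right_mod]
      rw [e3, hd i (by omega), Nat.div_div_eq_div_mul, Nat.div_div_eq_div_mul, ← pow_succ', ← pow_add]
      congr 3
      omega
    unfold palN
    rw [← hmod, Nat.mul_comm]
    exact (Nat.div_add_mod n (b ^ N)).symm
  have hy : n / b ^ N % b < b ^ (0 + 1) := by
    rw [Nat.zero_add, pow_one]
    exact Nat.mod_lt _ hb0
  have e3 := palN_eq hb0 N 0 (n / b ^ (N + 1)) (n / b ^ N % b) hy
  have e4 : inn b 0 (n / b ^ N % b) = n / b ^ N % b := by
    unfold inn rv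
    rw [pow_zero, mul_one, Nat.add_zero]
  have e5 : n / b ^ (N + 1) * b ^ (0 + 1) + n / b ^ N % b = n / b ^ N := by
    rw [pow_succ, ← Nat.div_div_eq_div_mul, Nat.zero_add, pow_one, Nat.mul_comm]
    exact Nat.div_add_mod (n / b ^ N) b
  rw [e5, Nat.add_zero, e4] at e3
  rw [← e3]
  exact e2

/-- a dense set of palindromes contains a dense set with a fixed middle digit -/
theorem pal_pigeon {b : ℕ} (hb : 2 ≤ b) (N : ℕ) (hN : 1 ≤ N) (𝒬 : Finset ℕ)
    (h𝒬 : ∀ n ∈ 𝒬, b ^ (2 * N) ≤ n ∧ n < b ^ (2 * N + 1) ∧ (Nat.digits b n).reverse = Nat.digits b n) :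
    ∃ y < b, ∃ R₁ ⊆ Ico (b ^ (N - 1)) (b ^ N), (𝒬.card : ℝ) / b ≤ R₁.card ∧
      ∀ w ∈ R₁, outp b N 0 w + b ^ N * y ∈ 𝒬 := by
  classical
  have hb0 : 0 < b := by omega
  have hbr : (0 : ℝ) < b := by exact_mod_cast hb0
  obtain ⟨y, hy, hu⟩ := exists_le_card_fiber_of_nsmul_le_card_of_maps_to (s := 𝒬) (t := range b)
    (f := fun n => n / b ^ N % b) (b := (𝒬.card : ℝ) / b)
    (fun m _ => mem_range.2 (Nat.mod_lt _ hb0)) ⟨0, mem_range.2 hb0⟩ (by
      rw [card_range, nsmul_eq_mul]
      apply le_of_eq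
      field_simp)
  have hinv : ∀ n ∈ 𝒬.filter (fun n => n / b ^ N % b = y), n = outp b N 0 (n / b ^ (N + 1)) + b ^ N * y := by
    intro n hn
    obtain ⟨h1, h2⟩ := mem_filter.1 hn
    obtain ⟨h3, h4, h5⟩ := h𝒬 n h1
    rw [← h2]
    exact pal_inv hb N n h3 h4 h5
  refine ⟨y, mem_range.1 hy, (𝒬.filter (fun n => n / b ^ N % b = y)).image (fun n => n / b ^ (N + 1)), ?_, ?_, ?_⟩
  · intro w hw
    obtain ⟨n, hn, rfl⟩ := mem_image.1 hw
    obtain ⟨h3, h4, -⟩ := h𝒬 n (mem_filter.1 hn).1
    rw [mem_Ico]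
    constructor
    · rw [Nat.le_div_iff_mul_le (by positivity), ← pow_add]
      have : N - 1 + (N + 1) = 2 * N := by omega
      rw [this]
      exact h3
    · rw [Nat.div_lt_iff_lt_mul (by positivity), ← pow_add]
      have : N + (N + 1) = 2 * N + 1 := by omega
      rw [this]
      exact h4
  · rw [card_image_of_injOn]
    · exact hu
    · intro n hn n' hn' heq
      rw [Finset.mem_coe] at hn hn'
      simp only at heq
      rw [hinv n hn, hinv n' hn', heq]
  · intro w hw
    obtain ⟨n, hn, rfl⟩ := mem_image.1 hw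
    rw [← hinv n hn]
    exact (mem_filter.1 hn).1

theorem outp_inj {b : ℕ} (hb : 0 < b) (M y : ℕ) : Function.Injective (fun w => outp b M 0 w + b ^ M * y) := by
  intro w w' h
  simp only at h
  have h1 : outp b M 0 w = outp b M 0 w' := by omega
  rw [← outp_div hb M 0 w, ← outp_div hb M 0 w', h1]

end Pool.Agent.Helper74.FB
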