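import Mathlib
import Pool.Agent.Helper74.FB.PalG

/-! Auxiliary facts for the palindromes. -/

set_option autoImplicit false

namespace Pool.Agent.Helper74.FB

open Finset

theorem rv_sum (b : ℕ) : ∀ M x : ℕ, rv b M x = ∑ i ∈ range M, (x / b ^ i % b) * b ^ (M - 1 - i)
  | 0, x => by simp [rv]
  | M + 1, x => by
    show (x % b) * b ^ M + rv b M (x / b) = _
    rw [rv_sum b M (x / b), sum_range_succ']
    simp only [pow_zero, Nat.div_one, Nat.sub_zero, Nat.add_sub_cancel]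
    rw [Nat.add_comm]
    congr 1
    apply sum_congr rfl
    intro i hi
    rw [Nat.div_div_eq_div_mul, ← pow_succ']
    congr 2
    omega

theorem inn_eq (b g y : ℕ) : inn b g y = y * b ^ g + ∑ i ∈ Icc 1 g, (y / b ^ i % b) * b ^ (g - i) := by
  unfold inn
  rw [rv_sum]
  congr 1
  apply Finset.sum_nbij (fun i => i + 1)
  · intro i hi
    rw [mem_range] at hi
    rw [mem_Icc]
    omega
  · intro i _ j _ h
    simpa using h
  · intro j hj
    rw [Finset.mem_coe, mem_Icc] at hj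
    refine ⟨j - 1, ?_, ?_⟩
    · rw [Finset.mem_coe, mem_range]
      omega
    · show j - 1 + 1 = j
      omega
  · intro i hi
    rw [Nat.div_div_eq_div_mul, ← pow_succ']
    congr 2
    omega

theorem outp_pal {b : ℕ} (hb : 2 ≤ b) (M g w y : ℕ) (hM : 1 ≤ M) (hw : w ∈ Ico (b ^ (M - 1)) (b ^ M))
    (hy : y < b ^ (g + 1)) : ∃ n : ℕ, n = outp b M g w + b ^ M * inn b g y ∧
      (b ^ (2 * (M + g)) ≤ n ∧ n < b ^ (2 * (M + g) + 1) ∧ (Nat.digits b n).reverse = Nat.digits b n) ∧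
      n / b ^ (M + g + g + 1) = w ∧ n / b ^ (M + g) % b ^ (g + 1) = y := by
  have hb0 : 0 < b := by omega
  have hbg : 0 < b ^ (g + 1) := by positivity
  obtain ⟨hw1, hw2⟩ := mem_Ico.1 hw
  have hdiv : (w * b ^ (g + 1) + y) / b ^ (g + 1) = w := by
    rw [Nat.add_comm, Nat.add_mul_div_right _ _ hbg, Nat.div_eq_of_lt hy, Nat.zero_add]
  have hmod : (w * b ^ (g + 1) + y) % b ^ (g + 1) = y := by
    rw [Nat.add_comm, Nat.add_mul_mod_self_right, Nat.mod_eq_of_lt hy]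
  refine ⟨palN b (M + g) (w * b ^ (g + 1) + y), palN_eq hb0 M g w y hy, palN_pal hb _ _ ?_ ?_, ?_, ?_⟩
  · calc b ^ (M + g) = b ^ (M - 1) * b ^ (g + 1) := by
          rw [← pow_add]
          congr 1
          omega
      _ ≤ w * b ^ (g + 1) := Nat.mul_le_mul_right _ hw1
      _ ≤ _ := Nat.le_add_right _ _
  · calc w * b ^ (g + 1) + y < w * b ^ (g + 1) + b ^ (g + 1) := Nat.add_lt_add_left hy _
      _ = (w + 1) * b ^ (g + 1) := by ring
      _ ≤ b ^ M * b ^ (g + 1) := Nat.mul_le_mul_right _ hw2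
      _ = b ^ (M + g + 1) := by rw [← pow_add]; congr 1
  · have e : M + g + g + 1 = (M + g) + (g + 1) := by ring
    rw [e, pow_add b (M + g) (g + 1), ← Nat.div_div_eq_div_mul, palN_div hb0, hdiv]
  · rw [palN_div hb0, hmod]

/-- elementary inequalities for the number of digits -/
theorem digits_ineq {b g N E : ℕ} {L : ℝ} (hb : 2 ≤ b) (hL : (b : ℝ) ^ (g + 1) ≤ L)
    (hN : L ^ (E + 1) ≤ (b : ℝ) ^ N) :
    g + 1 ≤ N ∧ L ^ E ≤ (b : ℝ) ^ (N - g) := by
  have hbr : (1 : ℝ) < b := by exact_mod_cast (by omega : 1 < b)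
  have hL1 : (1 : ℝ) ≤ L := (one_le_pow₀ hbr.le).trans hL
  have hL2 : L ≤ L ^ (E + 1) := by
    calc L = L ^ 1 := (pow_one _).symm
      _ ≤ _ := pow_le_pow_right₀ hL1 (by omega)
  have h1 : g + 1 ≤ N := by
    rw [← pow_le_pow_iff_right₀ hbr]
    exact hL.trans (hL2.trans hN)
  refine ⟨h1, ?_⟩
  have h2 : (b : ℝ) ^ g * (b : ℝ) ^ (N - g) = (b : ℝ) ^ N := by
    rw [← pow_add]
    congr 1
    omega
  have h3 : (b : ℝ) ^ g ≤ L := (pow_le_pow_right₀ hbr.le (by omega)).trans hL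
  have hbg : (0 : ℝ) < (b : ℝ) ^ g := by positivity
  have h4 : (b : ℝ) ^ g * L ^ E ≤ (b : ℝ) ^ g * (b : ℝ) ^ (N - g) := by
    rw [h2]
    calc (b : ℝ) ^ g * L ^ E ≤ L * L ^ E := by gcongr
      _ = L ^ (E + 1) := by ring
      _ ≤ _ := hN
  exact le_of_mul_le_mul_left h4 hbg

end Pool.Agent.Helper74.FB
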