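import Mathlib

/-! Arithmetic for the window `√N < p < 4 √N`. -/

set_option autoImplicit false

namespace Pool.Agent.Helper74.FB

open Finset Filter Topology

/-- the size of `N` which belongs to the primes `p ∈ [Y / (2 q), Y / q]` -/
def XX (W Y q : ℕ) : ℕ := W * (Y ^ 2 / (10 * q ^ 2 * W))

theorem riv_arith {W Hm C Y q : ℕ} (hq : 1 ≤ q ∧ q ≤ 8) (hW : 0 < W)
    (hY : 2000 * (W + Hm + C + 1) ≤ Y) :
    10 * q ^ 2 * XX W Y q ≤ Y ^ 2 ∧ C * Y ≤ XX W Y q ∧ Y ^ 2 ≤ 1280 * XX W Y q ∧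
    ∀ N n : ℕ, XX W Y q ≤ N → 4 * N ≤ 7 * XX W Y q → q * n ≤ Y → Y ≤ 2 * q * n →
      N < n ^ 2 ∧ ∀ h ≤ Hm, (n + h) ^ 2 < 16 * N := by
  obtain ⟨hq1, hq8⟩ := hq
  set E : ℕ := 10 * q ^ 2 * W with hE
  have hE0 : 0 < E := by positivity
  have h1 : E * (Y ^ 2 / E) ≤ Y ^ 2 := Nat.mul_div_le _ _
  have h2 : Y ^ 2 < E * (Y ^ 2 / E) + E := by
    have := Nat.lt_div_mul_add (a := Y ^ 2) hE0
    rw [Nat.mul_comm]
    exact this
  have hX : XX W Y q = W * (Y ^ 2 / E) := rfl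
  set X₂ := XX W Y q with hX₂
  have ha : 10 * q ^ 2 * X₂ ≤ Y ^ 2 := by
    rw [hX]
    calc 10 * q ^ 2 * (W * (Y ^ 2 / E)) = E * (Y ^ 2 / E) := by rw [hE]; ring
      _ ≤ Y ^ 2 := h1
  have hb : Y ^ 2 < 10 * q ^ 2 * X₂ + 10 * q ^ 2 * W := by
    have e : E * (Y ^ 2 / E) = 10 * q ^ 2 * X₂ := by rw [hX, hE]; ring
    rw [e] at h2
    exact h2
  have hq2 : q ^ 2 ≤ 64 := by nlinarith
  have hb' : Y ^ 2 < 640 * X₂ + 640 * W := by nlinarith
  have hYW : 2000 * W ≤ Y := by nlinarith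
  have hYH : 2000 * Hm ≤ Y := by nlinarith
  have hY2 : 2000 ≤ Y := by nlinarith
  have hYC : 2000 * (C + 1) ≤ Y := by nlinarith
  have hYY : 2000 * (C + 1) * Y ≤ Y ^ 2 := by nlinarith
  refine ⟨ha, ?_, ?_, ?_⟩
  · nlinarith
  · nlinarith
  · intro N n hN1 hN2 hn1 hn2
    have hqn : Y ^ 2 ≤ 4 * q ^ 2 * n ^ 2 := by
      calc Y ^ 2 ≤ (2 * q * n) ^ 2 := Nat.pow_le_pow_left hn2 2
        _ = 4 * q ^ 2 * n ^ 2 := by ring
    have hn0 : 0 < n := by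
      rcases Nat.eq_zero_or_pos n with h0 | h0
      · rw [h0, Nat.mul_zero] at hn2
        omega
      · exact h0
    refine ⟨?_, ?_⟩
    · have e1 : 40 * q ^ 2 * N ≤ 28 * q ^ 2 * n ^ 2 := by nlinarith
      have e2 : q ^ 2 * (40 * N) ≤ q ^ 2 * (28 * n ^ 2) := by
        calc q ^ 2 * (40 * N) = 40 * q ^ 2 * N := by ring
          _ ≤ 28 * q ^ 2 * n ^ 2 := e1
          _ = q ^ 2 * (28 * n ^ 2) := by ring
      have e3 := Nat.le_of_mul_le_mul_left e2 (by positivity : 0 < q ^ 2)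
      have e4 : 0 < n ^ 2 := by positivity
      omega
    · intro h hh
      have e1 : q * (n + h) ≤ Y + 8 * Hm := by nlinarith
      have e2 : q ^ 2 * (n + h) ^ 2 ≤ (Y + 8 * Hm) ^ 2 := by
        calc q ^ 2 * (n + h) ^ 2 = (q * (n + h)) ^ 2 := by ring
          _ ≤ _ := Nat.pow_le_pow_left e1 2
      have e3 : 10 * (Y + 8 * Hm) ^ 2 < 16 * Y ^ 2 - 160 * 64 * W ∧ 160 * 64 * W ≤ 16 * Y ^ 2 := by
        have f1 : 160 * 64 * W ≤ Y ^ 2 := by nlinarith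
        have f2 : 10 * (Y + 8 * Hm) ^ 2 ≤ 11 * Y ^ 2 := by nlinarith
        have f3 : 0 < Y ^ 2 := by positivity
        constructor <;> omega
      have e4 : q ^ 2 * (160 * N) + 160 * 64 * W ≥ 16 * Y ^ 2 := by
        have f1 : q ^ 2 * X₂ ≤ q ^ 2 * N := Nat.mul_le_mul_left _ hN1
        have f2 : q ^ 2 * W ≤ 64 * W := Nat.mul_le_mul_right _ hq2
        nlinarith
      have e5 : q ^ 2 * (10 * (n + h) ^ 2) < q ^ 2 * (10 * (16 * N)) := by
        have f1 : q ^ 2 * (10 * (n + h) ^ 2) = 10 * (q ^ 2 * (n + h) ^ 2) := by ring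
        have f2 : q ^ 2 * (10 * (16 * N)) = q ^ 2 * (160 * N) := by ring
        rw [f1, f2]
        omega
      have e6 := Nat.lt_of_mul_lt_mul_left e5
      omega

theorem windows (R : Finset ℕ) (Y : ℕ) (h1 : ∀ m ∈ R, m ≤ Y) (h16 : ∀ m ∈ R, Y ≤ 16 * m) :
    ∃ q : ℕ, (1 ≤ q ∧ q ≤ 8) ∧ R.card ≤ 4 * (R.filter (fun m => q * m ≤ Y ∧ Y ≤ 2 * q * m)).card := by
  classical
  set I : Finset ℕ := {1, 2, 4, 8} with hI
  have hsub : R ⊆ I.biUnion (fun q => R.filter (fun m => q * m ≤ Y ∧ Y ≤ 2 * q * m)) := by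
    intro m hm
    have a1 := h1 m hm
    have a2 := h16 m hm
    rw [mem_biUnion]
    by_cases b1 : Y ≤ 2 * m
    · exact ⟨1, by simp [hI], mem_filter.2 ⟨hm, by omega, by omega⟩⟩
    · by_cases b2 : Y ≤ 4 * m
      · exact ⟨2, by simp [hI], mem_filter.2 ⟨hm, by omega, by omega⟩⟩
      · by_cases b3 : Y ≤ 8 * m
        · exact ⟨4, by simp [hI], mem_filter.2 ⟨hm, by omega, by omega⟩⟩
        · exact ⟨8, by simp [hI], mem_filter.2 ⟨hm, by omega, by omega⟩⟩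
  have h2 := (card_le_card hsub).trans card_biUnion_le
  have hIc : I.card = 4 := by rw [hI]; rfl
  by_contra hcon
  push Not at hcon
  have h3 : ∀ q ∈ I, (R.filter (fun m => q * m ≤ Y ∧ Y ≤ 2 * q * m)).card * 4 + 1 ≤ R.card := by
    intro q hq
    have hq' : 1 ≤ q ∧ q ≤ 8 := by
      simp only [hI, mem_insert, mem_singleton] at hq
      omega
    have := hcon q hq'
    omega
  have h4 : ∑ q ∈ I, ((R.filter (fun m => q * m ≤ Y ∧ Y ≤ 2 * q * m)).card * 4 + 1) ≤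
      ∑ _q ∈ I, R.card := sum_le_sum h3
  rw [sum_const, hIc, sum_add_distrib, ← sum_mul, sum_const, hIc] at h4
  simp only [smul_eq_mul] at h4
  omega

end Pool.Agent.Helper74.FB
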