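import Mathlib
import Pool.Agent.Helper74.FB.FinL
import Pool.Agent.Helper74.FB.Riv0
import Pool.Agent.Helper74.FB.PrimeArg

/-! Clusters of primes `√N < p < 4 √N` with all `N - p` prime, for a positive proportion of the `N`. -/

set_option autoImplicit false

namespace Pool.Agent.Helper74.FB

open Finset Filter Topology Polynomial
open Pool.Agent.H410R2 (WW)
open Pool.Agent.Helper74.OR (Rg)
open Pool.Agent.Helper74.AE (WW_pos lamPW Rp Fs Fs_card)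
open Pool.Agent.TH899.UG.Uni

theorem ev_logpow (n : ℕ) : ∀ᶠ Y : ℕ in atTop, (2 * Real.log Y) ^ n ≤ Y := by
  have h := (Real.isLittleO_pow_log_id_atTop (n := n)).bound (c := 1 / 2 ^ n) (by positivity)
  have tN : Tendsto (fun N : ℕ => (N : ℝ)) atTop atTop := tendsto_natCast_atTop_atTop
  filter_upwards [tN.eventually h, eventually_ge_atTop 1] with Y hY hY1
  have hY1r : (1 : ℝ) ≤ Y := by exact_mod_cast hY1
  have hl : 0 ≤ Real.log Y := Real.log_nonneg hY1r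
  simp only [id, Real.norm_eq_abs] at hY
  rw [abs_of_nonneg (by positivity), abs_of_nonneg (by positivity)] at hY
  rw [mul_pow]
  calc 2 ^ n * Real.log Y ^ n ≤ 2 ^ n * (1 / 2 ^ n * Y) := mul_le_mul_of_nonneg_left hY (by positivity)
    _ = Y := by field_simp

theorem sq1 {X Y : ℕ} (h : X < (Y + 1) ^ 2) (h3 : 2000 ≤ Y) : X ≤ 4 * Y ^ 2 := by nlinarith

theorem sq2 {X Y : ℕ} (h : Y ^ 2 ≤ X) (h3 : 2000 ≤ Y) : Y ≤ X := by nlinarith

theorem sq3 {Y X₂ : ℕ} (h : Y ^ 2 ≤ 1280 * X₂) (h3 : 2000 ≤ Y) : 1 < X₂ := by nlinarith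

theorem sq4 {Y X₂ q : ℕ} (h : 10 * q ^ 2 * X₂ ≤ Y ^ 2) (hq : 1 ≤ q) : 10 * X₂ ≤ Y ^ 2 := by
  refine le_trans ?_ h
  apply Nat.mul_le_mul_right
  nlinarith

theorem sq5 {X Y : ℕ} (h : X ≤ 4 * Y ^ 2) : Real.sqrt X ≤ 2 * Y := by
  rw [Real.sqrt_le_left (by positivity)]
  have : (X : ℝ) ≤ 4 * (Y : ℝ) ^ 2 := by exact_mod_cast h
  nlinarith

theorem sq6 {X Y X₂ : ℕ} (h : X ≤ 4 * Y ^ 2) (h2 : Y ^ 2 ≤ 1280 * X₂) : X ≤ 5120 * X₂ := by omega

theorem sq7 {X Y X₂ N : ℕ} (h : Y ^ 2 ≤ X) (h2 : 10 * X₂ ≤ Y ^ 2) (h3 : 4 * N ≤ 4 * X₂ + 3 * X₂) :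
    N ≤ X := by omega

theorem sq8 {Y m m₀ : ℕ} (h : Y ≤ 16 * m) (h2 : 16 * m₀ ≤ Y) : m₀ ≤ m := by omega

theorem sq9 (a W : ℕ) : 2000 ≤ 2000 * (a + 1) := by omega

open Classical in
/-- there is a set `P ⊆ [1, H]` of `r` shifts such that all `p = m + h`, `h ∈ P`, are prime with `N - p` prime
and `√N < p < 4 √N`, for many `m` -/
def RH (H A r X N : ℕ) : Prop :=
  ∃ P ⊆ Icc 1 H, P.card = r ∧ Real.sqrt X / Real.log X ^ A ≤
    ((((Icc 1 X).filter (fun m : ℕ => ∀ h ∈ P, (m + h).Prime ∧ PrV ((N : ℤ) - ((m : ℤ) + h)) ∧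
      N < (m + h) ^ 2 ∧ (m + h) ^ 2 < 16 * N)).card : ℕ) : ℝ)

open Classical in
theorem rivC (r : ℕ) (hr : 1 ≤ r) : ∃ H A : ℕ, ∃ κ : ℝ, 0 < κ ∧ ∃ X₀ : ℕ, ∀ X : ℕ, X₀ ≤ X →
      κ * X ≤ (((Icc 1 X).filter (fun N : ℕ => X ≤ 5120 * N ∧ RH H A r X N)).card : ℝ) := by
  set T : ℕ := 4 * r with hT
  have hTM : (18 / 5 : ℝ) * r < T := by
    have : (1 : ℝ) ≤ r := by exact_mod_cast hr
    rw [hT]
    push_cast
    linarith
  obtain ⟨K, hKz, hK, δ, hδ, D₀, c, hc, Hlow⟩ := lowL_many T r hTM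
  have hT1 : 1 ≤ T := by omega
  set T₂ : ℕ := 4 * (T * K) with hT₂
  have hTK : 1 ≤ T * K := Nat.mul_pos (by omega) (by omega)
  have hTM₂ : (18 / 5 : ℝ) * (T * K : ℕ) < T₂ := by
    have : (1 : ℝ) ≤ (T * K : ℕ) := by exact_mod_cast hTK
    rw [hT₂]
    push_cast at this ⊢
    linarith
  have hT₂1 : 1 ≤ T₂ := by omega
  obtain ⟨K₂, hK₂, δ₂, hδ₂, D₂, c₂, hc₂, hsrc⟩ := lamPW T₂ (T * K) hT₂1 hTM₂
  obtain ⟨r', hr'⟩ : ∃ r' : ℕ, r' = ⌊2 / (δ / 2)⌋₊ := ⟨_, rfl⟩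
  set D : ℕ := D₀ + D₂ + 2 with hD
  set W : ℕ := WW D with hWdef
  have hW : 0 < W := WW_pos D
  have hWr : (0 : ℝ) < W := by exact_mod_cast hW
  have hpW : ∀ p ∈ (Icc 1 D).filter Nat.Prime, (p : ℤ) ∣ (W : ℤ) := by
    intro p hp
    rw [hWdef, WW]
    exact_mod_cast dvd_prod_of_mem _ hp
  have h2W : 2 ∣ W := by
    have h1 : (2 : ℕ) ∈ (Icc 1 D).filter Nat.Prime := by
      rw [mem_filter, mem_Icc]
      exact ⟨by omega, Nat.prime_two⟩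
    have := hpW 2 h1
    exact_mod_cast this
  set Q : ℤ[X] := -X with hQ
  have hev : ∀ x : ℤ, Q.eval x = -x := by
    intro x
    simp [hQ]
  have hdeg : Q.natDegree = 1 := by
    rw [hQ, natDegree_neg, natDegree_X]
  -- the shifts
  set h₂ : Fin T₂ → Fin K₂ → ℕ := fun g i => W * ((ix g i).val + 1) with hh₂
  have hh₂i : Function.Injective (fun x : Fin T₂ × Fin K₂ => h₂ x.1 x.2) := by
    intro x y hxy
    have h1 : W * ((ix x.1 x.2).val + 1) = W * ((ix y.1 y.2).val + 1) := hxy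
    have h2 := Nat.eq_of_mul_eq_mul_left hW h1
    have h3 : ix x.1 x.2 = ix y.1 y.2 := Fin.ext (by omega)
    have h4 := finProdFinEquiv.injective h3
    exact h4
  set Hm : ℕ := W * (T₂ * K₂ + 1) with hHm
  have hh₂b : ∀ g i, 1 ≤ h₂ g i ∧ h₂ g i ≤ Hm := by
    intro g i
    constructor
    · exact Nat.mul_pos hW (by omega)
    · apply Nat.mul_le_mul_left
      have := (ix g i).isLt
      omega
  set f : Fin T₂ → Fin K₂ → ℤ × ℤ := fun g i => ((1 : ℤ), (h₂ g i : ℤ)) with hf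
  have hfi : Function.Injective (fun x : Fin T₂ × Fin K₂ => f x.1 x.2) := by
    intro x y hxy
    apply hh₂i
    have h1 : ((h₂ x.1 x.2 : ℕ) : ℤ) = (h₂ y.1 y.2 : ℕ) := (Prod.ext_iff.1 hxy).2
    exact_mod_cast h1
  obtain ⟨s, -, hs2, hs3⟩ := hsrc f hfi (fun g i => ⟨one_pos, isCoprime_one_left⟩) D (by omega)
    (fun g i => by simp only [hf, Int.natAbs_one]; omega) 1 (by
      have : 2 ≤ W := Nat.le_of_dvd hW h2W
      omega) (by
      intro p hp g i hd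
      simp only [hf, hh₂] at hd
      have h1 : (p : ℤ) ∣ ((W * ((ix g i).val + 1) : ℕ) : ℤ) := by
        push_cast
        exact (hpW p hp).mul_right _
      have h2 := (Int.dvd_add_left h1).1 hd
      have h3 : (p : ℤ) ∣ 1 := by simpa using h2
      have h4 : p ∣ 1 := by exact_mod_cast h3
      exact (mem_filter.1 hp).2.one_lt.ne' (Nat.dvd_one.1 h4))
  set V₀ : Finset (ℤ × ℤ) := univ.image (fun x : Fin T₂ × Fin K₂ => f x.1 x.2) with hV₀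
  have hV₀c : V₀.card = T₂ * K₂ := by
    rw [hV₀, card_image_of_injective _ hfi, card_univ, Fintype.card_prod, Fintype.card_fin,
      Fintype.card_fin]
  set V : Finset (ℤ × ℤ) := Fs V₀ s with hV
  have hVc : V.card = T₂ * K₂ + 1 := by
    rw [hV, Fs_card, hV₀c]
    intro x hx
    obtain ⟨z, -, rfl⟩ := mem_image.1 hx
    exact hs2 z.1 z.2
  have hVone : ∀ x ∈ V, x.1 = 1 := by
    intro x hx
    rw [hV] at hx
    unfold Fs at hx
    rcases mem_insert.1 hx with rfl | hx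
    · rfl
    · obtain ⟨z, -, rfl⟩ := mem_image.1 hx
      rfl
  have hV1 : ∀ x ∈ V, x.1 ≠ 0 := fun x hx => by rw [hVone x hx]; exact one_ne_zero
  have hV2 : ∀ x ∈ V, ∀ y ∈ V, x ≠ y → x.1 * y.2 - y.1 * x.2 ≠ 0 := by
    intro x hx y hy hxy h0
    rw [hVone x hx, hVone y hy, one_mul, one_mul] at h0
    apply hxy
    exact Prod.ext ((hVone x hx).trans (hVone y hy).symm) (by linarith)
  -- exponents
  set a : ℕ := T₂ * K₂ + 1 with ha
  set A : ℕ := a + (T * K + 1) + 1 with hA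
  -- uniform constants
  set I : Type := (Fin T × Fin K → Fin T₂) × (Fin T₂ → Fin K₂) with hI
  set hx : I → Fin T → Fin K → ℕ := fun x g i => h₂ (x.1 (g, i)) (x.2 (x.1 (g, i))) with hhx
  have hall : ∀ x : I, ∃ κ : ℝ, 0 < κ ∧ ∃ C m₀ Y₀ : ℕ, Function.Injective x.1 →
      ∀ Y : ℕ, Y₀ ≤ Y → ∀ X : ℕ, C * Y ^ Q.natDegree ≤ X → X ≤ Y ^ 2 →
      Real.log X ^ (T * K + 1) ≤ Y / Real.log Y ^ V.card → ∀ R ⊆ Rg V δ₂ Y,
      (∀ m ∈ R, m₀ ≤ m) → c₂ / (4 * W) * (Y / Real.log Y ^ V.card) ≤ R.card →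
      ∀ M₀ : ℕ, X ≤ 4 * M₀ → 5 * M₀ ≤ 6 * X → W ∣ M₀ → ∀ v : ℤ,
      (∀ m ∈ R, ∀ p ∈ (Icc 1 D).filter Nat.Prime, ∀ g i,
        ¬ (p : ℤ) ∣ v + Q.eval ((m : ℤ) + hx x g i)) →
      κ * X ≤ (((Icc 1 (2 * X)).filter (fun N : ℕ => M₀ ≤ N ∧ 4 * N ≤ 4 * M₀ + 3 * X ∧
        (N : ℤ) ≡ v [ZMOD (W : ℕ)] ∧
        ∃ (S : Finset (Fin T)) (σ τ : Fin T → Fin K), Mny r S σ ∧
        κ * (Y / Real.log Y ^ V.card / Real.log X ^ (T * K + 1)) ≤
          ((Cl Q (hx x) r' S σ τ N R).card : ℝ))).card : ℝ) := by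
    intro x
    by_cases hxi : Function.Injective x.1
    · have H0 := genFL hT1 hδ hc D (Hlow D (by omega)) Q (by rw [hdeg]) (hx x) (by
        intro y z hyz
        have h1 : h₂ (x.1 y) (x.2 (x.1 y)) = h₂ (x.1 z) (x.2 (x.1 z)) := hyz
        have h2 := hh₂i (a₁ := (x.1 y, x.2 (x.1 y))) (a₂ := (x.1 z, x.2 (x.1 z))) h1
        exact hxi (Prod.ext_iff.1 h2).1) V hV1 hV2 δ₂ hδ₂ (c₂ / (4 * W)) (by positivity) 2
      rw [← hr'] at H0
      obtain ⟨κ, hκ, C, -, m₀, Y₀, h1⟩ := H0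
      exact ⟨κ, hκ, C, m₀, Y₀, fun _ => h1⟩
    · exact ⟨1, one_pos, 0, 0, 0, fun h => absurd h hxi⟩
  choose κ' hκ' C' m₀' Y₀' hall' using hall
  obtain ⟨κ₀, hκ₀, hκ₀'⟩ := unif κ' hκ'
  obtain ⟨C, hC⟩ := unifN C'
  obtain ⟨m₀, hm₀⟩ := unifN m₀'
  obtain ⟨Y₀, hY₀⟩ := unifN Y₀'
  obtain ⟨Y₁, hY₁⟩ := eventually_atTop.1 hs3
  obtain ⟨Y₂, hY₂⟩ := eventually_atTop.1 (ev_logpow (T * K + 1 + a))
  refine ⟨Hm, A, κ₀ / 5120, by positivity, ?_⟩
  -- largeness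
  have tN : Tendsto (fun N : ℕ => (N : ℝ)) atTop atTop := tendsto_natCast_atTop_atTop
  have hlog : Tendsto (fun N : ℕ => Real.log (N : ℝ)) atTop atTop := Real.tendsto_log_atTop.comp tN
  obtain ⟨Z₀, hZ1, hZ2, hZ3, hZ4, hZ5⟩ : ∃ Z₀ : ℕ, Y₀ ≤ Z₀ ∧ Y₁ ≤ Z₀ ∧ Y₂ ≤ Z₀ ∧ 16 * m₀ ≤ Z₀ ∧
      2000 * (W + Hm + C + 1) ≤ Z₀ := by
    refine ⟨max Y₀ (max Y₁ (max Y₂ (max (16 * m₀) (2000 * (W + Hm + C + 1))))), le_max_left _ _,
      (le_max_left _ _).trans (le_max_right _ _), ((le_max_left _ _).trans (le_max_right _ _)).trans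
      (le_max_right _ _), (((le_max_left _ _).trans (le_max_right _ _)).trans (le_max_right _ _)).trans
      (le_max_right _ _), (((le_max_right _ _).trans (le_max_right _ _)).trans (le_max_right _ _)).trans
      (le_max_right _ _)⟩
  obtain ⟨X₀, hX₀⟩ := eventually_atTop.1
    ((hlog.eventually_ge_atTop (2 / κ₀ + 3)).and (eventually_ge_atTop (Z₀ ^ 2)))
  refine ⟨X₀, fun X hX => ?_⟩
  obtain ⟨hX1, hX3⟩ := hX₀ X hX
  set Y : ℕ := Nat.sqrt X with hY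
  have hYZ : Z₀ ≤ Y := by
    rw [hY, Nat.le_sqrt']
    exact hX3
  have hYX2 : Y ^ 2 ≤ X := Nat.sqrt_le' X
  have hXY2 : X < (Y + 1) ^ 2 := Nat.lt_succ_sqrt' X
  have hYbig : 2000 * (W + Hm + C + 1) ≤ Y := hZ5.trans hYZ
  have hY2000 : 2000 ≤ Y := (sq9 (W + Hm + C) W).trans hYbig
  have hYr : (2000 : ℝ) ≤ Y := by exact_mod_cast hY2000
  have hlogY : 0 < Real.log Y := Real.log_pos (by linarith)
  have hXX : X ≤ 4 * Y ^ 2 := sq1 hXY2 hY2000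
  have hYleX : Y ≤ X := sq2 hYX2 hY2000
  have hX0 : (0 : ℝ) < X := by
    have : (Y : ℝ) ≤ X := by exact_mod_cast hYleX
    linarith
  have hYXr : (Y : ℝ) ≤ X := by exact_mod_cast hYleX
  set L : ℝ := Real.log X with hL
  have h1κ : 0 ≤ 2 / κ₀ := by positivity
  have hL3 : 3 ≤ L := by linarith
  have hlogYX : Real.log Y ≤ L := Real.log_le_log (by linarith) hYXr
  -- the source
  obtain ⟨S₂, σ₂, τ₂, hS₂, hcard⟩ := hY₁ Y (hZ2.trans hYZ)
  set R₀ : Finset ℕ := (Rp f δ₂ s S₂ σ₂ τ₂ Y).filter (fun n => n ≡ 1 [MOD W]) with hR₀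
  have hRp : ∀ m ∈ R₀, m ∈ Icc 1 Y ∧ (Y : ℝ) / 16 ≤ m ∧
      (∀ p : ℕ, p.Prime → Real.log p ≤ δ₂ * Real.log Y → ¬ (p : ℤ) ∣ (m : ℤ) - s) ∧
      (∀ g i, ∀ p : ℕ, p.Prime → Real.log p ≤ δ₂ * Real.log Y →
        ¬ (p : ℤ) ∣ (f g i).1 * m + (f g i).2) ∧
      ∀ g ∈ S₂, ((f g (σ₂ g)).1 * (m : ℤ) + (f g (σ₂ g)).2).toNat.Prime := by
    intro m hm
    have h1 := (mem_filter.1 hm).1
    unfold Rp at h1
    obtain ⟨e1, e2, e3, e4, -, e6⟩ := mem_filter.1 h1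
    exact ⟨e1, e2, e3, e4, e6⟩
  have hR16 : ∀ m ∈ R₀, Y ≤ 16 * m := by
    intro m hm
    have h1 := (hRp m hm).2.1
    have : (Y : ℝ) ≤ 16 * m := by linarith
    exact_mod_cast this
  obtain ⟨q, hq, hRq⟩ := windows R₀ Y (fun m hm => (mem_Icc.1 (hRp m hm).1).2) hR16
  set R : Finset ℕ := R₀.filter (fun m => q * m ≤ Y ∧ Y ≤ 2 * q * m) with hR
  have hRR : R ⊆ R₀ := filter_subset _ _
  have hRg : R ⊆ Rg V δ₂ Y := by
    intro m hm
    obtain ⟨e1, e2, e3, e4, e6⟩ := hRp m (hRR hm)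
    unfold Rg
    refine mem_filter.2 ⟨e1, ?_⟩
    intro x hx p hp hpl hd
    rw [hV] at hx
    unfold Fs at hx
    rcases mem_insert.1 hx with rfl | hx
    · apply e3 p hp hpl
      simp only [one_mul] at hd
      rwa [← sub_eq_add_neg] at hd
    · obtain ⟨z, -, rfl⟩ := mem_image.1 hx
      exact e4 z.1 z.2 p hp hpl hd
  have hRc : c₂ / (4 * W) * (Y / Real.log Y ^ V.card) ≤ R.card := by
    rw [hVc]
    have h1 : (R₀.card : ℝ) ≤ 4 * R.card := by exact_mod_cast hRq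
    have h2 : c₂ / (4 * W) * (Y / Real.log Y ^ (T₂ * K₂ + 1)) = c₂ * (Y / (W * Real.log Y ^ (T₂ * K₂ + 1))) / 4 := by
      field_simp
    rw [h2]
    have h3 : c₂ * (Y / (W * Real.log Y ^ (T₂ * K₂ + 1))) ≤ R₀.card := by
      rw [hR₀]
      exact hcard
    linarith
  have hmod : ∀ m ∈ R, m ≡ 1 [MOD W] := fun m hm => (mem_filter.1 (hRR hm)).2
  obtain ⟨hXa, hXb, hXc, hXd⟩ := riv_arith (W := W) (Hm := Hm) (C := C) (Y := Y) (q := q) hq hW hYbig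
  set X₂ : ℕ := XX W Y q with hX₂
  have hX₂Y : X₂ ≤ Y ^ 2 := by
    refine le_trans ?_ hXa
    exact Nat.le_mul_of_pos_left _ (by have := hq.1; positivity)
  have hWX₂ : W ∣ X₂ := by
    rw [hX₂]
    exact dvd_mul_right _ _
  have hX₂1 : 1 < X₂ := sq3 hXc hY2000
  have hX₂0 : 0 < X₂ := zero_lt_one.trans hX₂1
  have hX₂r : (0 : ℝ) < X₂ := by exact_mod_cast hX₂0
  have hlX₂ : Real.log X₂ ≤ 2 * Real.log Y := by
    have h1 : (X₂ : ℝ) ≤ (Y : ℝ) ^ 2 := by exact_mod_cast hX₂Y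
    have h2 := Real.log_le_log hX₂r h1
    rw [Real.log_pow] at h2
    exact_mod_cast h2
  have hlX₂0 : 0 ≤ Real.log X₂ := Real.log_nonneg (by exact_mod_cast hX₂0)
  have hX₂X : (X₂ : ℝ) ≤ X := by exact_mod_cast hX₂Y.trans hYX2
  have hlX₂X : Real.log X₂ ≤ L := Real.log_le_log hX₂r hX₂X
  have hLMM : Real.log X₂ ^ (T * K + 1) ≤ Y / Real.log Y ^ V.card := by
    rw [hVc, le_div_iff₀ (by positivity)]
    calc Real.log X₂ ^ (T * K + 1) * Real.log Y ^ (T₂ * K₂ + 1)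
        ≤ (2 * Real.log Y) ^ (T * K + 1) * (2 * Real.log Y) ^ (T₂ * K₂ + 1) := by
          gcongr
          linarith
      _ = (2 * Real.log Y) ^ (T * K + 1 + a) := by rw [← pow_add]
      _ ≤ Y := hY₂ Y (hZ3.trans hYZ)
  -- an embedding
  obtain ⟨e⟩ : Nonempty ((Fin T × Fin K) ↪ S₂) := by
    apply Function.Embedding.nonempty_of_card_le
    rw [Fintype.card_prod, Fintype.card_fin, Fintype.card_fin, Fintype.card_coe]
    omega
  set x : I := (fun z => (e z : Fin T₂), σ₂) with hxdef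
  have hxi : Function.Injective x.1 := fun z z' h => e.injective (Subtype.ext h)
  have hmain := hall' x hxi Y ((hY₀ x).trans (hZ1.trans hYZ)) X₂ (by
    rw [hdeg, pow_one]
    exact (Nat.mul_le_mul_right _ (hC x)).trans hXb) hX₂Y hLMM R hRg (by
    intro m hm
    exact (hm₀ x).trans (sq8 (hR16 m (hRR hm)) (hZ4.trans hYZ))) hRc X₂
    (Nat.le_mul_of_pos_left _ (by norm_num)) (Nat.mul_le_mul_right _ (by norm_num)) hWX₂ 2 (by
    intro m hm p hp g i hd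
    have hpp := (mem_filter.1 hp).2
    rw [hev] at hd
    have e1 : (p : ℤ) ∣ (m : ℤ) - 1 := by
      have := (Int.natCast_modEq_iff.2 (hmod m hm)).symm.dvd
      exact (hpW p hp).trans (by simpa using this)
    have e2 : (p : ℤ) ∣ ((hx x g i : ℕ) : ℤ) := by
      simp only [hhx, hh₂]
      push_cast
      exact (hpW p hp).mul_right _
    have h3 := dvd_add hd (dvd_add e1 e2)
    have e4 : (2 : ℤ) + -((m : ℤ) + hx x g i) + ((m : ℤ) - 1 + hx x g i) = 1 := by ring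
    rw [e4] at h3
    have h4 : p ∣ 1 := by exact_mod_cast h3
    exact hpp.one_lt.ne' (Nat.dvd_one.1 h4))
  have hκX : κ₀ / 5120 * X ≤ κ' x * X₂ := by
    have h1 : (X : ℝ) ≤ 5120 * X₂ := by
      have : X ≤ 5120 * X₂ := sq6 hXX hXc
      exact_mod_cast this
    calc κ₀ / 5120 * X ≤ κ₀ / 5120 * (5120 * X₂) := mul_le_mul_of_nonneg_left h1 (by positivity)
      _ = κ₀ * X₂ := by ring
      _ ≤ κ' x * X₂ := mul_le_mul_of_nonneg_right (hκ₀' x) hX₂r.le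
  refine hκX.trans (hmain.trans ?_)
  rw [Nat.cast_le]
  apply card_le_card
  intro N hN
  obtain ⟨hN1, hN2, hN2', hN3, S, σ, τ, hS, hcl⟩ := mem_filter.1 hN
  have hS' : r + 1 ≤ S.card := hS
  have hNX : N ≤ X := sq7 hYX2 (sq4 hXa hq.1) hN2'
  refine mem_filter.2 ⟨mem_Icc.2 ⟨(mem_Icc.1 hN1).1, hNX⟩,
    (sq6 hXX hXc).trans (Nat.mul_le_mul_left _ hN2), ?_⟩
  -- the pattern
  set P₀ : Finset ℕ := S.image (fun g => hx x g (σ g)) with hP₀
  have hP₀c : r ≤ P₀.card := by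
    rw [hP₀, card_image_of_injective]
    · omega
    · intro g g' hgg
      have h1 : h₂ (x.1 (g, σ g)) (x.2 (x.1 (g, σ g))) = h₂ (x.1 (g', σ g')) (x.2 (x.1 (g', σ g'))) := hgg
      have h2 := hh₂i (a₁ := (x.1 (g, σ g), x.2 (x.1 (g, σ g))))
        (a₂ := (x.1 (g', σ g'), x.2 (x.1 (g', σ g')))) h1
      have h3 := hxi (Prod.ext_iff.1 h2).1
      exact (Prod.ext_iff.1 h3).1
  obtain ⟨P, hPP, hPc⟩ := exists_subset_card_eq hP₀c
  refine ⟨P, ?_, hPc, ?_⟩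
  · intro z hz
    obtain ⟨g, -, rfl⟩ := mem_image.1 (hPP hz)
    rw [mem_Icc]
    exact hh₂b _ _
  · have hL0 : 0 < L := by linarith
    have h1 : Real.sqrt X / L ^ A ≤ κ' x * (Y / Real.log Y ^ V.card / Real.log X₂ ^ (T * K + 1)) := by
      rw [hVc]
      have h2 : 2 ≤ κ' x * L := by
        have h3 : 2 / κ₀ ≤ L := by linarith
        rw [div_le_iff₀ hκ₀] at h3
        calc (2 : ℝ) ≤ L * κ₀ := h3
          _ = κ₀ * L := mul_comm _ _
          _ ≤ κ' x * L := mul_le_mul_of_nonneg_right (hκ₀' x) (by linarith)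
      have h4 : Real.sqrt X ≤ 2 * Y := sq5 hXX
      have hlX₂p : 0 < Real.log X₂ := by
        apply Real.log_pos
        exact_mod_cast hX₂1
      have hκx := hκ' x
      calc Real.sqrt X / L ^ A ≤ (2 * Y) / L ^ A := by gcongr
        _ = 2 * (Y / L ^ A) := by ring
        _ ≤ (κ' x * L) * (Y / L ^ A) := mul_le_mul_of_nonneg_right h2 (by positivity)
        _ = κ' x * (Y / L ^ a / L ^ (T * K + 1)) := by
            rw [hA, pow_add, pow_add, pow_one]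
            field_simp
        _ ≤ κ' x * (Y / Real.log Y ^ (T₂ * K₂ + 1) / Real.log X₂ ^ (T * K + 1)) := by
            gcongr
    refine h1.trans (hcl.trans ?_)
    rw [Nat.cast_le]
    apply card_le_card
    intro m hm
    unfold Cl at hm
    obtain ⟨hmR, hp1, -, -⟩ := mem_filter.1 hm
    obtain ⟨e1, e2, e3, e4, e6⟩ := hRp m (hRR hmR)
    obtain ⟨-, e7, e8⟩ := mem_filter.1 hmR
    obtain ⟨e9, e10⟩ := hXd N m hN2 (hN2'.trans (le_of_eq (by ring))) e7 e8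
    refine mem_filter.2 ⟨mem_Icc.2 ⟨(mem_Icc.1 e1).1, (mem_Icc.1 e1).2.trans hYleX⟩, ?_⟩
    intro z hz
    obtain ⟨g, hg, rfl⟩ := mem_image.1 (hPP hz)
    refine ⟨?_, ?_, ?_, ?_⟩
    · have h5 := e6 (x.1 (g, σ g)) (e (g, σ g)).2
      have h6 : (f (x.1 (g, σ g)) (σ₂ (x.1 (g, σ g)))).1 * (m : ℤ) +
          (f (x.1 (g, σ g)) (σ₂ (x.1 (g, σ g)))).2 = ((m + hx x g (σ g) : ℕ) : ℤ) := by
        simp only [hf, hhx, hxdef, one_mul]
        push_cast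
        ring
      rw [h6, Int.toNat_natCast] at h5
      exact h5
    · have h5 := hp1 g hg
      rw [hev] at h5
      exact h5
    · exact e9.trans_le (Nat.pow_le_pow_left (Nat.le_add_right _ _) 2)
    · exact e10 _ (hh₂b _ _).2

end Pool.Agent.Helper74.FB
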