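import Mathlib
import Pool.Agent.Helper74.FB.RivC
import Pool.Agent.Helper74.FB.PrimeQ

/-! Primes `√N < p < 4 √N` with `N - p` prime and almost prime neighbours of both. -/

set_option autoImplicit false

namespace Pool.Agent.Helper74.FB

open Finset Filter Topology Polynomial
open Pool.Agent.H410R2 (WW)
open Pool.Agent.Helper74.OR (Rg)
open Pool.Agent.Helper74.AE (WW_pos lamQW Rp Fs Fs_card)
open Pool.Agent.TH899.UG.Uni
open Pool.Agent.Z296.AP (P2)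

open Classical in
/-- for one choice of shifts there are many primes `√N < p < 4 √N` such that all the numbers are as wanted -/
def RN {T₁ K₁ T₂ K₂ : ℕ} (h₁ : Fin T₁ → Fin K₁ → ℤ) (h₂ : Fin T₂ → Fin K₂ → ℕ)
    (A X N : ℕ) : Prop :=
  ∃ (τ₁ : Fin T₁ → Fin K₁) (τ₂ : Fin T₂ → Fin K₂), Real.sqrt X / Real.log X ^ A ≤
      ((((Icc 1 X).filter (fun p : ℕ => p.Prime ∧ PrV ((N : ℤ) - (p : ℤ)) ∧
        N < p ^ 2 ∧ p ^ 2 < 16 * N ∧
        (∀ g, ApV 2 ((p : ℤ) + h₁ g (τ₁ g))) ∧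
        ∀ g, ApV 2 ((N : ℤ) - ((p : ℤ) + h₂ g (τ₂ g))))).card : ℕ) : ℝ)

open Classical in
theorem rivQ (T₁ T₂ : ℕ) (hT₁ : 1 ≤ T₁) (hT₂ : 1 ≤ T₂) : ∃ K₁ K₂ A : ℕ, 1 ≤ K₁ ∧ 1 ≤ K₂ ∧
    ∀ (h₁ : Fin T₁ → Fin K₁ → ℤ), Function.Injective (fun x : Fin T₁ × Fin K₁ => h₁ x.1 x.2) →
    ∀ (h₂ : Fin T₂ → Fin K₂ → ℕ), Function.Injective (fun x : Fin T₂ × Fin K₂ => h₂ x.1 x.2) →
    (∃ g i, h₁ g i = 0) → (∃ g i, h₂ g i = 0) →
    (∀ p : ℕ, p.Prime → ∃ v w : ℤ, (∀ g i, ¬ (p : ℤ) ∣ v + h₁ g i) ∧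
      ∀ g i, ¬ (p : ℤ) ∣ w - (v + h₂ g i)) →
    ∃ κ : ℝ, 0 < κ ∧ ∃ X₀ : ℕ, ∀ X : ℕ, X₀ ≤ X →
      κ * X ≤ (((Icc 1 X).filter (fun N : ℕ => X ≤ 5120 * N ∧ RN h₁ h₂ A X N)).card : ℝ) := by
  obtain ⟨K₁, hK₁, δ₁, hδ₁, D₁, c₁, hc₁, hsrc⟩ := lamQW T₁ hT₁
  obtain ⟨K₂, hKz, hK₂, δ, hδ, D₀, c, hc, H⟩ := lowL_pin T₂ hT₂
  obtain ⟨r, hr⟩ : ∃ r : ℕ, r = ⌊2 / (δ / 2)⌋₊ := ⟨_, rfl⟩
  set a : ℕ := T₁ * K₁ + 1 with ha
  set A : ℕ := a + (T₂ * K₂ + 1) + 1 with hA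
  refine ⟨K₁, K₂, A, hK₁, by omega, ?_⟩
  intro h₁ hh₁ h₂ hh₂ hz₁ hz₂ hadm
  obtain ⟨g₁, i₁, hz₁⟩ := hz₁
  obtain ⟨g₂, i₂, hz₂⟩ := hz₂
  set Q : ℤ[X] := -X with hQ
  have hev : ∀ x : ℤ, Q.eval x = -x := by
    intro x
    simp [hQ]
  have hdeg : Q.natDegree = 1 := by
    rw [hQ, natDegree_neg, natDegree_X]
  set D : ℕ := D₀ + D₁ + 2 with hD
  set W : ℕ := WW D with hWdef
  have hW : 0 < W := WW_pos D
  have hWr : (0 : ℝ) < W := by exact_mod_cast hW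
  have hpW : ∀ p ∈ (Icc 1 D).filter Nat.Prime, (p : ℤ) ∣ (W : ℤ) := by
    intro p hp
    rw [hWdef, WW]
    exact_mod_cast dvd_prod_of_mem _ hp
  choose! v' w' hvw using hadm
  obtain ⟨vz, hvz⟩ := crt D v'
  obtain ⟨w, hw⟩ := crt D w'
  have hWz : (0 : ℤ) < (W : ℤ) := by exact_mod_cast hW
  obtain ⟨v, hv⟩ : ∃ v : ℕ, (v : ℤ) = vz % (W : ℤ) :=
    ⟨(vz % (W : ℤ)).toNat, Int.toNat_of_nonneg (Int.emod_nonneg _ hWz.ne')⟩
  have hvW : v < W := by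
    have := Int.emod_lt_of_pos vz hWz
    rw [← hv] at this
    exact_mod_cast this
  have hvp : ∀ p ∈ (Icc 1 D).filter Nat.Prime, (p : ℤ) ∣ (v : ℤ) - v' p := by
    intro p hp
    have h1 : (W : ℤ) ∣ vz - v := by
      rw [hv]
      exact Int.dvd_self_sub_emod
    have h2 := dvd_sub (hvz p hp) ((hpW p hp).trans h1)
    have e : vz - v' p - (vz - v) = (v : ℤ) - v' p := by ring
    rwa [e] at h2
  set f : Fin T₁ → Fin K₁ → ℤ × ℤ := fun g i => ((1 : ℤ), h₁ g i) with hf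
  have hfi : Function.Injective (fun x : Fin T₁ × Fin K₁ => f x.1 x.2) := by
    intro x y hxy
    exact hh₁ (Prod.ext_iff.1 hxy).2
  obtain ⟨s, -, hs2, hs3⟩ := hsrc f hfi (fun g i => ⟨one_pos, isCoprime_one_left⟩) g₁ i₁ D (by omega)
    (fun g i => by simp only [hf, Int.natAbs_one]; omega) v hvW (by
      intro p hp g i hd
      simp only [hf, one_mul] at hd
      apply (hvw p (mem_filter.1 hp).2).1 g i
      have h2 := dvd_sub hd (hvp p hp)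
      have e : (v : ℤ) + h₁ g i - ((v : ℤ) - v' p) = v' p + h₁ g i := by ring
      rwa [e] at h2)
  set V₀ : Finset (ℤ × ℤ) := univ.image (fun x : Fin T₁ × Fin K₁ => f x.1 x.2) with hV₀
  have hV₀c : V₀.card = T₁ * K₁ := by
    rw [hV₀, card_image_of_injective _ hfi, card_univ, Fintype.card_prod, Fintype.card_fin,
      Fintype.card_fin]
  set V : Finset (ℤ × ℤ) := Fs V₀ s with hV
  have hVc : V.card = T₁ * K₁ + 1 := by
    rw [hV, Fs_card, hV₀c]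
    intro x hx
    obtain ⟨z, -, rfl⟩ := mem_image.1 hx
    exact hs2 z.1 z.2
  have hVone : ∀ x ∈ V, x.1 = 1 := by
    intro x hx
    rw [hV] at hx
    unfold Fs at hx
    rcases mem_insert.1 hx with rfl | hx
    · rfl
    · obtain ⟨z, -, rfl⟩ := mem_image.1 hx
      rfl
  have hV1 : ∀ x ∈ V, x.1 ≠ 0 := fun x hx => by rw [hVone x hx]; exact one_ne_zero
  have hV2 : ∀ x ∈ V, ∀ y ∈ V, x ≠ y → x.1 * y.2 - y.1 * x.2 ≠ 0 := by
    intro x hx y hy hxy h0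
    rw [hVone x hx, hVone y hy, one_mul, one_mul] at h0
    apply hxy
    exact Prod.ext ((hVone x hx).trans (hVone y hy).symm) (by linarith)
  have H0 := genFL hT₂ hδ hc D (H D (by omega) g₂ i₂) Q (by rw [hdeg]) h₂ hh₂ V hV1 hV2 δ₁ hδ₁
    (c₁ / (4 * W)) (by positivity) 2
  rw [← hr] at H0
  obtain ⟨κ₀, hκ₀, C, hC, m₀, Y₀, hgen⟩ := H0
  obtain ⟨Y₁, hY₁⟩ := eventually_atTop.1 hs3
  obtain ⟨Y₂, hY₂⟩ := eventually_atTop.1 (ev_logpow (T₂ * K₂ + 1 + a))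
  obtain ⟨B, hB⟩ : ∃ B : ℕ, ∀ g i, |h₁ g i| ≤ (B : ℤ) := by
    refine ⟨∑ x : Fin T₁ × Fin K₁, (h₁ x.1 x.2).natAbs, fun g i => ?_⟩
    have h1 := single_le_sum (f := fun x : Fin T₁ × Fin K₁ => (h₁ x.1 x.2).natAbs)
      (fun _ _ => Nat.zero_le _) (mem_univ (g, i))
    rw [Int.abs_eq_natAbs]
    exact_mod_cast h1
  refine ⟨κ₀ / 5120, by positivity, ?_⟩
  -- largeness
  have tN : Tendsto (fun N : ℕ => (N : ℝ)) atTop atTop := tendsto_natCast_atTop_atTop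
  have hlog : Tendsto (fun N : ℕ => Real.log (N : ℝ)) atTop atTop := Real.tendsto_log_atTop.comp tN
  obtain ⟨Z₀, hZ1, hZ2, hZ3, hZ4, hZ5, hZ6⟩ : ∃ Z₀ : ℕ, Y₀ ≤ Z₀ ∧ Y₁ ≤ Z₀ ∧ Y₂ ≤ Z₀ ∧ 16 * m₀ ≤ Z₀ ∧
      2000 * (W + 0 + C + 1) ≤ Z₀ ∧ 16 * (B + 2) ≤ Z₀ := by
    refine ⟨Y₀ + (Y₁ + (Y₂ + (16 * m₀ + (2000 * (W + 0 + C + 1) + 16 * (B + 2))))), Nat.le_add_right _ _,
      ?_, ?_, ?_, ?_, ?_⟩
    · exact (Nat.le_add_right _ _).trans (Nat.le_add_left _ _)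
    · exact ((Nat.le_add_right _ _).trans (Nat.le_add_left _ _)).trans (Nat.le_add_left _ _)
    · exact (((Nat.le_add_right _ _).trans (Nat.le_add_left _ _)).trans (Nat.le_add_left _ _)).trans
        (Nat.le_add_left _ _)
    · exact ((((Nat.le_add_right _ _).trans (Nat.le_add_left _ _)).trans (Nat.le_add_left _ _)).trans
        (Nat.le_add_left _ _)).trans (Nat.le_add_left _ _)
    · exact ((((Nat.le_add_left _ _).trans (Nat.le_add_left _ _)).trans (Nat.le_add_left _ _)).trans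
        (Nat.le_add_left _ _)).trans (Nat.le_add_left _ _)
  obtain ⟨X₀, hX₀⟩ := eventually_atTop.1
    ((hlog.eventually_ge_atTop (2 / κ₀ + 3)).and (eventually_ge_atTop (Z₀ ^ 2)))
  refine ⟨X₀, fun X hX => ?_⟩
  obtain ⟨hX1, hX3⟩ := hX₀ X hX
  set Y : ℕ := Nat.sqrt X with hY
  have hYZ : Z₀ ≤ Y := by
    rw [hY, Nat.le_sqrt']
    exact hX3
  have hYX2 : Y ^ 2 ≤ X := Nat.sqrt_le' X
  have hXY2 : X < (Y + 1) ^ 2 := Nat.lt_succ_sqrt' X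
  have hYbig : 2000 * (W + 0 + C + 1) ≤ Y := hZ5.trans hYZ
  have hY2000 : 2000 ≤ Y := (sq9 (W + 0 + C) W).trans hYbig
  have hYr : (2000 : ℝ) ≤ Y := by exact_mod_cast hY2000
  have hlogY : 0 < Real.log Y := Real.log_pos (by linarith)
  have hXX : X ≤ 4 * Y ^ 2 := sq1 hXY2 hY2000
  have hYleX : Y ≤ X := sq2 hYX2 hY2000
  have hX0 : (0 : ℝ) < X := by
    have : (Y : ℝ) ≤ X := by exact_mod_cast hYleX
    linarith
  have hYXr : (Y : ℝ) ≤ X := by exact_mod_cast hYleX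
  set L : ℝ := Real.log X with hL
  have h1κ : 0 ≤ 2 / κ₀ := by positivity
  have hL3 : 3 ≤ L := by linarith
  have hlogYX : Real.log Y ≤ L := Real.log_le_log (by linarith) hYXr
  -- the source
  obtain ⟨S₁, σ₁, τ₁, ⟨hS₁, hσ₁⟩, hcard⟩ := hY₁ Y (hZ2.trans hYZ)
  set R₀ : Finset ℕ := (Rp f δ₁ s S₁ σ₁ τ₁ Y).filter (fun n => n ≡ v [MOD W]) with hR₀
  have hRp : ∀ m ∈ R₀, m ∈ Icc 1 Y ∧ (Y : ℝ) / 16 ≤ m ∧
      (∀ p : ℕ, p.Prime → Real.log p ≤ δ₁ * Real.log Y → ¬ (p : ℤ) ∣ (m : ℤ) - s) ∧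
      (∀ g i, ∀ p : ℕ, p.Prime → Real.log p ≤ δ₁ * Real.log Y →
        ¬ (p : ℤ) ∣ (f g i).1 * m + (f g i).2) ∧
      (∀ g, P2 ((f g (τ₁ g)).1 * (m : ℤ) + (f g (τ₁ g)).2)) ∧
      ∀ g ∈ S₁, ((f g (σ₁ g)).1 * (m : ℤ) + (f g (σ₁ g)).2).toNat.Prime := by
    intro m hm
    have h1 := (mem_filter.1 hm).1
    unfold Rp at h1
    obtain ⟨e1, e2, e3, e4, e5, e6⟩ := mem_filter.1 h1
    exact ⟨e1, e2, e3, e4, e5, e6⟩
  have hR16 : ∀ m ∈ R₀, Y ≤ 16 * m := by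
    intro m hm
    have h1 := (hRp m hm).2.1
    have : (Y : ℝ) ≤ 16 * m := by linarith
    exact_mod_cast this
  obtain ⟨q, hq, hRq⟩ := windows R₀ Y (fun m hm => (mem_Icc.1 (hRp m hm).1).2) hR16
  set R : Finset ℕ := R₀.filter (fun m => q * m ≤ Y ∧ Y ≤ 2 * q * m) with hR
  have hRR : R ⊆ R₀ := filter_subset _ _
  have hRg : R ⊆ Rg V δ₁ Y := by
    intro m hm
    obtain ⟨e1, e2, e3, e4, -, e6⟩ := hRp m (hRR hm)
    unfold Rg
    refine mem_filter.2 ⟨e1, ?_⟩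
    intro x hx p hp hpl hd
    rw [hV] at hx
    unfold Fs at hx
    rcases mem_insert.1 hx with rfl | hx
    · apply e3 p hp hpl
      simp only [one_mul] at hd
      rwa [← sub_eq_add_neg] at hd
    · obtain ⟨z, -, rfl⟩ := mem_image.1 hx
      exact e4 z.1 z.2 p hp hpl hd
  have hRc : c₁ / (4 * W) * (Y / Real.log Y ^ V.card) ≤ R.card := by
    rw [hVc, ← ha]
    have h1 : (R₀.card : ℝ) ≤ 4 * R.card := by exact_mod_cast hRq
    have h2 : c₁ / (4 * W) * (Y / Real.log Y ^ a) = c₁ * (Y / (W * Real.log Y ^ a)) / 4 := by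
      field_simp
    rw [h2]
    have h3 : c₁ * (Y / (W * Real.log Y ^ a)) ≤ R₀.card := by
      rw [hR₀]
      exact hcard
    linarith
  have hmod : ∀ m ∈ R, m ≡ v [MOD W] := fun m hm => (mem_filter.1 (hRR hm)).2
  obtain ⟨hXa, hXb, hXc, hXd⟩ := riv_arith (W := W) (Hm := 0) (C := C) (Y := Y) (q := q) hq hW hYbig
  set X₂ : ℕ := XX W Y q with hX₂
  have hX₂Y : X₂ ≤ Y ^ 2 := by
    refine le_trans ?_ hXa
    exact Nat.le_mul_of_pos_left _ (by have := hq.1; positivity)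
  have hWX₂ : W ∣ X₂ := by
    rw [hX₂]
    exact dvd_mul_right _ _
  have hX₂1 : 1 < X₂ := sq3 hXc hY2000
  have hX₂0 : 0 < X₂ := zero_lt_one.trans hX₂1
  have hX₂r : (0 : ℝ) < X₂ := by exact_mod_cast hX₂0
  have hlX₂ : Real.log X₂ ≤ 2 * Real.log Y := by
    have h1 : (X₂ : ℝ) ≤ (Y : ℝ) ^ 2 := by exact_mod_cast hX₂Y
    have h2 := Real.log_le_log hX₂r h1
    rw [Real.log_pow] at h2
    exact_mod_cast h2
  have hlX₂0 : 0 ≤ Real.log X₂ := Real.log_nonneg (by exact_mod_cast hX₂0)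
  have hX₂X : (X₂ : ℝ) ≤ X := by exact_mod_cast hX₂Y.trans hYX2
  have hlX₂X : Real.log X₂ ≤ L := Real.log_le_log hX₂r hX₂X
  have hLMM : Real.log X₂ ^ (T₂ * K₂ + 1) ≤ Y / Real.log Y ^ V.card := by
    rw [hVc, le_div_iff₀ (by positivity)]
    calc Real.log X₂ ^ (T₂ * K₂ + 1) * Real.log Y ^ (T₁ * K₁ + 1)
        ≤ (2 * Real.log Y) ^ (T₂ * K₂ + 1) * (2 * Real.log Y) ^ (T₁ * K₁ + 1) := by
          gcongr
          linarith
      _ = (2 * Real.log Y) ^ (T₂ * K₂ + 1 + a) := by rw [← pow_add]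
      _ ≤ Y := hY₂ Y (hZ3.trans hYZ)
  have hmain := hgen Y (hZ1.trans hYZ) X₂ (by
    rw [hdeg, pow_one]
    exact hXb) hX₂Y hLMM R hRg (by
    intro m hm
    exact sq8 (hR16 m (hRR hm)) (hZ4.trans hYZ)) hRc X₂
    (Nat.le_mul_of_pos_left _ (by norm_num)) (Nat.mul_le_mul_right _ (by norm_num)) hWX₂ w (by
    intro m hm p hp g i hd
    have hpp := (mem_filter.1 hp).2
    apply (hvw p hpp).2 g i
    rw [hev] at hd
    have e1 : (W : ℤ) ∣ (m : ℤ) - v := (Int.natCast_modEq_iff.2 (hmod m hm)).symm.dvd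
    have e2 := dvd_add ((hpW p hp).trans e1) (hvp p hp)
    have h3 := dvd_sub (dvd_add hd e2) (hw p hp)
    have e4 : w + -((m : ℤ) + h₂ g i) + ((m : ℤ) - v + (v - v' p)) - (w - w' p) =
        w' p - (v' p + h₂ g i) := by ring
    rwa [e4] at h3)
  have hκX : κ₀ / 5120 * X ≤ κ₀ * X₂ := by
    have h1 : (X : ℝ) ≤ 5120 * X₂ := by
      have : X ≤ 5120 * X₂ := sq6 hXX hXc
      exact_mod_cast this
    calc κ₀ / 5120 * X ≤ κ₀ / 5120 * (5120 * X₂) := mul_le_mul_of_nonneg_left h1 (by positivity)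
      _ = κ₀ * X₂ := by ring
  refine hκX.trans (hmain.trans ?_)
  rw [Nat.cast_le]
  apply card_le_card
  intro N hN
  obtain ⟨hN1, hN2, hN2', hN3, S, σ, τ, hS, hcl⟩ := mem_filter.1 hN
  have hNX : N ≤ X := sq7 hYX2 (sq4 hXa hq.1) hN2'
  refine mem_filter.2 ⟨mem_Icc.2 ⟨(mem_Icc.1 hN1).1, hNX⟩,
    (sq6 hXX hXc).trans (Nat.mul_le_mul_left _ hN2), ?_⟩
  refine ⟨τ₁, τ, ?_⟩
  have hL0 : 0 < L := by linarith
  have h1 : Real.sqrt X / L ^ A ≤ κ₀ * (Y / Real.log Y ^ V.card / Real.log X₂ ^ (T₂ * K₂ + 1)) := by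
    rw [hVc, ← ha]
    have h2 : 2 ≤ κ₀ * L := by
      have h3 : 2 / κ₀ ≤ L := by linarith
      rw [div_le_iff₀ hκ₀] at h3
      linarith
    have h4 : Real.sqrt X ≤ 2 * Y := sq5 hXX
    have hlX₂p : 0 < Real.log X₂ := by
      apply Real.log_pos
      exact_mod_cast hX₂1
    calc Real.sqrt X / L ^ A ≤ (2 * Y) / L ^ A := by gcongr
      _ = 2 * (Y / L ^ A) := by ring
      _ ≤ (κ₀ * L) * (Y / L ^ A) := mul_le_mul_of_nonneg_right h2 (by positivity)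
      _ = κ₀ * (Y / L ^ a / L ^ (T₂ * K₂ + 1)) := by
          rw [hA, pow_add, pow_add, pow_one]
          field_simp
      _ ≤ κ₀ * (Y / Real.log Y ^ a / Real.log X₂ ^ (T₂ * K₂ + 1)) := by gcongr
  refine h1.trans (hcl.trans ?_)
  rw [Nat.cast_le]
  apply card_le_card
  intro m hm
  unfold Cl at hm
  obtain ⟨hmR, hp1, hp2, -⟩ := mem_filter.1 hm
  obtain ⟨e1, e2, e3, e4, e5, e6⟩ := hRp m (hRR hmR)
  obtain ⟨-, e7, e8⟩ := mem_filter.1 hmR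
  obtain ⟨e9, e10⟩ := hXd N m hN2 (hN2'.trans (le_of_eq (by ring))) e7 e8
  refine mem_filter.2 ⟨mem_Icc.2 ⟨(mem_Icc.1 e1).1, (mem_Icc.1 e1).2.trans hYleX⟩, ?_, ?_, e9, ?_, ?_, ?_⟩
  · have h5 := e6 g₁ hS₁
    rw [hσ₁] at h5
    simp only [hf, one_mul] at h5
    rw [hz₁, add_zero, Int.toNat_natCast] at h5
    exact h5
  · have h5 := hp1 g₂ hS.1
    rw [hS.2, hz₂, Nat.cast_zero, add_zero, hev, ← sub_eq_add_neg] at h5
    exact h5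
  · exact e10 0 le_rfl
  · intro g
    have h5 := e5 g
    simp only [hf, one_mul] at h5
    apply apV_P2 _ h5
    have h6 := hB g (τ₁ g)
    have h7 := neg_abs_le (h₁ g (τ₁ g))
    have h8 : B + 2 ≤ m := sq8 (hR16 m (hRR hmR)) (hZ6.trans hYZ)
    have h10 : (B : ℤ) + 2 ≤ m := by exact_mod_cast h8
    linarith
  · intro g
    have h5 := hp2 g
    rw [hev, ← sub_eq_add_neg] at h5
    exact h5

end Pool.Agent.Helper74.FB
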